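import Pool.Agent.Lib.MP_848d44_nt.Defs

set_option autoImplicit false

namespace Pool.Agent.M848

open Finset
open scoped ArithmeticFunction ComplexConjugate

noncomputable section

namespace DivAux

/-- The bound for a small prime. -/
theorem small_factor (δ : ℝ) (hδ : 0 < δ) (p a : ℕ) (hp : 2 ≤ p) :
    ((a : ℝ) + 1) ≤ (1 + 2 / (δ * Real.log 2)) * ((p : ℝ) ^ a) ^ δ := by
  have hl : 0 < Real.log 2 := Real.log_pos (by norm_num)
  have hp2 : (2 : ℝ) ≤ p := by exact_mod_cast hp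
  have h1 : 1 + (a : ℝ) * δ * Real.log 2 ≤ ((p : ℝ) ^ a) ^ δ := by
    have h2 : ((2 : ℝ) ^ a) ^ δ ≤ ((p : ℝ) ^ a) ^ δ :=
      Real.rpow_le_rpow (by positivity) (pow_le_pow_left₀ (by norm_num) hp2 a) hδ.le
    have h3 : ((2 : ℝ) ^ a) ^ δ = Real.exp ((a : ℝ) * δ * Real.log 2) := by
      rw [← Real.rpow_natCast, ← Real.rpow_mul (by norm_num),
        Real.rpow_def_of_pos (by norm_num)]
      congr 1
      ring
    rw [h3] at h2
    have h4 := Real.add_one_le_exp ((a : ℝ) * δ * Real.log 2)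
    linarith
  have hc : 0 < δ * Real.log 2 := mul_pos hδ hl
  have hK : 0 ≤ 1 + 2 / (δ * Real.log 2) := by positivity
  refine le_trans ?_ (mul_le_mul_of_nonneg_left h1 hK)
  have ha : (0 : ℝ) ≤ a := Nat.cast_nonneg a
  have e : (1 + 2 / (δ * Real.log 2)) * (1 + (a : ℝ) * δ * Real.log 2) =
      1 + 2 * a + 2 / (δ * Real.log 2) + a * (δ * Real.log 2) := by
    field_simp
    ring
  rw [e]
  have h5 : 0 ≤ 2 / (δ * Real.log 2) := by positivity
  have h6 : 0 ≤ a * (δ * Real.log 2) := by positivity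
  linarith

/-- The bound for a large prime. -/
theorem large_factor (δ : ℝ) (hδ : 0 < δ) (p a : ℕ) (hp : (2 : ℝ) ^ (1 / δ) ≤ p) :
    ((a : ℝ) + 1) ≤ ((p : ℝ) ^ a) ^ δ := by
  have h1 : (2 : ℝ) ≤ (p : ℝ) ^ δ := by
    have := Real.rpow_le_rpow (by positivity) hp hδ.le
    rwa [← Real.rpow_mul (by norm_num), one_div_mul_cancel hδ.ne', Real.rpow_one] at this
  have h2 : ((p : ℝ) ^ a) ^ δ = ((p : ℝ) ^ δ) ^ a := by
    rw [← Real.rpow_natCast, ← Real.rpow_mul (by positivity), ← Real.rpow_natCast,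
      ← Real.rpow_mul (by positivity), mul_comm]
  rw [h2]
  have h3 : (2 : ℝ) ^ a ≤ ((p : ℝ) ^ δ) ^ a := pow_le_pow_left₀ (by norm_num) h1 a
  have h4 : a + 1 ≤ 2 ^ a := Nat.lt_two_pow_self
  have h5 : (a : ℝ) + 1 ≤ 2 ^ a := by exact_mod_cast h4
  linarith

end DivAux

open DivAux in
/-- DIV. Divisor bound. -/
theorem divisor_bound (δ : ℝ) (hδ : 0 < δ) :
    ∃ C : ℝ, 1 ≤ C ∧ ∀ n : ℕ, 1 ≤ n → (n.divisors.card : ℝ) ≤ C * (n : ℝ) ^ δ := by
  have hl : 0 < Real.log 2 := Real.log_pos (by norm_num)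
  set K : ℝ := 1 + 2 / (δ * Real.log 2) with hK
  have hK1 : 1 ≤ K := by
    have : 0 ≤ 2 / (δ * Real.log 2) := by positivity
    linarith
  set P : ℕ := ⌈(2 : ℝ) ^ (1 / δ)⌉₊ with hP
  refine ⟨K ^ P, one_le_pow₀ hK1, fun n hn => ?_⟩
  have hn0 : n ≠ 0 := by omega
  have e1 : (n.divisors.card : ℝ) = ∏ p ∈ n.primeFactors, ((n.factorization p : ℝ) + 1) := by
    rw [Nat.card_divisors hn0]
    push_cast
    rfl
  have e2 : (n : ℝ) ^ δ = ∏ p ∈ n.primeFactors, (((p : ℝ) ^ (n.factorization p)) ^ δ) := by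
    rw [Real.finsetProd_rpow _ _ (fun i _ => by positivity)]
    congr 1
    have := Nat.prod_factorization_pow_eq_self hn0
    conv_lhs => rw [← this]
    rw [Finsupp.prod, Nat.support_factorization]
    push_cast
    rfl
  rw [e1, e2]
  have h1 : ∏ p ∈ n.primeFactors, ((n.factorization p : ℝ) + 1) ≤
      ∏ p ∈ n.primeFactors, ((if p < P then K else 1) * ((p : ℝ) ^ (n.factorization p)) ^ δ) := by
    refine prod_le_prod (fun p _ => by positivity) fun p hp => ?_
    have hp2 := (Nat.prime_of_mem_primeFactors hp).two_le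
    split_ifs with h
    · exact small_factor δ hδ p _ hp2
    · rw [one_mul]
      refine large_factor δ hδ p _ ?_
      have h3 : ((P : ℕ) : ℝ) ≤ p := by exact_mod_cast (not_lt.mp h)
      exact (Nat.le_ceil _).trans h3
  refine h1.trans ?_
  rw [prod_mul_distrib]
  refine mul_le_mul_of_nonneg_right ?_ (prod_nonneg fun _ _ => by positivity)
  have h2 : ∏ p ∈ n.primeFactors, (if p < P then K else 1) =
      K ^ ((n.primeFactors.filter (fun p => p < P)).card) := by
    rw [prod_ite, prod_const, prod_const_one, mul_one]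
  rw [h2]
  refine pow_le_pow_right₀ hK1 ?_
  have h3 : (n.primeFactors.filter (fun p => p < P)) ⊆ range P := by
    intro p hp
    exact mem_range.mpr (mem_filter.mp hp).2
  simpa using card_le_card h3

end

end Pool.Agent.M848
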