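import Pool.Agent.Lib.MP_848d44_nt.Defs

/-!
# MP_848d44_nt, module LSP: the large sieve of Gallagher for separated points
-/

set_option autoImplicit false

namespace Pool.Agent.M848

open Finset
open scoped ArithmeticFunction ComplexConjugate

noncomputable section

namespace LSPAux

open MeasureTheory intervalIntegral

/-- the exponential function -/
theorem hasDerivAt_e (n : ℕ) (t : ℝ) :
    HasDerivAt (fun t : ℝ => Complex.exp (2 * Real.pi * Complex.I * (n * (t : ℝ))))
      (Complex.exp (2 * Real.pi * Complex.I * (n * (t : ℝ))) * (2 * Real.pi * Complex.I * n)) t := by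
  have h1 : HasDerivAt (fun z : ℂ => 2 * Real.pi * Complex.I * (n * z))
      (2 * Real.pi * Complex.I * (n * 1)) (t : ℂ) :=
    ((hasDerivAt_id (t : ℂ)).const_mul (n : ℂ)).const_mul _
  have h2 := h1.cexp.comp_ofReal
  rw [mul_one] at h2
  exact h2

theorem continuous_e (n : ℕ) :
    Continuous (fun t : ℝ => Complex.exp (2 * Real.pi * Complex.I * (n * (t : ℝ)))) := by
  fun_prop

/-- orthogonality -/
theorem integral_e (k : ℤ) (hk : k ≠ 0) :
    ∫ t in (0 : ℝ)..1, Complex.exp (2 * Real.pi * Complex.I * k * (t : ℝ)) = 0 := by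
  have hc : (2 * Real.pi * Complex.I * k : ℂ) ≠ 0 := by
    have hk' : (k : ℂ) ≠ 0 := Int.cast_ne_zero.mpr hk
    have hpi : (Real.pi : ℂ) ≠ 0 := Complex.ofReal_ne_zero.mpr Real.pi_ne_zero
    exact mul_ne_zero (mul_ne_zero (mul_ne_zero two_ne_zero hpi) Complex.I_ne_zero) hk'
  rw [integral_exp_mul_complex hc]
  have h1 : Complex.exp (2 * Real.pi * Complex.I * k * ((1 : ℝ) : ℂ)) = 1 := by
    have := Complex.exp_int_mul_two_pi_mul_I k
    rw [← this]
    congr 1
    push_cast
    ring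
  rw [h1]
  simp

theorem conj_e (n : ℕ) (t : ℝ) :
    conj (Complex.exp (2 * Real.pi * Complex.I * (n * (t : ℝ)))) =
      Complex.exp (-(2 * Real.pi * Complex.I * (n * (t : ℝ)))) := by
  rw [← Complex.exp_conj]
  congr 1
  have h2 : conj (2 : ℂ) = 2 := Complex.conj_ofNat 2
  simp [h2]

theorem parseval (T : ℕ) (a : ℕ → ℂ) :
    ∫ t in (0 : ℝ)..1, ‖∑ n ∈ Icc 1 T, a n *
      Complex.exp (2 * Real.pi * Complex.I * (n * (t : ℝ)))‖ ^ 2 = ∑ n ∈ Icc 1 T, ‖a n‖ ^ 2 := by
  have h1 : ((∫ t in (0 : ℝ)..1, ‖∑ n ∈ Icc 1 T, a n *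
      Complex.exp (2 * Real.pi * Complex.I * (n * (t : ℝ)))‖ ^ 2 : ℝ) : ℂ) =
      ((∑ n ∈ Icc 1 T, ‖a n‖ ^ 2 : ℝ) : ℂ) := by
    rw [← intervalIntegral.integral_ofReal]
    have h2 : ∀ t : ℝ, (((‖∑ n ∈ Icc 1 T, a n *
        Complex.exp (2 * Real.pi * Complex.I * (n * (t : ℝ)))‖ ^ 2 : ℝ)) : ℂ) =
        ∑ n ∈ Icc 1 T, ∑ m ∈ Icc 1 T, (a n * conj (a m)) *
          Complex.exp (2 * Real.pi * Complex.I * ((n : ℤ) - (m : ℤ) : ℤ) * (t : ℝ)) := by
      intro t
      rw [Complex.ofReal_pow, ← Complex.mul_conj', map_sum, sum_mul_sum]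
      refine sum_congr rfl fun n _ => sum_congr rfl fun m _ => ?_
      rw [map_mul, conj_e]
      have h3 : Complex.exp (2 * Real.pi * Complex.I * ((n : ℤ) - (m : ℤ) : ℤ) * (t : ℝ)) =
          Complex.exp (2 * Real.pi * Complex.I * (n * (t : ℝ))) *
            Complex.exp (-(2 * Real.pi * Complex.I * (m * (t : ℝ)))) := by
        rw [← Complex.exp_add]
        congr 1
        push_cast
        ring
      rw [h3]
      ring
    simp_rw [h2]
    rw [intervalIntegral.integral_finsetSum]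
    · rw [Complex.ofReal_sum]
      refine sum_congr rfl fun n hn => ?_
      rw [intervalIntegral.integral_finsetSum]
      · rw [sum_eq_single_of_mem n hn]
        · rw [intervalIntegral.integral_const_mul]
          simp [Complex.mul_conj']
        · intro m _ hm
          rw [intervalIntegral.integral_const_mul]
          have h4 := integral_e ((n : ℤ) - (m : ℤ)) (by
            intro h5
            apply hm
            omega)
          rw [h4, mul_zero]
      · intro m _
        apply Continuous.intervalIntegrable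
        fun_prop
    · intro n _
      apply Continuous.intervalIntegrable
      fun_prop
  exact_mod_cast h1

/-- a function whose derivative is bounded by `g` -/
theorem sub_le (h h' g : ℝ → ℝ) (hd : ∀ t, HasDerivAt h (h' t) t) (hc : Continuous h')
    (hg : Continuous g) (hb : ∀ t, |h' t| ≤ g t) (a b p t : ℝ) (hp : p ∈ Set.Icc a b)
    (ht : t ∈ Set.Icc a b) : h p ≤ h t + ∫ u in a..b, g u := by
  have hg0 : ∀ u, 0 ≤ g u := fun u => (abs_nonneg _).trans (hb u)
  rcases le_total t p with h1 | h1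
  · have h2 : ∫ u in t..p, h' u = h p - h t :=
      intervalIntegral.integral_eq_sub_of_hasDerivAt (fun x _ => hd x) (hc.intervalIntegrable _ _)
    have h3 : ∫ u in t..p, h' u ≤ ∫ u in t..p, g u :=
      intervalIntegral.integral_mono_on h1 (hc.intervalIntegrable _ _) (hg.intervalIntegrable _ _)
        (fun x _ => (le_abs_self _).trans (hb x))
    have h4 : ∫ u in t..p, g u ≤ ∫ u in a..b, g u :=
      intervalIntegral.integral_mono_interval ht.1 h1 hp.2
        (Filter.Eventually.of_forall hg0) (hg.intervalIntegrable _ _)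
    linarith
  · have h2 : ∫ u in p..t, h' u = h t - h p :=
      intervalIntegral.integral_eq_sub_of_hasDerivAt (fun x _ => hd x) (hc.intervalIntegrable _ _)
    have h3 : ∫ u in p..t, (-h' u) ≤ ∫ u in p..t, g u :=
      intervalIntegral.integral_mono_on h1 (hc.neg.intervalIntegrable _ _)
        (hg.intervalIntegrable _ _) (fun x _ => (neg_le_abs _).trans (hb x))
    rw [intervalIntegral.integral_neg] at h3
    have h4 : ∫ u in p..t, g u ≤ ∫ u in a..b, g u :=
      intervalIntegral.integral_mono_interval hp.1 h1 ht.2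
        (Filter.Eventually.of_forall hg0) (hg.intervalIntegrable _ _)
    linarith

theorem half (h h' g : ℝ → ℝ) (hd : ∀ t, HasDerivAt h (h' t) t) (hc : Continuous h')
    (hg : Continuous g) (hb : ∀ t, |h' t| ≤ g t) (a b p : ℝ) (hp : p ∈ Set.Icc a b) :
    (b - a) * h p ≤ (∫ u in a..b, h u) + (b - a) * ∫ u in a..b, g u := by
  have hhc : Continuous h := continuous_iff_continuousAt.mpr fun t => (hd t).continuousAt
  have hab : a ≤ b := hp.1.trans hp.2
  have h1 : ∫ t in a..b, h p ≤ ∫ t in a..b, (h t + ∫ u in a..b, g u) :=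
    intervalIntegral.integral_mono_on hab (continuous_const.intervalIntegrable _ _)
      ((hhc.add continuous_const).intervalIntegrable _ _)
      (fun t ht => sub_le h h' g hd hc hg hb a b p t hp ht)
  rw [intervalIntegral.integral_add (hhc.intervalIntegrable _ _)
    (continuous_const.intervalIntegrable _ _), intervalIntegral.integral_const,
    intervalIntegral.integral_const, smul_eq_mul, smul_eq_mul] at h1
  exact h1

theorem int_add (h g : ℝ → ℝ) (hh : Continuous h) (hg : Continuous g) (a b s : ℝ) :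
    ∫ u in a..b, (h u + s * g u) = (∫ u in a..b, h u) + s * ∫ u in a..b, g u := by
  have h1 : IntervalIntegrable (fun u => s * g u) volume a b :=
    (continuous_const.mul hg).intervalIntegrable _ _
  rw [intervalIntegral.integral_add (hh.intervalIntegrable _ _) h1,
    intervalIntegral.integral_const_mul]

theorem point (h h' g : ℝ → ℝ) (hd : ∀ t, HasDerivAt h (h' t) t) (hc : Continuous h')
    (hg : Continuous g) (hb : ∀ t, |h' t| ≤ g t) (α δ : ℝ) (hδ : 0 < δ) :
    δ * h α ≤ ∫ u in (α - δ / 2)..(α + δ / 2), (h u + δ / 2 * g u) := by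
  have hhc : Continuous h := continuous_iff_continuousAt.mpr fun t => (hd t).continuousAt
  have h1 := half h h' g hd hc hg hb (α - δ / 2) α α ⟨by linarith, le_refl _⟩
  have h2 := half h h' g hd hc hg hb α (α + δ / 2) α ⟨le_refl _, by linarith⟩
  have h3 : ∫ u in (α - δ / 2)..(α + δ / 2), (h u + δ / 2 * g u) =
      (∫ u in (α - δ / 2)..(α + δ / 2), h u) +
        δ / 2 * ∫ u in (α - δ / 2)..(α + δ / 2), g u := int_add h g hhc hg _ _ _
  rw [h3, ← intervalIntegral.integral_add_adjacent_intervals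
    (hhc.intervalIntegrable (α - δ / 2) α) (hhc.intervalIntegrable α (α + δ / 2)),
    ← intervalIntegral.integral_add_adjacent_intervals
    (hg.intervalIntegrable (α - δ / 2) α) (hg.intervalIntegrable α (α + δ / 2))]
  have e1 : α - (α - δ / 2) = δ / 2 := by ring
  have e2 : α + δ / 2 - α = δ / 2 := by ring
  rw [e1] at h1
  rw [e2] at h2
  linarith

theorem sum_le (F : ℝ → ℝ) (hF : Continuous F) (h0 : ∀ t, 0 ≤ F t) (δ : ℝ) (hδ : 0 < δ)
    (P : Finset ℝ) (h01 : ∀ α ∈ P, δ / 2 ≤ α ∧ α ≤ 1 - δ / 2)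
    (hsep : ∀ α ∈ P, ∀ β ∈ P, α ≠ β → δ ≤ |α - β|) :
    ∑ α ∈ P, ∫ u in (α - δ / 2)..(α + δ / 2), F u ≤ ∫ u in (0 : ℝ)..1, F u := by
  have h1 : ∀ α ∈ P, ∫ u in (α - δ / 2)..(α + δ / 2), F u =
      ∫ u in Set.Ioc (α - δ / 2) (α + δ / 2), F u := by
    intro α _
    rw [intervalIntegral.integral_of_le (by linarith)]
  rw [sum_congr rfl h1, intervalIntegral.integral_of_le zero_le_one,
    ← MeasureTheory.integral_biUnion_finset P (fun α _ => measurableSet_Ioc)]
  · apply MeasureTheory.setIntegral_mono_set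
    · exact (hF.integrableOn_Icc (a := 0) (b := 1)).mono_set Set.Ioc_subset_Icc_self
    · exact Filter.Eventually.of_forall h0
    · apply Filter.Eventually.of_forall
      intro t ht
      obtain ⟨α, hα, ht⟩ := Set.mem_iUnion₂.mp ht
      obtain ⟨h2, h3⟩ := h01 α hα
      exact ⟨by linarith [ht.1], by linarith [ht.2]⟩
  · intro α hα β hβ hne
    have h2 := hsep α hα β hβ hne
    rw [Function.onFun, Set.disjoint_left]
    intro t ht ht'
    rcases le_abs.mp h2 with h3 | h3
    · linarith [ht.1, ht.2, ht'.1, ht'.2]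
    · linarith [ht.1, ht.2, ht'.1, ht'.2]
  · intro α _
    exact (hF.integrableOn_Icc (a := α - δ / 2) (b := α + δ / 2)).mono_set Set.Ioc_subset_Icc_self

end LSPAux

open LSPAux in
/-- LSP. Gallagher's large sieve for separated points of `[δ/2, 1 - δ/2]`. -/
theorem ls_points (T : ℕ) (c : ℕ → ℂ) (δ : ℝ) (hδ : 0 < δ) (P : Finset ℝ)
    (h01 : ∀ α ∈ P, δ / 2 ≤ α ∧ α ≤ 1 - δ / 2)
    (hsep : ∀ α ∈ P, ∀ β ∈ P, α ≠ β → δ ≤ |α - β|) :
    ∑ α ∈ P, ‖∑ n ∈ Icc 1 T, c n * Complex.exp (2 * Real.pi * Complex.I * (n * (α : ℝ)))‖ ^ 2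
      ≤ (1 / δ + 2 * Real.pi * T) * ∑ n ∈ Icc 1 T, ‖c n‖ ^ 2 := by
  rcases Nat.eq_zero_or_pos T with hT | hT
  · subst hT
    simp
  have hTr : (1 : ℝ) ≤ T := by exact_mod_cast hT
  have hpi := Real.pi_pos
  set lam : ℝ := 2 * Real.pi * T with hlam
  have hlam0 : 0 < lam := by positivity
  set Z : ℝ := ∑ n ∈ Icc 1 T, ‖c n‖ ^ 2 with hZ
  let S : ℝ → ℂ := fun t => ∑ n ∈ Icc 1 T, c n *
    Complex.exp (2 * Real.pi * Complex.I * (n * (t : ℝ)))
  let S' : ℝ → ℂ := fun t => ∑ n ∈ Icc 1 T, (c n * (2 * Real.pi * Complex.I * n)) *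
    Complex.exp (2 * Real.pi * Complex.I * (n * (t : ℝ)))
  have hS : ∀ t, HasDerivAt S (S' t) t := by
    intro t
    have h1 : HasDerivAt S (∑ n ∈ Icc 1 T, c n *
        (Complex.exp (2 * Real.pi * Complex.I * (n * (t : ℝ))) * (2 * Real.pi * Complex.I * n)))
        t := HasDerivAt.fun_sum fun n _ => (hasDerivAt_e n t).const_mul (c n)
    convert h1 using 1
    refine sum_congr rfl fun n _ => ?_
    ring
  have hSc : Continuous S := continuous_iff_continuousAt.mpr fun t => (hS t).continuousAt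
  have hS'c : Continuous S' := by
    apply continuous_finsetSum
    intro n _
    exact continuous_const.mul (continuous_e n)
  let h : ℝ → ℝ := fun t => ‖S t‖ ^ 2
  let h' : ℝ → ℝ := fun t => 2 * inner ℝ (S t) (S' t)
  let g : ℝ → ℝ := fun t => lam * ‖S t‖ ^ 2 + ‖S' t‖ ^ 2 / lam
  have hd : ∀ t, HasDerivAt h (h' t) t := fun t => (hS t).norm_sq
  have hc : Continuous h' := continuous_const.mul (hSc.inner hS'c)
  have hg : Continuous g := by
    exact (continuous_const.mul (hSc.norm.pow 2)).add ((hS'c.norm.pow 2).div_const _)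
  have hb : ∀ t, |h' t| ≤ g t := by
    intro t
    have h1 : |h' t| ≤ 2 * (‖S t‖ * ‖S' t‖) := by
      simp only [h', abs_mul, abs_two]
      exact mul_le_mul_of_nonneg_left (abs_real_inner_le_norm _ _) (by norm_num)
    refine h1.trans ?_
    simp only [g]
    rw [← sub_nonneg]
    have h2 : lam * ‖S t‖ ^ 2 + ‖S' t‖ ^ 2 / lam - 2 * (‖S t‖ * ‖S' t‖) =
        (lam * ‖S t‖ - ‖S' t‖) ^ 2 / lam := by
      field_simp
      ring
    rw [h2]
    positivity
  have hg0 : ∀ t, 0 ≤ g t := fun t => (abs_nonneg _).trans (hb t)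
  have hh0 : ∀ t, 0 ≤ h t := fun t => by positivity
  have hhc : Continuous h := hSc.norm.pow 2
  have h1 : ∑ α ∈ P, δ * h α ≤ ∫ u in (0 : ℝ)..1, (h u + δ / 2 * g u) :=
    (sum_le_sum fun α _ => point h h' g hd hc hg hb α δ hδ).trans
      (sum_le _ (hhc.add (continuous_const.mul hg))
        (fun t => add_nonneg (hh0 t) (mul_nonneg (by positivity) (hg0 t))) δ hδ P h01 hsep)
  have h2 : ∫ u in (0 : ℝ)..1, h u = Z := parseval T c
  have h3 : ∫ u in (0 : ℝ)..1, ‖S' u‖ ^ 2 ≤ lam ^ 2 * Z := by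
    have h4 : ∫ u in (0 : ℝ)..1, ‖S' u‖ ^ 2 =
        ∑ n ∈ Icc 1 T, ‖c n * (2 * Real.pi * Complex.I * n)‖ ^ 2 := parseval T _
    rw [h4, hZ, mul_sum]
    refine sum_le_sum fun n hn => ?_
    have h5 : ‖c n * (2 * Real.pi * Complex.I * n)‖ = ‖c n‖ * (2 * Real.pi * n) := by
      rw [norm_mul, norm_mul, norm_mul, norm_mul, Complex.norm_I, Complex.norm_real,
        Real.norm_of_nonneg hpi.le, Complex.norm_natCast]
      norm_num
    rw [h5, mul_pow, mul_comm]
    have h6 : (n : ℝ) ≤ T := by exact_mod_cast (mem_Icc.mp hn).2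
    have h7 : 2 * Real.pi * (n : ℝ) ≤ lam := by
      rw [hlam]
      exact mul_le_mul_of_nonneg_left h6 (by positivity)
    exact mul_le_mul_of_nonneg_right (pow_le_pow_left₀ (by positivity) h7 2) (by positivity)
  have h4 : ∫ u in (0 : ℝ)..1, g u = lam * Z + (∫ u in (0 : ℝ)..1, ‖S' u‖ ^ 2) / lam := by
    have e1 : ∫ u in (0 : ℝ)..1, g u = (∫ u in (0 : ℝ)..1, lam * h u) +
        ∫ u in (0 : ℝ)..1, ‖S' u‖ ^ 2 / lam := by
      apply intervalIntegral.integral_add
      · exact (continuous_const.mul hhc).intervalIntegrable _ _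
      · exact ((hS'c.norm.pow 2).div_const _).intervalIntegrable _ _
    rw [e1, intervalIntegral.integral_const_mul, h2, intervalIntegral.integral_div]
  have h5 : ∫ u in (0 : ℝ)..1, g u ≤ 2 * lam * Z := by
    rw [h4]
    have : (∫ u in (0 : ℝ)..1, ‖S' u‖ ^ 2) / lam ≤ lam * Z := by
      rw [div_le_iff₀ hlam0]
      calc _ ≤ lam ^ 2 * Z := h3
        _ = lam * Z * lam := by ring
    linarith
  have h6 : ∫ u in (0 : ℝ)..1, (h u + δ / 2 * g u) = Z + δ / 2 * ∫ u in (0 : ℝ)..1, g u := by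
    rw [int_add h g hhc hg, h2]
  rw [h6, ← mul_sum] at h1
  have h7 : δ * ∑ α ∈ P, h α ≤ (1 + δ * lam) * Z := by
    have h8 : δ / 2 * ∫ u in (0 : ℝ)..1, g u ≤ δ / 2 * (2 * lam * Z) :=
      mul_le_mul_of_nonneg_left h5 (by positivity)
    linarith
  have h9 : ∑ α ∈ P, h α ≤ (1 / δ + lam) * Z := by
    have h10 : (1 / δ + lam) * Z = ((1 + δ * lam) * Z) / δ := by
      field_simp
    rw [h10, le_div_iff₀ hδ, mul_comm]
    exact h7
  exact h9

end

end Pool.Agent.M848
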