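import Mathlib

/-!
# Definitions for MP_848d44_nt (lower bound for the variance of the primes in the classes
modulo q, for every modulus q >= x^(2/3 + eps))
-/

set_option autoImplicit false

namespace Pool.Agent.M848

open Finset
open scoped ArithmeticFunction ComplexConjugate

noncomputable section

/-- The primes `s` with `R < s ≤ 2R`. -/
def PR (R : ℕ) : Finset ℕ := (Ioc R (2 * R)).filter Nat.Prime

open Classical in
/-- The nonprincipal Dirichlet characters modulo `s`, as functions on `ℕ`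
(empty for `s = 0`). -/
def nc (s : ℕ) : Finset (ℕ → ℂ) :=
  if h : s = 0 then ∅ else
    haveI : NeZero s := ⟨h⟩
    ((univ : Finset (DirichletCharacter ℂ s)).erase 1).image
      (fun χ (n : ℕ) => χ (n : ZMod s))

open Classical in
/-- All Dirichlet characters modulo `d`, as functions on `ℕ` (empty for `d = 0`). -/
def ac (d : ℕ) : Finset (ℕ → ℂ) :=
  if h : d = 0 then ∅ else
    haveI : NeZero d := ⟨h⟩
    (univ : Finset (DirichletCharacter ℂ d)).image (fun χ (n : ℕ) => χ (n : ZMod d))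

/-- `∑_{n ≤ y} Λ(n) g(n)`. -/
def SL (g : ℕ → ℂ) (y : ℕ) : ℂ := ∑ n ∈ Icc 1 y, ((Λ n : ℝ) : ℂ) * g n

/-- The tent function on `[0, N]` (height `1/2`, slopes `±1/N`). -/
def tent (N : ℕ) (m : ℤ) : ℝ := max 0 (min (m : ℝ) ((N : ℝ) - m)) / N

/-- `λ(m) = ∑_{d ∣ m, d ≤ T} b(d)`. -/
def lam (b : ℕ → ℝ) (T : ℕ) (m : ℤ) : ℝ :=
  ∑ d ∈ (Icc 1 T).filter (fun d : ℕ => (d : ℤ) ∣ m), b d

/-- The test function attached to one prime `s`. -/
def fs (b : ℕ → ℝ) (T N s : ℕ) (m : ℤ) : ℝ :=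
  tent N m * ((if (s : ℤ) ∣ m then (1 : ℝ) else 0) - 1 / s) * lam b T m

/-- The test function. -/
def FF (b : ℕ → ℝ) (T N : ℕ) (S : Finset ℕ) (m : ℤ) : ℝ := ∑ s ∈ S, fs b T N s m

/-- The sum of the test function over a residue class modulo `q`. -/
def GG (b : ℕ → ℝ) (T N q : ℕ) (S : Finset ℕ) (a : ℕ) : ℝ :=
  ∑ m ∈ (Icc 1 N).filter (fun m => m % q = a), FF b T N S (m : ℤ)

/-- `∑_{s ∈ S} 1/s`. -/
def AA (S : Finset ℕ) : ℝ := ∑ s ∈ S, (1 : ℝ) / s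

/-- `∑_{d ≤ T} |b(d)|`. -/
def BB (b : ℕ → ℝ) (T : ℕ) : ℝ := ∑ d ∈ Icc 1 T, |b d|

/-- `∑_{d, e ≤ T} b(d) b(e) / [d, e]`. -/
def QQ (b : ℕ → ℝ) (T : ℕ) : ℝ :=
  ∑ d ∈ Icc 1 T, ∑ e ∈ Icc 1 T, b d * b e / (Nat.lcm d e : ℝ)

/-- The coefficient `c(k) = ∑_{ab = k, a ≤ U, b ≤ U} Λ(a) μ(b)` of Vaughan's identity. -/
def vc (U k : ℕ) : ℝ :=
  ∑ p ∈ k.divisorsAntidiagonal.filter (fun p => p.1 ≤ U ∧ p.2 ≤ U),
    (Λ p.1 : ℝ) * (ArithmeticFunction.moebius p.2 : ℝ)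

/-- The coefficient `b(k) = ∑_{d ∣ k, d ≤ U} μ(d)` of Vaughan's identity. -/
def vb (U k : ℕ) : ℝ :=
  ∑ d ∈ k.divisors.filter (fun d => d ≤ U), (ArithmeticFunction.moebius d : ℝ)

/-- The bilinear sum over the box `[M, 2M) × [K, 2K)` with `m k ≤ y`. -/
def TT (a b : ℕ → ℂ) (χ : ℕ → ℂ) (M K y : ℕ) : ℂ :=
  ∑ m ∈ Ico M (2 * M), ∑ k ∈ (Ico K (2 * K)).filter (fun k => m * k ≤ y),
    a m * b k * (χ m * χ k)

end

end Pool.Agent.M848
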