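import Mathlib
import Pool.Agent.Lib.MP_848d44_nt.Defs

/-!
# MP_848d44_nt, module NCP: prime powers not coprime to `q`
-/

set_option autoImplicit false

namespace Pool.Agent.M848

open Finset
open scoped ArithmeticFunction ComplexConjugate

noncomputable section

theorem prime_pow_sum (N s : ℕ) (hs : s.Prime) :
    ∑ n ∈ (Icc 1 N).filter (fun n => s ∣ n), Λ n ≤ Real.log N := by
  classical
  rcases Nat.eq_zero_or_pos N with rfl | hN
  · simp
  have h1 : ∑ n ∈ (Icc 1 N).filter (fun n => s ∣ n), Λ n =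
      ∑ n ∈ ((Icc 1 N).filter (fun n => s ∣ n)).filter (fun n => Λ n ≠ 0), Λ n :=
    (Finset.sum_filter_ne_zero _).symm
  have h2 : ((Icc 1 N).filter (fun n => s ∣ n)).filter (fun n => Λ n ≠ 0) ⊆
      (Icc 1 (Nat.log s N)).image (fun k => s ^ k) := by
    intro n hn
    simp only [Finset.mem_filter, Finset.mem_Icc] at hn
    obtain ⟨⟨⟨h1n, hnN⟩, hsn⟩, hL⟩ := hn
    obtain ⟨p, k, hp, hk, rfl⟩ := ArithmeticFunction.vonMangoldt_ne_zero_iff.1 hL
    have hp' : p.Prime := hp.nat_prime
    have hsp : s = p := (Nat.prime_dvd_prime_iff_eq hs hp').1 (hs.dvd_of_dvd_pow hsn)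
    subst hsp
    refine Finset.mem_image.2 ⟨k, Finset.mem_Icc.2 ⟨hk, ?_⟩, rfl⟩
    exact Nat.le_log_of_pow_le hs.one_lt hnN
  rw [h1]
  have hinj : Set.InjOn (fun k => s ^ k) ((Icc 1 (Nat.log s N) : Finset ℕ) : Set ℕ) :=
    fun a _ b _ hab => Nat.pow_right_injective hs.two_le hab
  calc ∑ n ∈ ((Icc 1 N).filter (fun n => s ∣ n)).filter (fun n => Λ n ≠ 0), Λ n
      ≤ ∑ n ∈ (Icc 1 (Nat.log s N)).image (fun k => s ^ k), Λ n :=
        Finset.sum_le_sum_of_subset_of_nonneg h2
          fun _ _ _ => ArithmeticFunction.vonMangoldt_nonneg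
    _ = ∑ k ∈ Icc 1 (Nat.log s N), Λ (s ^ k) := Finset.sum_image hinj
    _ = ∑ k ∈ Icc 1 (Nat.log s N), Real.log s := by
        refine Finset.sum_congr rfl fun k hk => ?_
        rw [ArithmeticFunction.vonMangoldt_apply_pow (by have := (Finset.mem_Icc.1 hk).1; omega),
          ArithmeticFunction.vonMangoldt_apply_prime hs]
    _ = (Nat.log s N : ℝ) * Real.log s := by
        rw [Finset.sum_const, Nat.card_Icc, nsmul_eq_mul, Nat.add_sub_cancel]
    _ = Real.log ((s : ℝ) ^ Nat.log s N) := (Real.log_pow _ _).symm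
    _ ≤ Real.log N := by
        refine Real.log_le_log (pow_pos (by exact_mod_cast hs.pos) _) ?_
        exact_mod_cast Nat.pow_log_le_self s hN.ne'

/-- NCP. Prime powers not coprime to `q`. -/
theorem noncoprime_sum (N q : ℕ) (hq : 1 ≤ q) :
    ∑ n ∈ (Icc 1 N).filter (fun n => ¬ n.Coprime q), Λ n ≤ Nat.log 2 q * Real.log N := by
  classical
  have hlog : 0 ≤ Real.log N := Real.log_natCast_nonneg N
  have hcard : q.primeFactors.card ≤ Nat.log 2 q := by
    refine Nat.le_log_of_pow_le (by norm_num) ?_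
    calc 2 ^ q.primeFactors.card ≤ ∏ p ∈ q.primeFactors, p :=
          Finset.pow_card_le_prod _ _ _ fun p hp => (Nat.prime_of_mem_primeFactors hp).two_le
      _ ≤ q := Nat.le_of_dvd hq (Nat.prod_primeFactors_dvd q)
  calc ∑ n ∈ (Icc 1 N).filter (fun n => ¬ n.Coprime q), Λ n
      ≤ ∑ n ∈ (Icc 1 N).filter (fun n => ¬ n.Coprime q),
          ∑ p ∈ q.primeFactors, if p ∣ n then Λ n else 0 := by
        refine Finset.sum_le_sum fun n hn => ?_
        obtain ⟨p, hp, hpn, hpq⟩ := Nat.Prime.not_coprime_iff_dvd.1 (Finset.mem_filter.1 hn).2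
        have hpm : p ∈ q.primeFactors := Nat.mem_primeFactors.2 ⟨hp, hpq, by omega⟩
        have h1 : Λ n = if p ∣ n then Λ n else 0 := by rw [if_pos hpn]
        refine h1.le.trans (Finset.single_le_sum (f := fun p => if p ∣ n then Λ n else 0)
          (fun p _ => ?_) hpm)
        split_ifs
        · exact ArithmeticFunction.vonMangoldt_nonneg
        · exact le_refl _
    _ = ∑ p ∈ q.primeFactors, ∑ n ∈ (Icc 1 N).filter (fun n => ¬ n.Coprime q),
          if p ∣ n then Λ n else 0 := Finset.sum_comm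
    _ ≤ ∑ p ∈ q.primeFactors, Real.log N := by
        refine Finset.sum_le_sum fun p hp => ?_
        refine le_trans ?_ (prime_pow_sum N p (Nat.prime_of_mem_primeFactors hp))
        rw [Finset.sum_filter (fun n => p ∣ n)]
        refine Finset.sum_le_sum_of_subset_of_nonneg (Finset.filter_subset _ _) fun n _ _ => ?_
        split_ifs
        · exact ArithmeticFunction.vonMangoldt_nonneg
        · exact le_refl _
    _ = q.primeFactors.card * Real.log N := by rw [Finset.sum_const, nsmul_eq_mul]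
    _ ≤ Nat.log 2 q * Real.log N :=
        mul_le_mul_of_nonneg_right (by exact_mod_cast hcard) hlog

theorem totient_lower (q : ℕ) : (q : ℝ) ≤ q.divisors.card * q.totient := by
  rcases Nat.eq_zero_or_pos q with rfl | hq
  · simp
  have h1 : 2 ^ q.primeFactors.card ≤ q.divisors.card := by
    rw [Nat.card_divisors hq.ne']
    refine Finset.pow_card_le_prod _ _ _ fun p hp => ?_
    have := (Nat.prime_of_mem_primeFactors hp).factorization_pos_of_dvd hq.ne'
      (Nat.dvd_of_mem_primeFactors hp)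
    omega
  have h2 : ∏ p ∈ q.primeFactors, p ≤ 2 ^ q.primeFactors.card * ∏ p ∈ q.primeFactors, (p - 1) := by
    rw [← Finset.prod_const, ← Finset.prod_mul_distrib]
    refine Finset.prod_le_prod' fun p hp => ?_
    have := (Nat.prime_of_mem_primeFactors hp).two_le
    omega
  have h3 : 0 < ∏ p ∈ q.primeFactors, (p - 1) := by
    refine Finset.prod_pos fun p hp => ?_
    have := (Nat.prime_of_mem_primeFactors hp).two_le
    omega
  have h4 := Nat.totient_mul_prod_primeFactors q
  have h5 : q ≤ q.divisors.card * q.totient := by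
    refine Nat.le_of_mul_le_mul_right ?_ h3
    calc q * ∏ p ∈ q.primeFactors, (p - 1) = q.totient * ∏ p ∈ q.primeFactors, p := h4.symm
      _ ≤ q.totient * (2 ^ q.primeFactors.card * ∏ p ∈ q.primeFactors, (p - 1)) :=
          Nat.mul_le_mul_left _ h2
      _ ≤ q.totient * (q.divisors.card * ∏ p ∈ q.primeFactors, (p - 1)) :=
          Nat.mul_le_mul_left _ (Nat.mul_le_mul_right _ h1)
      _ = q.divisors.card * q.totient * ∏ p ∈ q.primeFactors, (p - 1) := by ring
  exact_mod_cast h5

end

end Pool.Agent.M848
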