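import Pool.Agent.Lib.MP_848d44_nt.Defs

/-!
# The tent function (module TENT)
-/

set_option autoImplicit false

namespace Pool.Agent.M848

open Finset
open scoped ArithmeticFunction ComplexConjugate

noncomputable section

theorem tent_nonneg (N : ℕ) (m : ℤ) : 0 ≤ tent N m := by
  unfold tent
  exact div_nonneg (le_max_left _ _) (Nat.cast_nonneg _)

theorem tent_le (N : ℕ) (m : ℤ) : tent N m ≤ 1 / 2 := by
  unfold tent
  rcases Nat.eq_zero_or_pos N with h | h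
  · subst h
    simp
  · have hN : (0 : ℝ) < N := by exact_mod_cast h
    rw [div_le_iff₀ hN]
    refine max_le (by positivity) ?_
    rcases le_total (m : ℝ) ((N : ℝ) - m) with h1 | h1
    · rw [min_eq_left h1]; linarith
    · rw [min_eq_right h1]; linarith

theorem tent_lip (N : ℕ) (m : ℤ) : |tent N m - tent N (m + 1)| ≤ 1 / N := by
  unfold tent
  rcases Nat.eq_zero_or_pos N with h | h
  · subst h
    simp
  · have hN : (0 : ℝ) < N := by exact_mod_cast h
    rw [← sub_div, abs_div, abs_of_pos hN]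
    refine div_le_div_of_nonneg_right ?_ hN.le
    push_cast
    rw [abs_le]
    constructor
    · rcases max_cases (0 : ℝ) (min (m : ℝ) ((N : ℝ) - m)) with ⟨h1, h2⟩ | ⟨h1, h2⟩ <;>
      rcases max_cases (0 : ℝ) (min ((m : ℝ) + 1) ((N : ℝ) - (m + 1))) with ⟨h3, h4⟩ | ⟨h3, h4⟩ <;>
      rcases min_cases (m : ℝ) ((N : ℝ) - m) with ⟨h5, h6⟩ | ⟨h5, h6⟩ <;>
      rcases min_cases ((m : ℝ) + 1) ((N : ℝ) - (m + 1)) with ⟨h7, h8⟩ | ⟨h7, h8⟩ <;>
      linarith
    · rcases max_cases (0 : ℝ) (min (m : ℝ) ((N : ℝ) - m)) with ⟨h1, h2⟩ | ⟨h1, h2⟩ <;>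
      rcases max_cases (0 : ℝ) (min ((m : ℝ) + 1) ((N : ℝ) - (m + 1))) with ⟨h3, h4⟩ | ⟨h3, h4⟩ <;>
      rcases min_cases (m : ℝ) ((N : ℝ) - m) with ⟨h5, h6⟩ | ⟨h5, h6⟩ <;>
      rcases min_cases ((m : ℝ) + 1) ((N : ℝ) - (m + 1)) with ⟨h7, h8⟩ | ⟨h7, h8⟩ <;>
      linarith

theorem tent_zero (N : ℕ) (m : ℤ) (h : m ≤ 0 ∨ (N : ℤ) ≤ m) : tent N m = 0 := by
  unfold tent
  have h1 : min (m : ℝ) ((N : ℝ) - m) ≤ 0 := by
    rcases h with h | h
    · exact (min_le_left _ _).trans (by exact_mod_cast h)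
    · refine (min_le_right _ _).trans ?_
      have : (N : ℝ) ≤ m := by exact_mod_cast h
      linarith
  rw [max_eq_left h1, zero_div]

end

end Pool.Agent.M848
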