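import Pool.Agent.Lib.MP_848d44_nt.Chars
import Pool.Agent.Lib.MP_848d44_nt.Tent
import Pool.Agent.Lib.MP_848d44_nt.Ncp

set_option autoImplicit false

namespace Pool.Agent.M848

open Finset
open scoped ArithmeticFunction ComplexConjugate

noncomputable section

namespace Off1Aux

/-- the part of `fs` belonging to one `d` -/
def gd (N s d : ℕ) (m : ℤ) : ℝ :=
  tent N m * ((if (s : ℤ) ∣ m then (1 : ℝ) else 0) - 1 / s) * (if (d : ℤ) ∣ m then 1 else 0)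

theorem fs_eq (b : ℕ → ℝ) (T N s : ℕ) (m : ℤ) :
    fs b T N s m = ∑ d ∈ Icc 1 T, b d * gd N s d m := by
  unfold fs lam gd
  rw [Finset.sum_filter, Finset.mul_sum]
  apply Finset.sum_congr rfl
  intro d _
  split_ifs <;> ring

theorem gd_abs (N s d : ℕ) (hs : s.Prime) (m : ℤ) : |gd N s d m| ≤ 1 / 2 := by
  unfold gd
  rw [abs_mul, abs_mul, abs_of_nonneg (tent_nonneg N m)]
  have h1 := tent_le N m
  have h0 := tent_nonneg N m
  have hs1 : (1 : ℝ) ≤ s := by exact_mod_cast hs.one_lt.le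
  have hs2 : 1 / (s : ℝ) ≤ 1 := by
    rw [div_le_one (by linarith)]; exact hs1
  have hs3 : 0 ≤ 1 / (s : ℝ) := by positivity
  have h2 : |(if (s : ℤ) ∣ m then (1 : ℝ) else 0) - 1 / s| ≤ 1 := by
    rw [abs_le]
    split_ifs <;> constructor <;> linarith
  have h3 : |(if (d : ℤ) ∣ m then (1 : ℝ) else 0)| ≤ 1 := by
    split_ifs <;> simp
  have h4 := abs_nonneg ((if (s : ℤ) ∣ m then (1 : ℝ) else 0) - 1 / s)
  have h5 := abs_nonneg (if (d : ℤ) ∣ m then (1 : ℝ) else 0)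
  calc tent N m * |(if (s : ℤ) ∣ m then (1 : ℝ) else 0) - 1 / s| * |(if (d : ℤ) ∣ m then (1 : ℝ) else 0)|
      ≤ (1 / 2 * 1) * 1 := by
        apply mul_le_mul _ h3 h5 (by norm_num)
        exact mul_le_mul h1 h2 h4 (by norm_num)
    _ = 1 / 2 := by norm_num

/-- the inner sum over `h` -/
def Gd (N q s d : ℕ) (σ : ℤ) (n : ℕ) : ℝ :=
  ∑ h ∈ Icc 1 (N / q), gd N s d ((n : ℤ) + σ * (h * q))

theorem Gd_abs (N q s d : ℕ) (hs : s.Prime) (σ : ℤ) (n : ℕ) :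
    |Gd N q s d σ n| ≤ ((N / q : ℕ) : ℝ) * (1 / 2) := by
  unfold Gd
  refine (Finset.abs_sum_le_sum_abs _ _).trans ?_
  calc ∑ h ∈ Icc 1 (N / q), |gd N s d ((n : ℤ) + σ * (h * q))|
      ≤ ∑ h ∈ Icc 1 (N / q), (1 / 2 : ℝ) := Finset.sum_le_sum fun h _ => gd_abs N s d hs _
    _ = ((N / q : ℕ) : ℝ) * (1 / 2) := by
      rw [Finset.sum_const, Nat.card_Icc, nsmul_eq_mul, Nat.add_sub_cancel]

/-- the multiplier `t` with `v = t * q * h` -/
def tt (s d : ℕ) (σ : ℤ) : ℕ := if σ = 1 then s * d - 1 else 1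

theorem dvd_iff (s d q h n D : ℕ) (hD : D ∣ s * d) (hsd : 1 ≤ s * d) (σ : ℤ)
    (hσ : σ = 1 ∨ σ = -1) :
    ((D : ℤ) ∣ (n : ℤ) + σ * (h * q)) ↔ n % D = (tt s d σ * q * h) % D := by
  have hcast : (((tt s d σ * q * h : ℕ)) : ℤ) = (tt s d σ : ℤ) * q * h := by push_cast; ring
  have hD' : (D : ℤ) ∣ (s * d : ℕ) := by exact_mod_cast hD
  have key : (D : ℤ) ∣ (tt s d σ : ℤ) + σ := by
    unfold tt
    rcases hσ with h1 | h1
    · rw [if_pos h1, h1]
      have : ((s * d - 1 : ℕ) : ℤ) + 1 = ((s * d : ℕ) : ℤ) := by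
        rw [Nat.cast_sub hsd]; push_cast; ring
      rw [this]; exact hD'
    · rw [if_neg (by rw [h1]; norm_num), h1]
      simp
  have e1 : (n : ℤ) + σ * (h * q) = ((n : ℤ) - ((tt s d σ * q * h : ℕ) : ℤ)) +
      ((tt s d σ : ℤ) + σ) * (h * q) := by
    rw [hcast]; ring
  rw [e1, (Int.dvd_add_left (Dvd.dvd.mul_right key _))]
  constructor
  · intro h1
    have h2 := Int.modEq_iff_dvd.mpr h1
    exact (Int.natCast_modEq_iff.mp h2).symm
  · intro h1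
    have h2 : (tt s d σ * q * h) ≡ n [MOD D] := h1.symm
    exact Int.modEq_iff_dvd.mp (Int.natCast_modEq_iff.mpr h2)

theorem v_coprime (s d q h : ℕ) (hs : s.Prime) (hd : 1 ≤ d) (hsq : ¬ s ∣ q) (hh : 1 ≤ h)
    (hhs : h < s) (σ : ℤ) : (tt s d σ * q * h).Coprime s := by
  rw [Nat.coprime_comm, Nat.Prime.coprime_iff_not_dvd hs]
  intro hdvd
  rcases (Nat.Prime.dvd_mul hs).mp hdvd with h1 | h1
  · rcases (Nat.Prime.dvd_mul hs).mp h1 with h2 | h2
    · unfold tt at h2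
      split_ifs at h2 with h3
      · have h4 : 1 ≤ s * d := Nat.one_le_iff_ne_zero.mpr (Nat.mul_ne_zero hs.ne_zero (by omega))
        have h5 : s ∣ s * d := Dvd.intro d rfl
        have h6 : s ∣ 1 := by
          have := Nat.dvd_sub h5 h2
          have h7 : s * d - (s * d - 1) = 1 := by omega
          rwa [h7] at this
        exact hs.one_lt.ne' (Nat.dvd_one.mp h6)
      · exact hs.one_lt.ne' (Nat.dvd_one.mp h2)
    · exact hsq h2
  · exact absurd (Nat.le_of_dvd (by omega) h1) (by omega)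

/-- the formula for `gd` by characters -/
theorem gd_char (N q s d n h : ℕ) (hs : s.Prime) (hd : 1 ≤ d) (hsq : ¬ s ∣ q) (hh : 1 ≤ h)
    (hhs : h < s) (hns : n.Coprime s) (hnd : n.Coprime d) (σ : ℤ) (hσ : σ = 1 ∨ σ = -1) :
    ((gd N s d ((n : ℤ) + σ * (h * q)) : ℝ) : ℂ) =
      (1 / (d.totient : ℂ)) * ∑ ξ ∈ ac d, (1 / ((s : ℂ) - 1)) * ∑ χ ∈ nc s,
        (χ n * ξ n) * (conj (χ (tt s d σ * q) * ξ (tt s d σ * q)) *
          (((tent N ((n : ℤ) + σ * (h * q)) : ℝ) : ℂ) * conj (χ h * ξ h)))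
      + (((tent N ((n : ℤ) + σ * (h * q)) * (if (d : ℤ) ∣ (n : ℤ) + σ * (h * q) then 1 else 0) *
        (1 / (s * ((s : ℝ) - 1)))) : ℝ) : ℂ) := by
  have hsd : 1 ≤ s * d := Nat.one_le_iff_ne_zero.mpr (Nat.mul_ne_zero hs.ne_zero (by omega))
  set v : ℕ := tt s d σ * q * h with hv
  have hvs : v.Coprime s := v_coprime s d q h hs hd hsq hh hhs σ
  have o1 := nc_orth hs n v hns hvs
  have o2 := ac_orth hd n v hnd
  have d1 := dvd_iff s d q h n s (Dvd.intro d rfl) hsd σ hσ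
  have d2 := dvd_iff s d q h n d (Dvd.intro_left s rfl) hsd σ hσ
  rw [← hv] at d1 d2
  have hφ : (d.totient : ℂ) ≠ 0 := by
    have : 0 < d.totient := Nat.totient_pos.mpr hd
    exact_mod_cast this.ne'
  have hs1 : (s : ℂ) - 1 ≠ 0 := by
    have : (s : ℂ) ≠ 1 := by exact_mod_cast hs.one_lt.ne'
    exact sub_ne_zero.mpr this
  have hs0 : (s : ℂ) ≠ 0 := by exact_mod_cast hs.ne_zero
  set t : ℂ := ((tent N ((n : ℤ) + σ * (h * q)) : ℝ) : ℂ) with ht
  -- the double sum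
  have e1 : (1 / (d.totient : ℂ)) * ∑ ξ ∈ ac d, (1 / ((s : ℂ) - 1)) * ∑ χ ∈ nc s,
        (χ n * ξ n) * (conj (χ (tt s d σ * q) * ξ (tt s d σ * q)) * (t * conj (χ h * ξ h))) =
      t * ((1 / (d.totient : ℂ)) * ∑ ξ ∈ ac d, ξ n * conj (ξ v)) *
        ((1 / ((s : ℂ) - 1)) * ∑ χ ∈ nc s, χ n * conj (χ v)) := by
    rw [Finset.mul_sum, Finset.mul_sum, Finset.mul_sum, Finset.sum_mul]
    apply Finset.sum_congr rfl
    intro ξ hξ
    rw [Finset.mul_sum, Finset.mul_sum, Finset.mul_sum, Finset.mul_sum]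
    apply Finset.sum_congr rfl
    intro χ hχ
    rw [hv, nc_mul hχ (tt s d σ * q) h, ac_mul hξ (tt s d σ * q) h]
    simp only [map_mul]
    ring
  rw [e1, o1, o2]
  unfold gd
  by_cases c2 : n % d = v % d
  · have c2' := d2.mpr c2
    rw [if_pos c2, if_pos c2']
    by_cases c1 : n % s = v % s
    · have c1' := d1.mpr c1
      rw [if_pos c1, if_pos c1']
      push_cast
      rw [← ht]
      field_simp
      ring
    · have c1' : ¬ ((s : ℤ) ∣ (n : ℤ) + σ * (h * q)) := fun hh => c1 (d1.mp hh)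
      rw [if_neg c1, if_neg c1']
      push_cast
      rw [← ht]
      field_simp
      ring
  · have c2' : ¬ ((d : ℤ) ∣ (n : ℤ) + σ * (h * q)) := fun hh => c2 (d2.mp hh)
    rw [if_neg c2, if_neg c2']
    push_cast
    ring

theorem swap3 {ι : Type} (I : Finset ι) (X Y : Finset (ℕ → ℂ)) (a b : ℂ)
    (F : (ℕ → ℂ) → (ℕ → ℂ) → ι → ℂ) :
    ∑ i ∈ I, a * ∑ ξ ∈ X, b * ∑ χ ∈ Y, F ξ χ i =
      a * ∑ ξ ∈ X, b * ∑ χ ∈ Y, ∑ i ∈ I, F ξ χ i := by
  rw [← Finset.mul_sum, Finset.sum_comm]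
  congr 1
  apply Finset.sum_congr rfl
  intro ξ _
  rw [← Finset.mul_sum, Finset.sum_comm]

theorem psi_bound (N : ℕ) : ∑ n ∈ Icc 1 N, (Λ n : ℝ) ≤ 6 * N := by
  have h1 : ∑ n ∈ Icc 1 N, (Λ n : ℝ) = Chebyshev.psi N := by
    unfold Chebyshev.psi
    rw [Nat.floor_natCast]
    rfl
  rw [h1]
  have h2 := Chebyshev.psi_le_const_mul_self (x := (N : ℝ)) (Nat.cast_nonneg N)
  have h3 : Real.log 4 < 2 := by
    have : (4 : ℝ) = 2 ^ 2 := by norm_num
    rw [this, Real.log_pow]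
    have := Real.log_two_lt_d9
    push_cast
    linarith
  have h4 : (0 : ℝ) ≤ N := Nat.cast_nonneg N
  nlinarith

/-- the main part for one `d` -/
def Yd (N q s d : ℕ) (σ : ℤ) : ℝ :=
  ∑ n ∈ (Icc 1 N).filter (fun n => n.Coprime s ∧ n.Coprime d), Λ n * Gd N q s d σ n

theorem Yd_bound (N q s d : ℕ) (hs : s.Prime) (hd : 1 ≤ d) (hsq : ¬ s ∣ q)
    (hsH : N / q < s) (σ : ℤ) (hσ : σ = 1 ∨ σ = -1) :
    |Yd N q s d σ| ≤ (1 / (d.totient : ℝ)) * ∑ ξ ∈ ac d,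
        ((1 / ((s : ℝ) - 1)) * ∑ χ ∈ nc s,
        ‖∑ n ∈ Icc 1 N, ((Λ n : ℝ) : ℂ) * (χ n * ξ n) *
          ∑ h ∈ Icc 1 (N / q), ((tent N ((n : ℤ) + σ * (h * q)) : ℝ) : ℂ) * conj (χ h * ξ h)‖)
      + ((N / q : ℕ) : ℝ) * (3 * N / (s * ((s : ℝ) - 1))) := by
  set A' : Finset ℕ := (Icc 1 N).filter (fun n => n.Coprime s ∧ n.Coprime d) with hA'
  set Hs : Finset ℕ := Icc 1 (N / q) with hHs
  set P : Finset (ℕ × ℕ) := A' ×ˢ Hs with hP
  have hs1 : (1 : ℝ) < s := by exact_mod_cast hs.one_lt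
  have hsm : 0 < (s : ℝ) - 1 := by linarith
  -- the rest
  set R : ℕ × ℕ → ℝ := fun p => Λ p.1 * (tent N ((p.1 : ℤ) + σ * (p.2 * q)) *
    (if (d : ℤ) ∣ (p.1 : ℤ) + σ * (p.2 * q) then 1 else 0) * (1 / (s * ((s : ℝ) - 1)))) with hR
  set F : (ℕ → ℂ) → (ℕ → ℂ) → ℕ × ℕ → ℂ := fun ξ χ p => ((Λ p.1 : ℝ) : ℂ) *
    ((χ p.1 * ξ p.1) * (conj (χ (tt s d σ * q) * ξ (tt s d σ * q)) *
          (((tent N ((p.1 : ℤ) + σ * (p.2 * q)) : ℝ) : ℂ) * conj (χ p.2 * ξ p.2)))) with hF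
  have e1 : ((Yd N q s d σ : ℝ) : ℂ) =
      (1 / (d.totient : ℂ)) * ∑ ξ ∈ ac d, (1 / ((s : ℂ) - 1)) * ∑ χ ∈ nc s, ∑ p ∈ P, F ξ χ p
      + ((∑ p ∈ P, R p : ℝ) : ℂ) := by
    rw [← swap3]
    have : Yd N q s d σ = ∑ p ∈ P, Λ p.1 * gd N s d ((p.1 : ℤ) + σ * (p.2 * q)) := by
      unfold Yd Gd
      rw [hP, Finset.sum_product]
      apply Finset.sum_congr rfl
      intro n _
      rw [Finset.mul_sum]
    rw [this, Complex.ofReal_sum, Complex.ofReal_sum, ← Finset.sum_add_distrib]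
    apply Finset.sum_congr rfl
    intro p hp
    rw [hP, Finset.mem_product, hA', Finset.mem_filter, hHs, Finset.mem_Icc, Finset.mem_Icc] at hp
    obtain ⟨⟨⟨hn1, hn2⟩, hn3, hn4⟩, hh1, hh2⟩ := hp
    have := gd_char N q s d p.1 p.2 hs hd hsq hh1 (by omega) hn3 hn4 σ hσ
    rw [Complex.ofReal_mul, this, mul_add, hR, hF]
    congr 1
    · rw [Finset.mul_sum, Finset.mul_sum, Finset.mul_sum]
      apply Finset.sum_congr rfl
      intro ξ _
      rw [Finset.mul_sum, Finset.mul_sum, Finset.mul_sum, Finset.mul_sum, Finset.mul_sum]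
      apply Finset.sum_congr rfl
      intro χ _
      ring
    · rw [← Complex.ofReal_mul]
  have e2 : ∀ ξ ∈ ac d, ∀ χ ∈ nc s, ∑ p ∈ P, F ξ χ p =
      conj (χ (tt s d σ * q) * ξ (tt s d σ * q)) * ∑ n ∈ Icc 1 N, ((Λ n : ℝ) : ℂ) * (χ n * ξ n) *
          ∑ h ∈ Hs, ((tent N ((n : ℤ) + σ * (h * q)) : ℝ) : ℂ) * conj (χ h * ξ h) := by
    intro ξ hξ χ hχ
    rw [hP, Finset.sum_product, Finset.mul_sum, hA', Finset.sum_filter]
    apply Finset.sum_congr rfl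
    intro n hn
    split_ifs with hc
    · rw [Finset.mul_sum, Finset.mul_sum]
      apply Finset.sum_congr rfl
      intro h _
      rw [hF]
      ring
    · have hz : χ n * ξ n = 0 := by
        by_cases h1 : n.Coprime s
        · have h2 : ¬ n.Coprime d := fun h => hc ⟨h1, h⟩
          rw [ac_zero hξ n h2, mul_zero]
        · have h2 : s ∣ n := by
            by_contra h3
            exact h1 ((Nat.Prime.coprime_iff_not_dvd hs).mpr h3).symm
          rw [nc_zero hs hχ n h2, zero_mul]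
      rw [hz]; ring
  have e3 : ‖(1 / (d.totient : ℂ)) * ∑ ξ ∈ ac d, (1 / ((s : ℂ) - 1)) * ∑ χ ∈ nc s,
      ∑ p ∈ P, F ξ χ p‖ ≤ (1 / (d.totient : ℝ)) * ∑ ξ ∈ ac d,
        ((1 / ((s : ℝ) - 1)) * ∑ χ ∈ nc s,
        ‖∑ n ∈ Icc 1 N, ((Λ n : ℝ) : ℂ) * (χ n * ξ n) *
          ∑ h ∈ Hs, ((tent N ((n : ℤ) + σ * (h * q)) : ℝ) : ℂ) * conj (χ h * ξ h)‖) := by
    rw [norm_mul]
    have n1 : ‖(1 / (d.totient : ℂ))‖ = 1 / (d.totient : ℝ) := by
      rw [norm_div, norm_one, Complex.norm_natCast]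
    have n2 : ‖(1 / ((s : ℂ) - 1))‖ = 1 / ((s : ℝ) - 1) := by
      have : ((s : ℂ) - 1) = (((s : ℝ) - 1 : ℝ) : ℂ) := by push_cast; ring
      rw [norm_div, norm_one, this, Complex.norm_real, Real.norm_of_nonneg hsm.le]
    rw [n1]
    apply mul_le_mul_of_nonneg_left _ (by positivity)
    refine (norm_sum_le _ _).trans ?_
    apply Finset.sum_le_sum
    intro ξ hξ
    rw [norm_mul, n2]
    apply mul_le_mul_of_nonneg_left _ (by positivity)
    refine (norm_sum_le _ _).trans ?_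
    apply Finset.sum_le_sum
    intro χ hχ
    rw [e2 ξ hξ χ hχ, norm_mul]
    have n3 : ‖conj (χ (tt s d σ * q) * ξ (tt s d σ * q))‖ ≤ 1 := by
      rw [RCLike.norm_conj, norm_mul]
      exact mul_le_one₀ (nc_norm_le hχ _) (norm_nonneg _) (ac_norm_le hξ _)
    calc _ ≤ 1 * _ := mul_le_mul_of_nonneg_right n3 (norm_nonneg _)
      _ = _ := one_mul _
  have e4 : |∑ p ∈ P, R p| ≤ ((N / q : ℕ) : ℝ) * (3 * N / (s * ((s : ℝ) - 1))) := by
    refine (Finset.abs_sum_le_sum_abs _ _).trans ?_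
    have r1 : ∀ p ∈ P, |R p| ≤ Λ p.1 * (1 / 2 * (1 / (s * ((s : ℝ) - 1)))) := by
      intro p _
      rw [hR]
      simp only
      have hΛ : 0 ≤ (Λ p.1 : ℝ) := ArithmeticFunction.vonMangoldt_nonneg
      rw [abs_mul, abs_of_nonneg hΛ]
      apply mul_le_mul_of_nonneg_left _ hΛ
      have hpos : 0 ≤ 1 / ((s : ℝ) * ((s : ℝ) - 1)) := by positivity
      rw [abs_mul, abs_of_nonneg hpos]
      apply mul_le_mul_of_nonneg_right _ hpos
      rw [abs_mul, abs_of_nonneg (tent_nonneg N _)]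
      have h3 : |(if (d : ℤ) ∣ (p.1 : ℤ) + σ * (p.2 * q) then (1 : ℝ) else 0)| ≤ 1 := by
        split_ifs <;> simp
      calc _ ≤ (1 / 2 : ℝ) * 1 := mul_le_mul (tent_le N _) h3 (abs_nonneg _) (by norm_num)
        _ = 1 / 2 := by norm_num
    refine (Finset.sum_le_sum r1).trans ?_
    rw [hP, Finset.sum_product]
    have r2 : ∀ n ∈ A', ∑ h ∈ Hs, (Λ n : ℝ) * (1 / 2 * (1 / (s * ((s : ℝ) - 1)))) =
        (Λ n : ℝ) * (((N / q : ℕ) : ℝ) * (1 / 2 * (1 / (s * ((s : ℝ) - 1))))) := by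
      intro n _
      rw [Finset.sum_const, hHs, Nat.card_Icc, nsmul_eq_mul, Nat.add_sub_cancel]
      ring
    rw [Finset.sum_congr rfl r2, ← Finset.sum_mul]
    have r3 : ∑ n ∈ A', (Λ n : ℝ) ≤ 6 * N := by
      refine le_trans ?_ (psi_bound N)
      apply Finset.sum_le_sum_of_subset_of_nonneg (Finset.filter_subset _ _)
      intro i _ _
      exact ArithmeticFunction.vonMangoldt_nonneg
    calc _ ≤ (6 * N : ℝ) * (((N / q : ℕ) : ℝ) * (1 / 2 * (1 / (s * ((s : ℝ) - 1))))) := by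
          apply mul_le_mul_of_nonneg_right r3
          positivity
      _ = ((N / q : ℕ) : ℝ) * (3 * N / (s * ((s : ℝ) - 1))) := by
          field_simp
          try ring
  have e5 : |Yd N q s d σ| = ‖((Yd N q s d σ : ℝ) : ℂ)‖ := by
    rw [Complex.norm_real, Real.norm_eq_abs]
  rw [e5, e1]
  refine (norm_add_le _ _).trans ?_
  rw [Complex.norm_real, Real.norm_eq_abs]
  exact add_le_add e3 e4

/-- the sum over `n` coprime to `q`, for one `d` -/
def Xd (N q s d : ℕ) (σ : ℤ) : ℝ :=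
  ∑ n ∈ (Icc 1 N).filter (fun n => n.Coprime q), Λ n * Gd N q s d σ n

theorem ite_bound (a b c e : Prop) [Decidable a] [Decidable b] [Decidable c] [Decidable e]
    (h : ¬ b → c ∨ ¬ e) :
    |(if a then (1 : ℝ) else 0) - (if b then 1 else 0)| ≤ (if ¬ a then (1 : ℝ) else 0) +
      (if c then (1 : ℝ) else 0) + (if ¬ e then (1 : ℝ) else 0) := by
  by_cases hb : b
  · by_cases ha : a <;> by_cases hc : c <;> by_cases he : e <;>
      simp [ha, hb, hc, he] <;> norm_num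
  · rcases h hb with hc | he
    · by_cases ha : a <;> by_cases he : e <;> simp [ha, hb, hc, he] <;> norm_num
    · by_cases ha : a <;> by_cases hc : c <;> simp [ha, hb, hc, he] <;> norm_num

theorem Xd_sub_Yd (N q s d : ℕ) (hs : s.Prime) (hd : 1 ≤ d) (hq : 1 ≤ q) (σ : ℤ) :
    |Xd N q s d σ - Yd N q s d σ| ≤ ((N / q : ℕ) : ℝ) * (1 / 2) *
      (Nat.log 2 q * Real.log N + Real.log N + Nat.log 2 d * Real.log N) := by
  have hΛ : ∀ n : ℕ, 0 ≤ (Λ n : ℝ) := fun n => ArithmeticFunction.vonMangoldt_nonneg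
  have e1 : Xd N q s d σ - Yd N q s d σ = ∑ n ∈ Icc 1 N, (Λ n * Gd N q s d σ n) *
      ((if n.Coprime q then 1 else 0) - (if n.Coprime s ∧ n.Coprime d then 1 else 0)) := by
    unfold Xd Yd
    rw [Finset.sum_filter, Finset.sum_filter, ← Finset.sum_sub_distrib]
    apply Finset.sum_congr rfl
    intro n _
    split_ifs <;> ring
  rw [e1]
  refine (Finset.abs_sum_le_sum_abs _ _).trans ?_
  have e2 : ∀ n ∈ Icc 1 N, |(Λ n * Gd N q s d σ n) *
      ((if n.Coprime q then (1 : ℝ) else 0) - (if n.Coprime s ∧ n.Coprime d then 1 else 0))| ≤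
      ((N / q : ℕ) : ℝ) * (1 / 2) * ((if ¬ n.Coprime q then (Λ n : ℝ) else 0) +
        (if s ∣ n then (Λ n : ℝ) else 0) + (if ¬ n.Coprime d then (Λ n : ℝ) else 0)) := by
    intro n _
    rw [abs_mul, abs_mul, abs_of_nonneg (hΛ n)]
    have h1 : |(if n.Coprime q then (1 : ℝ) else 0) - (if n.Coprime s ∧ n.Coprime d then 1 else 0)|
        ≤ (if ¬ n.Coprime q then (1 : ℝ) else 0) +
        (if s ∣ n then (1 : ℝ) else 0) + (if ¬ n.Coprime d then (1 : ℝ) else 0) := by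
      apply ite_bound
      intro hb
      by_cases c2 : n.Coprime s
      · exact Or.inr fun c3 => hb ⟨c2, c3⟩
      · left
        by_contra h3
        exact c2 ((Nat.Prime.coprime_iff_not_dvd hs).mpr h3).symm
    have h2 := Gd_abs N q s d hs σ n
    have h3 : (if ¬ n.Coprime q then (Λ n : ℝ) else 0) +
        (if s ∣ n then (Λ n : ℝ) else 0) + (if ¬ n.Coprime d then (Λ n : ℝ) else 0) =
        (Λ n : ℝ) * ((if ¬ n.Coprime q then (1 : ℝ) else 0) +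
        (if s ∣ n then (1 : ℝ) else 0) + (if ¬ n.Coprime d then (1 : ℝ) else 0)) := by
      split_ifs <;> ring
    rw [h3]
    calc (Λ n : ℝ) * |Gd N q s d σ n| * _ ≤
        (Λ n : ℝ) * (((N / q : ℕ) : ℝ) * (1 / 2)) * ((if ¬ n.Coprime q then (1 : ℝ) else 0) +
        (if s ∣ n then (1 : ℝ) else 0) + (if ¬ n.Coprime d then (1 : ℝ) else 0)) := by
          apply mul_le_mul _ h1 (abs_nonneg _)
          · have := hΛ n; positivity
          · exact mul_le_mul_of_nonneg_left h2 (hΛ n)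
      _ = _ := by ring
  refine (Finset.sum_le_sum e2).trans ?_
  rw [← Finset.mul_sum, Finset.sum_add_distrib, Finset.sum_add_distrib, ← Finset.sum_filter,
    ← Finset.sum_filter, ← Finset.sum_filter]
  apply mul_le_mul_of_nonneg_left _ (by positivity)
  exact add_le_add (add_le_add (noncoprime_sum N q hq) (prime_pow_sum N s hs))
    (noncoprime_sum N d hd)

end Off1Aux

open Off1Aux

/-- OFF1. One prime, one sign: passage to characters. -/
theorem off_one (b : ℕ → ℝ) (T N q s : ℕ) (hN : 3 ≤ N) (hT : 1 ≤ T) (hTN : T ≤ N) (hq : 1 ≤ q)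
    (hqN : q ≤ N) (hs : s.Prime) (hTs : T < s) (hsq : ¬ s ∣ q)
    (hsH : N / q < s) (σ : ℤ) (hσ : σ = 1 ∨ σ = -1) :
    |∑ n ∈ (Icc 1 N).filter (fun n => n.Coprime q),
        Λ n * ∑ h ∈ Icc 1 (N / q), fs b T N s ((n : ℤ) + σ * (h * q))| ≤
      ∑ d ∈ Icc 1 T, |b d| * ((1 / (d.totient : ℝ)) * ∑ ξ ∈ ac d,
        ((1 / ((s : ℝ) - 1)) * ∑ χ ∈ nc s,
        ‖∑ n ∈ Icc 1 N, ((Λ n : ℝ) : ℂ) * (χ n * ξ n) *
          ∑ h ∈ Icc 1 (N / q), ((tent N ((n : ℤ) + σ * (h * q)) : ℝ) : ℂ) * conj (χ h * ξ h)‖))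
      + ((N / q : ℕ) : ℝ) * BB b T * (4 * Real.log N ^ 2 + 6 * N / (s * ((s : ℝ) - 1))) := by
  have hlogN : 1 ≤ Real.log N := by
    have h1 : (3 : ℝ) ≤ N := by exact_mod_cast hN
    have h2 : Real.exp 1 < 3 := by
      have := Real.exp_one_lt_d9
      linarith
    rw [Real.le_log_iff_exp_le (by linarith)]
    linarith
  have hNR : (0 : ℝ) < N := by
    have : (3 : ℝ) ≤ N := by exact_mod_cast hN
    linarith
  have hs1 : (1 : ℝ) < s := by exact_mod_cast hs.one_lt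
  have hlog2 : ∀ m : ℕ, 1 ≤ m → m ≤ N → (Nat.log 2 m : ℝ) ≤ 2 * Real.log N := by
    intro m hm hmN
    have h1 : (2 : ℝ) ^ (Nat.log 2 m) ≤ N := by
      have : 2 ^ (Nat.log 2 m) ≤ m := Nat.pow_log_le_self 2 (by omega)
      exact_mod_cast this.trans hmN
    have h2 := Real.log_le_log (by positivity) h1
    rw [Real.log_pow] at h2
    have h3 := Real.log_two_gt_d9
    have h4 : (0 : ℝ) ≤ Nat.log 2 m := Nat.cast_nonneg _
    nlinarith
  have e1 : ∑ n ∈ (Icc 1 N).filter (fun n => n.Coprime q),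
        Λ n * ∑ h ∈ Icc 1 (N / q), fs b T N s ((n : ℤ) + σ * (h * q)) =
      ∑ d ∈ Icc 1 T, b d * Xd N q s d σ := by
    unfold Xd Gd
    have : ∀ n ∈ (Icc 1 N).filter (fun n => n.Coprime q),
        (Λ n : ℝ) * ∑ h ∈ Icc 1 (N / q), fs b T N s ((n : ℤ) + σ * (h * q)) =
        ∑ d ∈ Icc 1 T, b d * (Λ n * ∑ h ∈ Icc 1 (N / q), gd N s d ((n : ℤ) + σ * (h * q))) := by
      intro n _
      simp_rw [fs_eq]
      rw [Finset.sum_comm, Finset.mul_sum]
      apply Finset.sum_congr rfl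
      intro d _
      rw [← Finset.mul_sum]
      ring
    rw [Finset.sum_congr rfl this, Finset.sum_comm]
    apply Finset.sum_congr rfl
    intro d _
    rw [Finset.mul_sum]
  rw [e1]
  refine (Finset.abs_sum_le_sum_abs _ _).trans ?_
  unfold BB
  rw [mul_assoc, Finset.sum_mul, Finset.mul_sum, ← Finset.sum_add_distrib]
  apply Finset.sum_le_sum
  intro d hd
  have hd1 := (Finset.mem_Icc.mp hd).1
  have hd2 := (Finset.mem_Icc.mp hd).2
  rw [abs_mul]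
  have hY := Yd_bound N q s d hs hd1 hsq hsH σ hσ
  have hXY := Xd_sub_Yd N q s d hs hd1 hq σ
  have hX : |Xd N q s d σ| ≤ |Yd N q s d σ| + |Xd N q s d σ - Yd N q s d σ| := by
    have : Xd N q s d σ = Yd N q s d σ + (Xd N q s d σ - Yd N q s d σ) := by ring
    calc |Xd N q s d σ| = |Yd N q s d σ + (Xd N q s d σ - Yd N q s d σ)| := by rw [← this]
      _ ≤ _ := abs_add_le _ _
  set M : ℝ := (1 / (d.totient : ℝ)) * ∑ ξ ∈ ac d,
        ((1 / ((s : ℝ) - 1)) * ∑ χ ∈ nc s,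
        ‖∑ n ∈ Icc 1 N, ((Λ n : ℝ) : ℂ) * (χ n * ξ n) *
          ∑ h ∈ Icc 1 (N / q), ((tent N ((n : ℤ) + σ * (h * q)) : ℝ) : ℂ) * conj (χ h * ξ h)‖)
    with hM
  have hA := hlog2 q hq hqN
  have hB := hlog2 d hd1 (by omega)
  have hHn : (0 : ℝ) ≤ ((N / q : ℕ) : ℝ) := Nat.cast_nonneg _
  have hE : ((N / q : ℕ) : ℝ) * (3 * N / (s * ((s : ℝ) - 1))) +
      ((N / q : ℕ) : ℝ) * (1 / 2) *
      (Nat.log 2 q * Real.log N + Real.log N + Nat.log 2 d * Real.log N) ≤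
      ((N / q : ℕ) : ℝ) * (4 * Real.log N ^ 2 + 6 * N / (s * ((s : ℝ) - 1))) := by
    rw [mul_assoc, ← mul_add]
    apply mul_le_mul_of_nonneg_left _ hHn
    have h1 : 0 ≤ 3 * (N : ℝ) / (s * ((s : ℝ) - 1)) := by
      have : 0 < (s : ℝ) - 1 := by linarith
      positivity
    have h2 : 6 * (N : ℝ) / (s * ((s : ℝ) - 1)) = 2 * (3 * N / (s * ((s : ℝ) - 1))) := by ring
    rw [h2]
    nlinarith
  calc |b d| * |Xd N q s d σ| ≤ |b d| * (M + ((N / q : ℕ) : ℝ) *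
        (4 * Real.log N ^ 2 + 6 * N / (s * ((s : ℝ) - 1)))) := by
        apply mul_le_mul_of_nonneg_left _ (abs_nonneg _)
        linarith
    _ = |b d| * M + ((N / q : ℕ) : ℝ) * (|b d| *
        (4 * Real.log N ^ 2 + 6 * N / (s * ((s : ℝ) - 1)))) := by ring

end

end Pool.Agent.M848
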