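import Pool.Agent.Lib.MP_848d44_nt.Defs

/-!
# CHI: facts about the sets `nc` and `ac` of Dirichlet characters
-/

set_option autoImplicit false

namespace Pool.Agent.M848

open Finset
open scoped ArithmeticFunction ComplexConjugate

noncomputable section

namespace CharsAux

theorem mem_nc {s : ℕ} {χ : ℕ → ℂ} (h : χ ∈ nc s) :
    ∃ _ : NeZero s, ∃ ψ : DirichletCharacter ℂ s, ψ ≠ 1 ∧ ∀ n : ℕ, χ n = ψ (n : ZMod s) := by
  classical
  unfold nc at h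
  split_ifs at h with hs
  · simp at h
  · have : NeZero s := ⟨hs⟩
    rw [mem_image] at h
    obtain ⟨ψ, hψ, rfl⟩ := h
    exact ⟨inferInstance, ψ, (mem_erase.mp hψ).1, fun n => rfl⟩

theorem mem_ac {d : ℕ} {χ : ℕ → ℂ} (h : χ ∈ ac d) :
    ∃ _ : NeZero d, ∃ ψ : DirichletCharacter ℂ d, ∀ n : ℕ, χ n = ψ (n : ZMod d) := by
  classical
  unfold ac at h
  split_ifs at h with hs
  · simp at h
  · have : NeZero d := ⟨hs⟩
    rw [mem_image] at h
    obtain ⟨ψ, hψ, rfl⟩ := h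
    exact ⟨inferInstance, ψ, fun n => rfl⟩

theorem inj_char (d : ℕ) [NeZero d] :
    Function.Injective (fun (χ : DirichletCharacter ℂ d) (n : ℕ) => χ (n : ZMod d)) := by
  intro χ ψ h
  apply MulChar.ext'
  intro a
  have := congrFun h a.val
  simpa using this

theorem conj_char {d : ℕ} (χ : DirichletCharacter ℂ d) {a : ZMod d} (ha : IsUnit a) :
    conj (χ a) = χ a⁻¹ := by
  have h1 : χ a⁻¹ * χ a = 1 := by
    rw [← map_mul, ZMod.inv_mul_of_unit a ha, map_one]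
  have h2 : ‖χ a‖ = 1 := by
    obtain ⟨u, rfl⟩ := ha
    exact DirichletCharacter.unit_norm_eq_one χ u
  have h3 : conj (χ a) * χ a = 1 := by
    rw [mul_comm, Complex.mul_conj, Complex.normSq_eq_norm_sq, h2]; simp
  have h4 : χ a ≠ 0 := by
    intro h0; rw [h0] at h2; simp at h2
  exact mul_right_cancel₀ h4 (h3.trans h1.symm)

theorem orth_char (d : ℕ) [NeZero d] (n v : ℕ) (hn : n.Coprime d) :
    ∑ χ : DirichletCharacter ℂ d, χ (n : ZMod d) * conj (χ (v : ZMod d)) =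
      if n % d = v % d then (d.totient : ℂ) else 0 := by
  have hu : IsUnit ((n : ℕ) : ZMod d) := (ZMod.isUnit_iff_coprime n d).mpr hn
  have h := DirichletCharacter.sum_char_inv_mul_char_eq ℂ hu ((v : ℕ) : ZMod d)
  have h2 : conj (∑ χ : DirichletCharacter ℂ d, χ (n : ZMod d) * conj (χ (v : ZMod d))) =
      ∑ χ : DirichletCharacter ℂ d, χ (n : ZMod d)⁻¹ * χ (v : ZMod d) := by
    rw [map_sum]
    refine sum_congr rfl fun χ _ => ?_
    rw [map_mul, Complex.conj_conj, conj_char χ hu]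
  rw [h] at h2
  have h3 : ∑ χ : DirichletCharacter ℂ d, χ (n : ZMod d) * conj (χ (v : ZMod d)) =
      conj (if ((n : ℕ) : ZMod d) = ((v : ℕ) : ZMod d) then (d.totient : ℂ) else 0) := by
    rw [← h2, Complex.conj_conj]
  rw [h3]
  simp only [ZMod.natCast_eq_natCast_iff']
  split_ifs <;> simp

theorem sum_ac (d : ℕ) [NeZero d] (f : (ℕ → ℂ) → ℂ) :
    ∑ ξ ∈ ac d, f ξ = ∑ χ : DirichletCharacter ℂ d, f (fun n => χ (n : ZMod d)) := by
  classical
  have hd : d ≠ 0 := NeZero.ne d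
  unfold ac
  rw [dif_neg hd, sum_image]
  intro a _ b _ hab
  exact inj_char d hab

theorem sum_nc (d : ℕ) [NeZero d] (f : (ℕ → ℂ) → ℂ) :
    ∑ ξ ∈ nc d, f ξ = ∑ χ : DirichletCharacter ℂ d, f (fun n => χ (n : ZMod d)) -
      f (fun n => (1 : DirichletCharacter ℂ d) (n : ZMod d)) := by
  classical
  have hd : d ≠ 0 := NeZero.ne d
  unfold nc
  rw [dif_neg hd, sum_image]
  · rw [← sum_erase_add _ _ (mem_univ (1 : DirichletCharacter ℂ d))]
    simp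
  · intro a _ b _ hab
    exact inj_char d hab

theorem card_chars (d : ℕ) [NeZero d] :
    (univ : Finset (DirichletCharacter ℂ d)).card = d.totient := by
  rw [← DirichletCharacter.card_eq_totient_of_hasEnoughRootsOfUnity ℂ d,
    Nat.card_eq_fintype_card, card_univ]

end CharsAux

open CharsAux

theorem nc_mul {s : ℕ} {χ : ℕ → ℂ} (h : χ ∈ nc s) (m n : ℕ) : χ (m * n) = χ m * χ n := by
  obtain ⟨_, ψ, _, hψ⟩ := mem_nc h
  simp [hψ]

theorem nc_norm_le {s : ℕ} {χ : ℕ → ℂ} (h : χ ∈ nc s) (n : ℕ) : ‖χ n‖ ≤ 1 := by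
  obtain ⟨_, ψ, _, hψ⟩ := mem_nc h
  rw [hψ]
  exact DirichletCharacter.norm_le_one ψ _

theorem nc_zero {s : ℕ} (hs : s.Prime) {χ : ℕ → ℂ} (h : χ ∈ nc s) (n : ℕ) (hn : s ∣ n) :
    χ n = 0 := by
  obtain ⟨_, ψ, _, hψ⟩ := mem_nc h
  have := Fact.mk hs
  rw [hψ, (ZMod.natCast_eq_zero_iff n s).mpr hn]
  exact MulChar.map_nonunit ψ not_isUnit_zero

theorem nc_add {s : ℕ} {χ : ℕ → ℂ} (h : χ ∈ nc s) (n : ℕ) : χ (n + s) = χ n := by
  obtain ⟨_, ψ, _, hψ⟩ := mem_nc h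
  simp [hψ]

theorem nc_sum_range {s : ℕ} {χ : ℕ → ℂ} (h : χ ∈ nc s) : ∑ n ∈ range s, χ n = 0 := by
  obtain ⟨_, ψ, h1, hψ⟩ := mem_nc h
  have h2 := MulChar.sum_eq_zero_of_ne_one h1
  rw [← h2]
  refine sum_nbij' (fun n => (n : ZMod s)) (fun a => a.val) ?_ ?_ ?_ ?_ ?_
  · intro n _; exact mem_univ _
  · intro a _; exact mem_range.mpr (ZMod.val_lt a)
  · intro n hn; exact ZMod.val_cast_of_lt (mem_range.mp hn)
  · intro a _; simp
  · intro n _; exact hψ n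

theorem nc_card {s : ℕ} (hs : s.Prime) : ((nc s).card : ℝ) ≤ s := by
  classical
  have hs0 : s ≠ 0 := hs.ne_zero
  have : NeZero s := ⟨hs0⟩
  have h1 : (nc s).card ≤ s := by
    unfold nc
    rw [dif_neg hs0]
    refine le_trans card_image_le ?_
    refine le_trans (card_le_card (erase_subset _ _)) ?_
    rw [card_chars]
    exact Nat.totient_le s
  exact_mod_cast h1

theorem nc_orth {s : ℕ} (hs : s.Prime) (n v : ℕ) (hn : n.Coprime s) (hv : v.Coprime s) :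
    ∑ χ ∈ nc s, χ n * conj (χ v) = (if n % s = v % s then (s : ℂ) - 1 else 0) - 1 := by
  have : NeZero s := ⟨hs.ne_zero⟩
  rw [sum_nc s (fun ξ => ξ n * conj (ξ v))]
  rw [orth_char s n v hn]
  beta_reduce
  have hu : IsUnit ((n : ℕ) : ZMod s) := (ZMod.isUnit_iff_coprime n s).mpr hn
  have hu2 : IsUnit ((v : ℕ) : ZMod s) := (ZMod.isUnit_iff_coprime v s).mpr hv
  rw [MulChar.one_apply hu, MulChar.one_apply hu2, Nat.totient_prime hs,
    Nat.cast_sub hs.one_lt.le]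
  simp

theorem ac_mul {d : ℕ} {ξ : ℕ → ℂ} (h : ξ ∈ ac d) (m n : ℕ) : ξ (m * n) = ξ m * ξ n := by
  obtain ⟨_, ψ, hψ⟩ := mem_ac h
  simp [hψ]

theorem ac_norm_le {d : ℕ} {ξ : ℕ → ℂ} (h : ξ ∈ ac d) (n : ℕ) : ‖ξ n‖ ≤ 1 := by
  obtain ⟨_, ψ, hψ⟩ := mem_ac h
  rw [hψ]
  exact DirichletCharacter.norm_le_one ψ _

theorem ac_add {d : ℕ} {ξ : ℕ → ℂ} (h : ξ ∈ ac d) (n : ℕ) : ξ (n + d) = ξ n := by
  obtain ⟨_, ψ, hψ⟩ := mem_ac h
  simp [hψ]

theorem ac_zero {d : ℕ} {ξ : ℕ → ℂ} (h : ξ ∈ ac d) (n : ℕ) (hn : ¬ n.Coprime d) :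
    ξ n = 0 := by
  obtain ⟨_, ψ, hψ⟩ := mem_ac h
  rw [hψ]
  exact MulChar.map_nonunit ψ (fun hu => hn ((ZMod.isUnit_iff_coprime n d).mp hu))

theorem ac_card {d : ℕ} (hd : 1 ≤ d) : (ac d).card = d.totient := by
  classical
  have hd0 : d ≠ 0 := by omega
  have : NeZero d := ⟨hd0⟩
  unfold ac
  rw [dif_neg hd0, card_image_of_injective _ (inj_char d), card_chars]

theorem ac_orth {d : ℕ} (hd : 1 ≤ d) (n v : ℕ) (hn : n.Coprime d) :
    ∑ ξ ∈ ac d, ξ n * conj (ξ v) = if n % d = v % d then (d.totient : ℂ) else 0 := by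
  have hd0 : d ≠ 0 := by omega
  have : NeZero d := ⟨hd0⟩
  rw [sum_ac d (fun ξ => ξ n * conj (ξ v)), orth_char d n v hn]

end

end Pool.Agent.M848
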