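import Pool.Agent.Lib.MP_848d44_nt.Defs

/-!
# M848 module CLS: sums of a Lipschitz weight over a residue class
-/

set_option autoImplicit false

namespace Pool.Agent.M848

open Finset
open scoped ArithmeticFunction ComplexConjugate

noncomputable section

namespace ClsAux

theorem lip (N : ℕ) (W : ℤ → ℝ) (hl : ∀ m, |W m - W (m + 1)| ≤ 1 / N) (m : ℤ) (i : ℕ) :
    |W m - W (m + i)| ≤ i / N := by
  induction i with
  | zero => simp
  | succ i ih =>
    have h1 : W m - W (m + ((i + 1 : ℕ) : ℤ)) = (W m - W (m + i)) +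
        (W (m + i) - W (m + i + 1)) := by
      push_cast
      rw [add_assoc]
      ring
    rw [h1]
    refine (abs_add_le _ _).trans ((add_le_add ih (hl (m + i))).trans (le_of_eq ?_))
    push_cast
    ring

theorem sum_blocks (f : ℕ → ℝ) (K D : ℕ) :
    ∑ j ∈ range (K * D), f j = ∑ t ∈ range K, ∑ i ∈ range D, f (t * D + i) := by
  induction K with
  | zero => simp
  | succ K ih => rw [add_mul, one_mul, sum_range_add, ih, sum_range_succ]

end ClsAux

/-- CLS. Sums of a Lipschitz weight over a residue class. -/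
theorem class_sum (N : ℕ) (hN : 1 ≤ N) (W : ℤ → ℝ) (h0 : ∀ m, 0 ≤ W m) (h1 : ∀ m, W m ≤ 1)
    (hs : ∀ m : ℤ, m ≤ 0 ∨ (N : ℤ) ≤ m → W m = 0) (hl : ∀ m, |W m - W (m + 1)| ≤ 1 / N)
    (D : ℕ) (hD : 1 ≤ D) (r : ℤ) :
    |∑ m ∈ (Icc (1 : ℤ) N).filter (fun m => (D : ℤ) ∣ m - r), W m
      - (1 / (D : ℝ)) * ∑ m ∈ Icc (1 : ℤ) N, W m| ≤ 3 := by
  have hNR : (1 : ℝ) ≤ N := by exact_mod_cast hN
  have hDR : (1 : ℝ) ≤ D := by exact_mod_cast hD
  have hD0 : (0 : ℤ) < D := by exact_mod_cast hD
  have hN0 : (0 : ℝ) < N := by linarith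
  have hDR0 : (0 : ℝ) < D := by linarith
  rcases le_or_gt D N with hDN | hDN
  · -- `D ≤ N`
    set r0 : ℤ := r % D - D with hr0
    have hr1 : 0 ≤ r % (D : ℤ) := Int.emod_nonneg _ hD0.ne'
    have hr2 : r % (D : ℤ) < D := Int.emod_lt_of_pos _ hD0
    set K : ℕ := N / D + 2 with hK
    have hKD : (N : ℤ) + D + 1 ≤ K * D := by
      have h2 := Nat.div_add_mod N D
      have h3 := Nat.mod_lt N hD
      have h4 : N + D + 1 ≤ K * D := by
        rw [hK, add_mul, mul_comm (N / D) D]
        omega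
      exact_mod_cast h4
    have hdvd : (D : ℤ) ∣ r0 - r := by
      have h2 := Int.emod_add_mul_ediv r D
      refine ⟨-(r / D) - 1, ?_⟩
      rw [hr0]
      linarith [mul_comm (D : ℤ) (r / D), (by ring : (D : ℤ) * (-(r / D) - 1) =
        -((D : ℤ) * (r / D)) - D)]
    -- the class
    have e1 : ∑ m ∈ (Icc (1 : ℤ) N).filter (fun m => (D : ℤ) ∣ m - r), W m =
        ∑ t ∈ range K, W (r0 + ((t * D : ℕ) : ℤ)) := by
      have hinj : Set.InjOn (fun t : ℕ => r0 + ((t * D : ℕ) : ℤ)) (range K : Set ℕ) := by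
        intro s _ t _ hst
        have h2 : ((s * D : ℕ) : ℤ) = ((t * D : ℕ) : ℤ) := by
          simpa using hst
        have h3 : s * D = t * D := by exact_mod_cast h2
        exact Nat.eq_of_mul_eq_mul_right hD h3
      rw [← sum_image (f := W) (g := fun t : ℕ => r0 + ((t * D : ℕ) : ℤ)) hinj]
      refine sum_subset ?_ ?_
      · intro m hm
        rw [mem_filter, mem_Icc] at hm
        obtain ⟨⟨hm1, hm2⟩, hm3⟩ := hm
        have h2 : (D : ℤ) ∣ m - r0 := by
          have := dvd_sub hm3 hdvd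
          rwa [sub_sub_sub_cancel_right] at this
        obtain ⟨c, hc⟩ := h2
        have hc0 : 0 ≤ c := by
          by_contra hneg
          have h3 : c ≤ -1 := by omega
          have h4 : (D : ℤ) * c ≤ D * (-1) := mul_le_mul_of_nonneg_left h3 hD0.le
          omega
        obtain ⟨t, rfl⟩ := Int.eq_ofNat_of_zero_le hc0
        rw [mem_image]
        refine ⟨t, ?_, ?_⟩
        · rw [mem_range]
          by_contra hge
          have h3 : K ≤ t := not_lt.1 hge
          have h4 : (K : ℤ) * D ≤ t * D := by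
            have : K * D ≤ t * D := Nat.mul_le_mul_right _ h3
            exact_mod_cast this
          have h5 : (D : ℤ) * t = t * D := mul_comm _ _
          omega
        · push_cast
          linarith [mul_comm (D : ℤ) (t : ℤ)]
      · intro m hm hm'
        rw [mem_image] at hm
        obtain ⟨t, _, rfl⟩ := hm
        apply hs
        by_contra hcon
        push Not at hcon
        apply hm'
        rw [mem_filter, mem_Icc]
        refine ⟨⟨by omega, hcon.2.le⟩, ?_⟩
        have h2 : r0 + ((t * D : ℕ) : ℤ) - r = (r0 - r) + D * t := by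
          push_cast
          ring
        rw [h2]
        exact dvd_add hdvd (dvd_mul_right _ _)
    -- everything
    have e2 : ∑ m ∈ Icc (1 : ℤ) N, W m =
        ∑ t ∈ range K, ∑ i ∈ range D, W (r0 + ((t * D : ℕ) : ℤ) + (i : ℤ)) := by
      have h2 : ∑ j ∈ range (K * D), W (r0 + (j : ℤ)) =
          ∑ t ∈ range K, ∑ i ∈ range D, W (r0 + ((t * D : ℕ) : ℤ) + (i : ℤ)) := by
        rw [ClsAux.sum_blocks (fun j => W (r0 + (j : ℤ)))]
        refine sum_congr rfl fun t _ => sum_congr rfl fun i _ => ?_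
        push_cast
        rw [add_assoc]
      rw [← h2]
      have hinj : Set.InjOn (fun t : ℕ => r0 + (t : ℤ)) (range (K * D) : Set ℕ) := by
        intro s _ t _ hst
        have h3 : r0 + (s : ℤ) = r0 + (t : ℤ) := hst
        omega
      rw [← sum_image (f := W) (g := fun t : ℕ => r0 + (t : ℤ)) hinj]
      refine sum_subset ?_ ?_
      · intro m hm
        rw [mem_Icc] at hm
        rw [mem_image]
        refine ⟨(m - r0).toNat, ?_, ?_⟩
        · rw [mem_range]
          have h3 : ((m - r0).toNat : ℤ) = m - r0 := Int.toNat_of_nonneg (by omega)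
          have h4 : ((m - r0).toNat : ℤ) < ((K * D : ℕ) : ℤ) := by
            rw [h3]
            push_cast
            omega
          exact_mod_cast h4
        · show r0 + ((m - r0).toNat : ℤ) = m
          rw [Int.toNat_of_nonneg (by omega)]
          ring
      · intro m _ hm'
        apply hs
        by_contra hcon
        push Not at hcon
        apply hm'
        rw [mem_Icc]
        omega
    rw [e1, e2, mul_sum, ← sum_sub_distrib]
    have e3 : ∀ t ∈ range K, |W (r0 + ((t * D : ℕ) : ℤ)) - 1 / (D : ℝ) *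
        ∑ i ∈ range D, W (r0 + ((t * D : ℕ) : ℤ) + (i : ℤ))| ≤ D / N := by
      intro t _
      have h2 : W (r0 + ((t * D : ℕ) : ℤ)) - 1 / (D : ℝ) *
          ∑ i ∈ range D, W (r0 + ((t * D : ℕ) : ℤ) + (i : ℤ)) =
          1 / (D : ℝ) * ∑ i ∈ range D, (W (r0 + ((t * D : ℕ) : ℤ)) -
            W (r0 + ((t * D : ℕ) : ℤ) + (i : ℤ))) := by
        rw [sum_sub_distrib, sum_const, card_range, nsmul_eq_mul]
        field_simp
      rw [h2, abs_mul, abs_of_nonneg (by positivity)]
      have h3 : |∑ i ∈ range D, (W (r0 + ((t * D : ℕ) : ℤ)) -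
          W (r0 + ((t * D : ℕ) : ℤ) + (i : ℤ)))| ≤ D * (D / N) := by
        refine (abs_sum_le_sum_abs _ _).trans ?_
        have h4 : ∀ i ∈ range D, |W (r0 + ((t * D : ℕ) : ℤ)) -
            W (r0 + ((t * D : ℕ) : ℤ) + (i : ℤ))| ≤ (D : ℝ) / N := by
          intro i hi
          refine (ClsAux.lip N W hl _ i).trans ?_
          have h5 : (i : ℝ) ≤ D := by exact_mod_cast (mem_range.1 hi).le
          exact div_le_div_of_nonneg_right h5 hN0.le
        refine (sum_le_sum h4).trans (le_of_eq ?_)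
        rw [sum_const, card_range, nsmul_eq_mul]
      calc 1 / (D : ℝ) * |∑ i ∈ range D, (W (r0 + ((t * D : ℕ) : ℤ)) -
          W (r0 + ((t * D : ℕ) : ℤ) + (i : ℤ)))| ≤ 1 / (D : ℝ) * (D * (D / N)) :=
            mul_le_mul_of_nonneg_left h3 (by positivity)
        _ = D / N := by field_simp
    refine (abs_sum_le_sum_abs _ _).trans ((sum_le_sum e3).trans ?_)
    rw [sum_const, card_range, nsmul_eq_mul, hK]
    have h5 : ((N / D : ℕ) : ℝ) ≤ (N : ℝ) / D := Nat.cast_div_le
    have h6 : (D : ℝ) ≤ N := by exact_mod_cast hDN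
    have h7 : (((N / D + 2 : ℕ) : ℝ)) * ((D : ℝ) / N) ≤ ((N : ℝ) / D + 2) * (D / N) := by
      push_cast
      exact mul_le_mul_of_nonneg_right (by linarith) (by positivity)
    refine h7.trans ?_
    have h8 : ((N : ℝ) / D + 2) * (D / N) = 1 + 2 * (D / N) := by field_simp
    rw [h8]
    have h9 : (D : ℝ) / N ≤ 1 := (div_le_one hN0).2 h6
    linarith
  · -- `N < D`
    have hc : ((Icc (1 : ℤ) N).filter (fun m => (D : ℤ) ∣ m - r)).card ≤ 1 := by
      rw [card_le_one]
      intro a ha b hb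
      rw [mem_filter, mem_Icc] at ha hb
      have h2 : (D : ℤ) ∣ a - b := by
        have := dvd_sub ha.2 hb.2
        rwa [sub_sub_sub_cancel_right] at this
      have h3 : |a - b| < D := by
        rw [abs_lt]
        omega
      have h4 := Int.eq_zero_of_abs_lt_dvd h2 h3
      omega
    have h2 : ∑ m ∈ (Icc (1 : ℤ) N).filter (fun m => (D : ℤ) ∣ m - r), W m ≤ 1 := by
      refine (sum_le_sum fun m _ => h1 m).trans ?_
      rw [sum_const, nsmul_eq_mul, mul_one]
      exact_mod_cast hc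
    have h3 : 0 ≤ ∑ m ∈ (Icc (1 : ℤ) N).filter (fun m => (D : ℤ) ∣ m - r), W m :=
      sum_nonneg fun m _ => h0 m
    have h4 : ∑ m ∈ Icc (1 : ℤ) N, W m ≤ N := by
      refine (sum_le_sum fun m _ => h1 m).trans ?_
      rw [sum_const, nsmul_eq_mul, mul_one]
      simp
    have h5 : 0 ≤ ∑ m ∈ Icc (1 : ℤ) N, W m := sum_nonneg fun m _ => h0 m
    have h6 : 1 / (D : ℝ) * ∑ m ∈ Icc (1 : ℤ) N, W m ≤ 1 := by
      have h7 : (N : ℝ) ≤ D := by exact_mod_cast hDN.le
      calc 1 / (D : ℝ) * ∑ m ∈ Icc (1 : ℤ) N, W m ≤ 1 / (D : ℝ) * D :=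
            mul_le_mul_of_nonneg_left (h4.trans h7) (by positivity)
        _ = 1 := by field_simp
    have h7 : 0 ≤ 1 / (D : ℝ) * ∑ m ∈ Icc (1 : ℤ) N, W m := by positivity
    rw [abs_le]
    constructor <;> linarith

end

end Pool.Agent.M848
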