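import Pool.Agent.Lib.MP_848d44_nt.Defs
import Pool.Agent.Lib.MP_848d44_nt.Tent
import Pool.Agent.Lib.MP_848d44_nt.Cls

/-!
# Module COP of M848: the sum of the test function over the classes coprime to q
-/

set_option autoImplicit false

namespace Pool.Agent.M848

open Finset
open scoped ArithmeticFunction ComplexConjugate

noncomputable section

namespace CopAux

/-- sums over integers and over naturals -/
theorem sum_int (N D : ℕ) (W : ℤ → ℝ) :
    ∑ m ∈ (Icc (1 : ℤ) N).filter (fun m => (D : ℤ) ∣ m - 0), W m =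
      ∑ m ∈ Icc 1 N, if D ∣ m then W (m : ℤ) else 0 := by
  rw [← Finset.sum_filter]
  symm
  refine Finset.sum_bij (fun (m : ℕ) _ => (m : ℤ)) ?_ ?_ ?_ ?_
  · intro m hm
    rw [mem_filter, mem_Icc] at hm ⊢
    refine ⟨⟨by exact_mod_cast hm.1.1, by exact_mod_cast hm.1.2⟩, ?_⟩
    rw [sub_zero]
    exact Int.natCast_dvd_natCast.2 hm.2
  · intro m _ m' _ h
    exact_mod_cast h
  · intro m hm
    rw [mem_filter, mem_Icc] at hm
    refine ⟨m.toNat, ?_, ?_⟩
    · rw [mem_filter, mem_Icc]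
      refine ⟨⟨by omega, by omega⟩, ?_⟩
      have h := hm.2
      rw [sub_zero] at h
      rw [← Int.natCast_dvd_natCast, Int.toNat_of_nonneg (by omega)]
      exact h
    · exact Int.toNat_of_nonneg (by omega)
  · intro m _
    rfl

/-- the tent over the multiples of `E` -/
theorem tent_mult (N : ℕ) (hN : 1 ≤ N) (E : ℕ) (hE : 1 ≤ E) :
    |(∑ m ∈ Icc 1 N, if E ∣ m then tent N (m : ℤ) else 0) -
      (1 / (E : ℝ)) * ∑ m ∈ Icc (1 : ℤ) N, tent N m| ≤ 3 := by
  have h := class_sum N hN (tent N) (tent_nonneg N)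
    (fun m => (tent_le N m).trans (by norm_num)) (tent_zero N) (tent_lip N) E hE 0
  rw [sum_int] at h
  exact h

/-- the basic sum -/
theorem X_bound (N : ℕ) (hN : 1 ≤ N) (l s : ℕ) (hl : 1 ≤ l) (hs : s.Prime)
    (hc : Nat.Coprime s l) :
    |∑ m ∈ Icc 1 N, (if l ∣ m then tent N (m : ℤ) * ((if s ∣ m then (1 : ℝ) else 0) - 1 / s)
      else 0)| ≤ 6 := by
  have hs0 : (1 : ℝ) ≤ s := by exact_mod_cast hs.one_lt.le
  have e1 : ∑ m ∈ Icc 1 N, (if l ∣ m then tent N (m : ℤ) * ((if s ∣ m then (1 : ℝ) else 0) - 1 / s)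
      else 0) = (∑ m ∈ Icc 1 N, if s * l ∣ m then tent N (m : ℤ) else 0) -
        1 / s * ∑ m ∈ Icc 1 N, if l ∣ m then tent N (m : ℤ) else 0 := by
    rw [Finset.mul_sum, ← Finset.sum_sub_distrib]
    refine Finset.sum_congr rfl fun m _ => ?_
    by_cases h1 : l ∣ m
    · by_cases h2 : s ∣ m
      · rw [if_pos h1, if_pos h2, if_pos (hc.mul_dvd_of_dvd_of_dvd h2 h1), if_pos h1]
        ring
      · rw [if_pos h1, if_neg h2, if_neg fun h => h2 ((Dvd.intro _ rfl).trans h), if_pos h1]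
        ring
    · rw [if_neg h1, if_neg fun h => h1 ((Dvd.intro_left _ rfl).trans h), if_neg h1]
      ring
  have h1 := tent_mult N hN (s * l) (Nat.mul_pos hs.pos hl)
  have h2 := tent_mult N hN l hl
  rw [e1]
  set w := ∑ m ∈ Icc (1 : ℤ) N, tent N m
  set A := ∑ m ∈ Icc 1 N, if s * l ∣ m then tent N (m : ℤ) else 0
  set B := ∑ m ∈ Icc 1 N, if l ∣ m then tent N (m : ℤ) else 0
  have hl0 : (0 : ℝ) < l := by exact_mod_cast hl
  have e2 : A - 1 / s * B = (A - 1 / ((s * l : ℕ) : ℝ) * w) - 1 / s * (B - 1 / (l : ℝ) * w) := by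
    push_cast
    field_simp
    ring
  rw [e2]
  have h3 : |1 / (s : ℝ) * (B - 1 / (l : ℝ) * w)| ≤ 3 := by
    rw [abs_mul, abs_of_nonneg (by positivity)]
    calc 1 / (s : ℝ) * |B - 1 / (l : ℝ) * w| ≤ 1 * 3 := by
          refine mul_le_mul ?_ h2 (abs_nonneg _) (by norm_num)
          rw [div_le_one (by linarith)]
          exact hs0
      _ = 3 := by norm_num
  calc |(A - 1 / ((s * l : ℕ) : ℝ) * w) - 1 / s * (B - 1 / (l : ℝ) * w)|
      ≤ |A - 1 / ((s * l : ℕ) : ℝ) * w| + |1 / s * (B - 1 / (l : ℝ) * w)| := abs_sub _ _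
    _ ≤ 3 + 3 := add_le_add h1 h3
    _ = 6 := by norm_num

/-- the indicator of coprimality -/
theorem coprime_ind (m q : ℕ) (hq : 1 ≤ q) :
    (if m.Coprime q then (1 : ℝ) else 0) =
      ∑ e ∈ q.divisors, if e ∣ m then (ArithmeticFunction.moebius e : ℝ) else 0 := by
  have h1 : ∑ e ∈ q.divisors, (if e ∣ m then (ArithmeticFunction.moebius e : ℤ) else 0) =
      ∑ e ∈ (Nat.gcd m q).divisors, (ArithmeticFunction.moebius e : ℤ) := by
    rw [← Finset.sum_filter]
    refine Finset.sum_congr ?_ fun _ _ => rfl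
    ext e
    rw [mem_filter, Nat.mem_divisors, Nat.mem_divisors, Nat.dvd_gcd_iff]
    constructor
    · rintro ⟨⟨h1, h2⟩, h3⟩
      exact ⟨⟨h3, h1⟩, by
        intro h
        exact absurd (Nat.eq_zero_of_gcd_eq_zero_right h) h2⟩
    · rintro ⟨⟨h1, h2⟩, h3⟩
      exact ⟨⟨h2, by omega⟩, h1⟩
  have h2 : ∑ e ∈ (Nat.gcd m q).divisors, (ArithmeticFunction.moebius e : ℤ) =
      if Nat.gcd m q = 1 then 1 else 0 := by
    have := ArithmeticFunction.coe_mul_zeta_apply (f := ArithmeticFunction.moebius)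
      (x := Nat.gcd m q)
    rw [← this, ArithmeticFunction.moebius_mul_coe_zeta, ArithmeticFunction.one_apply]
  have h3 : ((∑ e ∈ q.divisors, (if e ∣ m then (ArithmeticFunction.moebius e : ℤ) else 0) : ℤ) : ℝ)
      = ∑ e ∈ q.divisors, if e ∣ m then (ArithmeticFunction.moebius e : ℝ) else 0 := by
    push_cast
    rfl
  rw [← h3, h1, h2]
  unfold Nat.Coprime
  split_ifs <;> simp

theorem moebius_abs (e : ℕ) : |(ArithmeticFunction.moebius e : ℝ)| ≤ 1 := by
  have := ArithmeticFunction.abs_moebius_le_one (n := e)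
  exact_mod_cast this

end CopAux

open CopAux in
/-- COP. The sum over the classes coprime to `q`. -/
theorem FF_coprime (b : ℕ → ℝ) (T N q : ℕ) (hN : 1 ≤ N) (hq : 1 ≤ q) (S : Finset ℕ)
    (hS : ∀ s ∈ S, s.Prime ∧ T < s) (hSq : ∀ s ∈ S, ¬ s ∣ q) :
    |∑ m ∈ (Icc 1 N).filter (fun m => m.Coprime q), FF b T N S (m : ℤ)| ≤
      6 * BB b T * S.card * q.divisors.card := by
  classical
  set X : ℕ → ℕ → ℝ := fun s l =>
    ∑ m ∈ Icc 1 N, (if l ∣ m then tent N (m : ℤ) * ((if s ∣ m then (1 : ℝ) else 0) - 1 / s)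
      else 0) with hX
  have e1 : ∑ m ∈ (Icc 1 N).filter (fun m => m.Coprime q), FF b T N S (m : ℤ) =
      ∑ s ∈ S, ∑ d ∈ Icc 1 T, ∑ e ∈ q.divisors,
        b d * (ArithmeticFunction.moebius e : ℝ) * X s (Nat.lcm d e) := by
    have e2 : ∀ m ∈ Icc 1 N, (if m.Coprime q then FF b T N S (m : ℤ) else 0) =
        ∑ s ∈ S, ∑ d ∈ Icc 1 T, ∑ e ∈ q.divisors,
          b d * (ArithmeticFunction.moebius e : ℝ) * (if Nat.lcm d e ∣ m then
            tent N (m : ℤ) * ((if s ∣ m then (1 : ℝ) else 0) - 1 / s) else 0) := by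
      intro m hm
      rw [mem_Icc] at hm
      have e3 : (if m.Coprime q then FF b T N S (m : ℤ) else 0) =
          (if m.Coprime q then (1 : ℝ) else 0) * FF b T N S (m : ℤ) := by
        split_ifs <;> simp
      rw [e3, coprime_ind m q hq]
      unfold FF fs lam
      rw [Finset.mul_sum]
      refine Finset.sum_congr rfl fun s _ => ?_
      simp only [Int.natCast_dvd_natCast]
      rw [Finset.sum_filter, Finset.mul_sum, Finset.mul_sum]
      refine Finset.sum_congr rfl fun d _ => ?_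
      rw [Finset.sum_mul]
      refine Finset.sum_congr rfl fun e _ => ?_
      by_cases h1 : d ∣ m
      · by_cases h2 : e ∣ m
        · rw [if_pos h1, if_pos h2, if_pos (Nat.lcm_dvd h1 h2)]
          ring
        · rw [if_neg h2, if_neg fun h => h2 ((Nat.dvd_lcm_right d e).trans h)]
          ring
      · rw [if_neg h1, if_neg fun h => h1 ((Nat.dvd_lcm_left d e).trans h)]
        ring
    rw [Finset.sum_filter, Finset.sum_congr rfl e2, Finset.sum_comm]
    refine Finset.sum_congr rfl fun s _ => ?_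
    rw [Finset.sum_comm]
    refine Finset.sum_congr rfl fun d _ => ?_
    rw [Finset.sum_comm]
    refine Finset.sum_congr rfl fun e _ => ?_
    rw [hX, Finset.mul_sum]
  rw [e1]
  have hb : ∀ s ∈ S, ∀ d ∈ Icc 1 T, ∀ e ∈ q.divisors,
      |b d * (ArithmeticFunction.moebius e : ℝ) * X s (Nat.lcm d e)| ≤ |b d| * 6 := by
    intro s hs d hd e he
    rw [mem_Icc] at hd
    have he' := Nat.mem_divisors.1 he
    have he1 : 1 ≤ e := Nat.pos_of_mem_divisors he
    have hc1 : Nat.Coprime s d := by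
      rw [(hS s hs).1.coprime_iff_not_dvd]
      intro h
      have := Nat.le_of_dvd hd.1 h
      have := (hS s hs).2
      omega
    have hc2 : Nat.Coprime s e := by
      rw [(hS s hs).1.coprime_iff_not_dvd]
      intro h
      exact hSq s hs (h.trans he'.1)
    have hc : Nat.Coprime s (Nat.lcm d e) :=
      Nat.Coprime.coprime_dvd_right (Nat.lcm_dvd_mul d e) (Nat.Coprime.mul_right hc1 hc2)
    have hXb : |X s (Nat.lcm d e)| ≤ 6 :=
      X_bound N hN (Nat.lcm d e) s (Nat.lcm_pos hd.1 he1) (hS s hs).1 hc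
    rw [abs_mul, abs_mul]
    calc |b d| * |(ArithmeticFunction.moebius e : ℝ)| * |X s (Nat.lcm d e)|
        ≤ |b d| * 1 * 6 := by
          refine mul_le_mul ?_ hXb (abs_nonneg _) (by positivity)
          exact mul_le_mul_of_nonneg_left (moebius_abs e) (abs_nonneg _)
      _ = |b d| * 6 := by ring
  calc |∑ s ∈ S, ∑ d ∈ Icc 1 T, ∑ e ∈ q.divisors,
        b d * (ArithmeticFunction.moebius e : ℝ) * X s (Nat.lcm d e)|
      ≤ ∑ s ∈ S, ∑ d ∈ Icc 1 T, ∑ e ∈ q.divisors, |b d| * 6 := by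
        refine (Finset.abs_sum_le_sum_abs _ _).trans (Finset.sum_le_sum fun s hs => ?_)
        refine (Finset.abs_sum_le_sum_abs _ _).trans (Finset.sum_le_sum fun d hd => ?_)
        exact (Finset.abs_sum_le_sum_abs _ _).trans (Finset.sum_le_sum fun e he => hb s hs d hd e he)
    _ = 6 * BB b T * S.card * q.divisors.card := by
        simp only [Finset.sum_const, nsmul_eq_mul]
        unfold BB
        rw [← Finset.mul_sum, ← Finset.sum_mul]
        ring

end

end Pool.Agent.M848
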