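import Pool.Agent.Lib.MP_848d44_nt.Defs

set_option autoImplicit false

namespace Pool.Agent.M848

open Finset
open scoped ArithmeticFunction ComplexConjugate

noncomputable section

namespace CheAux

/-- The numerical part: `psi(7N/8) - psi(N/8) >= N/5` for `N >= 80000`. -/
theorem psi_diff (N : ℝ) (hN : 80000 ≤ N) :
    N / 5 ≤ Chebyshev.psi (7 * N / 8) - Chebyshev.psi (N / 8) := by
  have h1 := Chebyshev.psi_ge' (x := 7 * N / 8) (by linarith)
  have h2 := Chebyshev.psi_le (x := N / 8) (by linarith)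
  set s : ℝ := Real.sqrt (Real.sqrt (N / 8)) with hs
  have hN8 : (0 : ℝ) ≤ N / 8 := by linarith
  have hs0 : 0 ≤ s := Real.sqrt_nonneg _
  have hs2 : s ^ 2 = Real.sqrt (N / 8) := Real.sq_sqrt (Real.sqrt_nonneg _)
  have hs4 : s ^ 4 = N / 8 := by
    have : s ^ 4 = (s ^ 2) ^ 2 := by ring
    rw [this, hs2, Real.sq_sqrt hN8]
  have hs10 : 10 ≤ s := by
    by_contra h
    push Not at h
    have : s ^ 4 < 10 ^ 4 := by gcongr
    rw [hs4] at this
    linarith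
  have hspos : 0 < s := by linarith
  have hlogs : Real.log s ≤ s - 1 := Real.log_le_sub_one_of_pos hspos
  have hlog8 : Real.log (N / 8) ≤ 4 * s := by
    rw [← hs4, Real.log_pow]
    push_cast
    linarith
  have hlog2 : Real.log 2 ≤ 0.6931471808 := Real.log_two_lt_d9.le
  have hlog2' : 0.6931471803 ≤ Real.log 2 := Real.log_two_gt_d9.le
  have hlog4 : Real.log 4 = 2 * Real.log 2 := by
    rw [show (4 : ℝ) = 2 ^ 2 by norm_num, Real.log_pow]
    push_cast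
    ring
  have hlogN : Real.log (7 * N / 8 + 2) ≤ 3 + 4 * s := by
    have h3 : Real.log (7 * N / 8 + 2) ≤ Real.log N :=
      Real.log_le_log (by linarith) (by linarith)
    have h4 : Real.log N = Real.log (N / 8) + Real.log 8 := by
      rw [← Real.log_mul (by linarith) (by norm_num)]
      congr 1
      ring
    have h5 : Real.log 8 = 3 * Real.log 2 := by
      rw [show (8 : ℝ) = 2 ^ 3 by norm_num, Real.log_pow]
      push_cast
      ring
    rw [h4, h5] at h3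
    linarith
  have hs3 : 2 * Real.sqrt (N / 8) * Real.log (N / 8) ≤ 8 * s ^ 3 := by
    rw [← hs2]
    calc 2 * s ^ 2 * Real.log (N / 8) ≤ 2 * s ^ 2 * (4 * s) := by gcongr
      _ = 8 * s ^ 3 := by ring
  have hNs : N = 8 * s ^ 4 := by rw [hs4]; ring
  rw [hlog4] at h2
  have h34 : 10 * s ^ 3 ≤ s ^ 4 := by
    have : s ^ 4 = s * s ^ 3 := by ring
    rw [this]
    gcongr
  have h13 : 100 * s ≤ s ^ 3 := by
    have : s ^ 3 = s * s * s := by ring
    rw [this]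
    have h6 : (100 : ℝ) ≤ s * s := by nlinarith
    gcongr
  have hl : 7 * N / 8 * Real.log 2 - 2 * Real.log 2 * (N / 8) ≥ 0.43 * N := by
    nlinarith
  nlinarith [h1, h2, hl]

theorem tent_nonneg' (N : ℕ) (m : ℤ) : 0 ≤ tent N m := by
  unfold tent
  positivity

end CheAux

open CheAux in
/-- CHE. Chebyshev. -/
theorem cheb_tent : ∃ N₀ : ℕ, ∀ N : ℕ, N₀ ≤ N → (N : ℝ) / 40 ≤ ∑ n ∈ Icc 1 N, Λ n * tent N n := by
  refine ⟨80000, fun N hN => ?_⟩
  have hNr : (80000 : ℝ) ≤ N := by exact_mod_cast hN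
  have hpos : (0 : ℝ) < N := by linarith
  have hd := psi_diff N hNr
  have hfl : ⌊(N : ℝ) / 8⌋₊ ≤ ⌊7 * (N : ℝ) / 8⌋₊ := Nat.floor_le_floor (by linarith)
  have hpsi : Chebyshev.psi (7 * N / 8) - Chebyshev.psi (N / 8) =
      ∑ n ∈ Ioc ⌊(N : ℝ) / 8⌋₊ ⌊7 * (N : ℝ) / 8⌋₊, Λ n := by
    unfold Chebyshev.psi
    rw [sub_eq_iff_eq_add, add_comm, Finset.sum_Ioc_consecutive _ (Nat.zero_le _) hfl]
  have hsub : Ioc ⌊(N : ℝ) / 8⌋₊ ⌊7 * (N : ℝ) / 8⌋₊ ⊆ Icc 1 N := by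
    intro n hn
    rw [mem_Ioc] at hn
    rw [mem_Icc]
    refine ⟨by omega, ?_⟩
    have h1 : ⌊7 * (N : ℝ) / 8⌋₊ ≤ ⌊(N : ℝ)⌋₊ := Nat.floor_le_floor (by linarith)
    rw [Nat.floor_natCast] at h1
    omega
  calc (N : ℝ) / 40 = (1 / 8) * ((N : ℝ) / 5) := by ring
    _ ≤ (1 / 8) * ∑ n ∈ Ioc ⌊(N : ℝ) / 8⌋₊ ⌊7 * (N : ℝ) / 8⌋₊, Λ n := by
        rw [← hpsi]
        gcongr
    _ = ∑ n ∈ Ioc ⌊(N : ℝ) / 8⌋₊ ⌊7 * (N : ℝ) / 8⌋₊, Λ n * (1 / 8) := by
        rw [Finset.mul_sum]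
        exact Finset.sum_congr rfl fun n _ => mul_comm _ _
    _ ≤ ∑ n ∈ Ioc ⌊(N : ℝ) / 8⌋₊ ⌊7 * (N : ℝ) / 8⌋₊, Λ n * tent N n := by
        refine Finset.sum_le_sum fun n hn => ?_
        rw [mem_Ioc] at hn
        refine mul_le_mul_of_nonneg_left ?_ ArithmeticFunction.vonMangoldt_nonneg
        have h1 : (N : ℝ) / 8 < n := (Nat.floor_lt (by positivity)).1 hn.1
        have h2 : (n : ℝ) ≤ 7 * N / 8 := (Nat.le_floor_iff (by positivity)).1 hn.2
        unfold tent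
        rw [le_div_iff₀ hpos]
        refine le_max_of_le_right (le_min ?_ ?_)
        · push_cast
          linarith
        · push_cast
          linarith
    _ ≤ ∑ n ∈ Icc 1 N, Λ n * tent N n := by
        refine Finset.sum_le_sum_of_subset_of_nonneg hsub fun n _ _ => ?_
        exact mul_nonneg ArithmeticFunction.vonMangoldt_nonneg (tent_nonneg' N n)

end

end Pool.Agent.M848
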