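import Pool.Agent.Lib.MP_848d44_nt.Defs
import Pool.Agent.Lib.MP_848d44_nt.Ncp
import Pool.Agent.Lib.MP_848d44_nt.Che

set_option autoImplicit false

namespace Pool.Agent.M848

open Finset
open scoped ArithmeticFunction ComplexConjugate

noncomputable section

namespace DiaAux

lemma tent_nonneg' (N : ℕ) (m : ℤ) : 0 ≤ tent N m := by
  unfold tent
  positivity

lemma tent_le' (N : ℕ) (m : ℤ) : tent N m ≤ 1 / 2 := by
  unfold tent
  rcases Nat.eq_zero_or_pos N with rfl | hN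
  · simp
  have hN' : (0 : ℝ) < N := by exact_mod_cast hN
  rw [div_le_iff₀ hN']
  apply max_le
  · positivity
  · rcases le_total (m : ℝ) ((N : ℝ) - m) with h | h
    · rw [min_eq_left h]
      linarith
    · rw [min_eq_right h]
      linarith

lemma BB_nonneg (b : ℕ → ℝ) (T : ℕ) : 0 ≤ BB b T := sum_nonneg (fun _ _ => abs_nonneg _)

lemma lam_le (b : ℕ → ℝ) (T : ℕ) (m : ℤ) : |lam b T m| ≤ BB b T := by
  unfold lam BB
  calc |∑ d ∈ (Icc 1 T).filter (fun d : ℕ => (d : ℤ) ∣ m), b d|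
      ≤ ∑ d ∈ (Icc 1 T).filter (fun d : ℕ => (d : ℤ) ∣ m), |b d| := abs_sum_le_sum_abs _ _
    _ ≤ ∑ d ∈ Icc 1 T, |b d| :=
        sum_le_sum_of_subset_of_nonneg (filter_subset _ _) (fun _ _ _ => abs_nonneg _)

lemma b_one_le (b : ℕ → ℝ) (T : ℕ) (hT : 1 ≤ T) : b 1 ≤ BB b T := by
  unfold BB
  have h1 : (1 : ℕ) ∈ Icc 1 T := by
    rw [mem_Icc]
    exact ⟨le_refl _, hT⟩
  exact (le_abs_self _).trans (single_le_sum (f := fun d => |b d|) (fun _ _ => abs_nonneg _) h1)

lemma fs_le (b : ℕ → ℝ) (T N s : ℕ) (hs : s.Prime) (m : ℤ) : |fs b T N s m| ≤ 1 / 2 * BB b T := by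
  unfold fs
  have h1 := tent_nonneg' N m
  have h2 := tent_le' N m
  have h3 := lam_le b T m
  have hs1 : (1 : ℝ) ≤ s := by exact_mod_cast hs.one_lt.le
  have h4 : |(if (s : ℤ) ∣ m then (1 : ℝ) else 0) - 1 / s| ≤ 1 := by
    have h5 : (1 : ℝ) / s ≤ 1 := by
      rw [div_le_one (by linarith)]
      exact hs1
    have h6 : (0 : ℝ) ≤ 1 / s := by positivity
    rw [abs_le]
    split_ifs
    · constructor <;> linarith
    · constructor <;> linarith
  rw [abs_mul, abs_mul, abs_of_nonneg h1]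
  have h7 : tent N m * |(if (s : ℤ) ∣ m then (1 : ℝ) else 0) - 1 / s| ≤ 1 / 2 * 1 :=
    mul_le_mul h2 h4 (abs_nonneg _) (by norm_num)
  rw [mul_one] at h7
  exact mul_le_mul h7 h3 (abs_nonneg _) (by norm_num)

lemma FF_le (b : ℕ → ℝ) (T N : ℕ) (S : Finset ℕ) (hS : ∀ s ∈ S, s.Prime ∧ T < s) (m : ℤ) :
    |FF b T N S m| ≤ 1 / 2 * (S.card : ℝ) * BB b T := by
  unfold FF
  calc |∑ s ∈ S, fs b T N s m| ≤ ∑ s ∈ S, |fs b T N s m| := abs_sum_le_sum_abs _ _
    _ ≤ ∑ s ∈ S, 1 / 2 * BB b T := sum_le_sum (fun s hs => fs_le b T N s (hS s hs).1 m)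
    _ = 1 / 2 * (S.card : ℝ) * BB b T := by
        rw [sum_const, nsmul_eq_mul]
        ring

lemma AA_nonneg (S : Finset ℕ) : 0 ≤ AA S := sum_nonneg (fun _ _ => by positivity)

lemma AA_le (T : ℕ) (S : Finset ℕ) (hS : ∀ s ∈ S, s.Prime ∧ T < s) : AA S ≤ (S.card : ℝ) := by
  unfold AA
  calc ∑ s ∈ S, (1 : ℝ) / s ≤ ∑ s ∈ S, (1 : ℝ) := by
        apply sum_le_sum
        intro s hs
        have hs1 : (1 : ℝ) ≤ s := by exact_mod_cast (hS s hs).1.one_lt.le
        rw [div_le_one (by linarith)]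
        exact hs1
    _ = (S.card : ℝ) := by simp

lemma lam_good (b : ℕ → ℝ) (T n : ℕ) (hT : 1 ≤ T) (hn : n.Prime) (hTn : T < n) :
    lam b T (n : ℤ) = b 1 := by
  unfold lam
  have h1 : (Icc 1 T).filter (fun d : ℕ => (d : ℤ) ∣ (n : ℤ)) = {1} := by
    ext d
    simp only [mem_filter, mem_Icc, mem_singleton, Int.natCast_dvd_natCast]
    constructor
    · rintro ⟨⟨h1, h2⟩, h3⟩
      rcases (Nat.dvd_prime hn).mp h3 with h4 | h4
      · exact h4
      · omega
    · rintro rfl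
      exact ⟨⟨le_refl _, hT⟩, one_dvd _⟩
  rw [h1, sum_singleton]

lemma FF_good (b : ℕ → ℝ) (T N n : ℕ) (S : Finset ℕ) (hT : 1 ≤ T)
    (hS : ∀ s ∈ S, s.Prime ∧ T < s) (hn : n.Prime) (hTn : T < n) (hnS : n ∉ S) :
    FF b T N S (n : ℤ) = - (AA S * b 1 * tent N n) := by
  unfold FF AA
  rw [sum_mul, sum_mul, ← sum_neg_distrib]
  apply sum_congr rfl
  intro s hs
  unfold fs
  have h1 : ¬ ((s : ℤ) ∣ (n : ℤ)) := by
    rw [Int.natCast_dvd_natCast]
    intro h
    rcases (Nat.dvd_prime hn).mp h with h4 | h4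
    · exact (hS s hs).1.ne_one h4
    · exact hnS (h4 ▸ hs)
  rw [if_neg h1, lam_good b T n hT hn hTn]
  ring

lemma Lam_le_log (n N : ℕ) (h1 : 1 ≤ n) (h2 : n ≤ N) : Λ n ≤ Real.log N := by
  refine le_trans ArithmeticFunction.vonMangoldt_le_log ?_
  apply Real.log_le_log
  · exact_mod_cast h1
  · exact_mod_cast h2

lemma E0_bound (N q T : ℕ) (hN : 1 ≤ N) (hq : 1 ≤ q) (hqN : q ≤ N) (S : Finset ℕ) :
    ∑ n ∈ (Icc 1 N).filter (fun n => ¬ (n.Prime ∧ T < n ∧ n ∉ S ∧ n.Coprime q)), Λ n ≤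
      6 * T + 2 * Real.sqrt N * Real.log N + S.card * Real.log N + 2 * Real.log N ^ 2 := by
  have hlam : ∀ n, (0 : ℝ) ≤ Λ n := fun n => ArithmeticFunction.vonMangoldt_nonneg
  have hsub : (Icc 1 N).filter (fun n => ¬ (n.Prime ∧ T < n ∧ n ∉ S ∧ n.Coprime q)) ⊆
      (((Icc 1 T)) ∪ (Ioc 0 N).filter (fun n => ¬ n.Prime)) ∪
      ((Icc 1 N).filter (fun n => n ∈ S) ∪ (Icc 1 N).filter (fun n => ¬ n.Coprime q)) := by
    intro n hn
    rw [mem_filter, mem_Icc] at hn
    simp only [mem_union, mem_filter, mem_Icc, mem_Ioc]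
    obtain ⟨⟨h1, h2⟩, h3⟩ := hn
    by_cases hp : n.Prime
    · by_cases hT : T < n
      · by_cases hS : n ∈ S
        · right; left
          exact ⟨⟨h1, h2⟩, hS⟩
        · right; right
          refine ⟨⟨h1, h2⟩, ?_⟩
          intro h4
          exact h3 ⟨hp, hT, hS, h4⟩
      · left; left
        exact ⟨h1, by omega⟩
    · left; right
      exact ⟨⟨by omega, h2⟩, hp⟩
  have h1 : ∑ n ∈ Icc 1 T, Λ n ≤ 6 * T := by
    have h := Chebyshev.psi_le_const_mul_self (x := (T : ℝ)) (by positivity)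
    rw [Chebyshev.psi, Nat.floor_natCast] at h
    have h2 : Ioc 0 T = Icc 1 T := by
      ext a
      simp only [mem_Ioc, mem_Icc]
      omega
    rw [h2] at h
    have h3 : Real.log 4 ≤ 2 := by
      have : (4 : ℝ) = 2 ^ 2 := by norm_num
      rw [this, Real.log_pow]
      have := Real.log_two_lt_d9
      push_cast
      linarith
    have h4 : (0 : ℝ) ≤ T := by positivity
    nlinarith
  have h2 : ∑ n ∈ (Ioc 0 N).filter (fun n => ¬ n.Prime), Λ n ≤ 2 * Real.sqrt N * Real.log N := by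
    have h := Chebyshev.psi_sub_theta_le (x := (N : ℝ)) (by exact_mod_cast hN)
    rw [Chebyshev.psi_sub_theta_eq_sum_not_prime, Nat.floor_natCast] at h
    exact h
  have h3 : ∑ n ∈ (Icc 1 N).filter (fun n => n ∈ S), Λ n ≤ S.card * Real.log N := by
    calc ∑ n ∈ (Icc 1 N).filter (fun n => n ∈ S), Λ n
        ≤ ∑ n ∈ (Icc 1 N).filter (fun n => n ∈ S), Real.log N := by
          apply sum_le_sum
          intro n hn
          rw [mem_filter, mem_Icc] at hn
          exact Lam_le_log n N hn.1.1 hn.1.2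
      _ = ((Icc 1 N).filter (fun n => n ∈ S)).card * Real.log N := by
          rw [sum_const, nsmul_eq_mul]
      _ ≤ S.card * Real.log N := by
          apply mul_le_mul_of_nonneg_right
          · have : ((Icc 1 N).filter (fun n => n ∈ S)).card ≤ S.card := by
              apply card_le_card
              intro n hn
              exact (mem_filter.mp hn).2
            exact_mod_cast this
          · exact Real.log_nonneg (by exact_mod_cast hN)
  have h4 : ∑ n ∈ (Icc 1 N).filter (fun n => ¬ n.Coprime q), Λ n ≤ 2 * Real.log N ^ 2 := by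
    refine (noncoprime_sum N q hq).trans ?_
    have hl : 0 ≤ Real.log N := Real.log_nonneg (by exact_mod_cast hN)
    have h5 : (Nat.log 2 q : ℝ) * Real.log 2 ≤ Real.log N := by
      have h6 : (2 : ℝ) ^ (Nat.log 2 q) ≤ (N : ℝ) := by
        exact_mod_cast (Nat.pow_log_le_self 2 (by omega)).trans hqN
      rw [← Real.log_pow]
      exact Real.log_le_log (by positivity) h6
    have h7 : (1 : ℝ) / 2 ≤ Real.log 2 := by
      have := Real.log_two_gt_d9
      linarith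
    have h8 : (0 : ℝ) ≤ (Nat.log 2 q : ℝ) := by positivity
    have h9 : (Nat.log 2 q : ℝ) ≤ 2 * Real.log N := by nlinarith
    nlinarith
  calc ∑ n ∈ (Icc 1 N).filter (fun n => ¬ (n.Prime ∧ T < n ∧ n ∉ S ∧ n.Coprime q)), Λ n
      ≤ ∑ n ∈ (((Icc 1 T)) ∪ (Ioc 0 N).filter (fun n => ¬ n.Prime)) ∪
      ((Icc 1 N).filter (fun n => n ∈ S) ∪ (Icc 1 N).filter (fun n => ¬ n.Coprime q)), Λ n :=
        sum_le_sum_of_subset_of_nonneg hsub (fun n _ _ => hlam n)
    _ ≤ (∑ n ∈ Icc 1 T, Λ n + ∑ n ∈ (Ioc 0 N).filter (fun n => ¬ n.Prime), Λ n) +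
      (∑ n ∈ (Icc 1 N).filter (fun n => n ∈ S), Λ n +
        ∑ n ∈ (Icc 1 N).filter (fun n => ¬ n.Coprime q), Λ n) := by
        have hu : ∀ A B : Finset ℕ, ∑ n ∈ A ∪ B, Λ n ≤ ∑ n ∈ A, Λ n + ∑ n ∈ B, Λ n := by
          intro A B
          have := sum_union_inter (s₁ := A) (s₂ := B) (f := fun n => Λ n)
          have h5 : 0 ≤ ∑ n ∈ A ∩ B, Λ n := sum_nonneg (fun n _ => hlam n)
          linarith
        exact (hu _ _).trans (add_le_add (hu _ _) (hu _ _))
    _ ≤ _ := by linarith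

end DiaAux

open DiaAux in
/-- DIA. The diagonal term. -/
theorem diag_term : ∃ N₀ : ℕ, ∀ N : ℕ, N₀ ≤ N → ∀ q : ℕ, 1 ≤ q → q ≤ N →
    ∀ (b : ℕ → ℝ) (T : ℕ) (S : Finset ℕ), 0 ≤ b 1 → 1 ≤ T → T ≤ N →
    (∀ s ∈ S, s.Prime ∧ T < s) →
    ∑ n ∈ (Icc 1 N).filter (fun n => n.Coprime q), Λ n * FF b T N S (n : ℤ) ≤
      - (AA S * b 1 * (N / 40)) + (S.card : ℝ) * BB b T *
        (6 * T + 2 * Real.sqrt N * Real.log N + S.card * Real.log N + 2 * Real.log N ^ 2) := by
  obtain ⟨N₀, hN₀⟩ := cheb_tent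
  refine ⟨max N₀ 1, ?_⟩
  intro N hN q hq hqN b T S hb hT hTN hS
  have hN1 : 1 ≤ N := le_trans (le_max_right _ _) hN
  have hch := hN₀ N (le_trans (le_max_left _ _) hN)
  have hlam : ∀ n, (0 : ℝ) ≤ Λ n := fun n => ArithmeticFunction.vonMangoldt_nonneg
  have hE := E0_bound N q T hN1 hq hqN S
  set Good : ℕ → Prop := fun n => n.Prime ∧ T < n ∧ n ∉ S ∧ n.Coprime q with hGood
  classical
  set E0 : ℝ := ∑ n ∈ (Icc 1 N).filter (fun n => ¬ Good n), Λ n with hE0
  have hE0n : 0 ≤ E0 := sum_nonneg (fun n _ => hlam n)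
  -- split the sum
  have hpt : ∀ n ∈ Icc 1 N, (if n.Coprime q then Λ n * FF b T N S (n : ℤ) else 0) ≤
      - (AA S * b 1) * (Λ n * tent N n) +
        (if ¬ Good n then Λ n * ((S.card : ℝ) * BB b T) else 0) := by
    intro n hn
    have hA := AA_nonneg S
    have hA2 := AA_le T S hS
    have hB := BB_nonneg b T
    have hb1 := b_one_le b T hT
    have ht0 := tent_nonneg' N (n : ℤ)
    have ht1 := tent_le' N (n : ℤ)
    have hl := hlam n
    by_cases hg : Good n
    · have hg' := hg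
      obtain ⟨h1, h2, h3, h4⟩ := hg'
      rw [if_pos h4, if_neg (not_not.mpr hg), FF_good b T N n S hT hS h1 h2 h3]
      nlinarith
    · rw [if_pos hg]
      have h5 : AA S * b 1 * tent N n ≤ (S.card : ℝ) * BB b T * (1 / 2) := by
        have h6 : AA S * b 1 ≤ (S.card : ℝ) * BB b T := mul_le_mul hA2 hb1 hb (by positivity)
        exact mul_le_mul h6 ht1 ht0 (by positivity)
      split_ifs with h
      · have h7 := (abs_le.mp (FF_le b T N S hS (n : ℤ))).2
        have h8 : FF b T N S (n : ℤ) + AA S * b 1 * tent N n ≤ (S.card : ℝ) * BB b T := by linarith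
        have h9 := mul_le_mul_of_nonneg_left h8 hl
        linarith
      · have h8 : AA S * b 1 * tent N n ≤ (S.card : ℝ) * BB b T := by
          have : 0 ≤ (S.card : ℝ) * BB b T := by positivity
          linarith
        have h9 := mul_le_mul_of_nonneg_left h8 hl
        linarith
  have hsum := sum_le_sum hpt
  rw [← sum_filter, sum_add_distrib, ← mul_sum, ← sum_filter, ← sum_mul] at hsum
  have hAb : 0 ≤ AA S * b 1 := mul_nonneg (AA_nonneg S) hb
  have h10 : - (AA S * b 1) * ∑ n ∈ Icc 1 N, Λ n * tent N n ≤ - (AA S * b 1 * (N / 40)) := by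
    have := mul_le_mul_of_nonneg_left hch hAb
    linarith
  have h11 : E0 * ((S.card : ℝ) * BB b T) ≤ (S.card : ℝ) * BB b T *
        (6 * T + 2 * Real.sqrt N * Real.log N + S.card * Real.log N + 2 * Real.log N ^ 2) := by
    rw [mul_comm]
    exact mul_le_mul_of_nonneg_left hE (mul_nonneg (by positivity) (BB_nonneg b T))
  linarith

end

end Pool.Agent.M848
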