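import Pool.Agent.Lib.MP_848d44_nt.Defs
import Pool.Agent.Lib.MP_848d44_nt.Tent

/-!
# The sum over a class as a sum over shifts (module GEQ)
-/

set_option autoImplicit false

namespace Pool.Agent.M848

open Finset
open scoped ArithmeticFunction ComplexConjugate

noncomputable section

namespace GeqAux

theorem up_part (F : ℤ → ℝ) (N q : ℕ) (hq : 1 ≤ q)
    (hF : ∀ m : ℤ, (m ≤ 0 ∨ (N : ℤ) ≤ m) → F m = 0) (n : ℕ) (hn : n ∈ Icc 1 N) :
    ∑ m ∈ ((Icc 1 N).filter (fun m => m % q = n % q)).filter (fun m => n < m), F (m : ℤ) =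
      ∑ h ∈ Icc 1 (N / q), F ((n : ℤ) + h * q) := by
  have h1 : ∑ h ∈ Icc 1 (N / q), F ((n : ℤ) + h * q) =
      ∑ h ∈ (Icc 1 (N / q)).filter (fun h => n + h * q ≤ N), F ((n : ℤ) + h * q) := by
    symm
    apply sum_subset (filter_subset _ _)
    intro h hh hh2
    apply hF
    right
    have : ¬ (n + h * q ≤ N) := fun h3 => hh2 (mem_filter.mpr ⟨hh, h3⟩)
    have h4 : N ≤ n + h * q := by omega
    exact_mod_cast h4
  rw [h1]
  symm
  refine sum_nbij (fun h => n + h * q) ?_ ?_ ?_ ?_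
  · intro h hh
    rw [mem_filter, mem_Icc] at hh
    obtain ⟨⟨h2, h3⟩, h4⟩ := hh
    rw [mem_Icc] at hn
    have h5 : 1 ≤ h * q := Nat.mul_pos h2 hq
    rw [mem_filter, mem_filter, mem_Icc]
    refine ⟨⟨⟨by omega, h4⟩, ?_⟩, by omega⟩
    simp
  · intro h hh h' hh' heq
    have h2 : h * q = h' * q := by simpa using heq
    exact Nat.eq_of_mul_eq_mul_right hq h2
  · intro m hm
    rw [mem_coe, mem_filter, mem_filter, mem_Icc] at hm
    obtain ⟨⟨⟨h2, h3⟩, h4⟩, h5⟩ := hm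
    rw [mem_Icc] at hn
    have h6 : q ∣ m - n := (Nat.modEq_iff_dvd' h5.le).mp h4.symm
    obtain ⟨k, hk⟩ := h6
    have h7 : m = n + k * q := by
      have := Nat.mul_comm q k
      omega
    have h8 : 1 ≤ k := by
      rcases Nat.eq_zero_or_pos k with h0 | h0
      · subst h0; omega
      · exact h0
    refine ⟨k, ?_, h7.symm⟩
    rw [mem_coe, mem_filter, mem_Icc]
    refine ⟨⟨h8, ?_⟩, by omega⟩
    rw [Nat.le_div_iff_mul_le hq]
    omega
  · intro h hh
    push_cast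
    rfl

theorem down_part (F : ℤ → ℝ) (N q : ℕ) (hq : 1 ≤ q)
    (hF : ∀ m : ℤ, (m ≤ 0 ∨ (N : ℤ) ≤ m) → F m = 0) (n : ℕ) (hn : n ∈ Icc 1 N) :
    ∑ m ∈ ((Icc 1 N).filter (fun m => m % q = n % q)).filter (fun m => m < n), F (m : ℤ) =
      ∑ h ∈ Icc 1 (N / q), F ((n : ℤ) - h * q) := by
  have h1 : ∑ h ∈ Icc 1 (N / q), F ((n : ℤ) - h * q) =
      ∑ h ∈ (Icc 1 (N / q)).filter (fun h => h * q < n), F ((n : ℤ) - h * q) := by
    symm
    apply sum_subset (filter_subset _ _)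
    intro h hh hh2
    apply hF
    left
    have h3 : ¬ (h * q < n) := fun h3 => hh2 (mem_filter.mpr ⟨hh, h3⟩)
    have h4 : n ≤ h * q := by omega
    have h5 : (n : ℤ) ≤ (h : ℤ) * q := by exact_mod_cast h4
    linarith
  rw [h1]
  symm
  refine sum_nbij (fun h => n - h * q) ?_ ?_ ?_ ?_
  · intro h hh
    rw [mem_filter, mem_Icc] at hh
    obtain ⟨⟨h2, h3⟩, h4⟩ := hh
    rw [mem_Icc] at hn
    have h5 : 1 ≤ h * q := Nat.mul_pos h2 hq
    rw [mem_filter, mem_filter, mem_Icc]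
    refine ⟨⟨⟨by omega, by omega⟩, ?_⟩, by omega⟩
    have h6 : (n - h * q) ≡ n [MOD q] := by
      refine (Nat.modEq_iff_dvd' (by omega)).mpr ?_
      refine ⟨h, ?_⟩
      have := Nat.mul_comm q h
      omega
    exact h6
  · intro h hh h' hh' heq
    rw [mem_coe, mem_filter] at hh hh'
    have h2 : n - h * q = n - h' * q := heq
    have h3 : h * q = h' * q := by
      have := hh.2
      have := hh'.2
      omega
    exact Nat.eq_of_mul_eq_mul_right hq h3
  · intro m hm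
    rw [mem_coe, mem_filter, mem_filter, mem_Icc] at hm
    obtain ⟨⟨⟨h2, h3⟩, h4⟩, h5⟩ := hm
    rw [mem_Icc] at hn
    have h6 : q ∣ n - m := (Nat.modEq_iff_dvd' h5.le).mp h4
    obtain ⟨k, hk⟩ := h6
    have h7 : n = m + k * q := by
      have := Nat.mul_comm q k
      omega
    have h8 : 1 ≤ k := by
      rcases Nat.eq_zero_or_pos k with h0 | h0
      · subst h0; omega
      · exact h0
    refine ⟨k, ?_, ?_⟩
    · rw [mem_coe, mem_filter, mem_Icc]
      refine ⟨⟨h8, ?_⟩, by omega⟩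
      rw [Nat.le_div_iff_mul_le hq]
      omega
    · show n - k * q = m
      omega
  · intro h hh
    rw [mem_filter] at hh
    have h2 := hh.2
    have : ((n - h * q : ℕ) : ℤ) = (n : ℤ) - h * q := by
      rw [Nat.cast_sub h2.le]
      push_cast
      rfl
    rw [this]

theorem main (F : ℤ → ℝ) (N q : ℕ) (hq : 1 ≤ q)
    (hF : ∀ m : ℤ, (m ≤ 0 ∨ (N : ℤ) ≤ m) → F m = 0) (n : ℕ) (hn : n ∈ Icc 1 N) :
    ∑ m ∈ (Icc 1 N).filter (fun m => m % q = n % q), F (m : ℤ) =
      F n + ∑ h ∈ Icc 1 (N / q), (F ((n : ℤ) + h * q) + F ((n : ℤ) - h * q)) := by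
  rw [sum_add_distrib, ← up_part F N q hq hF n hn, ← down_part F N q hq hF n hn]
  set A := (Icc 1 N).filter (fun m => m % q = n % q) with hA
  have h1 : ∑ m ∈ A, F (m : ℤ) = ∑ m ∈ A.filter (fun m => n < m), F (m : ℤ) +
      ∑ m ∈ A.filter (fun m => ¬ n < m), F (m : ℤ) :=
    (sum_filter_add_sum_filter_not A (fun m => n < m) _).symm
  have h2 : ∑ m ∈ A.filter (fun m => ¬ n < m), F (m : ℤ) =
      F n + ∑ m ∈ A.filter (fun m => m < n), F (m : ℤ) := by
    have h3 : A.filter (fun m => ¬ n < m) = insert n (A.filter (fun m => m < n)) := by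
      ext m
      constructor
      · intro h0
        obtain ⟨h4, h5⟩ := mem_filter.mp h0
        rcases Nat.lt_or_ge m n with h6 | h6
        · exact mem_insert_of_mem (mem_filter.mpr ⟨h4, h6⟩)
        · have : m = n := by omega
          subst this
          exact mem_insert_self _ _
      · intro h0
        rcases mem_insert.mp h0 with h4 | h4
        · subst h4
          refine mem_filter.mpr ⟨?_, lt_irrefl _⟩
          exact mem_filter.mpr ⟨hn, rfl⟩
        · obtain ⟨h5, h6⟩ := mem_filter.mp h4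
          exact mem_filter.mpr ⟨h5, by omega⟩
    rw [h3, sum_insert]
    intro h4
    exact lt_irrefl _ (mem_filter.mp h4).2
  rw [h1, h2]
  ring

theorem FF_zero (b : ℕ → ℝ) (T N : ℕ) (S : Finset ℕ) (m : ℤ) (h : m ≤ 0 ∨ (N : ℤ) ≤ m) :
    FF b T N S m = 0 := by
  unfold FF
  apply sum_eq_zero
  intro s _
  unfold fs
  rw [tent_zero N m h]
  ring

end GeqAux

/-- GEQ. The sum over a class as a sum over shifts. -/
theorem GG_eq (b : ℕ → ℝ) (T N q : ℕ) (hq : 1 ≤ q) (S : Finset ℕ) (n : ℕ) (hn : n ∈ Icc 1 N) :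
    GG b T N q S (n % q) = FF b T N S n + ∑ h ∈ Icc 1 (N / q),
      (FF b T N S ((n : ℤ) + h * q) + FF b T N S ((n : ℤ) - h * q)) := by
  unfold GG
  exact GeqAux.main (FF b T N S) N q hq (fun m h => GeqAux.FF_zero b T N S m h) n hn

end

end Pool.Agent.M848
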