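import Pool.Agent.Lib.MP_848d44_nt.Defs

/-!
# Module DG2 of M848: the diagonal second moment of the test function
-/

set_option autoImplicit false

namespace Pool.Agent.M848

open Finset
open scoped ArithmeticFunction ComplexConjugate

noncomputable section

namespace Dg2Aux

theorem tent_nonneg (N : ℕ) (m : ℤ) : 0 ≤ tent N m := by
  unfold tent
  positivity

theorem tent_le (N : ℕ) (m : ℤ) : tent N m ≤ 1 / 2 := by
  unfold tent
  rcases Nat.eq_zero_or_pos N with rfl | hN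
  · simp
  have hN' : (0 : ℝ) < N := by exact_mod_cast hN
  rw [div_le_iff₀ hN']
  refine max_le (by positivity) ?_
  rcases le_total ((m : ℝ)) ((N : ℝ) - m) with h | h
  · rw [min_eq_left h]; linarith
  · rw [min_eq_right h]; linarith

theorem tent_sq_le (N : ℕ) (m : ℤ) : tent N m ^ 2 ≤ 1 / 4 := by
  have h0 := tent_nonneg N m
  have h1 := tent_le N m
  nlinarith

/-- `lam` at a natural number -/
theorem lam_nat (b : ℕ → ℝ) (T m : ℕ) :
    lam b T (m : ℤ) = ∑ d ∈ Icc 1 T, if d ∣ m then b d else 0 := by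
  unfold lam
  rw [Finset.sum_filter]
  refine Finset.sum_congr rfl fun d _ => ?_
  simp only [Int.natCast_dvd_natCast]

/-- the square of `lam` -/
theorem lam_sq (b : ℕ → ℝ) (T m : ℕ) :
    lam b T (m : ℤ) ^ 2 =
      ∑ d ∈ Icc 1 T, ∑ e ∈ Icc 1 T, if Nat.lcm d e ∣ m then b d * b e else 0 := by
  rw [lam_nat, sq, Finset.sum_mul_sum]
  refine Finset.sum_congr rfl fun d _ => Finset.sum_congr rfl fun e _ => ?_
  by_cases h1 : d ∣ m <;> by_cases h2 : e ∣ m
  · rw [if_pos h1, if_pos h2, if_pos (Nat.lcm_dvd h1 h2)]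
  · rw [if_pos h1, if_neg h2, if_neg fun h => h2 ((Nat.dvd_lcm_right d e).trans h), mul_zero]
  · rw [if_neg h1, if_neg fun h => h1 ((Nat.dvd_lcm_left d e).trans h), zero_mul]
  · rw [if_neg h1, if_neg fun h => h1 ((Nat.dvd_lcm_left d e).trans h), zero_mul]

/-- the number of multiples -/
theorem card_dvd (N k : ℕ) : ((Icc 1 N).filter fun m => k ∣ m).card = N / k := by
  have := Nat.Ioc_filter_dvd_card_eq_div N k
  have h : Icc 1 N = Ioc 0 N := by ext x; simp [Nat.succ_le_iff]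
  rw [h]
  exact this

/-- the basic sum -/
theorem sum_lam_sq (b : ℕ → ℝ) (T N E : ℕ) (hE : 1 ≤ E)
    (hco : ∀ d, 1 ≤ d → d ≤ T → Nat.Coprime E d) :
    ∑ m ∈ Icc 1 N, (if E ∣ m then lam b T (m : ℤ) ^ 2 else 0) ≤
      (N / E : ℝ) * QQ b T + BB b T ^ 2 := by
  have hcop : ∀ d ∈ Icc 1 T, ∀ e ∈ Icc 1 T, ∀ m : ℕ,
      (E ∣ m ∧ Nat.lcm d e ∣ m) ↔ E * Nat.lcm d e ∣ m := by
    intro d hd e he m
    rw [mem_Icc] at hd he
    have hc : Nat.Coprime E (Nat.lcm d e) := by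
      have h1 := Nat.Coprime.mul_right (hco d hd.1 hd.2) (hco e he.1 he.2)
      exact Nat.Coprime.coprime_dvd_right (Nat.lcm_dvd_mul d e) h1
    constructor
    · rintro ⟨h1, h2⟩
      exact hc.mul_dvd_of_dvd_of_dvd h1 h2
    · intro h
      exact ⟨(Dvd.intro _ rfl).trans h, (Dvd.intro_left _ rfl).trans h⟩
  have h1 : ∑ m ∈ Icc 1 N, (if E ∣ m then lam b T (m : ℤ) ^ 2 else 0) =
      ∑ d ∈ Icc 1 T, ∑ e ∈ Icc 1 T, b d * b e * ((N / (E * Nat.lcm d e) : ℕ) : ℝ) := by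
    have e1 : ∀ m ∈ Icc 1 N, (if E ∣ m then lam b T (m : ℤ) ^ 2 else 0) =
        ∑ d ∈ Icc 1 T, ∑ e ∈ Icc 1 T, if E * Nat.lcm d e ∣ m then b d * b e else 0 := by
      intro m _
      by_cases hm : E ∣ m
      · rw [if_pos hm, lam_sq]
        refine Finset.sum_congr rfl fun d hd => Finset.sum_congr rfl fun e he => ?_
        by_cases h2 : Nat.lcm d e ∣ m
        · rw [if_pos h2, if_pos ((hcop d hd e he m).1 ⟨hm, h2⟩)]
        · rw [if_neg h2, if_neg fun h => h2 ((hcop d hd e he m).2 h).2]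
      · rw [if_neg hm]
        symm
        refine Finset.sum_eq_zero fun d hd => Finset.sum_eq_zero fun e he => ?_
        rw [if_neg fun h => hm ((hcop d hd e he m).2 h).1]
    rw [Finset.sum_congr rfl e1, Finset.sum_comm]
    refine Finset.sum_congr rfl fun d _ => ?_
    rw [Finset.sum_comm]
    refine Finset.sum_congr rfl fun e _ => ?_
    rw [← Finset.sum_filter, Finset.sum_const, card_dvd, nsmul_eq_mul, mul_comm]
  have h2 : ∀ d ∈ Icc 1 T, ∀ e ∈ Icc 1 T, b d * b e * ((N / (E * Nat.lcm d e) : ℕ) : ℝ) ≤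
      (N / E : ℝ) * (b d * b e / (Nat.lcm d e : ℝ)) + |b d| * |b e| := by
    intro d hd e he
    rw [mem_Icc] at hd he
    have hl : 0 < Nat.lcm d e := Nat.lcm_pos (by omega) (by omega)
    have hl' : (0 : ℝ) < (Nat.lcm d e : ℝ) := by exact_mod_cast hl
    have hE' : (0 : ℝ) < E := by exact_mod_cast hE
    set x : ℝ := (N : ℝ) / ((E * Nat.lcm d e : ℕ) : ℝ) with hx
    have hf : ((N / (E * Nat.lcm d e) : ℕ) : ℝ) = ⌊x⌋₊ := by
      rw [hx, Nat.floor_div_eq_div]
    have hx0 : 0 ≤ x := by rw [hx]; positivity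
    have hf1 := Nat.floor_le hx0
    have hf2 := Nat.lt_floor_add_one x
    rw [hf]
    have hxe : (N / E : ℝ) * (b d * b e / (Nat.lcm d e : ℝ)) = b d * b e * x := by
      rw [hx]
      push_cast
      field_simp
    rw [hxe]
    have h3 : b d * b e * ((⌊x⌋₊ : ℝ) - x) ≤ |b d| * |b e| := by
      rw [← abs_mul]
      calc b d * b e * ((⌊x⌋₊ : ℝ) - x) ≤ |b d * b e * ((⌊x⌋₊ : ℝ) - x)| := le_abs_self _
        _ = |b d * b e| * |(⌊x⌋₊ : ℝ) - x| := abs_mul _ _
        _ ≤ |b d * b e| * 1 := by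
            refine mul_le_mul_of_nonneg_left ?_ (abs_nonneg _)
            rw [abs_le]
            constructor <;> linarith
        _ = |b d * b e| := mul_one _
    linarith
  rw [h1]
  calc ∑ d ∈ Icc 1 T, ∑ e ∈ Icc 1 T, b d * b e * ((N / (E * Nat.lcm d e) : ℕ) : ℝ)
      ≤ ∑ d ∈ Icc 1 T, ∑ e ∈ Icc 1 T,
          ((N / E : ℝ) * (b d * b e / (Nat.lcm d e : ℝ)) + |b d| * |b e|) :=
        Finset.sum_le_sum fun d hd => Finset.sum_le_sum fun e he => h2 d hd e he
    _ = (N / E : ℝ) * QQ b T + BB b T ^ 2 := by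
        simp only [Finset.sum_add_distrib]
        congr 1
        · unfold QQ
          rw [Finset.mul_sum]
          refine Finset.sum_congr rfl fun d _ => ?_
          rw [Finset.mul_sum]
        · unfold BB
          rw [sq, Finset.sum_mul_sum]

/-- the full sum -/
theorem sum_lam_sq_one (b : ℕ → ℝ) (T N : ℕ) :
    ∑ m ∈ Icc 1 N, lam b T (m : ℤ) ^ 2 ≤ (N : ℝ) * QQ b T + BB b T ^ 2 := by
  have := sum_lam_sq b T N 1 le_rfl fun d _ _ => Nat.coprime_one_left d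
  simpa using this

/-- `QQ` is nonnegative -/
theorem QQ_nonneg (b : ℕ → ℝ) (T : ℕ) : 0 ≤ QQ b T := by
  by_contra hneg
  push Not at hneg
  obtain ⟨M, hM⟩ := exists_nat_gt (BB b T ^ 2 / (- QQ b T))
  have h1 := sum_lam_sq_one b T M
  have h2 : 0 ≤ ∑ m ∈ Icc 1 M, lam b T (m : ℤ) ^ 2 := Finset.sum_nonneg fun _ _ => sq_nonneg _
  rw [div_lt_iff₀ (by linarith)] at hM
  nlinarith

end Dg2Aux

open Dg2Aux in
/-- DG2. Diagonal second moment. -/
theorem FF_diag (b : ℕ → ℝ) (T N : ℕ) (S : Finset ℕ) (hS : ∀ s ∈ S, s.Prime ∧ T < s) :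
    ∑ m ∈ Icc 1 N, FF b T N S (m : ℤ) ^ 2 ≤
      N * QQ b T * (AA S + AA S ^ 2) + 2 * (S.card : ℝ) ^ 2 * BB b T ^ 2 := by
  classical
  set w : ℕ → ℝ := fun m => ∑ s ∈ S, if s ∣ m then (1 : ℝ) else 0 with hw
  set A : ℝ := AA S with hA
  have hA0 : 0 ≤ A := by
    rw [hA]; unfold AA
    exact Finset.sum_nonneg fun s _ => by positivity
  have hA1 : A ≤ S.card := by
    rw [hA]; unfold AA
    calc ∑ s ∈ S, (1 : ℝ) / s ≤ ∑ s ∈ S, 1 := by
          refine Finset.sum_le_sum fun s hs => ?_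
          have : (1 : ℝ) ≤ s := by exact_mod_cast (hS s hs).1.one_lt.le
          rw [div_le_one (by linarith)]
          exact this
      _ = S.card := by simp
  have hQ := QQ_nonneg b T
  have hFF : ∀ m : ℕ, FF b T N S (m : ℤ) = tent N m * (w m - A) * lam b T (m : ℤ) := by
    intro m
    rw [hw, hA]
    unfold FF fs AA
    rw [← Finset.sum_sub_distrib, Finset.mul_sum, Finset.sum_mul]
    refine Finset.sum_congr rfl fun s _ => ?_
    simp only [Int.natCast_dvd_natCast]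
  have hpt : ∀ m ∈ Icc 1 N, FF b T N S (m : ℤ) ^ 2 ≤
      1 / 2 * (w m ^ 2 * lam b T (m : ℤ) ^ 2 + A ^ 2 * lam b T (m : ℤ) ^ 2) := by
    intro m _
    rw [hFF m]
    have ht := tent_sq_le N (m : ℤ)
    have ht0 := sq_nonneg (tent N (m : ℤ))
    have hl := sq_nonneg (lam b T (m : ℤ))
    have h1 : (w m - A) ^ 2 ≤ 2 * w m ^ 2 + 2 * A ^ 2 := by nlinarith [sq_nonneg (w m + A)]
    calc (tent N m * (w m - A) * lam b T (m : ℤ)) ^ 2
        = tent N m ^ 2 * ((w m - A) ^ 2 * lam b T (m : ℤ) ^ 2) := by ring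
      _ ≤ 1 / 4 * ((w m - A) ^ 2 * lam b T (m : ℤ) ^ 2) :=
          mul_le_mul_of_nonneg_right ht (by positivity)
      _ ≤ 1 / 4 * ((2 * w m ^ 2 + 2 * A ^ 2) * lam b T (m : ℤ) ^ 2) := by
          refine mul_le_mul_of_nonneg_left ?_ (by norm_num)
          exact mul_le_mul_of_nonneg_right h1 hl
      _ = _ := by ring
  -- the sum with w^2
  have hcop1 : ∀ s ∈ S, ∀ d, 1 ≤ d → d ≤ T → Nat.Coprime s d := by
    intro s hs d hd1 hd2
    rw [(hS s hs).1.coprime_iff_not_dvd]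
    intro h
    have := Nat.le_of_dvd hd1 h
    have := (hS s hs).2
    omega
  have hpair : ∀ s ∈ S, ∀ s' ∈ S,
      ∑ m ∈ Icc 1 N, (if s ∣ m then (1 : ℝ) else 0) * (if s' ∣ m then 1 else 0) *
        lam b T (m : ℤ) ^ 2 ≤
      ((if s = s' then (N : ℝ) * QQ b T * (1 / s) else 0) +
        (N : ℝ) * QQ b T * (1 / s * (1 / s'))) + BB b T ^ 2 := by
    intro s hs s' hs'
    have hs0 : (0 : ℝ) < s := by exact_mod_cast (hS s hs).1.pos
    have hs0' : (0 : ℝ) < s' := by exact_mod_cast (hS s' hs').1.pos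
    by_cases hss : s = s'
    · subst hss
      rw [if_pos rfl]
      have e1 : ∑ m ∈ Icc 1 N, (if s ∣ m then (1 : ℝ) else 0) * (if s ∣ m then 1 else 0) *
          lam b T (m : ℤ) ^ 2 = ∑ m ∈ Icc 1 N, if s ∣ m then lam b T (m : ℤ) ^ 2 else 0 := by
        refine Finset.sum_congr rfl fun m _ => ?_
        by_cases h : s ∣ m <;> simp [h]
      rw [e1]
      have h2 := sum_lam_sq b T N s (hS s hs).1.pos (hcop1 s hs)
      have h3 : (N / s : ℝ) * QQ b T = (N : ℝ) * QQ b T * (1 / s) := by ring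
      have h4 : 0 ≤ (N : ℝ) * QQ b T * (1 / s * (1 / s)) := by positivity
      linarith
    · rw [if_neg hss, zero_add]
      have hco : Nat.Coprime s s' := (Nat.coprime_primes (hS s hs).1 (hS s' hs').1).2 hss
      have e1 : ∑ m ∈ Icc 1 N, (if s ∣ m then (1 : ℝ) else 0) * (if s' ∣ m then 1 else 0) *
          lam b T (m : ℤ) ^ 2 =
          ∑ m ∈ Icc 1 N, if s * s' ∣ m then lam b T (m : ℤ) ^ 2 else 0 := by
        refine Finset.sum_congr rfl fun m _ => ?_
        by_cases h : s * s' ∣ m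
        · have h1 : s ∣ m := (Dvd.intro _ rfl).trans h
          have h2 : s' ∣ m := (Dvd.intro_left _ rfl).trans h
          simp [h, h1, h2]
        · rw [if_neg h]
          by_cases h1 : s ∣ m
          · by_cases h2 : s' ∣ m
            · exact absurd (hco.mul_dvd_of_dvd_of_dvd h1 h2) h
            · simp [h2]
          · simp [h1]
      rw [e1]
      have h2 := sum_lam_sq b T N (s * s') (Nat.mul_pos (hS s hs).1.pos (hS s' hs').1.pos)
        fun d hd1 hd2 => Nat.Coprime.mul_left (hcop1 s hs d hd1 hd2) (hcop1 s' hs' d hd1 hd2)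
      have h3 : (N / ((s * s' : ℕ) : ℝ) : ℝ) * QQ b T = (N : ℝ) * QQ b T * (1 / s * (1 / s')) := by
        push_cast
        field_simp
      linarith
  have hsumw : ∑ m ∈ Icc 1 N, w m ^ 2 * lam b T (m : ℤ) ^ 2 ≤
      (N : ℝ) * QQ b T * A + (N : ℝ) * QQ b T * A ^ 2 + (S.card : ℝ) ^ 2 * BB b T ^ 2 := by
    have e1 : ∑ m ∈ Icc 1 N, w m ^ 2 * lam b T (m : ℤ) ^ 2 =
        ∑ s ∈ S, ∑ s' ∈ S, ∑ m ∈ Icc 1 N, (if s ∣ m then (1 : ℝ) else 0) *
          (if s' ∣ m then 1 else 0) * lam b T (m : ℤ) ^ 2 := by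
      have : ∀ m ∈ Icc 1 N, w m ^ 2 * lam b T (m : ℤ) ^ 2 =
          ∑ s ∈ S, ∑ s' ∈ S, (if s ∣ m then (1 : ℝ) else 0) *
          (if s' ∣ m then 1 else 0) * lam b T (m : ℤ) ^ 2 := by
        intro m _
        rw [hw]
        simp only
        rw [sq, Finset.sum_mul_sum, Finset.sum_mul]
        refine Finset.sum_congr rfl fun s _ => ?_
        rw [Finset.sum_mul]
      rw [Finset.sum_congr rfl this, Finset.sum_comm]
      refine Finset.sum_congr rfl fun s _ => ?_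
      rw [Finset.sum_comm]
    rw [e1]
    calc ∑ s ∈ S, ∑ s' ∈ S, ∑ m ∈ Icc 1 N, (if s ∣ m then (1 : ℝ) else 0) *
          (if s' ∣ m then 1 else 0) * lam b T (m : ℤ) ^ 2
        ≤ ∑ s ∈ S, ∑ s' ∈ S, (((if s = s' then (N : ℝ) * QQ b T * (1 / s) else 0) +
          (N : ℝ) * QQ b T * (1 / s * (1 / s'))) + BB b T ^ 2) :=
          Finset.sum_le_sum fun s hs => Finset.sum_le_sum fun s' hs' => hpair s hs s' hs'
      _ = (N : ℝ) * QQ b T * A + (N : ℝ) * QQ b T * A ^ 2 + (S.card : ℝ) ^ 2 * BB b T ^ 2 := by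
          simp only [Finset.sum_add_distrib]
          congr 1
          · congr 1
            · rw [hA]; unfold AA
              rw [Finset.mul_sum]
              refine Finset.sum_congr rfl fun s hs => ?_
              rw [Finset.sum_ite_eq, if_pos hs]
            · rw [hA]; unfold AA
              rw [sq, Finset.sum_mul_sum, Finset.mul_sum]
              refine Finset.sum_congr rfl fun s _ => ?_
              rw [Finset.mul_sum]
          · simp only [Finset.sum_const, nsmul_eq_mul]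
            ring
  have hsum1 := sum_lam_sq_one b T N
  have hB2 : 0 ≤ BB b T ^ 2 := sq_nonneg _
  have hAA : A ^ 2 ≤ (S.card : ℝ) ^ 2 := pow_le_pow_left₀ hA0 hA1 2
  calc ∑ m ∈ Icc 1 N, FF b T N S (m : ℤ) ^ 2
      ≤ ∑ m ∈ Icc 1 N, 1 / 2 * (w m ^ 2 * lam b T (m : ℤ) ^ 2 + A ^ 2 * lam b T (m : ℤ) ^ 2) :=
        Finset.sum_le_sum hpt
    _ = 1 / 2 * (∑ m ∈ Icc 1 N, w m ^ 2 * lam b T (m : ℤ) ^ 2 +
          A ^ 2 * ∑ m ∈ Icc 1 N, lam b T (m : ℤ) ^ 2) := by
        rw [← Finset.mul_sum, Finset.sum_add_distrib, ← Finset.mul_sum]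
    _ ≤ 1 / 2 * (((N : ℝ) * QQ b T * A + (N : ℝ) * QQ b T * A ^ 2 +
          (S.card : ℝ) ^ 2 * BB b T ^ 2) + A ^ 2 * ((N : ℝ) * QQ b T + BB b T ^ 2)) := by
        refine mul_le_mul_of_nonneg_left ?_ (by norm_num)
        exact add_le_add hsumw (mul_le_mul_of_nonneg_left hsum1 (sq_nonneg _))
    _ ≤ N * QQ b T * (A + A ^ 2) + 2 * (S.card : ℝ) ^ 2 * BB b T ^ 2 := by
        have h1 : 0 ≤ (N : ℝ) * QQ b T := by positivity
        have h2 : 0 ≤ (N : ℝ) * QQ b T * A := by positivity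
        have h3 : 0 ≤ (N : ℝ) * QQ b T * A ^ 2 := by positivity
        have h4 : A ^ 2 * BB b T ^ 2 ≤ (S.card : ℝ) ^ 2 * BB b T ^ 2 :=
          mul_le_mul_of_nonneg_right hAA hB2
        have h5 : 0 ≤ (S.card : ℝ) ^ 2 * BB b T ^ 2 := by positivity
        nlinarith

end

end Pool.Agent.M848
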