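import Pool.Agent.Lib.MP_848d44_nt.Defs
import Pool.Agent.Lib.MP_848d44_nt.Cls
import Pool.Agent.Lib.MP_848d44_nt.Tent

/-!
# Correlation of the test function with a shift (module SHF)
-/

set_option autoImplicit false

namespace Pool.Agent.M848

open Finset
open scoped ArithmeticFunction ComplexConjugate

noncomputable section

namespace ShfAux

/-- combination of two coprime classes -/
theorem combine {A B : ℕ} (h : A.Coprime B) (r₁ r₂ : ℤ) :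
    ∃ r : ℤ, ∀ m : ℤ, ((A : ℤ) ∣ m - r₁ ∧ (B : ℤ) ∣ m - r₂) ↔ ((A * B : ℕ) : ℤ) ∣ m - r := by
  have hc : IsCoprime (A : ℤ) (B : ℤ) := Nat.isCoprime_iff_coprime.2 h
  obtain ⟨u, w, huw⟩ := hc
  refine ⟨r₁ + u * A * (r₂ - r₁), fun m => ?_⟩
  have e1 : m - (r₁ + u * A * (r₂ - r₁)) = (m - r₁) - A * (u * (r₂ - r₁)) := by ring
  have e2 : m - (r₁ + u * A * (r₂ - r₁)) = (m - r₂) + B * (w * (r₂ - r₁)) := by
    have : u * A = 1 - w * B := by linarith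
    rw [this]; ring
  have hA : (A : ℤ) ∣ m - (r₁ + u * A * (r₂ - r₁)) ↔ (A : ℤ) ∣ m - r₁ := by
    rw [e1]; exact dvd_sub_left (dvd_mul_right _ _)
  have hB : (B : ℤ) ∣ m - (r₁ + u * A * (r₂ - r₁)) ↔ (B : ℤ) ∣ m - r₂ := by
    rw [e2]; exact (dvd_add_left (dvd_mul_right _ _))
  rw [← hA, ← hB]
  constructor
  · rintro ⟨h1, h2⟩
    push_cast
    exact IsCoprime.mul_dvd (Nat.isCoprime_iff_coprime.2 h) h1 h2
  · intro h3
    push_cast at h3
    exact ⟨(dvd_mul_right _ _).trans h3, (dvd_mul_left _ _).trans h3⟩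

/-- the weight -/
def W (N : ℕ) (v m : ℤ) : ℝ := tent N m * tent N (m + v)

theorem W_nonneg (N : ℕ) (v m : ℤ) : 0 ≤ W N v m := mul_nonneg (tent_nonneg _ _) (tent_nonneg _ _)

theorem W_le (N : ℕ) (v m : ℤ) : W N v m ≤ 1 := by
  have h1 := tent_le N m
  have h2 := tent_le N (m + v)
  have h3 := tent_nonneg N m
  have h4 := tent_nonneg N (m + v)
  unfold W
  nlinarith

theorem W_zero (N : ℕ) (v m : ℤ) (h : m ≤ 0 ∨ (N : ℤ) ≤ m) : W N v m = 0 := by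
  unfold W
  rw [tent_zero N m h, zero_mul]

theorem W_lip (N : ℕ) (v m : ℤ) : |W N v m - W N v (m + 1)| ≤ 1 / N := by
  unfold W
  have h1 := tent_le N m
  have h3 := tent_nonneg N m
  have h2 := tent_le N (m + 1 + v)
  have h4 := tent_nonneg N (m + 1 + v)
  have h5 := tent_lip N m
  have h6 := tent_lip N (m + v)
  have e : m + v + 1 = m + 1 + v := by ring
  rw [e] at h6
  have e2 : tent N m * tent N (m + v) - tent N (m + 1) * tent N (m + 1 + v) =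
      tent N m * (tent N (m + v) - tent N (m + 1 + v)) +
        tent N (m + 1 + v) * (tent N m - tent N (m + 1)) := by ring
  rw [e2]
  refine (abs_add_le _ _).trans ?_
  rw [abs_mul, abs_mul, abs_of_nonneg h3, abs_of_nonneg h4]
  have h7 : tent N m * |tent N (m + v) - tent N (m + 1 + v)| ≤ 1 / 2 * (1 / N) :=
    mul_le_mul h1 h6 (abs_nonneg _) (by norm_num)
  have h8 : tent N (m + 1 + v) * |tent N m - tent N (m + 1)| ≤ 1 / 2 * (1 / N) :=
    mul_le_mul h2 h5 (abs_nonneg _) (by norm_num)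
  linarith

/-- the total weight -/
def w0 (N : ℕ) (v : ℤ) : ℝ := ∑ m ∈ Icc (1 : ℤ) N, W N v m

theorem w0_nonneg (N : ℕ) (v : ℤ) : 0 ≤ w0 N v := sum_nonneg fun m _ => W_nonneg N v m

theorem w0_le (N : ℕ) (v : ℤ) : w0 N v ≤ N := by
  unfold w0
  refine (sum_le_card_nsmul _ _ 1 fun m _ => W_le N v m).trans ?_
  simp

theorem cls {N : ℕ} (hN : 1 ≤ N) (v : ℤ) {D : ℕ} (hD : 1 ≤ D) (r : ℤ) :
    |∑ m ∈ (Icc (1 : ℤ) N).filter (fun m => (D : ℤ) ∣ m - r), W N v m - w0 N v / D| ≤ 3 := by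
  have h := class_sum N hN (W N v) (W_nonneg N v) (W_le N v) (W_zero N v) (W_lip N v) D hD r
  have e : w0 N v / D = (1 / (D : ℝ)) * ∑ m ∈ Icc (1 : ℤ) N, W N v m := by
    unfold w0; ring
  rw [e]
  exact h

open Classical in
/-- indicator -/
def ind (P : Prop) : ℝ := if P then 1 else 0

theorem ind_mul (P Q : Prop) : ind P * ind Q = ind (P ∧ Q) := by
  unfold ind
  by_cases h1 : P <;> by_cases h2 : Q <;> simp [h1, h2]

/-- sum of the weight over a set -/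
def TS (N : ℕ) (v : ℤ) (P : ℤ → Prop) : ℝ := ∑ m ∈ Icc (1 : ℤ) N, W N v m * ind (P m)

theorem TS_eq (N : ℕ) (v : ℤ) (P Q : ℤ → Prop) (h : ∀ m, P m ↔ Q m) : TS N v P = TS N v Q := by
  unfold TS
  refine sum_congr rfl fun m _ => ?_
  rw [show P m = Q m from propext (h m)]

theorem TS_false (N : ℕ) (v : ℤ) (P : ℤ → Prop) (h : ∀ m, ¬ P m) : TS N v P = 0 := by
  unfold TS
  refine sum_eq_zero fun m _ => ?_
  unfold ind
  rw [if_neg (h m), mul_zero]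

theorem TS_cls {N : ℕ} (hN : 1 ≤ N) (v : ℤ) (P : ℤ → Prop) {D : ℕ} (hD : 1 ≤ D) (r : ℤ)
    (h : ∀ m, P m ↔ (D : ℤ) ∣ m - r) : |TS N v P - w0 N v / D| ≤ 3 := by
  have e : TS N v P = ∑ m ∈ (Icc (1 : ℤ) N).filter (fun m => (D : ℤ) ∣ m - r), W N v m := by
    rw [TS_eq N v P _ h]
    unfold TS
    rw [sum_filter]
    refine sum_congr rfl fun m _ => ?_
    unfold ind
    by_cases hm : (D : ℤ) ∣ m - r
    · simp [hm]
    · simp [hm]
  rw [e]
  exact cls hN v hD r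

/-- the sum for fixed `s, s', d, e` -/
def XX (N : ℕ) (v : ℤ) (s s' d e : ℕ) : ℝ :=
  ∑ m ∈ Icc (1 : ℤ) N, W N v m * ((ind ((s : ℤ) ∣ m) - 1 / s) * (ind ((s' : ℤ) ∣ m + v) - 1 / s') *
    (ind ((d : ℤ) ∣ m) * ind ((e : ℤ) ∣ m + v)))

theorem XX_eq (N : ℕ) (v : ℤ) (s s' d e : ℕ) : XX N v s s' d e =
    TS N v (fun m => (s : ℤ) ∣ m ∧ (s' : ℤ) ∣ m + v ∧ (d : ℤ) ∣ m ∧ (e : ℤ) ∣ m + v)
    - 1 / s' * TS N v (fun m => (s : ℤ) ∣ m ∧ (d : ℤ) ∣ m ∧ (e : ℤ) ∣ m + v)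
    - 1 / s * TS N v (fun m => (s' : ℤ) ∣ m + v ∧ (d : ℤ) ∣ m ∧ (e : ℤ) ∣ m + v)
    + 1 / (s * s') * TS N v (fun m => (d : ℤ) ∣ m ∧ (e : ℤ) ∣ m + v) := by
  unfold XX TS
  rw [mul_sum, mul_sum, mul_sum, ← sum_sub_distrib, ← sum_sub_distrib, ← sum_add_distrib]
  refine sum_congr rfl fun m _ => ?_
  simp only [← ind_mul]
  ring

theorem lcm_cls (v : ℤ) (d e : ℕ) (m₀ : ℤ) (h1 : (d : ℤ) ∣ m₀) (h2 : (e : ℤ) ∣ m₀ + v) (m : ℤ) :
    ((d : ℤ) ∣ m ∧ (e : ℤ) ∣ m + v) ↔ ((Nat.lcm d e : ℕ) : ℤ) ∣ m - m₀ := by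
  have e1 : (d : ℤ) ∣ m ↔ (d : ℤ) ∣ m - m₀ := (dvd_sub_left h1).symm
  have e2 : (e : ℤ) ∣ m + v ↔ (e : ℤ) ∣ m - m₀ := by
    have : m - m₀ = (m + v) - (m₀ + v) := by ring
    rw [this]
    exact (dvd_sub_left h2).symm
  rw [e1, e2]
  constructor
  · rintro ⟨h3, h4⟩
    rw [← Int.natAbs_dvd_natAbs, Int.natAbs_natCast]
    exact Nat.lcm_dvd (Int.natAbs_dvd_natAbs.2 h3) (Int.natAbs_dvd_natAbs.2 h4)
  · intro h3
    exact ⟨(Int.natCast_dvd_natCast.2 (Nat.dvd_lcm_left d e)).trans h3,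
      (Int.natCast_dvd_natCast.2 (Nat.dvd_lcm_right d e)).trans h3⟩

theorem cop {s T d e : ℕ} (hs : s.Prime) (hT : T < s) (hd : d ∈ Icc 1 T) (he : e ∈ Icc 1 T) :
    s.Coprime (Nat.lcm d e) := by
  rw [Nat.Prime.coprime_iff_not_dvd hs]
  intro h
  have h1 := (Nat.Prime.dvd_lcm hs).1 h
  rw [mem_Icc] at hd he
  rcases h1 with h1 | h1
  · have := Nat.le_of_dvd (by omega) h1; omega
  · have := Nat.le_of_dvd (by omega) h1; omega

theorem bound {N : ℕ} (hN : 1 ≤ N) (v : ℤ) {s s' T d e : ℕ} (hs : s.Prime) (hs' : s'.Prime)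
    (hT : T < s) (hT' : T < s') (hd : d ∈ Icc 1 T) (he : e ∈ Icc 1 T) (hv : ¬ (s : ℤ) ∣ v) :
    |XX N v s s' d e| ≤ if s = s' then (N : ℝ) / s ^ 2 + 8 / s else 9 := by
  have hs2 : (2 : ℝ) ≤ s := by exact_mod_cast hs.two_le
  have hs2' : (2 : ℝ) ≤ s' := by exact_mod_cast hs'.two_le
  have hN0 : (0 : ℝ) ≤ N := Nat.cast_nonneg _
  have hpos : 0 ≤ (if s = s' then (N : ℝ) / s ^ 2 + 8 / s else 9) := by
    split_ifs
    · positivity
    · norm_num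
  by_cases hsol : ∃ m₀ : ℤ, (d : ℤ) ∣ m₀ ∧ (e : ℤ) ∣ m₀ + v
  swap
  · have hno : ∀ m : ℤ, ¬ ((d : ℤ) ∣ m ∧ (e : ℤ) ∣ m + v) := fun m hm => hsol ⟨m, hm⟩
    rw [XX_eq, TS_false _ _ _ fun m hm => hno m ⟨hm.2.2.1, hm.2.2.2⟩,
      TS_false _ _ _ fun m hm => hno m hm.2, TS_false _ _ _ fun m hm => hno m hm.2,
      TS_false _ _ _ fun m hm => hno m hm]
    simpa using hpos
  obtain ⟨m₀, h1, h2⟩ := hsol
  set D := Nat.lcm d e with hD
  have hD1 : 1 ≤ D := by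
    rw [mem_Icc] at hd he
    exact Nat.lcm_pos (by omega) (by omega)
  have hDr : (1 : ℝ) ≤ D := by exact_mod_cast hD1
  have hcl := lcm_cls v d e m₀ h1 h2
  rw [← hD] at hcl
  have c1 : s.Coprime D := cop hs hT hd he
  have c2 : s'.Coprime D := cop hs' hT' hd he
  have t4 := TS_cls hN v (fun m => (d : ℤ) ∣ m ∧ (e : ℤ) ∣ m + v) hD1 m₀ hcl
  obtain ⟨m₁, hm₁⟩ := combine c1 0 m₀
  have t2 := TS_cls hN v (fun m => (s : ℤ) ∣ m ∧ (d : ℤ) ∣ m ∧ (e : ℤ) ∣ m + v)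
    (D := s * D) (Nat.mul_pos hs.pos hD1) m₁ (fun m => by
      rw [← hm₁ m, hcl m, sub_zero])
  obtain ⟨m₂, hm₂⟩ := combine c2 (-v) m₀
  have t3 := TS_cls hN v (fun m => (s' : ℤ) ∣ m + v ∧ (d : ℤ) ∣ m ∧ (e : ℤ) ∣ m + v)
    (D := s' * D) (Nat.mul_pos hs'.pos hD1) m₂ (fun m => by
      rw [← hm₂ m, hcl m, sub_neg_eq_add])
  have hw := w0_le N v
  have hw0 := w0_nonneg N v
  rw [XX_eq]
  set T1 := TS N v (fun m => (s : ℤ) ∣ m ∧ (s' : ℤ) ∣ m + v ∧ (d : ℤ) ∣ m ∧ (e : ℤ) ∣ m + v)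
  set T2 := TS N v (fun m => (s : ℤ) ∣ m ∧ (d : ℤ) ∣ m ∧ (e : ℤ) ∣ m + v)
  set T3 := TS N v (fun m => (s' : ℤ) ∣ m + v ∧ (d : ℤ) ∣ m ∧ (e : ℤ) ∣ m + v)
  set T4 := TS N v (fun m => (d : ℤ) ∣ m ∧ (e : ℤ) ∣ m + v)
  have i1 : (0 : ℝ) < 1 / s := by positivity
  have i2 : (0 : ℝ) < 1 / s' := by positivity
  have j1 : 1 / (s : ℝ) ≤ 1 / 2 := one_div_le_one_div_of_le (by norm_num) hs2
  have j2 : 1 / (s' : ℝ) ≤ 1 / 2 := one_div_le_one_div_of_le (by norm_num) hs2'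
  by_cases hss : s = s'
  · subst hss
    rw [if_pos rfl]
    have z1 : T1 = 0 := TS_false _ _ _ fun m hm => hv (by
      have := (dvd_add_right hm.1).1 hm.2.1
      exact this)
    set a := 1 / (s : ℝ) with ha
    have e1 : 1 / ((s : ℝ) * s) = a * a := by rw [ha]; field_simp
    have e2 : w0 N v / ((s * D : ℕ) : ℝ) = a * (w0 N v / D) := by
      rw [ha]; push_cast; field_simp
    have e3 : (N : ℝ) / s ^ 2 + 8 / s = a * a * N + 8 * a := by rw [ha]; field_simp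
    rw [e2] at t2 t3
    rw [z1, e1, e3]
    set u := w0 N v / D with hu
    have hu0 : 0 ≤ u := by positivity
    have huN : u ≤ N := (div_le_self hw0 hDr).trans hw
    obtain ⟨p2, q2⟩ := abs_le.1 t2
    obtain ⟨p3, q3⟩ := abs_le.1 t3
    obtain ⟨p4, q4⟩ := abs_le.1 t4
    have k1 : 0 ≤ a * (u * a) := by positivity
    have k2 : a * a * u ≤ a * a * N := mul_le_mul_of_nonneg_left huN (by positivity)
    have k3 : a * a ≤ a * (1 / 2) := mul_le_mul_of_nonneg_left j1 i1.le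
    rw [abs_le]
    constructor
    · have l2 : a * T2 ≤ a * (a * u + 3) := mul_le_mul_of_nonneg_left (by linarith) i1.le
      have l3 : a * T3 ≤ a * (a * u + 3) := mul_le_mul_of_nonneg_left (by linarith) i1.le
      have l4 : a * a * (u - 3) ≤ a * a * T4 :=
        mul_le_mul_of_nonneg_left (by linarith) (by positivity)
      nlinarith
    · have l2 : a * (a * u - 3) ≤ a * T2 := mul_le_mul_of_nonneg_left (by linarith) i1.le
      have l3 : a * (a * u - 3) ≤ a * T3 := mul_le_mul_of_nonneg_left (by linarith) i1.le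
      have l4 : a * a * T4 ≤ a * a * (u + 3) :=
        mul_le_mul_of_nonneg_left (by linarith) (by positivity)
      nlinarith
  · rw [if_neg hss]
    have c3 : s.Coprime (s' * D) := Nat.Coprime.mul_right ((Nat.coprime_primes hs hs').2 hss) c1
    obtain ⟨m₃, hm₃⟩ := combine c3 0 m₂
    have t1 := TS_cls hN v
      (fun m => (s : ℤ) ∣ m ∧ (s' : ℤ) ∣ m + v ∧ (d : ℤ) ∣ m ∧ (e : ℤ) ∣ m + v)
      (D := s * (s' * D)) (Nat.mul_pos hs.pos (Nat.mul_pos hs'.pos hD1)) m₃ (fun m => by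
        rw [← hm₃ m, ← hm₂ m, hcl m, sub_zero, sub_neg_eq_add])
    set a := 1 / (s : ℝ) with ha
    set a' := 1 / (s' : ℝ) with ha'
    set u := w0 N v / D with hu
    have e0 : w0 N v / ((s * (s' * D) : ℕ) : ℝ) = a * a' * u := by
      rw [ha, ha', hu]; push_cast; field_simp
    have e1 : 1 / ((s : ℝ) * s') = a * a' := by rw [ha, ha']; field_simp
    have e2 : w0 N v / ((s * D : ℕ) : ℝ) = a * u := by
      rw [ha, hu]; push_cast; field_simp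
    have e3 : w0 N v / ((s' * D : ℕ) : ℝ) = a' * u := by
      rw [ha', hu]; push_cast; field_simp
    have t1' : |T1 - a * a' * u| ≤ 3 := by rw [← e0]; exact t1
    rw [e2] at t2
    rw [e3] at t3
    rw [e1]
    obtain ⟨p1, q1⟩ := abs_le.1 t1'
    obtain ⟨p2, q2⟩ := abs_le.1 t2
    obtain ⟨p3, q3⟩ := abs_le.1 t3
    obtain ⟨p4, q4⟩ := abs_le.1 t4
    have k1 : a' * T2 ≤ a' * (a * u + 3) := mul_le_mul_of_nonneg_left (by linarith) i2.le
    have k2 : a' * (a * u - 3) ≤ a' * T2 := mul_le_mul_of_nonneg_left (by linarith) i2.le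
    have k3 : a * T3 ≤ a * (a' * u + 3) := mul_le_mul_of_nonneg_left (by linarith) i1.le
    have k4 : a * (a' * u - 3) ≤ a * T3 := mul_le_mul_of_nonneg_left (by linarith) i1.le
    have k5 : a * a' * T4 ≤ a * a' * (u + 3) :=
      mul_le_mul_of_nonneg_left (by linarith) (by positivity)
    have k6 : a * a' * (u - 3) ≤ a * a' * T4 :=
      mul_le_mul_of_nonneg_left (by linarith) (by positivity)
    have k7 : a * a' ≤ 1 / 2 * (1 / 2) := mul_le_mul j1 j2 i2.le (by norm_num)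
    rw [abs_le]
    constructor
    · nlinarith
    · nlinarith

theorem lam_eq (b : ℕ → ℝ) (T : ℕ) (m : ℤ) :
    lam b T m = ∑ d ∈ Icc 1 T, b d * ind ((d : ℤ) ∣ m) := by
  unfold lam ind
  rw [sum_filter]
  refine sum_congr rfl fun d _ => ?_
  by_cases h : (d : ℤ) ∣ m <;> simp [h]

theorem fs_eq (b : ℕ → ℝ) (T N s : ℕ) (m : ℤ) :
    fs b T N s m = ∑ d ∈ Icc 1 T, b d * (tent N m * ((ind ((s : ℤ) ∣ m) - 1 / s) *
      ind ((d : ℤ) ∣ m))) := by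
  have e : (if (s : ℤ) ∣ m then (1 : ℝ) else 0) = ind ((s : ℤ) ∣ m) := by
    unfold ind
    by_cases h : (s : ℤ) ∣ m <;> simp [h]
  unfold fs
  rw [e, lam_eq, mul_sum]
  refine sum_congr rfl fun d _ => by ring

theorem main_eq (b : ℕ → ℝ) (T N : ℕ) (S : Finset ℕ) (v : ℤ) :
    ∑ m ∈ Icc 1 N, FF b T N S (m : ℤ) * FF b T N S ((m : ℤ) + v) =
      ∑ s ∈ S, ∑ s' ∈ S, ∑ d ∈ Icc 1 T, ∑ e ∈ Icc 1 T, b d * b e * XX N v s s' d e := by
  have h0 : ∑ m ∈ Icc 1 N, FF b T N S (m : ℤ) * FF b T N S ((m : ℤ) + v) =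
      ∑ m ∈ Icc (1 : ℤ) N, FF b T N S m * FF b T N S (m + v) := by
    rw [show (Icc (1 : ℤ) N) = (Icc 1 N).image (Nat.cast : ℕ → ℤ) by
      ext x
      rw [mem_Icc, mem_image]
      constructor
      · rintro ⟨h1, h2⟩
        exact ⟨x.toNat, mem_Icc.2 ⟨by omega, by omega⟩, by omega⟩
      · rintro ⟨a, ha, rfl⟩
        rw [mem_Icc] at ha
        exact ⟨by omega, by omega⟩]
    rw [sum_image fun a _ b _ hab => by exact_mod_cast hab]
  rw [h0]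
  have h1 : ∀ m ∈ Icc (1 : ℤ) N, FF b T N S m * FF b T N S (m + v) =
      ∑ s ∈ S, ∑ s' ∈ S, ∑ d ∈ Icc 1 T, ∑ e ∈ Icc 1 T, b d * b e *
        (W N v m * ((ind ((s : ℤ) ∣ m) - 1 / s) * (ind ((s' : ℤ) ∣ m + v) - 1 / s') *
    (ind ((d : ℤ) ∣ m) * ind ((e : ℤ) ∣ m + v)))) := by
    intro m _
    unfold FF
    rw [sum_mul_sum]
    refine sum_congr rfl fun s _ => sum_congr rfl fun s' _ => ?_
    rw [fs_eq, fs_eq, sum_mul_sum]
    refine sum_congr rfl fun d _ => sum_congr rfl fun e _ => ?_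
    unfold W
    ring
  rw [sum_congr rfl h1, sum_comm]
  refine sum_congr rfl fun s _ => ?_
  rw [sum_comm]
  refine sum_congr rfl fun s' _ => ?_
  rw [sum_comm]
  refine sum_congr rfl fun d _ => ?_
  rw [sum_comm]
  refine sum_congr rfl fun e _ => ?_
  unfold XX
  rw [mul_sum]

end ShfAux

open ShfAux in
/-- SHF. Correlation of the test function with a shift. -/
theorem FF_shift (b : ℕ → ℝ) (T N : ℕ) (hN : 1 ≤ N) (S : Finset ℕ)
    (hS : ∀ s ∈ S, s.Prime ∧ T < s) (v : ℤ) (hv : ∀ s ∈ S, ¬ (s : ℤ) ∣ v) :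
    |∑ m ∈ Icc 1 N, FF b T N S (m : ℤ) * FF b T N S ((m : ℤ) + v)| ≤
      BB b T ^ 2 * (9 * (S.card : ℝ) ^ 2 + ∑ s ∈ S, ((N : ℝ) / s ^ 2 + 8 / s)) := by
  rw [main_eq]
  have h1 : ∀ s ∈ S, ∀ s' ∈ S,
      |∑ d ∈ Icc 1 T, ∑ e ∈ Icc 1 T, b d * b e * XX N v s s' d e| ≤
        BB b T ^ 2 * (if s = s' then (N : ℝ) / s ^ 2 + 8 / s else 9) := by
    intro s hs s' hs'
    refine (abs_sum_le_sum_abs _ _).trans ?_
    have h2 : BB b T ^ 2 * (if s = s' then (N : ℝ) / s ^ 2 + 8 / s else 9) =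
        ∑ d ∈ Icc 1 T, ∑ e ∈ Icc 1 T, |b d| * |b e| *
          (if s = s' then (N : ℝ) / s ^ 2 + 8 / s else 9) := by
      unfold BB
      rw [sq, sum_mul_sum, sum_mul]
      refine sum_congr rfl fun d _ => ?_
      rw [sum_mul]
    rw [h2]
    refine sum_le_sum fun d hd => ?_
    refine (abs_sum_le_sum_abs _ _).trans ?_
    refine sum_le_sum fun e he => ?_
    rw [abs_mul, abs_mul]
    exact mul_le_mul_of_nonneg_left
      (bound hN v (hS s hs).1 (hS s' hs').1 (hS s hs).2 (hS s' hs').2 hd he (hv s hs))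
      (by positivity)
  have h3 : |∑ s ∈ S, ∑ s' ∈ S, ∑ d ∈ Icc 1 T, ∑ e ∈ Icc 1 T, b d * b e * XX N v s s' d e| ≤
      ∑ s ∈ S, ∑ s' ∈ S, BB b T ^ 2 * (if s = s' then (N : ℝ) / s ^ 2 + 8 / s else 9) := by
    refine (abs_sum_le_sum_abs _ _).trans ?_
    refine sum_le_sum fun s hs => ?_
    refine (abs_sum_le_sum_abs _ _).trans ?_
    exact sum_le_sum fun s' hs' => h1 s hs s' hs'
  refine h3.trans ?_
  simp only [← mul_sum]
  refine mul_le_mul_of_nonneg_left ?_ (sq_nonneg _)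
  have h4 : ∀ s ∈ S, ∑ s' ∈ S, (if s = s' then (N : ℝ) / s ^ 2 + 8 / s else 9) ≤
      9 * S.card + ((N : ℝ) / s ^ 2 + 8 / s) := by
    intro s hs
    have h5 : ∀ s' ∈ S, (if s = s' then (N : ℝ) / s ^ 2 + 8 / s else 9) ≤
        9 + if s = s' then ((N : ℝ) / s ^ 2 + 8 / s) else 0 := by
      intro s' _
      split_ifs
      · linarith
      · linarith
    refine (sum_le_sum h5).trans ?_
    rw [sum_add_distrib, sum_const, sum_ite_eq, if_pos hs, nsmul_eq_mul]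
    linarith
  refine (sum_le_sum h4).trans ?_
  rw [sum_add_distrib, sum_const, nsmul_eq_mul]
  have : (S.card : ℝ) * (9 * S.card) = 9 * (S.card : ℝ) ^ 2 := by ring
  linarith

end

end Pool.Agent.M848
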