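import Pool.Agent.Lib.MP_848d44_nt.Defs
import Pool.Agent.Lib.MP_848d44_nt.Geq
import Pool.Agent.Lib.MP_848d44_nt.Shf
import Pool.Agent.Lib.MP_848d44_nt.Dg2

set_option autoImplicit false

namespace Pool.Agent.M848

open Finset
open scoped ArithmeticFunction ComplexConjugate

noncomputable section

/-- MOM. Second moment of the class sums. -/
theorem GG_moment (b : ℕ → ℝ) (T N q : ℕ) (hN : 1 ≤ N) (hq : 1 ≤ q) (S : Finset ℕ)
    (hS : ∀ s ∈ S, s.Prime ∧ T < s) (hSq : ∀ s ∈ S, ¬ s ∣ q) (hSH : ∀ s ∈ S, N / q < s) :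
    ∑ a ∈ range q, GG b T N q S a ^ 2 ≤
      N * QQ b T * (AA S + AA S ^ 2) + 2 * (S.card : ℝ) ^ 2 * BB b T ^ 2 +
      2 * ((N / q : ℕ) : ℝ) *
        (BB b T ^ 2 * (9 * (S.card : ℝ) ^ 2 + ∑ s ∈ S, ((N : ℝ) / s ^ 2 + 8 / s))) := by
  have h1 : ∑ a ∈ range q, GG b T N q S a ^ 2 =
      ∑ m ∈ Icc 1 N, FF b T N S (m : ℤ) * GG b T N q S (m % q) := by
    have h2 : ∀ a ∈ range q, GG b T N q S a ^ 2 =
        ∑ m ∈ (Icc 1 N).filter (fun m => m % q = a),
          FF b T N S (m : ℤ) * GG b T N q S (m % q) := by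
      intro a _
      rw [pow_two]
      conv_lhs => rw [GG, sum_mul]
      refine sum_congr rfl fun m hm => ?_
      rw [(mem_filter.1 hm).2, GG]
    rw [sum_congr rfl h2]
    exact sum_fiberwise_of_maps_to (fun m _ => mem_range.2 (Nat.mod_lt _ hq)) _
  have h3 : ∑ m ∈ Icc 1 N, FF b T N S (m : ℤ) * GG b T N q S (m % q) =
      ∑ m ∈ Icc 1 N, FF b T N S (m : ℤ) ^ 2 + ∑ h ∈ Icc 1 (N / q),
        (∑ m ∈ Icc 1 N, FF b T N S (m : ℤ) * FF b T N S ((m : ℤ) + (h * q : ℤ)) +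
          ∑ m ∈ Icc 1 N, FF b T N S (m : ℤ) * FF b T N S ((m : ℤ) + (-(h * q) : ℤ))) := by
    have h4 : ∀ m ∈ Icc 1 N, FF b T N S (m : ℤ) * GG b T N q S (m % q) =
        FF b T N S (m : ℤ) ^ 2 + ∑ h ∈ Icc 1 (N / q),
          (FF b T N S (m : ℤ) * FF b T N S ((m : ℤ) + (h * q : ℤ)) +
            FF b T N S (m : ℤ) * FF b T N S ((m : ℤ) + (-(h * q) : ℤ))) := by
      intro m hm
      rw [GG_eq b T N q hq S m hm, mul_add, mul_sum]
      congr 1
      · ring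
      · refine sum_congr rfl fun h _ => ?_
        rw [mul_add, sub_eq_add_neg]
    rw [sum_congr rfl h4, sum_add_distrib, sum_comm]
    congr 1
    refine sum_congr rfl fun h _ => ?_
    rw [sum_add_distrib]
  rw [h1, h3]
  set D := BB b T ^ 2 * (9 * (S.card : ℝ) ^ 2 + ∑ s ∈ S, ((N : ℝ) / s ^ 2 + 8 / s)) with hD
  have hnd : ∀ h ∈ Icc 1 (N / q), ∀ s ∈ S, ¬ (s : ℤ) ∣ ((h * q : ℕ) : ℤ) := by
    intro h hh s hs hdvd
    rw [Int.natCast_dvd_natCast] at hdvd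
    rcases (Nat.Prime.dvd_mul (hS s hs).1).1 hdvd with h5 | h5
    · have h6 := Nat.le_of_dvd (mem_Icc.1 hh).1 h5
      have h7 := hSH s hs
      have h8 := (mem_Icc.1 hh).2
      omega
    · exact hSq s hs h5
  have h5 : ∑ h ∈ Icc 1 (N / q),
        (∑ m ∈ Icc 1 N, FF b T N S (m : ℤ) * FF b T N S ((m : ℤ) + (h * q : ℤ)) +
          ∑ m ∈ Icc 1 N, FF b T N S (m : ℤ) * FF b T N S ((m : ℤ) + (-(h * q) : ℤ))) ≤
      2 * ((N / q : ℕ) : ℝ) * D := by
    have h6 : ∀ h ∈ Icc 1 (N / q),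
        (∑ m ∈ Icc 1 N, FF b T N S (m : ℤ) * FF b T N S ((m : ℤ) + (h * q : ℤ)) +
          ∑ m ∈ Icc 1 N, FF b T N S (m : ℤ) * FF b T N S ((m : ℤ) + (-(h * q) : ℤ))) ≤
        2 * D := by
      intro h hh
      have h7 := le_of_abs_le (FF_shift b T N hN S hS (h * q : ℤ) (fun s hs => by
        have := hnd h hh s hs
        push_cast at this
        exact this))
      have h8 := le_of_abs_le (FF_shift b T N hN S hS (-(h * q) : ℤ) (fun s hs => by
        have := hnd h hh s hs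
        push_cast at this
        rw [dvd_neg]
        exact this))
      rw [← hD] at h7 h8
      linarith
    refine le_trans (sum_le_sum h6) ?_
    rw [sum_const, Nat.card_Icc, nsmul_eq_mul, Nat.add_sub_cancel]
    apply le_of_eq; ring
  have h6 := FF_diag b T N S hS
  linarith

end

end Pool.Agent.M848
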