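import Pool.Agent.Lib.MP_848d44_nt.Defs
import Pool.Agent.Lib.MP_848d44_nt.A.PVP

/-!
# MP_848d44_nt: Pólya–Vinogradov, twisted by a character modulo `d`
-/

set_option autoImplicit false

namespace Pool.Agent.M848

open Finset
open scoped ArithmeticFunction ComplexConjugate

noncomputable section

theorem pv_twist {s : ℕ} (hs : s.Prime) {χ : ℕ → ℂ} (h : χ ∈ nc s) {d : ℕ} (hd1 : 1 ≤ d)
    (hd : ¬ s ∣ d) {ξ : ℕ → ℂ} (hξ : ξ ∈ ac d) (z : ℕ) :
    ‖∑ r ∈ Icc 1 z, χ r * ξ r‖ ≤ d * (Real.sqrt s * (1 + Real.log s)) :=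
  MP848.pvt hs h hd1 hd hξ z

theorem PVTAux.abel (g : ℕ → ℂ) (P : ℝ) (hg : ∀ z, ‖∑ r ∈ Icc 1 z, g r‖ ≤ P) (z : ℕ) :
    ‖∑ r ∈ Icc 1 z, g r * (Real.log r : ℂ)‖ ≤ 2 * P * Real.log z := by
  have key : ∀ z : ℕ, 1 ≤ z → ‖∑ k ∈ Icc 1 z, g k * (Real.log k : ℂ) -
      (Real.log z : ℂ) * ∑ k ∈ Icc 1 z, g k‖ ≤ P * Real.log z := by
    intro z hz
    induction z, hz using Nat.le_induction with
    | base => simp
    | succ z hz ih =>
      rw [Finset.sum_Icc_succ_top (by omega), Finset.sum_Icc_succ_top (by omega)]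
      have e : ∑ k ∈ Icc 1 z, g k * (Real.log k : ℂ) +
          g (z + 1) * (Real.log ((z + 1 : ℕ) : ℝ) : ℂ) -
          (Real.log ((z + 1 : ℕ) : ℝ) : ℂ) * (∑ k ∈ Icc 1 z, g k + g (z + 1)) =
          (∑ k ∈ Icc 1 z, g k * (Real.log k : ℂ) - (Real.log z : ℂ) * ∑ k ∈ Icc 1 z, g k) -
          ((Real.log ((z + 1 : ℕ) : ℝ) - Real.log z : ℝ) : ℂ) * ∑ k ∈ Icc 1 z, g k := by
        push_cast
        ring
      rw [e]
      refine (norm_sub_le _ _).trans ?_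
      have h0 : 0 ≤ Real.log ((z + 1 : ℕ) : ℝ) - Real.log z := by
        rw [sub_nonneg]
        apply Real.log_le_log
        · exact_mod_cast hz
        · push_cast; linarith
      have h1 : ‖((Real.log ((z + 1 : ℕ) : ℝ) - Real.log z : ℝ) : ℂ) * ∑ k ∈ Icc 1 z, g k‖ ≤
          (Real.log ((z + 1 : ℕ) : ℝ) - Real.log z) * P := by
        rw [norm_mul, Complex.norm_real, Real.norm_of_nonneg h0]
        exact mul_le_mul_of_nonneg_left (hg z) h0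
      calc _ ≤ P * Real.log z + (Real.log ((z + 1 : ℕ) : ℝ) - Real.log z) * P := add_le_add ih h1
        _ = P * Real.log ((z + 1 : ℕ) : ℝ) := by ring
  rcases Nat.eq_zero_or_pos z with h | h
  · subst h; simp
  · have h1 := key z h
    have h2 : ‖(Real.log z : ℂ) * ∑ k ∈ Icc 1 z, g k‖ ≤ Real.log z * P := by
      rw [norm_mul, Complex.norm_real, Real.norm_of_nonneg (Real.log_natCast_nonneg z)]
      exact mul_le_mul_of_nonneg_left (hg z) (Real.log_natCast_nonneg z)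
    calc ‖∑ k ∈ Icc 1 z, g k * (Real.log k : ℂ)‖
        = ‖(∑ k ∈ Icc 1 z, g k * (Real.log k : ℂ) - (Real.log z : ℂ) * ∑ k ∈ Icc 1 z, g k) +
          (Real.log z : ℂ) * ∑ k ∈ Icc 1 z, g k‖ := by rw [sub_add_cancel]
      _ ≤ P * Real.log z + Real.log z * P := (norm_add_le _ _).trans (add_le_add h1 h2)
      _ = 2 * P * Real.log z := by ring

theorem pv_twist_log {s : ℕ} (hs : s.Prime) {χ : ℕ → ℂ} (h : χ ∈ nc s) {d : ℕ} (hd1 : 1 ≤ d)
    (hd : ¬ s ∣ d) {ξ : ℕ → ℂ} (hξ : ξ ∈ ac d) (z : ℕ) :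
    ‖∑ r ∈ Icc 1 z, χ r * ξ r * (Real.log r : ℂ)‖ ≤
      2 * (d * (Real.sqrt s * (1 + Real.log s))) * Real.log z :=
  PVTAux.abel (fun r => χ r * ξ r) _ (fun z => pv_twist hs h hd1 hd hξ z) z

end

end Pool.Agent.M848
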