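import Mathlib
import Pool.Agent.Lib.MP_848d44_nt.Defs

/-!
# Sums against the tent along a progression
-/

set_option autoImplicit false

namespace Pool.Agent.M848

open Finset
open scoped ArithmeticFunction ComplexConjugate

noncomputable section

namespace TVAux

theorem step (H : ℕ) (c : ℕ → ℝ) (f : ℕ → ℂ) (P : ℝ)
    (hP : ∀ z ≤ H, ‖∑ h ∈ Icc 1 z, f h‖ ≤ P)
    (hc : ∀ h, c (h + 1) ≤ c h) (n : ℕ) (hn : n < H) :
    ‖(∑ h ∈ Icc 1 (n + 1), ((c h : ℝ) : ℂ) * f h) -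
      ((c (n + 1) : ℝ) : ℂ) * ∑ h ∈ Icc 1 (n + 1), f h‖ ≤ (c 1 - c (n + 1)) * P := by
  induction n with
  | zero => simp
  | succ n ih =>
    have ih' := ih (by omega)
    have h1 : (∑ h ∈ Icc 1 (n + 1 + 1), ((c h : ℝ) : ℂ) * f h) -
        ((c (n + 1 + 1) : ℝ) : ℂ) * ∑ h ∈ Icc 1 (n + 1 + 1), f h =
        ((∑ h ∈ Icc 1 (n + 1), ((c h : ℝ) : ℂ) * f h) -
          ((c (n + 1) : ℝ) : ℂ) * ∑ h ∈ Icc 1 (n + 1), f h) +
        (((c (n + 1) - c (n + 1 + 1) : ℝ)) : ℂ) * ∑ h ∈ Icc 1 (n + 1), f h := by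
      have hS1 : ∑ h ∈ Icc 1 (n + 1 + 1), ((c h : ℝ) : ℂ) * f h =
          ∑ h ∈ Icc 1 (n + 1), ((c h : ℝ) : ℂ) * f h +
            ((c (n + 1 + 1) : ℝ) : ℂ) * f (n + 1 + 1) :=
        Finset.sum_Icc_succ_top (by omega) _
      have hS2 : ∑ h ∈ Icc 1 (n + 1 + 1), f h =
          ∑ h ∈ Icc 1 (n + 1), f h + f (n + 1 + 1) := Finset.sum_Icc_succ_top (by omega) _
      rw [hS1, hS2]
      push_cast
      ring
    rw [h1]
    refine (norm_add_le _ _).trans ?_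
    have h2 : ‖(((c (n + 1) - c (n + 1 + 1) : ℝ)) : ℂ) * ∑ h ∈ Icc 1 (n + 1), f h‖ ≤
        (c (n + 1) - c (n + 1 + 1)) * P := by
      rw [norm_mul, Complex.norm_real, Real.norm_eq_abs,
        abs_of_nonneg (sub_nonneg.2 (hc (n + 1)))]
      exact mul_le_mul_of_nonneg_left (hP (n + 1) (by omega)) (sub_nonneg.2 (hc (n + 1)))
    linarith

theorem anti (H : ℕ) (c : ℕ → ℝ) (f : ℕ → ℂ) (P B : ℝ)
    (hP : ∀ z ≤ H, ‖∑ h ∈ Icc 1 z, f h‖ ≤ P)
    (hc : ∀ h, c (h + 1) ≤ c h) (h0 : ∀ h, 0 ≤ c h) (hB : ∀ h, c h ≤ B) :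
    ‖∑ h ∈ Icc 1 H, ((c h : ℝ) : ℂ) * f h‖ ≤ B * P := by
  have hP0 : 0 ≤ P := (norm_nonneg _).trans (hP 0 (Nat.zero_le _))
  have hB0 : 0 ≤ B := (h0 0).trans (hB 0)
  cases H with
  | zero =>
    simp only [Finset.Icc_eq_empty_of_lt (Nat.zero_lt_one), Finset.sum_empty, norm_zero]
    positivity
  | succ n =>
    have h1 := step (n + 1) c f P hP hc n (Nat.lt_succ_self n)
    have h2 : ‖((c (n + 1) : ℝ) : ℂ) * ∑ h ∈ Icc 1 (n + 1), f h‖ ≤ c (n + 1) * P := by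
      rw [norm_mul, Complex.norm_real, Real.norm_eq_abs, abs_of_nonneg (h0 _)]
      exact mul_le_mul_of_nonneg_left (hP (n + 1) le_rfl) (h0 _)
    have h3 : ‖∑ h ∈ Icc 1 (n + 1), ((c h : ℝ) : ℂ) * f h‖ ≤
        ‖(∑ h ∈ Icc 1 (n + 1), ((c h : ℝ) : ℂ) * f h) -
          ((c (n + 1) : ℝ) : ℂ) * ∑ h ∈ Icc 1 (n + 1), f h‖ +
        ‖((c (n + 1) : ℝ) : ℂ) * ∑ h ∈ Icc 1 (n + 1), f h‖ := by
      refine le_trans (le_of_eq ?_) (norm_add_le _ _)
      rw [sub_add_cancel]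
    have h4 : c 1 * P ≤ B * P := mul_le_mul_of_nonneg_right (hB 1) hP0
    linarith

theorem mono (H : ℕ) (c : ℕ → ℝ) (f : ℕ → ℂ) (P B : ℝ)
    (hP : ∀ z ≤ H, ‖∑ h ∈ Icc 1 z, f h‖ ≤ P)
    (hc : ∀ h, c h ≤ c (h + 1)) (h0 : ∀ h, 0 ≤ c h) (hB : ∀ h, c h ≤ B) :
    ‖∑ h ∈ Icc 1 H, ((c h : ℝ) : ℂ) * f h‖ ≤ 2 * (B * P) := by
  have h1 := anti H (fun h => B - c h) f P B hP (fun h => by linarith [hc h])
    (fun h => by linarith [hB h]) (fun h => by linarith [h0 h])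
  have hB0 : 0 ≤ B := (h0 0).trans (hB 0)
  have h2 : ∑ h ∈ Icc 1 H, ((c h : ℝ) : ℂ) * f h = (B : ℂ) * ∑ h ∈ Icc 1 H, f h -
      ∑ h ∈ Icc 1 H, ((B - c h : ℝ) : ℂ) * f h := by
    rw [Finset.mul_sum, ← Finset.sum_sub_distrib]
    refine Finset.sum_congr rfl fun h _ => ?_
    push_cast
    ring
  rw [h2]
  refine (norm_sub_le _ _).trans ?_
  have h3 : ‖(B : ℂ) * ∑ h ∈ Icc 1 H, f h‖ ≤ B * P := by
    rw [norm_mul, Complex.norm_real, Real.norm_eq_abs, abs_of_nonneg hB0]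
    exact mul_le_mul_of_nonneg_left (hP H le_rfl) hB0
  linarith

/-- a monotone function along a progression -/
theorem prog (q H : ℕ) (y σ : ℤ) (hσ : σ = 1 ∨ σ = -1) (g : ℤ → ℝ) (hg : Monotone g)
    (f : ℕ → ℂ) (P B : ℝ) (hP : ∀ z ≤ H, ‖∑ h ∈ Icc 1 z, f h‖ ≤ P)
    (h0 : ∀ m, 0 ≤ g m) (hB : ∀ m, g m ≤ B) :
    ‖∑ h ∈ Icc 1 H, ((g (y + σ * (h * q)) : ℝ) : ℂ) * f h‖ ≤ 2 * (B * P) := by
  have hP0 : 0 ≤ P := (norm_nonneg _).trans (hP 0 (Nat.zero_le _))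
  have hB0 : 0 ≤ B := (h0 0).trans (hB 0)
  rcases hσ with rfl | rfl
  · refine mono H (fun h => g (y + 1 * (h * q))) f P B hP (fun h => hg ?_) (fun h => h0 _)
      (fun h => hB _)
    push_cast
    have : (0 : ℤ) ≤ q := Int.natCast_nonneg q
    nlinarith
  · have h1 := anti H (fun h => g (y + -1 * (h * q))) f P B hP (fun h => hg (by
      push_cast
      have : (0 : ℤ) ≤ q := Int.natCast_nonneg q
      nlinarith)) (fun h => h0 _) (fun h => hB _)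
    have h2 : 0 ≤ B * P := mul_nonneg hB0 hP0
    exact h1.trans (by linarith)

end TVAux

theorem tent_sum (N q H : ℕ) (y : ℤ) (σ : ℤ) (hσ : σ = 1 ∨ σ = -1) (f : ℕ → ℂ) (P : ℝ)
    (hP : ∀ z ≤ H, ‖∑ h ∈ Icc 1 z, f h‖ ≤ P) :
    ‖∑ h ∈ Icc 1 H, ((tent N (y + σ * (h * q)) : ℝ) : ℂ) * f h‖ ≤ 2 * P := by
  have hP0 : 0 ≤ P := (norm_nonneg _).trans (hP 0 (Nat.zero_le _))
  rcases Nat.eq_zero_or_pos N with rfl | hN
  · simp only [tent, Nat.cast_zero, div_zero, Complex.ofReal_zero, zero_mul,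
      Finset.sum_const_zero, norm_zero]
    linarith
  have hN' : (0 : ℝ) < N := by exact_mod_cast hN
  have h1 := TVAux.prog q H y σ hσ (fun m => max 0 (min (m : ℝ) (N / 2)) / N)
    (fun a b hab => by
      have : (a : ℝ) ≤ b := by exact_mod_cast hab
      dsimp only
      gcongr) f P (1 / 2) hP (fun m => by positivity)
    (fun m => by
      rw [div_le_iff₀ hN']
      exact max_le (by positivity) ((min_le_right _ _).trans (by linarith)))
  have h2 := TVAux.prog q H y σ hσ (fun m => max 0 (min ((m : ℝ) - N / 2) (N / 2)) / N)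
    (fun a b hab => by
      have : (a : ℝ) ≤ b := by exact_mod_cast hab
      dsimp only
      gcongr) f P (1 / 2) hP (fun m => by positivity)
    (fun m => by
      rw [div_le_iff₀ hN']
      exact max_le (by positivity) ((min_le_right _ _).trans (by linarith)))
  have h3 : ∀ m : ℤ, tent N m = max 0 (min (m : ℝ) (N / 2)) / N -
      max 0 (min ((m : ℝ) - N / 2) (N / 2)) / N := by
    intro m
    unfold tent
    rw [← sub_div]
    congr 1
    rcases le_total (m : ℝ) 0 with h | h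
    · rw [min_eq_left (by linarith), min_eq_left (by linarith), min_eq_left (by linarith),
        max_eq_left h, max_eq_left (by linarith), sub_zero]
    · rcases le_total (m : ℝ) (N / 2) with h' | h'
      · rw [min_eq_left (by linarith), min_eq_left h', min_eq_left (by linarith),
          max_eq_right h, max_eq_left (by linarith), sub_zero]
      · rcases le_total (m : ℝ) N with h'' | h''
        · rw [min_eq_right (by linarith), min_eq_right h', min_eq_left (by linarith),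
            max_eq_right (by linarith), max_eq_right (by linarith),
            max_eq_right (by linarith)]
          ring
        · rw [min_eq_right (by linarith), min_eq_right h', min_eq_right (by linarith),
            max_eq_left (by linarith), max_eq_right (by linarith), sub_self]
  have h4 : ∑ h ∈ Icc 1 H, ((tent N (y + σ * (h * q)) : ℝ) : ℂ) * f h =
      (∑ h ∈ Icc 1 H, (((fun m : ℤ => max 0 (min (m : ℝ) (N / 2)) / N)
        (y + σ * (h * q)) : ℝ) : ℂ) * f h) -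
      ∑ h ∈ Icc 1 H, (((fun m : ℤ => max 0 (min ((m : ℝ) - N / 2) (N / 2)) / N)
        (y + σ * (h * q)) : ℝ) : ℂ) * f h := by
    rw [← Finset.sum_sub_distrib]
    refine Finset.sum_congr rfl fun h _ => ?_
    rw [← sub_mul, ← Complex.ofReal_sub, h3]
  rw [h4]
  refine (norm_sub_le _ _).trans ?_
  linarith

theorem tent_diff_sum (N q H : ℕ) (y : ℤ) (σ : ℤ) (hσ : σ = 1 ∨ σ = -1) (f : ℕ → ℂ) (P : ℝ)
    (hP : ∀ z ≤ H, ‖∑ h ∈ Icc 1 z, f h‖ ≤ P) :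
    ‖∑ h ∈ Icc 1 H, ((tent N (y + σ * (h * q)) - tent N (y + 1 + σ * (h * q)) : ℝ) : ℂ) * f h‖
      ≤ 8 * P / N := by
  have hP0 : 0 ≤ P := (norm_nonneg _).trans (hP 0 (Nat.zero_le _))
  rcases Nat.eq_zero_or_pos N with rfl | hN
  · simp [tent]
  have hN' : (0 : ℝ) < N := by exact_mod_cast hN
  have hray : ∀ t : ℤ, ‖∑ h ∈ Icc 1 H, (((if t ≤ y + σ * (h * q) then (1 : ℝ) else 0) : ℝ) : ℂ)
      * f h‖ ≤ 2 * (1 * P) := by
    intro t
    refine TVAux.prog q H y σ hσ (fun m => if t ≤ m then (1 : ℝ) else 0) ?_ f P 1 hP ?_ ?_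
    · intro a b hab
      dsimp only
      split_ifs with h1 h2 h2
      · exact le_rfl
      · exact absurd (h1.trans hab) h2
      · exact zero_le_one
      · exact le_rfl
    · intro m
      split_ifs
      · exact zero_le_one
      · exact le_rfl
    · intro m
      split_ifs
      · exact le_rfl
      · exact zero_le_one
  have hD : ∀ m : ℤ, (N : ℝ) * (tent N m - tent N (m + 1)) =
      -(if (0 : ℤ) ≤ m then (1 : ℝ) else 0) + (if ((N / 2 : ℕ) : ℤ) ≤ m then (1 : ℝ) else 0) +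
      (if (((N + 1) / 2 : ℕ) : ℤ) ≤ m then (1 : ℝ) else 0) -
      (if (N : ℤ) ≤ m then (1 : ℝ) else 0) := by
    intro m
    have h1 : (N : ℝ) * (tent N m - tent N (m + 1)) =
        (((max 0 (min m ((N : ℤ) - m)) - max 0 (min (m + 1) ((N : ℤ) - (m + 1))) : ℤ)) : ℝ) := by
      unfold tent
      rw [← sub_div, mul_div_cancel₀ _ hN'.ne']
      push_cast
      rfl
    rw [h1]
    have h2 : max 0 (min m ((N : ℤ) - m)) - max 0 (min (m + 1) ((N : ℤ) - (m + 1))) =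
        -(if (0 : ℤ) ≤ m then (1 : ℤ) else 0) + (if ((N / 2 : ℕ) : ℤ) ≤ m then (1 : ℤ) else 0) +
      (if (((N + 1) / 2 : ℕ) : ℤ) ≤ m then (1 : ℤ) else 0) -
      (if (N : ℤ) ≤ m then (1 : ℤ) else 0) := by
      split_ifs <;> omega
    rw [h2]
    push_cast
    rfl
  have h4 : ∑ h ∈ Icc 1 H, ((tent N (y + σ * (h * q)) - tent N (y + 1 + σ * (h * q)) : ℝ) : ℂ)
      * f h = (N : ℂ)⁻¹ * (
      -(∑ h ∈ Icc 1 H, (((if (0 : ℤ) ≤ y + σ * (h * q) then (1 : ℝ) else 0) : ℝ) : ℂ) * f h) +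
      (∑ h ∈ Icc 1 H, (((if ((N / 2 : ℕ) : ℤ) ≤ y + σ * (h * q) then (1 : ℝ) else 0) : ℝ) : ℂ)
        * f h) +
      (∑ h ∈ Icc 1 H, (((if (((N + 1) / 2 : ℕ) : ℤ) ≤ y + σ * (h * q) then (1 : ℝ) else 0) : ℝ)
        : ℂ) * f h) -
      ∑ h ∈ Icc 1 H, (((if (N : ℤ) ≤ y + σ * (h * q) then (1 : ℝ) else 0) : ℝ) : ℂ) * f h) := by
    rw [← Finset.sum_neg_distrib, ← Finset.sum_add_distrib, ← Finset.sum_add_distrib,
      ← Finset.sum_sub_distrib, Finset.mul_sum]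
    refine Finset.sum_congr rfl fun h _ => ?_
    have h5 := hD (y + σ * (h * q))
    have h6 : y + 1 + σ * (h * q) = y + σ * (h * q) + 1 := by ring
    rw [h6]
    have h7 : tent N (y + σ * (h * q)) - tent N (y + σ * (h * q) + 1) = (N : ℝ)⁻¹ *
      (-(if (0 : ℤ) ≤ y + σ * (h * q) then (1 : ℝ) else 0) +
      (if ((N / 2 : ℕ) : ℤ) ≤ y + σ * (h * q) then (1 : ℝ) else 0) +
      (if (((N + 1) / 2 : ℕ) : ℤ) ≤ y + σ * (h * q) then (1 : ℝ) else 0) -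
      (if (N : ℤ) ≤ y + σ * (h * q) then (1 : ℝ) else 0)) := by
      rw [← h5, inv_mul_cancel_left₀ hN'.ne']
    rw [h7]
    push_cast
    ring
  rw [h4, norm_mul, norm_inv, Complex.norm_natCast, inv_mul_eq_div]
  refine div_le_div_of_nonneg_right ?_ hN'.le
  refine (norm_sub_le _ _).trans ?_
  have h8 := hray 0
  have h9 := hray ((N / 2 : ℕ) : ℤ)
  have h10 := hray (((N + 1) / 2 : ℕ) : ℤ)
  have h11 := hray (N : ℤ)
  have h12 := norm_add_le (-(∑ h ∈ Icc 1 H, (((if (0 : ℤ) ≤ y + σ * (h * q) then (1 : ℝ) else 0)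
      : ℝ) : ℂ) * f h) +
      (∑ h ∈ Icc 1 H, (((if ((N / 2 : ℕ) : ℤ) ≤ y + σ * (h * q) then (1 : ℝ) else 0) : ℝ) : ℂ)
        * f h))
      (∑ h ∈ Icc 1 H, (((if (((N + 1) / 2 : ℕ) : ℤ) ≤ y + σ * (h * q) then (1 : ℝ) else 0) : ℝ)
        : ℂ) * f h)
  have h13 := norm_add_le (-(∑ h ∈ Icc 1 H, (((if (0 : ℤ) ≤ y + σ * (h * q) then (1 : ℝ) else 0)
      : ℝ) : ℂ) * f h))
      (∑ h ∈ Icc 1 H, (((if ((N / 2 : ℕ) : ℤ) ≤ y + σ * (h * q) then (1 : ℝ) else 0) : ℝ) : ℂ)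
        * f h)
  rw [norm_neg] at h13
  linarith

end

end Pool.Agent.M848
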