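import Mathlib
import Pool.Agent.Lib.MP_848d44_nt.Defs
import Pool.Agent.Lib.MP_848d44_nt.PVT
import Pool.Agent.Lib.MP_848d44_nt.L1
import Pool.Agent.Lib.MP_848d44_nt.TV

/-!
# Module OFFB: the off-diagonal block
-/

set_option autoImplicit false

namespace Pool.Agent.M848

open Finset
open scoped ArithmeticFunction ComplexConjugate

noncomputable section

namespace OffBAux

theorem abel (a : ℕ → ℂ) (U : ℤ → ℂ) (N : ℕ) :
    ∑ n ∈ Icc 1 N, a n * U (n : ℤ) =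
      ∑ y ∈ Icc 1 N, (∑ n ∈ Icc 1 y, a n) * (U (y : ℤ) - U ((y : ℤ) + 1)) +
        (∑ n ∈ Icc 1 N, a n) * U ((N : ℤ) + 1) := by
  induction N with
  | zero => simp
  | succ N ih =>
    rw [Finset.sum_Icc_succ_top (by omega), ih, Finset.sum_Icc_succ_top (by omega),
      Finset.sum_Icc_succ_top (by omega)]
    push_cast
    ring

theorem block (N q H s d : ℕ) (hs : s.Prime) {χ : ℕ → ℂ} (hχ : χ ∈ nc s) (hd1 : 1 ≤ d)
    (hd : ¬ s ∣ d) {ξ : ℕ → ℂ} (hξ : ξ ∈ ac d) (σ : ℤ) (hσ : σ = 1 ∨ σ = -1) (P₀ : ℝ)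
    (hP₀ : d * (Real.sqrt s * (1 + Real.log s)) ≤ P₀) :
    ‖∑ n ∈ Icc 1 N, ((Λ n : ℝ) : ℂ) * (χ n * ξ n) *
          ∑ h ∈ Icc 1 H, ((tent N ((n : ℤ) + σ * (h * q)) : ℝ) : ℂ) * conj (χ h * ξ h)‖ ≤
      (8 * P₀ / N) * ∑ y ∈ Icc 1 N, ‖SL (fun n => χ n * ξ n) y‖ +
        2 * P₀ * ‖SL (fun n => χ n * ξ n) N‖ := by
  have hP : ∀ z ≤ H, ‖∑ h ∈ Icc 1 z, conj (χ h * ξ h)‖ ≤ P₀ := by
    intro z _
    rw [← map_sum, RCLike.norm_conj]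
    exact (pv_twist hs hχ hd1 hd hξ z).trans hP₀
  set U : ℤ → ℂ := fun y => ∑ h ∈ Icc 1 H, ((tent N (y + σ * (h * q)) : ℝ) : ℂ) *
    conj (χ h * ξ h) with hU
  have hU1 : ∀ y : ℤ, ‖U y‖ ≤ 2 * P₀ := fun y => tent_sum N q H y σ hσ _ P₀ hP
  have hU2 : ∀ y : ℤ, ‖U y - U (y + 1)‖ ≤ 8 * P₀ / N := by
    intro y
    have h := tent_diff_sum N q H y σ hσ _ P₀ hP
    have h2 : U y - U (y + 1) = ∑ h ∈ Icc 1 H,
        ((tent N (y + σ * (h * q)) - tent N (y + 1 + σ * (h * q)) : ℝ) : ℂ) *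
          conj (χ h * ξ h) := by
      rw [hU]
      simp only
      rw [← Finset.sum_sub_distrib]
      refine Finset.sum_congr rfl fun h _ => ?_
      push_cast
      ring
    rw [h2]
    exact h
  have hab := abel (fun n => ((Λ n : ℝ) : ℂ) * (χ n * ξ n)) U N
  have hS : ∀ y, ∑ n ∈ Icc 1 y, ((Λ n : ℝ) : ℂ) * (χ n * ξ n) =
      SL (fun n => χ n * ξ n) y := fun y => rfl
  simp only [hS] at hab
  change ‖∑ n ∈ Icc 1 N, ((Λ n : ℝ) : ℂ) * (χ n * ξ n) * U (n : ℤ)‖ ≤ _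
  rw [hab]
  refine (norm_add_le _ _).trans (add_le_add ?_ ?_)
  · refine (norm_sum_le _ _).trans ?_
    rw [Finset.mul_sum]
    refine Finset.sum_le_sum fun y _ => ?_
    rw [norm_mul, mul_comm]
    exact mul_le_mul_of_nonneg_right (hU2 _) (norm_nonneg _)
  · rw [norm_mul, mul_comm]
    exact mul_le_mul_of_nonneg_right (hU1 _) (norm_nonneg _)

end OffBAux

/-- OFFB. Abel summation, Polya-Vinogradov and the mean value theorem. -/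
theorem off_block (δ : ℝ) (hδ : 0 < δ) :
    ∃ C : ℝ, 0 < C ∧ ∀ N R d q H : ℕ, 1 ≤ R → R ^ 3 ≤ N → 1 ≤ d → d ≤ R → ∀ ξ ∈ ac d,
      ∀ σ : ℤ, (σ = 1 ∨ σ = -1) →
      ∑ s ∈ PR R, (1 / ((s : ℝ) - 1)) * ∑ χ ∈ nc s,
        ‖∑ n ∈ Icc 1 N, ((Λ n : ℝ) : ℂ) * (χ n * ξ n) *
          ∑ h ∈ Icc 1 H, ((tent N ((n : ℤ) + σ * (h * q)) : ℝ) : ℂ) * conj (χ h * ξ h)‖ ≤
        C * (N : ℝ) ^ δ * d ^ 2 * (N / Real.sqrt R + (N : ℝ) ^ ((5 : ℝ) / 6) * Real.sqrt R) := by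
  obtain ⟨C₁, hC₁, hl1⟩ := l1_mean (δ / 2) (by linarith)
  refine ⟨10 * Real.sqrt 2 * C₁ * (2 + 2 / δ), by positivity, ?_⟩
  intro N R d q H hR hRN hd hdR ξ hξ σ hσ
  have hRN' : R ≤ N := le_trans (Nat.le_self_pow (by norm_num) R) hRN
  have hN1 : 1 ≤ N := le_trans hR hRN'
  have hRr : (1 : ℝ) ≤ R := by exact_mod_cast hR
  have hNr : (1 : ℝ) ≤ N := by exact_mod_cast hN1
  have hNpos : (0 : ℝ) < N := by linarith
  have hRpos : (0 : ℝ) < R := by linarith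
  set P₀ : ℝ := d * (Real.sqrt (2 * R) * (1 + Real.log (2 * R))) with hP₀
  have hlog0 : 0 ≤ Real.log (2 * (R : ℝ)) := Real.log_nonneg (by linarith)
  have hP₀nn : 0 ≤ P₀ := by
    rw [hP₀]
    positivity
  have hsP : ∀ s ∈ PR R, s.Prime ∧ R < s ∧ s ≤ 2 * R := by
    intro s hs
    rw [PR, mem_filter, mem_Ioc] at hs
    exact ⟨hs.2, hs.1⟩
  -- the bound for every prime and character
  have hblock : ∀ s ∈ PR R, ∀ χ ∈ nc s,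
      ‖∑ n ∈ Icc 1 N, ((Λ n : ℝ) : ℂ) * (χ n * ξ n) *
          ∑ h ∈ Icc 1 H, ((tent N ((n : ℤ) + σ * (h * q)) : ℝ) : ℂ) * conj (χ h * ξ h)‖ ≤
      (8 * P₀ / N) * ∑ y ∈ Icc 1 N, ‖SL (fun n => χ n * ξ n) y‖ +
        2 * P₀ * ‖SL (fun n => χ n * ξ n) N‖ := by
    intro s hs χ hχ
    obtain ⟨hsp, hs1, hs2⟩ := hsP s hs
    refine OffBAux.block N q H s d hsp hχ hd ?_ hξ σ hσ P₀ ?_
    · intro hdiv
      have := Nat.le_of_dvd (by omega) hdiv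
      omega
    · rw [hP₀]
      have hsr : (s : ℝ) ≤ 2 * R := by exact_mod_cast hs2
      have hs0 : (0 : ℝ) < s := by exact_mod_cast hsp.pos
      have hs1' : (1 : ℝ) ≤ s := by exact_mod_cast hsp.one_lt.le
      have hl := Real.log_le_log hs0 hsr
      have hl0 := Real.log_nonneg hs1'
      gcongr
  -- summation
  have hB : ∀ y ≤ N, ∑ s ∈ PR R, ∑ χ ∈ nc s, ‖SL (fun n => χ n * ξ n) y‖ ≤
      C₁ * (N : ℝ) ^ (δ / 2) * d * (N + (N : ℝ) ^ ((5 : ℝ) / 6) * R) :=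
    fun y hy => hl1 N R d y hR hRN hd hdR hy ξ hξ
  set B : ℝ := C₁ * (N : ℝ) ^ (δ / 2) * d * (N + (N : ℝ) ^ ((5 : ℝ) / 6) * R) with hBdef
  have hB0 : 0 ≤ B := by
    rw [hBdef]
    positivity
  have h1 : ∑ s ∈ PR R, (1 / ((s : ℝ) - 1)) * ∑ χ ∈ nc s,
        ‖∑ n ∈ Icc 1 N, ((Λ n : ℝ) : ℂ) * (χ n * ξ n) *
          ∑ h ∈ Icc 1 H, ((tent N ((n : ℤ) + σ * (h * q)) : ℝ) : ℂ) * conj (χ h * ξ h)‖ ≤
      (1 / (R : ℝ)) * ∑ s ∈ PR R, ∑ χ ∈ nc s,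
        ((8 * P₀ / N) * ∑ y ∈ Icc 1 N, ‖SL (fun n => χ n * ξ n) y‖ +
        2 * P₀ * ‖SL (fun n => χ n * ξ n) N‖) := by
    rw [Finset.mul_sum]
    refine Finset.sum_le_sum fun s hs => ?_
    obtain ⟨hsp, hs1, hs2⟩ := hsP s hs
    have hsr : (R : ℝ) ≤ (s : ℝ) - 1 := by
      have : ((R + 1 : ℕ) : ℝ) ≤ (s : ℝ) := by exact_mod_cast hs1
      push_cast at this
      linarith
    refine mul_le_mul (one_div_le_one_div_of_le hRpos hsr)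
      (Finset.sum_le_sum fun χ hχ => hblock s hs χ hχ) ?_ (by positivity)
    exact Finset.sum_nonneg fun χ _ => norm_nonneg _
  have h2 : ∑ s ∈ PR R, ∑ χ ∈ nc s,
        ((8 * P₀ / N) * ∑ y ∈ Icc 1 N, ‖SL (fun n => χ n * ξ n) y‖ +
        2 * P₀ * ‖SL (fun n => χ n * ξ n) N‖) ≤ 10 * P₀ * B := by
    have e1 : ∑ s ∈ PR R, ∑ χ ∈ nc s,
        ((8 * P₀ / N) * ∑ y ∈ Icc 1 N, ‖SL (fun n => χ n * ξ n) y‖ +
        2 * P₀ * ‖SL (fun n => χ n * ξ n) N‖) =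
        (8 * P₀ / N) * ∑ y ∈ Icc 1 N, ∑ s ∈ PR R, ∑ χ ∈ nc s, ‖SL (fun n => χ n * ξ n) y‖ +
        2 * P₀ * ∑ s ∈ PR R, ∑ χ ∈ nc s, ‖SL (fun n => χ n * ξ n) N‖ := by
      simp only [Finset.sum_add_distrib, ← Finset.mul_sum]
      congr 2
      rw [Finset.sum_comm]
      refine Finset.sum_congr rfl fun s _ => ?_
      exact Finset.sum_comm
    rw [e1]
    have e2 : ∑ y ∈ Icc 1 N, ∑ s ∈ PR R, ∑ χ ∈ nc s, ‖SL (fun n => χ n * ξ n) y‖ ≤ N * B := by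
      calc ∑ y ∈ Icc 1 N, ∑ s ∈ PR R, ∑ χ ∈ nc s, ‖SL (fun n => χ n * ξ n) y‖
          ≤ ∑ y ∈ Icc 1 N, B := Finset.sum_le_sum fun y hy => hB y (mem_Icc.1 hy).2
        _ = N * B := by simp
    have e3 := hB N le_rfl
    calc (8 * P₀ / N) * ∑ y ∈ Icc 1 N, ∑ s ∈ PR R, ∑ χ ∈ nc s, ‖SL (fun n => χ n * ξ n) y‖ +
          2 * P₀ * ∑ s ∈ PR R, ∑ χ ∈ nc s, ‖SL (fun n => χ n * ξ n) N‖
        ≤ (8 * P₀ / N) * (N * B) + 2 * P₀ * B := by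
          gcongr
      _ = 10 * P₀ * B := by
          field_simp
          ring
  have h3 : 1 + Real.log (2 * R) ≤ (2 + 2 / δ) * (N : ℝ) ^ (δ / 2) := by
    have a1 : (1 : ℝ) ≤ (N : ℝ) ^ (δ / 2) := Real.one_le_rpow hNr (by linarith)
    have a2 : Real.log (2 * R) = Real.log 2 + Real.log R := Real.log_mul (by norm_num) hRpos.ne'
    have a3 : Real.log 2 ≤ 1 := by
      have := Real.log_two_lt_d9
      linarith
    have a4 : Real.log R ≤ Real.log N := Real.log_le_log hRpos (by exact_mod_cast hRN')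
    have a5 : Real.log N ≤ (N : ℝ) ^ (δ / 2) / (δ / 2) :=
      Real.log_le_rpow_div hNpos.le (by linarith)
    have a6 : (N : ℝ) ^ (δ / 2) / (δ / 2) = 2 / δ * (N : ℝ) ^ (δ / 2) := by
      field_simp
    rw [a2]
    nlinarith
  have h4 : Real.sqrt (2 * R) = Real.sqrt 2 * Real.sqrt R := Real.sqrt_mul (by norm_num) _
  have hsq : Real.sqrt R * Real.sqrt R = R := Real.mul_self_sqrt hRpos.le
  have hsqpos : 0 < Real.sqrt R := Real.sqrt_pos.2 hRpos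
  have h5 : (N : ℝ) ^ (δ / 2) * (N : ℝ) ^ (δ / 2) = (N : ℝ) ^ δ := by
    rw [← Real.rpow_add hNpos]
    congr 1
    ring
  calc ∑ s ∈ PR R, (1 / ((s : ℝ) - 1)) * ∑ χ ∈ nc s,
        ‖∑ n ∈ Icc 1 N, ((Λ n : ℝ) : ℂ) * (χ n * ξ n) *
          ∑ h ∈ Icc 1 H, ((tent N ((n : ℤ) + σ * (h * q)) : ℝ) : ℂ) * conj (χ h * ξ h)‖
      ≤ (1 / (R : ℝ)) * (10 * P₀ * B) := h1.trans (mul_le_mul_of_nonneg_left h2 (by positivity))
    _ ≤ (1 / (R : ℝ)) * (10 * (d * (Real.sqrt (2 * R) * ((2 + 2 / δ) * (N : ℝ) ^ (δ / 2)))) *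
          B) := by
        rw [hP₀]
        gcongr
    _ = 10 * Real.sqrt 2 * C₁ * (2 + 2 / δ) * ((N : ℝ) ^ (δ / 2) * (N : ℝ) ^ (δ / 2)) * d ^ 2 *
          (N / Real.sqrt R + (N : ℝ) ^ ((5 : ℝ) / 6) * Real.sqrt R) := by
        rw [hBdef, h4]
        have e : (1 / (R : ℝ)) * Real.sqrt R * (N + (N : ℝ) ^ ((5 : ℝ) / 6) * R) =
            N / Real.sqrt R + (N : ℝ) ^ ((5 : ℝ) / 6) * Real.sqrt R := by
          generalize Real.sqrt (R : ℝ) = r at hsq hsqpos ⊢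
          rw [← hsq]
          field_simp
        rw [← e]
        ring
    _ = _ := by rw [h5]

end

end Pool.Agent.M848
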