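import Mathlib
import Pool.Agent.Lib.MP_848d44_nt.Defs

/-!
# MP_848d44_nt: reciprocals of the primes in dyadic blocks
-/

set_option autoImplicit false

namespace Pool.Agent.M848

open Finset
open scoped ArithmeticFunction ComplexConjugate

noncomputable section

namespace RecAux

theorem analytic (Y : ℝ) (hY : (2 : ℝ) ^ 24 ≤ Y) :
    Y * Real.log 2 + Real.log (4 * Y + 1) + 2 * √(4 * Y) * Real.log (4 * Y) ≤
      2 * Real.log 2 * Y := by
  have hY0 : 0 < Y := lt_of_lt_of_le (by positivity) hY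
  obtain ⟨t, ht, htY⟩ : ∃ t : ℝ, 64 ≤ t ∧ t ^ 4 = Y := by
    refine ⟨√(√Y), ?_, ?_⟩
    · apply Real.le_sqrt_of_sq_le
      apply Real.le_sqrt_of_sq_le
      refine le_trans ?_ hY
      norm_num
    · have h1 : √(√Y) ^ 2 = √Y := Real.sq_sqrt (Real.sqrt_nonneg _)
      calc √(√Y) ^ 4 = (√(√Y) ^ 2) ^ 2 := by ring
        _ = Y := by rw [h1, Real.sq_sqrt hY0.le]
  have ht0 : 0 < t := by linarith
  have hlt : Real.log t ≤ t - 1 := Real.log_le_sub_one_of_pos ht0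
  have hlogY : Real.log Y = 4 * Real.log t := by
    rw [← htY, Real.log_pow]
    norm_num
  have hlog4 : Real.log 4 ≤ 4 := by
    have := Real.log_le_sub_one_of_pos (show (0 : ℝ) < 4 by norm_num)
    linarith
  have hlog5 : Real.log 5 ≤ 4 := by
    have := Real.log_le_sub_one_of_pos (show (0 : ℝ) < 5 by norm_num)
    linarith
  have h4Y : Real.log (4 * Y) ≤ 4 * t := by
    rw [Real.log_mul (by norm_num) hY0.ne', hlogY]
    linarith
  have h5Y : Real.log (4 * Y + 1) ≤ 4 * t := by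
    have h1 : Real.log (4 * Y + 1) ≤ Real.log (5 * Y) := by
      apply Real.log_le_log (by positivity)
      have : (1 : ℝ) ≤ Y := le_trans (by norm_num) hY
      linarith
    rw [Real.log_mul (by norm_num) hY0.ne', hlogY] at h1
    linarith
  have hsq : √(4 * Y) = 2 * t ^ 2 := by
    rw [← htY, show 4 * t ^ 4 = (2 * t ^ 2) ^ 2 by ring, Real.sqrt_sq (by positivity)]
  have h4Y0 : 0 ≤ Real.log (4 * Y) := by
    apply Real.log_nonneg
    have : (1 : ℝ) ≤ Y := le_trans (by norm_num) hY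
    linarith
  have h2 : (0.69 : ℝ) ≤ Real.log 2 := by
    have := Real.log_two_gt_d9
    linarith
  rw [hsq]
  have h3 : 2 * (2 * t ^ 2) * Real.log (4 * Y) ≤ 16 * t ^ 3 := by
    calc 2 * (2 * t ^ 2) * Real.log (4 * Y) ≤ 2 * (2 * t ^ 2) * (4 * t) := by
          apply mul_le_mul_of_nonneg_left h4Y (by positivity)
      _ = 16 * t ^ 3 := by ring
  have h4 : 4 * t + 16 * t ^ 3 ≤ Real.log 2 * Y := by
    have h5 : 0.69 * Y ≤ Real.log 2 * Y := mul_le_mul_of_nonneg_right h2 hY0.le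
    refine le_trans ?_ h5
    rw [← htY]
    have h6 : 64 * t ^ 3 ≤ t ^ 4 := by
      have : t ^ 4 = t * t ^ 3 := by ring
      rw [this]
      exact mul_le_mul_of_nonneg_right ht (by positivity)
    have h7 : 4 * t ≤ t ^ 3 := by
      have : t ^ 3 = t ^ 2 * t := by ring
      rw [this]
      apply mul_le_mul_of_nonneg_right _ ht0.le
      nlinarith
    linarith
  linarith

theorem union_eq (Y : ℕ) : PR Y ∪ PR (2 * Y) = (Ioc Y (4 * Y)).filter Nat.Prime := by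
  ext p
  simp only [PR, mem_union, mem_filter, mem_Ioc]
  constructor
  · rintro (⟨⟨h1, h2⟩, h3⟩ | ⟨⟨h1, h2⟩, h3⟩)
    · exact ⟨⟨h1, by omega⟩, h3⟩
    · exact ⟨⟨by omega, by omega⟩, h3⟩
  · rintro ⟨⟨h1, h2⟩, h3⟩
    by_cases h : p ≤ 2 * Y
    · exact Or.inl ⟨⟨h1, h⟩, h3⟩
    · exact Or.inr ⟨⟨by omega, by omega⟩, h3⟩

theorem disj (Y : ℕ) : Disjoint (PR Y) (PR (2 * Y)) := by
  rw [Finset.disjoint_left]
  intro p h1 h2
  simp only [PR, mem_filter, mem_Ioc] at h1 h2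
  omega

theorem theta_nat (n : ℕ) :
    Chebyshev.theta (n : ℝ) = ∑ p ∈ (Ioc 0 n).filter Nat.Prime, Real.log p := by
  rw [Chebyshev.theta, Nat.floor_natCast]

theorem theta_sub (Y : ℕ) :
    Chebyshev.theta ((4 * Y : ℕ) : ℝ) - Chebyshev.theta (Y : ℝ) =
      ∑ p ∈ (Ioc Y (4 * Y)).filter Nat.Prime, Real.log p := by
  rw [theta_nat, theta_nat, sub_eq_iff_eq_add, add_comm, ← sum_union]
  · congr 1
    ext p
    simp only [mem_union, mem_filter, mem_Ioc]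
    constructor
    · rintro ⟨⟨h1, h2⟩, h3⟩
      by_cases h : p ≤ Y
      · exact Or.inl ⟨⟨h1, h⟩, h3⟩
      · exact Or.inr ⟨⟨by omega, h2⟩, h3⟩
    · rintro (⟨⟨h1, h2⟩, h3⟩ | ⟨⟨h1, h2⟩, h3⟩)
      · exact ⟨⟨h1, by omega⟩, h3⟩
      · exact ⟨⟨by omega, h2⟩, h3⟩
  · rw [Finset.disjoint_left]
    intro p h1 h2
    simp only [mem_filter, mem_Ioc] at h1 h2
    omega

theorem block (Y : ℕ) (hY : 2 ^ 24 ≤ Y) :
    (Y : ℝ) * Real.log 2 ≤ ∑ p ∈ (Ioc Y (4 * Y)).filter Nat.Prime, Real.log p := by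
  rw [← theta_sub]
  have h1 := Chebyshev.theta_ge (4 * Y)
  have h2 := Chebyshev.theta_le_log4_mul_x (x := (Y : ℝ)) (Nat.cast_nonneg _)
  have h3 := analytic (Y : ℝ) (by exact_mod_cast hY)
  have h4 : Real.log 4 = 2 * Real.log 2 := by
    rw [show (4 : ℝ) = 2 ^ 2 by norm_num, Real.log_pow]
    norm_num
  rw [h4] at h2
  push_cast at h1 ⊢
  linarith

end RecAux

open RecAux

/-- REC. Chebyshev: reciprocals of the primes in `(2^j, 2^(j+2)]`. -/
theorem recip_block : ∃ J₀ : ℕ, 1 ≤ J₀ ∧ ∀ j : ℕ, J₀ ≤ j →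
    1 / (4 * ((j : ℝ) + 2)) ≤ ∑ s ∈ PR (2 ^ j) ∪ PR (2 ^ (j + 1)), (1 : ℝ) / s := by
  refine ⟨24, by norm_num, fun j hj => ?_⟩
  rw [show 2 ^ (j + 1) = 2 * 2 ^ j by ring, union_eq]
  set Y : ℕ := 2 ^ j with hY
  have hY24 : 2 ^ 24 ≤ Y := Nat.pow_le_pow_right (by norm_num) hj
  have hYpos : 0 < Y := by positivity
  have hYr : (0 : ℝ) < Y := by exact_mod_cast hYpos
  have hb := block Y hY24
  have hlog : Real.log (4 * Y) = (j + 2) * Real.log 2 := by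
    rw [hY, Real.log_mul (by norm_num) (by positivity)]
    push_cast
    rw [Real.log_pow, show (4 : ℝ) = 2 ^ 2 by norm_num, Real.log_pow]
    push_cast
    ring
  have hlog2 : 0 < Real.log 2 := Real.log_pos (by norm_num)
  have hterm : ∀ p ∈ (Ioc Y (4 * Y)).filter Nat.Prime,
      Real.log p / (4 * Y * ((j + 2) * Real.log 2)) ≤ (1 : ℝ) / p := by
    intro p hp
    simp only [mem_filter, mem_Ioc] at hp
    have hp0 : (0 : ℝ) < p := by exact_mod_cast (by omega : 0 < p)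
    have hp4 : (p : ℝ) ≤ 4 * Y := by exact_mod_cast hp.1.2
    have hlp : Real.log p ≤ (j + 2) * Real.log 2 := by
      rw [← hlog]
      exact Real.log_le_log hp0 hp4
    rw [div_le_div_iff₀ (by positivity) hp0, one_mul]
    calc Real.log p * p ≤ ((j + 2) * Real.log 2) * (4 * Y) := by
          apply mul_le_mul hlp hp4 hp0.le (by positivity)
      _ = 4 * Y * ((j + 2) * Real.log 2) := by ring
  refine le_trans ?_ (sum_le_sum hterm)
  rw [← sum_div]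
  rw [div_le_div_iff₀ (by positivity) (by positivity), one_mul]
  calc 4 * (Y : ℝ) * ((j + 2) * Real.log 2) = (Y * Real.log 2) * (4 * ((j : ℝ) + 2)) := by ring
    _ ≤ _ := mul_le_mul_of_nonneg_right hb (by positivity)

/-- RECS. The sum over many blocks. -/
theorem recip_blocks : ∃ J₀ : ℕ, 1 ≤ J₀ ∧ ∀ j₀ j₁ : ℕ, J₀ ≤ j₀ → j₀ + 1 ≤ j₁ →
    ((j₁ : ℝ) - 1 - j₀) / (8 * ((j₁ : ℝ) + 1)) ≤
      ∑ j ∈ Ico j₀ j₁, ∑ s ∈ PR (2 ^ j), (1 : ℝ) / s := by
  obtain ⟨J, hJ, h⟩ := recip_block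
  refine ⟨J, hJ, fun j₀ j₁ h0 h1 => ?_⟩
  set X : ℕ → ℝ := fun j => ∑ s ∈ PR (2 ^ j), (1 : ℝ) / s with hX
  have hX0 : ∀ j, 0 ≤ X j := fun j => sum_nonneg fun s _ => by positivity
  have hstep : ∀ j ∈ Ico j₀ (j₁ - 1), 1 / (4 * ((j₁ : ℝ) + 1)) ≤ X j + X (j + 1) := by
    intro j hj
    rw [mem_Ico] at hj
    have h2 := h j (by omega)
    rw [sum_union (by rw [show 2 ^ (j + 1) = 2 * 2 ^ j by ring]; exact disj _)] at h2
    refine le_trans ?_ h2
    apply one_div_le_one_div_of_le (by positivity)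
    have : (j : ℝ) + 2 ≤ (j₁ : ℝ) + 1 := by
      have : j + 2 ≤ j₁ + 1 := by omega
      exact_mod_cast this
    linarith
  have hsum := sum_le_sum hstep
  rw [sum_const, Nat.card_Ico, nsmul_eq_mul, sum_add_distrib] at hsum
  have hs1 : ∑ j ∈ Ico j₀ (j₁ - 1), X j ≤ ∑ j ∈ Ico j₀ j₁, X j :=
    sum_le_sum_of_subset_of_nonneg (Ico_subset_Ico_right (by omega)) fun j _ _ => hX0 j
  have hs2 : ∑ j ∈ Ico j₀ (j₁ - 1), X (j + 1) ≤ ∑ j ∈ Ico j₀ j₁, X j := by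
    rw [sum_Ico_add' X j₀ (j₁ - 1) 1, show j₁ - 1 + 1 = j₁ by omega]
    exact sum_le_sum_of_subset_of_nonneg (Ico_subset_Ico_left (by omega)) fun j _ _ => hX0 j
  have hcast : ((j₁ - 1 - j₀ : ℕ) : ℝ) = (j₁ : ℝ) - 1 - j₀ := by
    rw [Nat.cast_sub (by omega), Nat.cast_sub (by omega)]
    norm_num
  rw [hcast] at hsum
  have h3 : ((j₁ : ℝ) - 1 - j₀) / (8 * ((j₁ : ℝ) + 1)) =
      (((j₁ : ℝ) - 1 - j₀) * (1 / (4 * ((j₁ : ℝ) + 1)))) / 2 := by
    field_simp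
    ring
  rw [h3]
  linarith

end

end Pool.Agent.M848
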