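import Pool.Agent.Lib.MP_848d44_nt.Defs

set_option autoImplicit false

namespace Pool.Agent.M848

open Finset
open scoped ArithmeticFunction ComplexConjugate

noncomputable section

namespace SelAux

/-- the Moebius function as a real number -/
def mu (n : ℕ) : ℝ := (ArithmeticFunction.moebius n : ℝ)

def g (T d : ℕ) : ℝ := ∑ t ∈ (Icc 1 T).filter (fun t => d ∣ t), mu t ^ 2 / (t.totient : ℝ)

lemma mu_abs_le (n : ℕ) : |mu n| ≤ 1 := by
  unfold mu
  have := ArithmeticFunction.abs_moebius_le_one (n := n)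
  exact_mod_cast this

lemma mu_sq_le (n : ℕ) : mu n ^ 2 ≤ 1 := by
  have h := mu_abs_le n
  rw [← sq_abs]
  have := abs_nonneg (mu n)
  nlinarith

lemma mu_one : mu 1 = 1 := by simp [mu]

lemma mu_sq_sf {n : ℕ} (h : Squarefree n) : mu n ^ 2 = 1 := by
  unfold mu
  exact_mod_cast ArithmeticFunction.moebius_sq_eq_one_of_squarefree h

lemma mu_zero_of_not {n : ℕ} (h : ¬ Squarefree n) : mu n = 0 := by
  unfold mu
  exact_mod_cast ArithmeticFunction.moebius_eq_zero_of_not_squarefree h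

lemma mu_mul {a b : ℕ} (h : a.Coprime b) : mu (a * b) = mu a * mu b := by
  unfold mu
  rw [ArithmeticFunction.isMultiplicative_moebius.map_mul_of_coprime h]
  push_cast
  rfl

lemma sum_div_mu (u : ℕ) : ∑ v ∈ u.divisors, mu v = if u = 1 then 1 else 0 := by
  unfold mu
  have h : ((ArithmeticFunction.moebius : ArithmeticFunction ℤ) * (ArithmeticFunction.zeta : ArithmeticFunction ℤ)) u
      = (1 : ArithmeticFunction ℤ) u := by
    rw [ArithmeticFunction.moebius_mul_coe_zeta]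
  rw [ArithmeticFunction.coe_mul_zeta_apply, ArithmeticFunction.one_apply] at h
  have h2 : ((∑ v ∈ u.divisors, ArithmeticFunction.moebius v : ℤ) : ℝ) = ((if u = 1 then 1 else 0 : ℤ) : ℝ) := by
    rw [h]
  push_cast at h2
  exact h2

lemma inner_sum {T f t : ℕ} (hf : 1 ≤ f) (ht : t ∈ Icc 1 T) (hsf : Squarefree t) :
    ∑ d ∈ (Icc 1 T).filter (fun d => f ∣ d ∧ d ∣ t), mu d = if t = f then mu f else 0 := by
  rw [mem_Icc] at ht
  by_cases hft : f ∣ t
  · obtain ⟨u, rfl⟩ := hft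
    have hu : u ≠ 0 := by
      rintro rfl
      omega
    have hset : (Icc 1 T).filter (fun d => f ∣ d ∧ d ∣ f * u) = (u.divisors).image (fun v => f * v) := by
      ext d
      simp only [mem_filter, mem_Icc, mem_image, Nat.mem_divisors]
      constructor
      · rintro ⟨h1, ⟨v, rfl⟩, h3⟩
        exact ⟨v, ⟨Nat.dvd_of_mul_dvd_mul_left (by omega) h3, hu⟩, rfl⟩
      · rintro ⟨v, ⟨h1, h2⟩, rfl⟩
        refine ⟨⟨?_, ?_⟩, dvd_mul_right _ _, Nat.mul_dvd_mul_left f h1⟩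
        · have : v ≠ 0 := by
            rintro rfl
            exact hu (Nat.eq_zero_of_zero_dvd h1)
          have := Nat.mul_pos (show 0 < f by omega) (Nat.pos_of_ne_zero this)
          omega
        · have h4 : f * v ≤ f * u := Nat.mul_le_mul_left f (Nat.le_of_dvd (Nat.pos_of_ne_zero hu) h1)
          omega
    rw [hset, sum_image (fun a _ b _ h => Nat.eq_of_mul_eq_mul_left (by omega) h)]
    have h1 : ∀ v ∈ u.divisors, mu (f * v) = mu f * mu v := by
      intro v hv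
      apply mu_mul
      have h2 : f * v ∣ f * u := Nat.mul_dvd_mul_left f (Nat.dvd_of_mem_divisors hv)
      exact Nat.coprime_of_squarefree_mul (hsf.squarefree_of_dvd h2)
    rw [sum_congr rfl h1, ← mul_sum, sum_div_mu]
    have h3 : (f * u = f) ↔ u = 1 := by
      constructor
      · intro h
        exact Nat.eq_of_mul_eq_mul_left (show 0 < f by omega) (by rw [h, mul_one])
      · rintro rfl
        exact mul_one f
    simp only [h3]
    split_ifs <;> simp
  · have h1 : t ≠ f := by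
      rintro rfl
      exact hft dvd_rfl
    rw [if_neg h1]
    apply sum_eq_zero
    intro d hd
    rw [mem_filter] at hd
    exact absurd (dvd_trans hd.2.1 hd.2.2) hft

lemma yf {T f : ℕ} (hf : f ∈ Icc 1 T) :
    ∑ d ∈ (Icc 1 T).filter (fun d => f ∣ d), mu d * g T d = mu f * (mu f ^ 2 / (f.totient : ℝ)) := by
  have hf' := mem_Icc.mp hf
  unfold g
  have h1 : ∑ d ∈ (Icc 1 T).filter (fun d => f ∣ d), mu d *
      ∑ t ∈ (Icc 1 T).filter (fun t => d ∣ t), mu t ^ 2 / (t.totient : ℝ) =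
      ∑ t ∈ Icc 1 T, (mu t ^ 2 / (t.totient : ℝ)) *
        ∑ d ∈ (Icc 1 T).filter (fun d => f ∣ d ∧ d ∣ t), mu d := by
    simp_rw [mul_sum]
    rw [sum_filter]
    simp_rw [sum_filter]
    have h2 : ∀ d ∈ Icc 1 T, (if f ∣ d then ∑ t ∈ Icc 1 T, (if d ∣ t then mu d * (mu t ^ 2 / (t.totient : ℝ)) else 0) else 0)
        = ∑ t ∈ Icc 1 T, if f ∣ d ∧ d ∣ t then mu d * (mu t ^ 2 / (t.totient : ℝ)) else 0 := by
      intro d _
      split_ifs with h
      · apply sum_congr rfl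
        intro t _
        simp [h]
      · simp [h]
    rw [sum_congr rfl h2, sum_comm]
    apply sum_congr rfl
    intro t _
    apply sum_congr rfl
    intro d _
    split_ifs
    · ring
    · rfl
  rw [h1]
  have h3 : ∀ t ∈ Icc 1 T, (mu t ^ 2 / (t.totient : ℝ)) *
        ∑ d ∈ (Icc 1 T).filter (fun d => f ∣ d ∧ d ∣ t), mu d =
        if t = f then mu f * (mu f ^ 2 / (f.totient : ℝ)) else 0 := by
    intro t ht
    by_cases hs : Squarefree t
    · rw [inner_sum hf'.1 ht hs]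
      split_ifs with h
      · subst h
        ring
      · ring
    · rw [mu_zero_of_not hs]
      split_ifs with h
      · subst h
        rw [mu_zero_of_not hs]
        ring
      · ring
  rw [sum_congr rfl h3, sum_ite_eq' (Icc 1 T) f]
  rw [if_pos hf]

lemma inv_lcm {d e : ℕ} (T : ℕ) (hd : d ∈ Icc 1 T) (he : e ∈ Icc 1 T) :
    (1 : ℝ) / (Nat.lcm d e : ℝ) =
      (1 / ((d : ℝ) * e)) * ∑ f ∈ Icc 1 T, (if f ∣ d ∧ f ∣ e then (f.totient : ℝ) else 0) := by
  rw [mem_Icc] at hd he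
  have h1 : ∑ f ∈ Icc 1 T, (if f ∣ d ∧ f ∣ e then (f.totient : ℝ) else 0) = (Nat.gcd d e : ℝ) := by
    rw [← sum_filter]
    have h2 : (Icc 1 T).filter (fun f => f ∣ d ∧ f ∣ e) = (Nat.gcd d e).divisors := by
      ext f
      simp only [mem_filter, mem_Icc, Nat.mem_divisors, Nat.dvd_gcd_iff]
      constructor
      · rintro ⟨h1, h2, h3⟩
        refine ⟨⟨h2, h3⟩, ?_⟩
        intro h
        rw [Nat.gcd_eq_zero_iff] at h
        omega
      · rintro ⟨⟨h2, h3⟩, _⟩
        have h4 := Nat.le_of_dvd (by omega) h2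
        have h5 : f ≠ 0 := by
          rintro rfl
          have := Nat.eq_zero_of_zero_dvd h2
          omega
        exact ⟨⟨by omega, by omega⟩, h2, h3⟩
    rw [h2]
    exact_mod_cast Nat.sum_totient (Nat.gcd d e)
  rw [h1]
  have h3 : (Nat.gcd d e : ℝ) * (Nat.lcm d e : ℝ) = (d : ℝ) * e := by
    exact_mod_cast Nat.gcd_mul_lcm d e
  have h4 : (0 : ℝ) < (Nat.lcm d e : ℝ) := by
    exact_mod_cast Nat.lcm_pos (by omega) (by omega)
  have h5 : (0 : ℝ) < (d : ℝ) * e := by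
    have : (1 : ℝ) ≤ d := by exact_mod_cast hd.1
    have : (1 : ℝ) ≤ e := by exact_mod_cast he.1
    positivity
  rw [div_mul_eq_mul_div, one_mul, div_eq_div_iff h4.ne' h5.ne', h3, one_mul]

def bb (T d : ℕ) : ℝ := d * (mu d * g T d)

lemma QQ_eq (T : ℕ) : QQ (bb T) T = g T 1 := by
  unfold QQ
  have h1 : ∀ d ∈ Icc 1 T, ∀ e ∈ Icc 1 T, bb T d * bb T e / (Nat.lcm d e : ℝ) =
      ∑ f ∈ Icc 1 T, (f.totient : ℝ) * ((if f ∣ d then mu d * g T d else 0) *
        (if f ∣ e then mu e * g T e else 0)) := by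
    intro d hd e he
    have hd' : (d : ℝ) ≠ 0 := by
      have := (mem_Icc.mp hd).1
      positivity
    have he' : (e : ℝ) ≠ 0 := by
      have := (mem_Icc.mp he).1
      positivity
    rw [div_eq_mul_one_div, inv_lcm T hd he]
    unfold bb
    rw [← mul_assoc]
    have h2 : (d : ℝ) * (mu d * g T d) * (e * (mu e * g T e)) * (1 / ((d : ℝ) * e)) =
        mu d * g T d * (mu e * g T e) := by
      field_simp
    rw [h2, mul_sum]
    apply sum_congr rfl
    intro f _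
    by_cases h3 : f ∣ d <;> by_cases h4 : f ∣ e <;> simp [h3, h4] <;> ring
  rw [sum_congr rfl (fun d hd => sum_congr rfl (h1 d hd))]
  have h5 : ∑ d ∈ Icc 1 T, ∑ e ∈ Icc 1 T, ∑ f ∈ Icc 1 T, (f.totient : ℝ) *
      ((if f ∣ d then mu d * g T d else 0) * (if f ∣ e then mu e * g T e else 0)) =
      ∑ f ∈ Icc 1 T, (f.totient : ℝ) * (∑ d ∈ Icc 1 T, (if f ∣ d then mu d * g T d else 0)) ^ 2 := by
    have h6 : ∀ d ∈ Icc 1 T, ∑ e ∈ Icc 1 T, ∑ f ∈ Icc 1 T, (f.totient : ℝ) *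
      ((if f ∣ d then mu d * g T d else 0) * (if f ∣ e then mu e * g T e else 0)) =
      ∑ f ∈ Icc 1 T, ∑ e ∈ Icc 1 T, (f.totient : ℝ) *
      ((if f ∣ d then mu d * g T d else 0) * (if f ∣ e then mu e * g T e else 0)) :=
      fun d _ => sum_comm
    rw [sum_congr rfl h6, sum_comm]
    apply sum_congr rfl
    intro f _
    rw [sq, sum_mul_sum, mul_sum]
    apply sum_congr rfl
    intro d _
    rw [mul_sum]
  rw [h5]
  have h8 : g T 1 = ∑ f ∈ Icc 1 T, mu f ^ 2 / (f.totient : ℝ) := by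
    unfold g
    simp only [one_dvd, filter_true]
  rw [h8]
  apply sum_congr rfl
  intro f hf
  have h7 := yf hf
  rw [sum_filter] at h7
  rw [h7]
  have hphi : (f.totient : ℝ) ≠ 0 := by
    have := Nat.totient_pos.mpr (show 0 < f from (mem_Icc.mp hf).1)
    positivity
  by_cases hs : Squarefree f
  · rw [mul_pow]
    rw [mu_sq_sf hs]
    field_simp
  · rw [mu_zero_of_not hs]
    simp

lemma g_le (T d : ℕ) : |g T d| ≤ T := by
  unfold g
  calc |∑ t ∈ (Icc 1 T).filter (fun t => d ∣ t), mu t ^ 2 / (t.totient : ℝ)|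
      ≤ ∑ t ∈ (Icc 1 T).filter (fun t => d ∣ t), |mu t ^ 2 / (t.totient : ℝ)| := abs_sum_le_sum_abs _ _
    _ ≤ ∑ t ∈ (Icc 1 T).filter (fun t => d ∣ t), (1 : ℝ) := by
        apply sum_le_sum
        intro t ht
        have h1 : (1 : ℝ) ≤ (t.totient : ℝ) := by
          have := Nat.totient_pos.mpr (show 0 < t from (mem_Icc.mp (mem_filter.mp ht).1).1)
          exact_mod_cast this
        rw [abs_of_nonneg (by positivity), div_le_one (by linarith)]
        linarith [mu_sq_le t]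
    _ ≤ T := by
        rw [sum_const, nsmul_eq_mul, mul_one]
        have h1 := card_filter_le (Icc 1 T) (fun t => d ∣ t)
        rw [Nat.card_Icc] at h1
        have : ((Icc 1 T).filter (fun t => d ∣ t)).card ≤ T := by omega
        exact_mod_cast this

lemma BB_le (T : ℕ) : BB (bb T) T ≤ (T : ℝ) ^ 3 := by
  unfold BB
  calc ∑ d ∈ Icc 1 T, |bb T d| ≤ ∑ d ∈ Icc 1 T, (T : ℝ) * T := by
        apply sum_le_sum
        intro d hd
        unfold bb
        have h1 := mu_abs_le d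
        have h2 := g_le T d
        have h3 : (d : ℝ) ≤ T := by exact_mod_cast (mem_Icc.mp hd).2
        rw [abs_mul, abs_mul, Nat.abs_cast]
        have h4 : |mu d| * |g T d| ≤ 1 * T := mul_le_mul h1 h2 (abs_nonneg _) (by norm_num)
        rw [one_mul] at h4
        exact mul_le_mul h3 h4 (by positivity) (by positivity)
    _ = (T : ℝ) ^ 3 := by
        rw [sum_const, Nat.card_Icc, nsmul_eq_mul]
        simp
        ring

lemma L_ge_sf (T : ℕ) : ∑ t ∈ (Icc 1 T).filter Squarefree, (1 : ℝ) / t ≤ g T 1 := by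
  unfold g
  simp only [one_dvd, filter_true]
  rw [sum_filter]
  apply sum_le_sum
  intro t ht
  have h0 : 0 < t := (mem_Icc.mp ht).1
  have h1 : (0 : ℝ) < (t.totient : ℝ) := by
    exact_mod_cast Nat.totient_pos.mpr h0
  split_ifs with h
  · rw [mu_sq_sf h]
    apply one_div_le_one_div_of_le h1
    exact_mod_cast Nat.totient_le t
  · positivity

lemma sum_inv_sq_le (T : ℕ) : ∑ a ∈ Icc 1 T, (1 : ℝ) / (a : ℝ) ^ 2 ≤ 2 := by
  have h := sum_Ioo_inv_sq_le (α := ℝ) 0 (T + 1)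
  have h2 : Ioo 0 (T + 1) = Icc 1 T := by
    ext a
    simp only [mem_Ioo, mem_Icc]
    omega
  rw [h2] at h
  simpa [one_div] using h

lemma harm_le (T : ℕ) : ∑ n ∈ Icc 1 T, (1 : ℝ) / n ≤
    (∑ a ∈ Icc 1 T, (1 : ℝ) / (a : ℝ) ^ 2) * ∑ t ∈ (Icc 1 T).filter Squarefree, (1 : ℝ) / t := by
  rw [sum_mul_sum, ← sum_product']
  have hex : ∀ n : ℕ, ∃ p : ℕ × ℕ, 0 < n → (0 < p.1 ∧ 0 < p.2 ∧ p.2 ^ 2 * p.1 = n ∧ Squarefree p.1) := by
    intro n
    by_cases hn : 0 < n
    · obtain ⟨a, b, h1, h2, h3, h4⟩ := Nat.sq_mul_squarefree_of_pos hn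
      exact ⟨(a, b), fun _ => ⟨h1, h2, h3, h4⟩⟩
    · exact ⟨(0, 0), fun h => absurd h hn⟩
  choose e he using hex
  have hinj : Set.InjOn (fun n => ((e n).2, (e n).1)) (Icc 1 T : Finset ℕ) := by
    intro m hm n hn h
    rw [mem_coe, mem_Icc] at hm hn
    have h1 := (he m (by omega)).2.2.1
    have h2 := (he n (by omega)).2.2.1
    simp only [Prod.mk.injEq] at h
    rw [← h1, ← h2, h.1, h.2]
  have h1 : ∑ n ∈ Icc 1 T, (1 : ℝ) / n = ∑ p ∈ (Icc 1 T).image (fun n => ((e n).2, (e n).1)),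
      (1 : ℝ) / ((p.1 : ℝ)) ^ 2 * (1 / (p.2 : ℝ)) := by
    rw [sum_image hinj]
    apply sum_congr rfl
    intro n hn
    have h2 := (he n (mem_Icc.mp hn).1).2.2.1
    rw [one_div_mul_one_div]
    congr 1
    exact_mod_cast h2.symm
  rw [h1]
  apply sum_le_sum_of_subset_of_nonneg
  · intro p hp
    rw [mem_image] at hp
    obtain ⟨n, hn, rfl⟩ := hp
    rw [mem_Icc] at hn
    obtain ⟨h2, h3, h4, h5⟩ := he n (by omega)
    rw [mem_product, mem_filter, mem_Icc, mem_Icc]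
    have h6 : (e n).1 ≤ n := Nat.le_of_dvd (by omega) ⟨(e n).2 ^ 2, by rw [mul_comm]; exact h4.symm⟩
    have h7 : (e n).2 ≤ n := Nat.le_of_dvd (by omega) ⟨(e n).2 * (e n).1, by rw [← mul_assoc, ← sq]; exact h4.symm⟩
    exact ⟨⟨by show 1 ≤ (e n).2; omega, by show (e n).2 ≤ T; omega⟩, ⟨by show 1 ≤ (e n).1; omega, by show (e n).1 ≤ T; omega⟩, h5⟩
  · intro p _ _
    positivity

lemma log_le_harm (T : ℕ) : Real.log T ≤ ∑ n ∈ Icc 1 T, (1 : ℝ) / n := by
  rcases Nat.eq_zero_or_pos T with rfl | hT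
  · simp
  have h1 := log_add_one_le_harmonic T
  have h2 : (harmonic T : ℝ) = ∑ n ∈ Icc 1 T, (1 : ℝ) / n := by
    rw [harmonic_eq_sum_Icc]
    push_cast
    simp [one_div]
  have h3 : Real.log T ≤ Real.log ((T + 1 : ℕ) : ℝ) := by
    apply Real.log_le_log
    · exact_mod_cast hT
    · exact_mod_cast Nat.le_succ T
  rw [← h2]
  refine h3.trans ?_
  simpa using h1

lemma L_ge (T : ℕ) : Real.log T / 2 ≤ g T 1 := by
  have h1 := log_le_harm T
  have h2 := harm_le T
  have h3 := sum_inv_sq_le T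
  have h4 := L_ge_sf T
  have h5 : 0 ≤ ∑ t ∈ (Icc 1 T).filter Squarefree, (1 : ℝ) / t :=
    sum_nonneg (fun t _ => by positivity)
  have h6 : (∑ a ∈ Icc 1 T, (1 : ℝ) / (a : ℝ) ^ 2) * ∑ t ∈ (Icc 1 T).filter Squarefree, (1 : ℝ) / t ≤
    2 * ∑ t ∈ (Icc 1 T).filter Squarefree, (1 : ℝ) / t := mul_le_mul_of_nonneg_right h3 h5
  linarith

lemma L_ge_one (T : ℕ) (hT : 1 ≤ T) : 1 ≤ g T 1 := by
  refine le_trans ?_ (L_ge_sf T)
  have h1 : (1 : ℕ) ∈ (Icc 1 T).filter Squarefree := by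
    rw [mem_filter, mem_Icc]
    exact ⟨⟨le_refl _, hT⟩, squarefree_one⟩
  have h2 := single_le_sum (f := fun t : ℕ => (1 : ℝ) / t) (fun t _ => by positivity) h1
  simpa using h2

end SelAux

/-- SEL. Selberg weights. -/
theorem selberg_weights (T : ℕ) (hT : 1 ≤ T) :
    ∃ b : ℕ → ℝ, 1 ≤ b 1 ∧ Real.log T / 2 ≤ b 1 ∧ QQ b T ≤ b 1 ∧ BB b T ≤ (T : ℝ) ^ 3 := by
  have h1 : SelAux.bb T 1 = SelAux.g T 1 := by
    unfold SelAux.bb
    rw [SelAux.mu_one]
    push_cast
    ring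
  refine ⟨SelAux.bb T, ?_, ?_, ?_, SelAux.BB_le T⟩
  · rw [h1]
    exact SelAux.L_ge_one T hT
  · rw [h1]
    exact SelAux.L_ge T
  · rw [h1, SelAux.QQ_eq]

end

end Pool.Agent.M848
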