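import Pool.Agent.Lib.MP_848d44_nt.Defs
import Pool.Agent.Lib.MP_848d44_nt.Chars
import Pool.Agent.Lib.MP_848d44_nt.Off1
import Pool.Agent.Lib.MP_848d44_nt.OffB
import Pool.Agent.Lib.MP_848d44_nt.Ncp
import Pool.Agent.Lib.MP_848d44_nt.Geq
import Pool.Agent.Lib.MP_848d44_nt.Mom
import Pool.Agent.Lib.MP_848d44_nt.Cop
import Pool.Agent.Lib.MP_848d44_nt.Dia
import Pool.Agent.Lib.MP_848d44_nt.Sel
import Pool.Agent.Lib.MP_848d44_nt.Rec
import Pool.Agent.Lib.MP_848d44_nt.Few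
import Pool.Agent.Lib.MP_848d44_nt.Div

/-!
# MP_848d44_nt: lower bound for the variance of the primes in the residue classes modulo q,
for every modulus q >= x^(2/3 + eps): assembly of the modules
-/

set_option autoImplicit false

namespace Pool.Agent.M848

open Finset
open scoped ArithmeticFunction ComplexConjugate

noncomputable section

/-- the set of primes used -/
def SS (q j₀ j₁ : ℕ) : Finset ℕ :=
  (Ico j₀ j₁).biUnion fun j => (PR (2 ^ j)).filter fun s => ¬ s ∣ q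

theorem mem_PR {R s : ℕ} : s ∈ PR R ↔ (R < s ∧ s ≤ 2 * R) ∧ s.Prime := by
  simp [PR]

theorem mem_SS {q j₀ j₁ s : ℕ} (h : s ∈ SS q j₀ j₁) :
    s.Prime ∧ 2 ^ j₀ < s ∧ s ≤ 2 ^ j₁ ∧ ¬ s ∣ q := by
  simp only [SS, mem_biUnion, mem_filter, mem_Ico, mem_PR] at h
  obtain ⟨j, ⟨hj0, hj1⟩, ⟨⟨h1, h2⟩, hp⟩, hq⟩ := h
  refine ⟨hp, lt_of_le_of_lt (Nat.pow_le_pow_right (by norm_num) hj0) h1, ?_, hq⟩
  calc s ≤ 2 * 2 ^ j := h2
    _ = 2 ^ (j + 1) := by ring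
    _ ≤ 2 ^ j₁ := Nat.pow_le_pow_right (by norm_num) hj1

theorem card_SS (q j₀ j₁ : ℕ) : (SS q j₀ j₁).card ≤ 2 ^ j₁ := by
  have : SS q j₀ j₁ ⊆ Ioc 0 (2 ^ j₁) := by
    intro s hs
    have := mem_SS hs
    simp only [mem_Ioc]
    exact ⟨this.1.pos, this.2.2.1⟩
  simpa using card_le_card this

/-- identity for the duality -/
theorem dual_identity (b : ℕ → ℝ) (T N q : ℕ) (hq : 1 ≤ q) (S : Finset ℕ) (κ : ℝ) :
    ∑ a ∈ (range q).filter (fun a => a.Coprime q),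
      ((∑ n ∈ (Icc 1 N).filter (fun n => n % q = a), Λ n) - κ) * GG b T N q S a =
    ∑ n ∈ (Icc 1 N).filter (fun n => n.Coprime q), Λ n * GG b T N q S (n % q)
      - κ * ∑ m ∈ (Icc 1 N).filter (fun m => m.Coprime q), FF b T N S (m : ℤ) := by
  have hcop : ∀ n : ℕ, (n % q).Coprime q ↔ n.Coprime q := by
    intro n
    rw [Nat.Coprime, Nat.Coprime, ← Nat.gcd_rec, Nat.gcd_comm]
  have key : ∀ f : ℕ → ℝ, ∑ n ∈ (Icc 1 N).filter (fun n => n.Coprime q), f n =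
      ∑ a ∈ (range q).filter (fun a => a.Coprime q), ∑ n ∈ (Icc 1 N).filter (fun n => n % q = a), f n := by
    intro f
    rw [← Finset.sum_fiberwise_of_maps_to (s := (Icc 1 N).filter (fun n => n.Coprime q))
      (t := (range q).filter (fun a => a.Coprime q)) (g := fun n => n % q)]
    · refine sum_congr rfl fun a ha => ?_
      refine sum_congr ?_ fun _ _ => rfl
      ext n
      simp only [mem_filter, mem_range] at ha ⊢
      constructor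
      · rintro ⟨⟨h1, h2⟩, h3⟩; exact ⟨h1, h3⟩
      · rintro ⟨h1, h3⟩
        exact ⟨⟨h1, (hcop n).1 (by rw [h3]; exact ha.2)⟩, h3⟩
    · intro n hn
      simp only [mem_filter, mem_range] at hn ⊢
      exact ⟨Nat.mod_lt _ (by omega), (hcop n).2 hn.2⟩
  rw [key, key, mul_sum, ← sum_sub_distrib]
  refine sum_congr rfl fun a _ => ?_
  rw [sub_mul]
  congr 1
  rw [sum_mul]
  refine sum_congr rfl fun n hn => ?_
  rw [(mem_filter.mp hn).2]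

/-- expansion of the numerator -/
theorem numer_expand (b : ℕ → ℝ) (T N q : ℕ) (hq : 1 ≤ q) (S : Finset ℕ) :
    ∑ n ∈ (Icc 1 N).filter (fun n => n.Coprime q), Λ n * GG b T N q S (n % q) =
      ∑ n ∈ (Icc 1 N).filter (fun n => n.Coprime q), Λ n * FF b T N S (n : ℤ)
      + ∑ s ∈ S, (∑ n ∈ (Icc 1 N).filter (fun n => n.Coprime q),
          Λ n * ∑ h ∈ Icc 1 (N / q), fs b T N s ((n : ℤ) + (1 : ℤ) * (h * q)))
      + ∑ s ∈ S, (∑ n ∈ (Icc 1 N).filter (fun n => n.Coprime q),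
          Λ n * ∑ h ∈ Icc 1 (N / q), fs b T N s ((n : ℤ) + (-1 : ℤ) * (h * q))) := by
  rw [sum_comm (s := S), sum_comm (s := S), ← sum_add_distrib, ← sum_add_distrib]
  refine sum_congr rfl fun n hn => ?_
  rw [GG_eq b T N q hq S n (mem_filter.mp hn).1, ← mul_sum, ← mul_sum, ← mul_add, ← mul_add]
  congr 1
  rw [add_assoc]
  congr 1
  rw [sum_add_distrib]
  congr 1
  · rw [sum_comm]
    refine sum_congr rfl fun h _ => ?_
    simp only [FF, one_mul]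
  · rw [sum_comm]
    refine sum_congr rfl fun h _ => ?_
    simp only [FF]
    refine sum_congr rfl fun s _ => ?_
    congr 1
    ring

theorem PR_disjoint {i j : ℕ} (h : i ≠ j) : Disjoint (PR (2 ^ i)) (PR (2 ^ j)) := by
  rw [Finset.disjoint_left]
  intro s hi hj
  rw [mem_PR] at hi hj
  rcases lt_or_gt_of_ne h with h | h
  · have : 2 * 2 ^ i ≤ 2 ^ j := by
      calc 2 * 2 ^ i = 2 ^ (i + 1) := by ring
        _ ≤ 2 ^ j := Nat.pow_le_pow_right (by norm_num) h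
    omega
  · have : 2 * 2 ^ j ≤ 2 ^ i := by
      calc 2 * 2 ^ j = 2 ^ (j + 1) := by ring
        _ ≤ 2 ^ i := Nat.pow_le_pow_right (by norm_num) h
    omega

theorem sum_SS (q j₀ j₁ : ℕ) (f : ℕ → ℝ) :
    ∑ s ∈ SS q j₀ j₁, f s = ∑ j ∈ Ico j₀ j₁, ∑ s ∈ (PR (2 ^ j)).filter (fun s => ¬ s ∣ q), f s := by
  unfold SS
  rw [sum_biUnion]
  intro i _ j _ hij
  exact Finset.disjoint_filter_filter (PR_disjoint hij)

theorem sum_SS_le (q j₀ j₁ : ℕ) (f : ℕ → ℝ) (hf : ∀ j ∈ Ico j₀ j₁, ∀ s ∈ PR (2 ^ j), 0 ≤ f s) :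
    ∑ s ∈ SS q j₀ j₁, f s ≤ ∑ j ∈ Ico j₀ j₁, ∑ s ∈ PR (2 ^ j), f s := by
  rw [sum_SS]
  refine sum_le_sum fun j hj => ?_
  exact sum_le_sum_of_subset_of_nonneg (filter_subset _ _) (fun s hs _ => hf j hj s hs)

/-- the property of the constant in `off_block` -/
def OffC (δ C : ℝ) : Prop :=
  ∀ N R d q H : ℕ, 1 ≤ R → R ^ 3 ≤ N → 1 ≤ d → d ≤ R → ∀ ξ ∈ ac d,
      ∀ σ : ℤ, (σ = 1 ∨ σ = -1) →
      ∑ s ∈ PR R, (1 / ((s : ℝ) - 1)) * ∑ χ ∈ nc s,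
        ‖∑ n ∈ Icc 1 N, ((Λ n : ℝ) : ℂ) * (χ n * ξ n) *
          ∑ h ∈ Icc 1 H, ((tent N ((n : ℤ) + σ * (h * q)) : ℝ) : ℂ) * conj (χ h * ξ h)‖ ≤
        C * (N : ℝ) ^ δ * d ^ 2 * (N / Real.sqrt R + (N : ℝ) ^ ((5 : ℝ) / 6) * Real.sqrt R)

theorem off_total (δ C : ℝ) (hC0 : 0 ≤ C) (hC : OffC δ C) (b : ℕ → ℝ) (T N q j₀ j₁ : ℕ)
    (hN : 3 ≤ N) (hT : 1 ≤ T) (hTN : T ≤ N) (hq : 1 ≤ q) (hqN : q ≤ N)
    (hTj : T ≤ 2 ^ j₀) (hH : N / q ≤ 2 ^ j₀) (hj : ∀ j < j₁, (2 ^ j) ^ 3 ≤ N)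
    (σ : ℤ) (hσ : σ = 1 ∨ σ = -1) :
    |∑ s ∈ SS q j₀ j₁, (∑ n ∈ (Icc 1 N).filter (fun n => n.Coprime q),
          Λ n * ∑ h ∈ Icc 1 (N / q), fs b T N s ((n : ℤ) + σ * (h * q)))| ≤
      (∑ j ∈ Ico j₀ j₁, BB b T * (C * (N : ℝ) ^ δ * (T : ℝ) ^ 2 *
        (N / Real.sqrt (2 ^ j) + (N : ℝ) ^ ((5 : ℝ) / 6) * Real.sqrt (2 ^ j))))
      + ∑ s ∈ SS q j₀ j₁, ((N / q : ℕ) : ℝ) * BB b T *
          (4 * Real.log N ^ 2 + 6 * N / (s * ((s : ℝ) - 1))) := by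
  refine le_trans (abs_sum_le_sum_abs _ _) ?_
  have h1 : ∀ s ∈ SS q j₀ j₁, |∑ n ∈ (Icc 1 N).filter (fun n => n.Coprime q),
          Λ n * ∑ h ∈ Icc 1 (N / q), fs b T N s ((n : ℤ) + σ * (h * q))| ≤
      ∑ d ∈ Icc 1 T, |b d| * ((1 / (d.totient : ℝ)) * ∑ ξ ∈ ac d,
        ((1 / ((s : ℝ) - 1)) * ∑ χ ∈ nc s,
        ‖∑ n ∈ Icc 1 N, ((Λ n : ℝ) : ℂ) * (χ n * ξ n) *
          ∑ h ∈ Icc 1 (N / q), ((tent N ((n : ℤ) + σ * (h * q)) : ℝ) : ℂ) * conj (χ h * ξ h)‖))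
      + ((N / q : ℕ) : ℝ) * BB b T * (4 * Real.log N ^ 2 + 6 * N / (s * ((s : ℝ) - 1))) := by
    intro s hs
    have hs' := mem_SS hs
    exact off_one b T N q s hN hT hTN hq hqN hs'.1 (by omega) hs'.2.2.2 (by omega) σ hσ
  refine le_trans (sum_le_sum h1) ?_
  rw [sum_add_distrib]
  refine add_le_add ?_ le_rfl
  refine le_trans (sum_SS_le q j₀ j₁ _ ?_) ?_
  · intro j hj s hs
    rw [mem_PR] at hs
    have hs1 : (1 : ℝ) ≤ s := by
      have : 1 ≤ s := hs.2.one_lt.le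
      exact_mod_cast this
    refine sum_nonneg fun d _ => mul_nonneg (abs_nonneg _) (mul_nonneg (by positivity) ?_)
    refine sum_nonneg fun ξ _ => mul_nonneg ?_ (sum_nonneg fun χ _ => norm_nonneg _)
    exact div_nonneg zero_le_one (by linarith)
  · refine sum_le_sum fun j hj' => ?_
    rw [mem_Ico] at hj'
    rw [sum_comm, BB, sum_mul]
    refine sum_le_sum fun d hd => ?_
    rw [mem_Icc] at hd
    rw [← mul_sum]
    refine mul_le_mul_of_nonneg_left ?_ (abs_nonneg _)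
    rw [← mul_sum, sum_comm]
    have hR1 : 1 ≤ 2 ^ j := Nat.one_le_two_pow
    have hdR : d ≤ 2 ^ j := le_trans hd.2 (le_trans hTj (Nat.pow_le_pow_right (by norm_num) hj'.1))
    have h2 : ∀ ξ ∈ ac d, ∑ s ∈ PR (2 ^ j), (1 / ((s : ℝ) - 1)) * ∑ χ ∈ nc s,
        ‖∑ n ∈ Icc 1 N, ((Λ n : ℝ) : ℂ) * (χ n * ξ n) *
          ∑ h ∈ Icc 1 (N / q), ((tent N ((n : ℤ) + σ * (h * q)) : ℝ) : ℂ) * conj (χ h * ξ h)‖ ≤
        C * (N : ℝ) ^ δ * (T : ℝ) ^ 2 *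
        (N / Real.sqrt (2 ^ j) + (N : ℝ) ^ ((5 : ℝ) / 6) * Real.sqrt (2 ^ j)) := by
      intro ξ hξ
      have := hC N (2 ^ j) d q (N / q) hR1 (hj j hj'.2) hd.1 hdR ξ hξ σ hσ
      refine le_trans this ?_
      push_cast
      have hdT : (d : ℝ) ^ 2 ≤ (T : ℝ) ^ 2 := by
        have : (d : ℝ) ≤ T := by exact_mod_cast hd.2
        gcongr
      have hnn : 0 ≤ (N : ℝ) / Real.sqrt (2 ^ j) + (N : ℝ) ^ ((5 : ℝ) / 6) * Real.sqrt (2 ^ j) := by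
        positivity
      refine mul_le_mul_of_nonneg_right ?_ hnn
      exact mul_le_mul_of_nonneg_left hdT (by positivity)
    refine le_trans (mul_le_mul_of_nonneg_left (sum_le_sum h2) (by positivity)) ?_
    rw [sum_const, ac_card hd.1, nsmul_eq_mul]
    have hφ : (0 : ℝ) < d.totient := by
      have : 0 < d.totient := Nat.totient_pos.2 (by omega)
      exact_mod_cast this
    rw [← mul_assoc, one_div, inv_mul_cancel₀ hφ.ne', one_mul]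

/-- the property of `N₀` in `diag_term` -/
def DiagC (N₀ : ℕ) : Prop :=
  ∀ N : ℕ, N₀ ≤ N → ∀ q : ℕ, 1 ≤ q → q ≤ N →
    ∀ (b : ℕ → ℝ) (T : ℕ) (S : Finset ℕ), 0 ≤ b 1 → 1 ≤ T → T ≤ N →
    (∀ s ∈ S, s.Prime ∧ T < s) →
    ∑ n ∈ (Icc 1 N).filter (fun n => n.Coprime q), Λ n * FF b T N S (n : ℤ) ≤
      - (AA S * b 1 * (N / 40)) + (S.card : ℝ) * BB b T *
        (6 * T + 2 * Real.sqrt N * Real.log N + S.card * Real.log N + 2 * Real.log N ^ 2)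

/-- First error term. -/
def E1 (δ C : ℝ) (b : ℕ → ℝ) (T N q j₀ j₁ : ℕ) (X : ℝ) : ℝ :=
  ((SS q j₀ j₁).card : ℝ) * BB b T *
        (6 * T + 2 * Real.sqrt N * Real.log N + (SS q j₀ j₁).card * Real.log N + 2 * Real.log N ^ 2)
  + 2 * ((∑ j ∈ Ico j₀ j₁, BB b T * (C * (N : ℝ) ^ δ * (T : ℝ) ^ 2 *
        (N / Real.sqrt (2 ^ j) + (N : ℝ) ^ ((5 : ℝ) / 6) * Real.sqrt (2 ^ j))))
      + ∑ s ∈ SS q j₀ j₁, ((N / q : ℕ) : ℝ) * BB b T *
          (4 * Real.log N ^ 2 + 6 * N / (s * ((s : ℝ) - 1))))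
  + X * (6 * BB b T * (SS q j₀ j₁).card * q.divisors.card)

/-- Second error term. -/
def E2 (b : ℕ → ℝ) (T N q j₀ j₁ : ℕ) : ℝ :=
  2 * ((SS q j₀ j₁).card : ℝ) ^ 2 * BB b T ^ 2 +
      2 * ((N / q : ℕ) : ℝ) *
        (BB b T ^ 2 * (9 * ((SS q j₀ j₁).card : ℝ) ^ 2 +
          ∑ s ∈ SS q j₀ j₁, ((N : ℝ) / s ^ 2 + 8 / s)))

theorem numer_upper (δ C : ℝ) (hC0 : 0 ≤ C) (hC : OffC δ C) (N₀ : ℕ) (hD : DiagC N₀)
    (b : ℕ → ℝ) (T N q j₀ j₁ : ℕ) (X : ℝ) (hX : 0 ≤ X) (hb : 0 ≤ b 1)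
    (hN : 3 ≤ N) (hN₀ : N₀ ≤ N) (hT : 1 ≤ T) (hTN : T ≤ N) (hq : 1 ≤ q) (hqN : q ≤ N)
    (hTj : T ≤ 2 ^ j₀) (hH : N / q ≤ 2 ^ j₀) (hj : ∀ j < j₁, (2 ^ j) ^ 3 ≤ N) :
    ∑ a ∈ (range q).filter (fun a => a.Coprime q),
      ((∑ n ∈ (Icc 1 N).filter (fun n => n % q = a), Λ n) - X) * GG b T N q (SS q j₀ j₁) a
      ≤ -(AA (SS q j₀ j₁) * b 1 * (N / 40)) + E1 δ C b T N q j₀ j₁ X := by
  rw [dual_identity b T N q hq (SS q j₀ j₁) X, numer_expand b T N q hq]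
  have hS : ∀ s ∈ SS q j₀ j₁, s.Prime ∧ T < s := by
    intro s hs
    have := mem_SS hs
    exact ⟨this.1, by omega⟩
  have h1 := hD N hN₀ q hq hqN b T (SS q j₀ j₁) hb hT hTN hS
  have h2 := (abs_le.mp (off_total δ C hC0 hC b T N q j₀ j₁ hN hT hTN hq hqN hTj hH hj 1
    (Or.inl rfl))).2
  have h3 := (abs_le.mp (off_total δ C hC0 hC b T N q j₀ j₁ hN hT hTN hq hqN hTj hH hj (-1)
    (Or.inr rfl))).2
  have h4 := (abs_le.mp (FF_coprime b T N q (by omega) hq (SS q j₀ j₁) hS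
    (fun s hs => (mem_SS hs).2.2.2))).1
  have h5 := mul_le_mul_of_nonneg_left h4 hX
  unfold E1
  linarith

theorem cauchy_final (b : ℕ → ℝ) (T N q j₀ j₁ : ℕ) (X e₁ : ℝ)
    (hb : 1 ≤ b 1) (hQ : QQ b T ≤ b 1) (hN : 3 ≤ N) (hq : 1 ≤ q)
    (hTj : T ≤ 2 ^ j₀) (hH : N / q ≤ 2 ^ j₀)
    (hA : 0 < AA (SS q j₀ j₁))
    (hnum : ∑ a ∈ (range q).filter (fun a => a.Coprime q),
      ((∑ n ∈ (Icc 1 N).filter (fun n => n % q = a), Λ n) - X) * GG b T N q (SS q j₀ j₁) a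
      ≤ -(AA (SS q j₀ j₁) * b 1 * (N / 40)) + e₁)
    (he₁ : e₁ ≤ AA (SS q j₀ j₁) * b 1 * (N / 80))
    (he₂ : E2 b T N q j₀ j₁ ≤ N * b 1 * (AA (SS q j₀ j₁) + AA (SS q j₀ j₁) ^ 2)) :
    N * b 1 * (AA (SS q j₀ j₁) / (1 + AA (SS q j₀ j₁))) / 12800 ≤
      ∑ a ∈ (range q).filter (fun a => a.Coprime q),
        ((∑ n ∈ (Icc 1 N).filter (fun n => n % q = a), Λ n) - X) ^ 2 := by
  set A := AA (SS q j₀ j₁) with hAdef
  set E : ℕ → ℝ := fun a => (∑ n ∈ (Icc 1 N).filter (fun n => n % q = a), Λ n) - X with hE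
  have hS : ∀ s ∈ SS q j₀ j₁, s.Prime ∧ T < s := by
    intro s hs
    have := mem_SS hs
    exact ⟨this.1, by omega⟩
  have hNpos : (0 : ℝ) < N := by
    have : 0 < N := by omega
    exact_mod_cast this
  have hM := GG_moment b T N q (by omega) hq (SS q j₀ j₁) hS (fun s hs => (mem_SS hs).2.2.2)
    (fun s hs => by have := mem_SS hs; omega)
  have hG : ∑ a ∈ (range q).filter (fun a => a.Coprime q), GG b T N q (SS q j₀ j₁) a ^ 2 ≤
      2 * (N * b 1 * (A + A ^ 2)) := by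
    refine le_trans (sum_le_sum_of_subset_of_nonneg (filter_subset _ _)
      (fun a _ _ => sq_nonneg _)) ?_
    refine le_trans hM ?_
    have h1 : N * QQ b T * (A + A ^ 2) ≤ N * b 1 * (A + A ^ 2) := by
      have : 0 ≤ A + A ^ 2 := by positivity
      have h2 := mul_le_mul_of_nonneg_left hQ hNpos.le
      exact mul_le_mul_of_nonneg_right h2 this
    unfold E2 at he₂
    linarith
  have hCS : (∑ a ∈ (range q).filter (fun a => a.Coprime q), E a * GG b T N q (SS q j₀ j₁) a) ^ 2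
      ≤ (∑ a ∈ (range q).filter (fun a => a.Coprime q), E a ^ 2) *
        (∑ a ∈ (range q).filter (fun a => a.Coprime q), GG b T N q (SS q j₀ j₁) a ^ 2) :=
    sum_mul_sq_le_sq_mul_sq _ _ _
  have hV0 : 0 ≤ ∑ a ∈ (range q).filter (fun a => a.Coprime q), E a ^ 2 :=
    sum_nonneg fun a _ => sq_nonneg _
  set V := ∑ a ∈ (range q).filter (fun a => a.Coprime q), E a ^ 2 with hV
  set Y := ∑ a ∈ (range q).filter (fun a => a.Coprime q), E a * GG b T N q (SS q j₀ j₁) a with hY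
  have hY1 : Y ≤ -(A * b 1 * (N / 80)) := by
    have : Y ≤ -(A * b 1 * (N / 40)) + e₁ := hnum
    have h2 : A * b 1 * ((N : ℝ) / 40) = 2 * (A * b 1 * (N / 80)) := by ring
    linarith
  have hpos : 0 < A * b 1 * (N / 80) := by positivity
  have hY2 : (A * b 1 * ((N : ℝ) / 80)) ^ 2 ≤ Y ^ 2 := by nlinarith
  have hfin : (A * b 1 * ((N : ℝ) / 80)) ^ 2 ≤ V * (2 * (N * b 1 * (A + A ^ 2))) :=
    le_trans hY2 (le_trans hCS (mul_le_mul_of_nonneg_left hG hV0))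
  have hb0 : 0 < b 1 := by linarith
  have hk : 0 < 2 * (N * b 1 * (A + A ^ 2)) := by positivity
  have hdiv : (A * b 1 * ((N : ℝ) / 80)) ^ 2 / (2 * (N * b 1 * (A + A ^ 2))) ≤ V :=
    (div_le_iff₀ hk).2 hfin
  refine le_trans (le_of_eq ?_) hdiv
  have h1A : (1 + A) ≠ 0 := by positivity
  have hA' : A ≠ 0 := hA.ne'
  field_simp
  ring

theorem card_PR (R : ℕ) : (PR R).card ≤ R := by
  refine le_trans (card_le_card (filter_subset _ _)) ?_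
  rw [Nat.card_Ioc]
  omega

theorem inv_sq_sum (q j₀ j₁ : ℕ) :
    ∑ s ∈ SS q j₀ j₁, 1 / (s : ℝ) ^ 2 ≤ (j₁ : ℝ) / 2 ^ j₀ := by
  refine le_trans (sum_SS_le q j₀ j₁ _ (fun j _ s _ => by positivity)) ?_
  have h1 : ∀ j ∈ Ico j₀ j₁, ∑ s ∈ PR (2 ^ j), 1 / (s : ℝ) ^ 2 ≤ 1 / 2 ^ j₀ := by
    intro j hj
    rw [mem_Ico] at hj
    have h2 : ∀ s ∈ PR (2 ^ j), 1 / (s : ℝ) ^ 2 ≤ 1 / ((2 : ℝ) ^ j) ^ 2 := by
      intro s hs
      rw [mem_PR] at hs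
      have h3 : (2 : ℝ) ^ j ≤ s := by
        have : 2 ^ j ≤ s := hs.1.1.le
        exact_mod_cast this
      have h4 : (0 : ℝ) < 2 ^ j := by positivity
      exact one_div_le_one_div_of_le (by positivity) (by gcongr)
    refine le_trans (sum_le_sum h2) ?_
    rw [sum_const, nsmul_eq_mul]
    have h5 : ((PR (2 ^ j)).card : ℝ) ≤ (2 : ℝ) ^ j := by
      exact_mod_cast card_PR (2 ^ j)
    have h6 : (0 : ℝ) < 2 ^ j := by positivity
    calc ((PR (2 ^ j)).card : ℝ) * (1 / ((2 : ℝ) ^ j) ^ 2) ≤ (2 : ℝ) ^ j * (1 / ((2 : ℝ) ^ j) ^ 2) := by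
          gcongr
      _ = 1 / 2 ^ j := by field_simp
      _ ≤ 1 / 2 ^ j₀ := one_div_le_one_div_of_le (by positivity)
          (pow_le_pow_right₀ (by norm_num) hj.1)
  refine le_trans (sum_le_sum h1) ?_
  rw [sum_const, nsmul_eq_mul, Nat.card_Ico]
  have : ((j₁ - j₀ : ℕ) : ℝ) ≤ j₁ := by exact_mod_cast Nat.sub_le _ _
  calc ((j₁ - j₀ : ℕ) : ℝ) * (1 / 2 ^ j₀) ≤ (j₁ : ℝ) * (1 / 2 ^ j₀) := by gcongr
    _ = j₁ / 2 ^ j₀ := by ring

theorem E1_bound (δ C C₂ C₃ : ℝ) (hC : 0 ≤ C) (hC₂ : 1 ≤ C₂) (hC₃ : 1 ≤ C₃) (b : ℕ → ℝ)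
    (T N q j₀ j₁ : ℕ) (X u m : ℝ) (hu : 1 ≤ u) (hum : u ^ 10 ≤ m) (hN : (N : ℝ) = m ^ 6)
    (hδ : (N : ℝ) ^ δ = u) (h56 : (N : ℝ) ^ ((5 : ℝ) / 6) = m ^ 5) (hT : (T : ℝ) ≤ u)
    (hBB : BB b T ≤ u ^ 3) (hL : Real.log N ≤ C₃ * u) (hH1 : (1 : ℝ) ≤ (N / q : ℕ))
    (hH : ((N / q : ℕ) : ℝ) * u ^ 400 ≤ m ^ 2)
    (hj₀ : ((N / q : ℕ) : ℝ) * u ^ 100 ≤ 2 ^ j₀) (hj₁ : (2 : ℝ) ^ j₁ ≤ ((N / q : ℕ) : ℝ) * u ^ 200)
    (hτ : (q.divisors.card : ℝ) ≤ C₂ * u) (hX0 : 0 ≤ X)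
    (hX : X ≤ 12 * ((N / q : ℕ) : ℝ) * (C₂ * u)) (hjj : (j₁ : ℝ) ≤ 2 * C₃ * u) :
    E1 δ C b T N q j₀ j₁ X * u ≤
      (6 + 3 * C₃ + 2 * C₃ ^ 2 + 8 * C * C₃ + 8 * C₃ ^ 2 + 48 * C₃ + 72 * C₂ ^ 2) * N := by
  set H : ℝ := ((N / q : ℕ) : ℝ) with hHdef
  have hu0 : 0 < u := by linarith
  have hm1 : 1 ≤ m := le_trans (one_le_pow₀ hu) hum
  have hm0 : 0 < m := by linarith
  have hBB0 : 0 ≤ BB b T := sum_nonneg fun _ _ => abs_nonneg _
  have hL0 : 0 ≤ Real.log N := Real.log_natCast_nonneg N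
  have hs : ((SS q j₀ j₁).card : ℝ) ≤ H * u ^ 200 := by
    refine le_trans ?_ hj₁
    exact_mod_cast card_SS q j₀ j₁
  have hHu : H * u ^ 200 * u ^ 200 ≤ m ^ 2 := by
    refine le_trans (le_of_eq ?_) hH
    ring
  have hu200 : 1 ≤ u ^ 200 := one_le_pow₀ hu
  have hHu2 : H * u ^ 200 ≤ m ^ 2 := by
    refine le_trans ?_ hHu
    exact le_mul_of_one_le_right (by positivity) hu200
  have hHm : H ≤ m ^ 2 := by
    refine le_trans ?_ hHu2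
    exact le_mul_of_one_le_right (by positivity) hu200
  have hs2 : ((SS q j₀ j₁).card : ℝ) ≤ m ^ 2 := le_trans hs hHu2
  have hs0 : 0 ≤ ((SS q j₀ j₁).card : ℝ) := Nat.cast_nonneg _
  have huu : u ≤ u ^ 2 := by
    rw [pow_two]
    exact le_mul_of_one_le_right hu0.le hu
  have hmm : m ≤ m ^ 2 := by
    rw [pow_two]
    exact le_mul_of_one_le_right hm0.le hm1
  have hsqrtN : Real.sqrt N = m ^ 3 := by
    rw [hN, show m ^ 6 = (m ^ 3) ^ 2 by ring, Real.sqrt_sq (by positivity)]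
  -- term a
  have ha : ((SS q j₀ j₁).card : ℝ) * BB b T *
        (6 * T + 2 * Real.sqrt N * Real.log N + (SS q j₀ j₁).card * Real.log N
          + 2 * Real.log N ^ 2) * u ≤ (6 + 3 * C₃ + 2 * C₃ ^ 2) * N := by
    rw [hsqrtN]
    have h1 : 6 * (T : ℝ) + 2 * m ^ 3 * Real.log N + (SS q j₀ j₁).card * Real.log N
          + 2 * Real.log N ^ 2 ≤ (6 + 3 * C₃ + 2 * C₃ ^ 2) * (m ^ 3 * u ^ 2) := by
      have e1 : 6 * (T : ℝ) ≤ 6 * (m ^ 3 * u ^ 2) := by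
        have h3 : (1 : ℝ) ≤ m ^ 3 := one_le_pow₀ hm1
        calc 6 * (T : ℝ) ≤ 6 * u := by gcongr
          _ ≤ 6 * u ^ 2 := by
              have := huu
              gcongr
          _ = 6 * (1 * u ^ 2) := by ring
          _ ≤ _ := by gcongr
      have e2 : 2 * m ^ 3 * Real.log N ≤ 2 * C₃ * (m ^ 3 * u ^ 2) := by
        calc 2 * m ^ 3 * Real.log N ≤ 2 * m ^ 3 * (C₃ * u ^ 2) := by
              gcongr
              exact le_trans hL (by gcongr)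
          _ = _ := by ring
      have e3 : (SS q j₀ j₁).card * Real.log N ≤ C₃ * (m ^ 3 * u ^ 2) := by
        calc (SS q j₀ j₁).card * Real.log N ≤ m ^ 2 * (C₃ * u ^ 2) := by
              gcongr
              exact le_trans hL (by gcongr)
          _ ≤ m ^ 3 * (C₃ * u ^ 2) := by
              have : m ^ 2 ≤ m ^ 3 := pow_le_pow_right₀ hm1 (by norm_num)
              gcongr
          _ = _ := by ring
      have e4 : 2 * Real.log N ^ 2 ≤ 2 * C₃ ^ 2 * (m ^ 3 * u ^ 2) := by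
        calc 2 * Real.log N ^ 2 ≤ 2 * (C₃ * u) ^ 2 := by gcongr
          _ = 2 * C₃ ^ 2 * (1 * u ^ 2) := by ring
          _ ≤ 2 * C₃ ^ 2 * (m ^ 3 * u ^ 2) := by
              have : (1 : ℝ) ≤ m ^ 3 := one_le_pow₀ hm1
              gcongr
      linarith
    calc _ ≤ m ^ 2 * u ^ 3 * ((6 + 3 * C₃ + 2 * C₃ ^ 2) * (m ^ 3 * u ^ 2)) * u := by gcongr
      _ = (6 + 3 * C₃ + 2 * C₃ ^ 2) * (m ^ 5 * u ^ 6) := by ring
      _ ≤ (6 + 3 * C₃ + 2 * C₃ ^ 2) * (m ^ 5 * u ^ 10) := by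
          have : u ^ 6 ≤ u ^ 10 := pow_le_pow_right₀ hu (by norm_num)
          gcongr
      _ ≤ (6 + 3 * C₃ + 2 * C₃ ^ 2) * (m ^ 5 * m) := by gcongr
      _ = _ := by rw [hN]; ring
  -- term b1
  have hb1 : (∑ j ∈ Ico j₀ j₁, BB b T * (C * (N : ℝ) ^ δ * (T : ℝ) ^ 2 *
        (N / Real.sqrt (2 ^ j) + (N : ℝ) ^ ((5 : ℝ) / 6) * Real.sqrt (2 ^ j)))) * u ≤
      4 * C * C₃ * N := by
    have hterm : ∀ j ∈ Ico j₀ j₁, BB b T * (C * (N : ℝ) ^ δ * (T : ℝ) ^ 2 *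
        (N / Real.sqrt (2 ^ j) + (N : ℝ) ^ ((5 : ℝ) / 6) * Real.sqrt (2 ^ j))) ≤
        2 * C * u ^ 6 * (N / u ^ 50) := by
      intro j hj
      rw [mem_Ico] at hj
      have g1 : u ^ 50 ≤ Real.sqrt (2 ^ j) := by
        apply Real.le_sqrt_of_sq_le
        calc (u ^ 50) ^ 2 = 1 * u ^ 100 := by ring
          _ ≤ H * u ^ 100 := by gcongr
          _ ≤ 2 ^ j₀ := hj₀
          _ ≤ 2 ^ j := pow_le_pow_right₀ (by norm_num) hj.1
      have g2 : (N : ℝ) / Real.sqrt (2 ^ j) ≤ N / u ^ 50 := by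
        apply div_le_div_of_nonneg_left (by positivity) (by positivity) g1
      have g3 : Real.sqrt (2 ^ j) * u ^ 100 ≤ m := by
        have : Real.sqrt (2 ^ j) ≤ Real.sqrt ((m / u ^ 100) ^ 2) := by
          apply Real.sqrt_le_sqrt
          rw [div_pow, le_div_iff₀ (by positivity)]
          calc (2 : ℝ) ^ j * (u ^ 100) ^ 2 ≤ 2 ^ j₁ * (u ^ 100) ^ 2 := by
                have : (2 : ℝ) ^ j ≤ 2 ^ j₁ := pow_le_pow_right₀ (by norm_num) hj.2.le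
                gcongr
            _ ≤ (H * u ^ 200) * (u ^ 100) ^ 2 := by gcongr
            _ = H * u ^ 200 * u ^ 200 := by ring
            _ ≤ m ^ 2 := hHu
        rw [Real.sqrt_sq (by positivity)] at this
        calc Real.sqrt (2 ^ j) * u ^ 100 ≤ m / u ^ 100 * u ^ 100 := by gcongr
          _ = m := by field_simp
      have g4 : (N : ℝ) ^ ((5 : ℝ) / 6) * Real.sqrt (2 ^ j) ≤ N / u ^ 50 := by
        rw [h56, hN, le_div_iff₀ (by positivity)]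
        have : u ^ 50 ≤ u ^ 100 := pow_le_pow_right₀ hu (by norm_num)
        calc m ^ 5 * Real.sqrt (2 ^ j) * u ^ 50 ≤ m ^ 5 * Real.sqrt (2 ^ j) * u ^ 100 := by gcongr
          _ = m ^ 5 * (Real.sqrt (2 ^ j) * u ^ 100) := by ring
          _ ≤ m ^ 5 * m := by gcongr
          _ = m ^ 6 := by ring
      rw [hδ]
      calc _ ≤ u ^ 3 * (C * u * u ^ 2 * (N / u ^ 50 + N / u ^ 50)) := by
            gcongr
        _ = _ := by ring
    have hsum := sum_le_sum hterm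
    rw [sum_const, nsmul_eq_mul, Nat.card_Ico] at hsum
    have hjle : ((j₁ - j₀ : ℕ) : ℝ) ≤ 2 * C₃ * u :=
      le_trans (by exact_mod_cast Nat.sub_le _ _) hjj
    calc _ ≤ (((j₁ - j₀ : ℕ) : ℝ) * (2 * C * u ^ 6 * (N / u ^ 50))) * u := by gcongr
      _ ≤ ((2 * C₃ * u) * (2 * C * u ^ 6 * (N / u ^ 50))) * u := by gcongr
      _ = 4 * C * C₃ * (N * (u ^ 8 / u ^ 50)) := by ring
      _ ≤ 4 * C * C₃ * (N * 1) := by
          have : u ^ 8 / u ^ 50 ≤ 1 := by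
            rw [div_le_one (by positivity)]
            exact pow_le_pow_right₀ hu (by norm_num)
          gcongr
      _ = _ := by ring
  -- term b2 and b3
  have hb23 : (∑ s ∈ SS q j₀ j₁, H * BB b T *
          (4 * Real.log N ^ 2 + 6 * N / (s * ((s : ℝ) - 1)))) * u ≤
      (4 * C₃ ^ 2 + 24 * C₃) * N := by
    have hterm : ∀ s ∈ SS q j₀ j₁, H * BB b T *
          (4 * Real.log N ^ 2 + 6 * N / (s * ((s : ℝ) - 1))) ≤
          m ^ 2 * u ^ 3 * (4 * (C₃ * u) ^ 2) + 12 * N * u ^ 3 * H * (1 / (s : ℝ) ^ 2) := by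
      intro s hs'
      have hp := (mem_SS hs').1
      have hs2' : (2 : ℝ) ≤ s := by exact_mod_cast hp.two_le
      have k1 : 6 * (N : ℝ) / (s * ((s : ℝ) - 1)) ≤ 12 * N * (1 / (s : ℝ) ^ 2) := by
        rw [mul_one_div, div_le_div_iff₀ (by nlinarith) (by positivity)]
        have : (s : ℝ) ^ 2 ≤ 2 * (s * (s - 1)) := by nlinarith
        have hN0 : (0 : ℝ) ≤ N := Nat.cast_nonneg _
        nlinarith
      have hH0 : 0 ≤ H := by positivity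
      rw [mul_add]
      refine add_le_add ?_ ?_
      · gcongr
      · calc H * BB b T * (6 * (N : ℝ) / (s * ((s : ℝ) - 1))) ≤
              H * BB b T * (12 * N * (1 / (s : ℝ) ^ 2)) := by gcongr
          _ ≤ H * u ^ 3 * (12 * N * (1 / (s : ℝ) ^ 2)) := by gcongr
          _ = _ := by ring
    have hsum := sum_le_sum hterm
    have hms : ∑ s ∈ SS q j₀ j₁, 12 * (N : ℝ) * u ^ 3 * H * (1 / (s : ℝ) ^ 2) =
        12 * (N : ℝ) * u ^ 3 * H * ∑ s ∈ SS q j₀ j₁, (1 / (s : ℝ) ^ 2) := by rw [mul_sum]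
    rw [sum_add_distrib, sum_const, nsmul_eq_mul, hms] at hsum
    have hH0 : 0 ≤ H := by positivity
    have hinv := inv_sq_sum q j₀ j₁
    have hq1 : H * ∑ s ∈ SS q j₀ j₁, 1 / (s : ℝ) ^ 2 ≤ 2 * C₃ * u / u ^ 100 := by
      calc H * ∑ s ∈ SS q j₀ j₁, 1 / (s : ℝ) ^ 2 ≤ H * (j₁ / 2 ^ j₀) := by gcongr
        _ ≤ H * (j₁ / (H * u ^ 100)) := by
            have : (j₁ : ℝ) / 2 ^ j₀ ≤ j₁ / (H * u ^ 100) :=
              div_le_div_of_nonneg_left (Nat.cast_nonneg _) (by positivity) hj₀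
            gcongr
        _ = j₁ / u ^ 100 := by
            have : H ≠ 0 := by positivity
            field_simp
        _ ≤ _ := by gcongr
    have hsum2 : ∑ s ∈ SS q j₀ j₁, H * BB b T *
          (4 * Real.log N ^ 2 + 6 * N / (s * ((s : ℝ) - 1))) ≤
          m ^ 2 * (m ^ 2 * u ^ 3 * (4 * (C₃ * u) ^ 2)) +
          12 * N * u ^ 3 * (2 * C₃ * u / u ^ 100) := by
      refine le_trans hsum (add_le_add ?_ ?_)
      · gcongr
      · rw [show 12 * (N : ℝ) * u ^ 3 * H * ∑ s ∈ SS q j₀ j₁, 1 / (s : ℝ) ^ 2 =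
          12 * (N : ℝ) * u ^ 3 * (H * ∑ s ∈ SS q j₀ j₁, 1 / (s : ℝ) ^ 2) by ring]
        gcongr
    calc _ ≤ (m ^ 2 * (m ^ 2 * u ^ 3 * (4 * (C₃ * u) ^ 2)) +
          12 * N * u ^ 3 * (2 * C₃ * u / u ^ 100)) * u := by gcongr
      _ = 4 * C₃ ^ 2 * (m ^ 4 * u ^ 6) + 24 * C₃ * (N * (u ^ 5 / u ^ 100)) := by ring
      _ ≤ 4 * C₃ ^ 2 * N + 24 * C₃ * (N * 1) := by
          have h1 : m ^ 4 * u ^ 6 ≤ N := by
            rw [hN]
            calc m ^ 4 * u ^ 6 ≤ m ^ 4 * u ^ 10 := by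
                  have : u ^ 6 ≤ u ^ 10 := pow_le_pow_right₀ hu (by norm_num)
                  gcongr
              _ ≤ m ^ 4 * m := by gcongr
              _ ≤ m ^ 4 * m ^ 2 := by
                  gcongr
              _ = m ^ 6 := by ring
          have h2 : u ^ 5 / u ^ 100 ≤ 1 := by
            rw [div_le_one (by positivity)]
            exact pow_le_pow_right₀ hu (by norm_num)
          gcongr
      _ = _ := by ring
  -- term c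
  have hc : X * (6 * BB b T * (SS q j₀ j₁).card * q.divisors.card) * u ≤ 72 * C₂ ^ 2 * N := by
    calc _ ≤ (12 * H * (C₂ * u)) * (6 * u ^ 3 * m ^ 2 * (C₂ * u)) * u := by gcongr
      _ ≤ (12 * m ^ 2 * (C₂ * u)) * (6 * u ^ 3 * m ^ 2 * (C₂ * u)) * u := by gcongr
      _ = 72 * C₂ ^ 2 * (m ^ 4 * u ^ 6) := by ring
      _ ≤ 72 * C₂ ^ 2 * N := by
          have h1 : m ^ 4 * u ^ 6 ≤ N := by
            rw [hN]
            calc m ^ 4 * u ^ 6 ≤ m ^ 4 * u ^ 10 := by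
                  have : u ^ 6 ≤ u ^ 10 := pow_le_pow_right₀ hu (by norm_num)
                  gcongr
              _ ≤ m ^ 4 * m := by gcongr
              _ ≤ m ^ 4 * m ^ 2 := by
                  gcongr
              _ = m ^ 6 := by ring
          gcongr
  unfold E1
  rw [← hHdef]
  calc _ = ((SS q j₀ j₁).card : ℝ) * BB b T *
        (6 * T + 2 * Real.sqrt N * Real.log N + (SS q j₀ j₁).card * Real.log N
          + 2 * Real.log N ^ 2) * u +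
        2 * ((∑ j ∈ Ico j₀ j₁, BB b T * (C * (N : ℝ) ^ δ * (T : ℝ) ^ 2 *
        (N / Real.sqrt (2 ^ j) + (N : ℝ) ^ ((5 : ℝ) / 6) * Real.sqrt (2 ^ j)))) * u) +
        2 * ((∑ s ∈ SS q j₀ j₁, H * BB b T *
          (4 * Real.log N ^ 2 + 6 * N / (s * ((s : ℝ) - 1)))) * u) +
        X * (6 * BB b T * (SS q j₀ j₁).card * q.divisors.card) * u := by ring
    _ ≤ (6 + 3 * C₃ + 2 * C₃ ^ 2) * N + 2 * (4 * C * C₃ * N) + 2 * ((4 * C₃ ^ 2 + 24 * C₃) * N)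
        + 72 * C₂ ^ 2 * N := by gcongr
    _ = _ := by ring

theorem E2_bound (C₃ : ℝ) (hC₃ : 1 ≤ C₃) (b : ℕ → ℝ)
    (T N q j₀ j₁ : ℕ) (u m : ℝ) (hu : 1 ≤ u) (hum : u ^ 10 ≤ m) (hN : (N : ℝ) = m ^ 6)
    (hBB : BB b T ≤ u ^ 3) (hH1 : (1 : ℝ) ≤ (N / q : ℕ))
    (hH : ((N / q : ℕ) : ℝ) * u ^ 400 ≤ m ^ 2)
    (hj₀ : ((N / q : ℕ) : ℝ) * u ^ 100 ≤ 2 ^ j₀) (hj₁ : (2 : ℝ) ^ j₁ ≤ ((N / q : ℕ) : ℝ) * u ^ 200)
    (hjj : (j₁ : ℝ) ≤ 2 * C₃ * u) :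
    E2 b T N q j₀ j₁ * u ≤ (36 + 4 * C₃) * N := by
  set H : ℝ := ((N / q : ℕ) : ℝ) with hHdef
  have hu0 : 0 < u := by linarith
  have hm1 : 1 ≤ m := le_trans (one_le_pow₀ hu) hum
  have hm0 : 0 < m := by linarith
  have hBB0 : 0 ≤ BB b T := sum_nonneg fun _ _ => abs_nonneg _
  have hs : ((SS q j₀ j₁).card : ℝ) ≤ H * u ^ 200 := by
    refine le_trans ?_ hj₁
    exact_mod_cast card_SS q j₀ j₁
  have hHu : H * u ^ 200 * u ^ 200 ≤ m ^ 2 := by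
    refine le_trans (le_of_eq ?_) hH
    ring
  have hu200 : 1 ≤ u ^ 200 := one_le_pow₀ hu
  have hHu2 : H * u ^ 200 ≤ m ^ 2 := by
    refine le_trans ?_ hHu
    exact le_mul_of_one_le_right (by positivity) hu200
  have hHm : H ≤ m ^ 2 := by
    refine le_trans ?_ hHu2
    exact le_mul_of_one_le_right (by positivity) hu200
  have hs2 : ((SS q j₀ j₁).card : ℝ) ≤ m ^ 2 := le_trans hs hHu2
  have hs0 : 0 ≤ ((SS q j₀ j₁).card : ℝ) := Nat.cast_nonneg _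
  have huu : u ≤ u ^ 2 := by
    rw [pow_two]
    exact le_mul_of_one_le_right hu0.le hu
  have hmm : m ≤ m ^ 2 := by
    rw [pow_two]
    exact le_mul_of_one_le_right hm0.le hm1
  have hH0 : 0 ≤ H := by positivity
  have hinv := inv_sq_sum q j₀ j₁
  have hq1 : H * ∑ s ∈ SS q j₀ j₁, 1 / (s : ℝ) ^ 2 ≤ 2 * C₃ * u / u ^ 100 := by
    calc H * ∑ s ∈ SS q j₀ j₁, 1 / (s : ℝ) ^ 2 ≤ H * (j₁ / 2 ^ j₀) := by gcongr
      _ ≤ H * (j₁ / (H * u ^ 100)) := by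
          have : (j₁ : ℝ) / 2 ^ j₀ ≤ j₁ / (H * u ^ 100) :=
            div_le_div_of_nonneg_left (Nat.cast_nonneg _) (by positivity) hj₀
          gcongr
      _ = j₁ / u ^ 100 := by
          have : H ≠ 0 := by positivity
          field_simp
      _ ≤ _ := by gcongr
  have hm4 : m ^ 4 * u ^ 7 ≤ N := by
    rw [hN]
    calc m ^ 4 * u ^ 7 ≤ m ^ 4 * u ^ 10 := by
          have : u ^ 7 ≤ u ^ 10 := pow_le_pow_right₀ hu (by norm_num)
          gcongr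
      _ ≤ m ^ 4 * m := by gcongr
      _ ≤ m ^ 4 * m ^ 2 := by gcongr
      _ = m ^ 6 := by ring
  -- the sum of 1/s is at most the cardinality
  have hsum1 : ∑ s ∈ SS q j₀ j₁, ((N : ℝ) / s ^ 2 + 8 / s) ≤
      (N : ℝ) * (∑ s ∈ SS q j₀ j₁, 1 / (s : ℝ) ^ 2) + 8 * ((SS q j₀ j₁).card : ℝ) := by
    have : ∀ s ∈ SS q j₀ j₁, ((N : ℝ) / s ^ 2 + 8 / s) ≤ N * (1 / (s : ℝ) ^ 2) + 8 := by
      intro s hs'
      have hp := (mem_SS hs').1
      have hs2' : (1 : ℝ) ≤ s := by exact_mod_cast hp.one_lt.le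
      have k1 : (8 : ℝ) / s ≤ 8 := div_le_self (by norm_num) hs2'
      have k2 : (N : ℝ) / s ^ 2 = N * (1 / (s : ℝ) ^ 2) := by ring
      linarith
    refine le_trans (sum_le_sum this) ?_
    rw [sum_add_distrib, sum_const, nsmul_eq_mul, ← mul_sum]
    linarith
  have t1 : 2 * ((SS q j₀ j₁).card : ℝ) ^ 2 * BB b T ^ 2 * u ≤ 2 * N := by
    calc 2 * ((SS q j₀ j₁).card : ℝ) ^ 2 * BB b T ^ 2 * u ≤ 2 * (m ^ 2) ^ 2 * (u ^ 3) ^ 2 * u := by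
          gcongr
      _ = 2 * (m ^ 4 * u ^ 7) := by ring
      _ ≤ 2 * N := by gcongr
  have t2 : 2 * H * (BB b T ^ 2 * (9 * ((SS q j₀ j₁).card : ℝ) ^ 2)) * u ≤ 18 * N := by
    calc 2 * H * (BB b T ^ 2 * (9 * ((SS q j₀ j₁).card : ℝ) ^ 2)) * u ≤
          2 * H * ((u ^ 3) ^ 2 * (9 * (H * u ^ 200) ^ 2)) * u := by gcongr
      _ = 18 * (H * H * H) * (u ^ 7 * u ^ 400) := by ring
      _ ≤ 18 * (H * H * H) * (u ^ 400 * (u ^ 400 * u ^ 400)) := by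
          have h1 : u ^ 7 ≤ u ^ 400 := pow_le_pow_right₀ hu (by norm_num)
          have h2 : u ^ 400 ≤ u ^ 400 * u ^ 400 :=
            le_mul_of_one_le_right (by positivity) (one_le_pow₀ hu)
          gcongr
      _ = 18 * (H * u ^ 400) ^ 3 := by ring
      _ ≤ 18 * (m ^ 2) ^ 3 := by gcongr
      _ = 18 * N := by rw [hN]; ring
  have t3 : 2 * H * (BB b T ^ 2 * (N * ∑ s ∈ SS q j₀ j₁, 1 / (s : ℝ) ^ 2)) * u ≤ 4 * C₃ * N := by
    calc 2 * H * (BB b T ^ 2 * (N * ∑ s ∈ SS q j₀ j₁, 1 / (s : ℝ) ^ 2)) * u =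
          2 * (BB b T ^ 2 * N) * (H * ∑ s ∈ SS q j₀ j₁, 1 / (s : ℝ) ^ 2) * u := by ring
      _ ≤ 2 * ((u ^ 3) ^ 2 * N) * (2 * C₃ * u / u ^ 100) * u := by
          have : 0 ≤ 2 * C₃ * u / u ^ 100 := by positivity
          gcongr
      _ = 4 * C₃ * (N * (u ^ 8 / u ^ 100)) := by ring
      _ ≤ 4 * C₃ * (N * 1) := by
          have h2 : u ^ 8 / u ^ 100 ≤ 1 := by
            rw [div_le_one (by positivity)]
            exact pow_le_pow_right₀ hu (by norm_num)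
          gcongr
      _ = _ := by ring
  have t4 : 2 * H * (BB b T ^ 2 * (8 * ((SS q j₀ j₁).card : ℝ))) * u ≤ 16 * N := by
    calc 2 * H * (BB b T ^ 2 * (8 * ((SS q j₀ j₁).card : ℝ))) * u ≤
          2 * m ^ 2 * ((u ^ 3) ^ 2 * (8 * m ^ 2)) * u := by gcongr
      _ = 16 * (m ^ 4 * u ^ 7) := by ring
      _ ≤ 16 * N := by gcongr
  unfold E2
  rw [← hHdef]
  calc _ ≤ (2 * ((SS q j₀ j₁).card : ℝ) ^ 2 * BB b T ^ 2 + 2 * H * (BB b T ^ 2 *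
        (9 * ((SS q j₀ j₁).card : ℝ) ^ 2 + ((N : ℝ) * (∑ s ∈ SS q j₀ j₁, 1 / (s : ℝ) ^ 2)
          + 8 * ((SS q j₀ j₁).card : ℝ))))) * u := by gcongr
    _ = 2 * ((SS q j₀ j₁).card : ℝ) ^ 2 * BB b T ^ 2 * u +
        2 * H * (BB b T ^ 2 * (9 * ((SS q j₀ j₁).card : ℝ) ^ 2)) * u +
        2 * H * (BB b T ^ 2 * (N * ∑ s ∈ SS q j₀ j₁, 1 / (s : ℝ) ^ 2)) * u +
        2 * H * (BB b T ^ 2 * (8 * ((SS q j₀ j₁).card : ℝ))) * u := by ring
    _ ≤ 2 * N + 18 * N + 4 * C₃ * N + 16 * N := by gcongr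
    _ = _ := by ring

/-- existence of the block range -/
theorem block_range (J₀ : ℕ) (hJ₀ : 1 ≤ J₀)
    (hrec : ∀ j₀ j₁ : ℕ, J₀ ≤ j₀ → j₀ + 1 ≤ j₁ →
      ((j₁ : ℝ) - 1 - j₀) / (8 * ((j₁ : ℝ) + 1)) ≤ ∑ j ∈ Ico j₀ j₁, ∑ s ∈ PR (2 ^ j), (1 : ℝ) / s)
    (ε H u : ℝ) (N : ℕ) (hε : 0 < ε) (hε1 : ε ≤ 1 / 12) (hH1 : 1 ≤ H) (hu : 1 ≤ u)
    (hlog : Real.log u = ε / 400 * Real.log N)
    (hH3 : (H * u ^ 200) ^ 3 ≤ N)
    (hJu : (2 : ℝ) ^ J₀ ≤ u ^ 100)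
    (hbig : 30 * Real.log 2 / ε ≤ Real.log N) :
    ∃ j₀ j₁ : ℕ, J₀ ≤ j₀ ∧ H * u ^ 100 ≤ 2 ^ j₀ ∧ (2 : ℝ) ^ j₁ ≤ H * u ^ 200 ∧
      ε / 20 ≤ ∑ j ∈ Ico j₀ j₁, ∑ s ∈ PR (2 ^ j), (1 : ℝ) / s := by
  have hu0 : 0 < u := by linarith
  have hlog2 : 0 < Real.log 2 := Real.log_pos (by norm_num)
  have hX1 : 1 ≤ H * u ^ 100 := by
    have := one_le_pow₀ hu (n := 100)
    nlinarith
  have hX2 : 1 ≤ H * u ^ 200 := by
    have := one_le_pow₀ hu (n := 200)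
    nlinarith
  -- j₀
  obtain ⟨j₀, hj0a, hj0b⟩ : ∃ j₀ : ℕ, H * u ^ 100 ≤ 2 ^ j₀ ∧ (2 : ℝ) ^ j₀ ≤ 2 * (H * u ^ 100) := by
    obtain ⟨n, hn1, hn2⟩ := exists_nat_pow_near hX1 (by norm_num : (1 : ℝ) < 2)
    exact ⟨n + 1, hn2.le, by rw [pow_succ (2 : ℝ) n]; linarith⟩
  obtain ⟨j₁, hj1a, hj1b⟩ : ∃ j₁ : ℕ, (2 : ℝ) ^ j₁ ≤ H * u ^ 200 ∧ H * u ^ 200 ≤ 2 * 2 ^ j₁ := by
    obtain ⟨n, hn1, hn2⟩ := exists_nat_pow_near hX2 (by norm_num : (1 : ℝ) < 2)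
    exact ⟨n, hn1, by rw [pow_succ (2 : ℝ) n] at hn2; linarith⟩
  have hNpos : (0 : ℝ) < N := lt_of_lt_of_le (by positivity) hH3
  -- logs
  have l0 : (j₀ : ℝ) * Real.log 2 ≤ Real.log 2 + (Real.log H + 100 * Real.log u) := by
    have := Real.log_le_log (by positivity) hj0b
    rw [Real.log_pow, Real.log_mul (x := 2) (by norm_num) (by positivity),
      Real.log_mul (x := H) (by positivity) (by positivity), Real.log_pow] at this
    push_cast at this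
    linarith
  have l1 : Real.log H + 200 * Real.log u ≤ Real.log 2 + (j₁ : ℝ) * Real.log 2 := by
    have := Real.log_le_log (by positivity) hj1b
    rw [Real.log_mul (x := H) (by positivity) (by positivity), Real.log_pow,
      Real.log_mul (x := 2) (by norm_num) (by positivity), Real.log_pow] at this
    push_cast at this
    linarith
  have l2 : (j₁ : ℝ) * Real.log 2 ≤ Real.log N / 3 := by
    have h1 : ((2 : ℝ) ^ j₁) ^ 3 ≤ N := le_trans (by gcongr) hH3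
    have := Real.log_le_log (by positivity) h1
    rw [Real.log_pow, Real.log_pow] at this
    push_cast at this
    linarith
  set L := Real.log N with hL
  have hLbig : 30 * Real.log 2 ≤ ε * L := by
    rw [div_le_iff₀ hε] at hbig
    linarith
  have hdiff : (j₀ : ℝ) * Real.log 2 + ε / 4 * L ≤ (j₁ : ℝ) * Real.log 2 + 2 * Real.log 2 := by
    rw [hlog] at l0 l1
    linarith
  have hdiff2 : (j₀ : ℝ) + 5 ≤ j₁ := by
    have : ((j₀ : ℝ) + 5) * Real.log 2 ≤ j₁ * Real.log 2 := by nlinarith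
    exact le_of_mul_le_mul_right this hlog2
  have hj01 : j₀ + 1 ≤ j₁ := by
    have : (j₀ : ℝ) + 1 ≤ j₁ := by linarith
    exact_mod_cast this
  have hJ : J₀ ≤ j₀ := by
    have h1 : (2 : ℝ) ^ J₀ ≤ 2 ^ j₀ := by
      refine le_trans hJu (le_trans ?_ hj0a)
      exact le_mul_of_one_le_left (by positivity) hH1
    exact (pow_le_pow_iff_right₀ (by norm_num : (1 : ℝ) < 2)).1 h1
  refine ⟨j₀, j₁, hJ, hj0a, hj1a, le_trans ?_ (hrec j₀ j₁ hJ hj01)⟩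
  rw [le_div_iff₀ (by positivity)]
  have key : (ε / 20 * (8 * ((j₁ : ℝ) + 1))) * Real.log 2 ≤ ((j₁ : ℝ) - 1 - j₀) * Real.log 2 := by
    have e1 : (ε / 20 * (8 * ((j₁ : ℝ) + 1))) * Real.log 2 = 2 * ε / 5 * (j₁ * Real.log 2)
        + 2 * ε / 5 * Real.log 2 := by ring
    have e2 : 2 * ε / 5 * (j₁ * Real.log 2) ≤ 2 * ε / 5 * (L / 3) := by gcongr
    have e3 : 2 * ε / 5 * Real.log 2 ≤ 2 / 5 * Real.log 2 := by nlinarith
    nlinarith
  exact le_of_mul_le_mul_right key hlog2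

theorem AA_lower (q j₀ j₁ : ℕ) (hq : 1 ≤ q) (e : ℝ)
    (he : e ≤ ∑ j ∈ Ico j₀ j₁, ∑ s ∈ PR (2 ^ j), (1 : ℝ) / s) :
    e - Nat.log 2 q / 2 ^ j₀ ≤ AA (SS q j₀ j₁) := by
  have h1 := few_dividing q j₀ j₁ hq
  have h2 : AA (SS q j₀ j₁) + ∑ j ∈ Ico j₀ j₁, ∑ s ∈ (PR (2 ^ j)).filter (fun s => s ∣ q),
      (1 : ℝ) / s = ∑ j ∈ Ico j₀ j₁, ∑ s ∈ PR (2 ^ j), (1 : ℝ) / s := by
    unfold AA
    rw [sum_SS, ← sum_add_distrib]
    refine sum_congr rfl fun j _ => ?_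
    rw [add_comm]
    exact sum_filter_add_sum_filter_not _ _ _
  linarith

/-- The sum of squares is smallest around the mean. -/
theorem center_le (K : Finset ℕ) (f : ℕ → ℝ) (Y X : ℝ) (hK : (0 : ℝ) < K.card)
    (hX : X = (∑ a ∈ K, f a) / (K.card : ℝ)) :
    ∑ a ∈ K, (f a - X) ^ 2 ≤ ∑ a ∈ K, (f a - Y) ^ 2 := by
  have h1 : ∑ a ∈ K, (f a - Y) ^ 2 = ∑ a ∈ K, (f a - X) ^ 2 + K.card * (X - Y) ^ 2 := by
    have h2 : ∑ a ∈ K, (f a - X) = 0 := by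
      rw [sum_sub_distrib, sum_const, nsmul_eq_mul, hX]
      field_simp
      ring
    have h3 : ∀ a ∈ K, (f a - Y) ^ 2 = (f a - X) ^ 2 + (2 * (X - Y) * (f a - X) + (X - Y) ^ 2) := by
      intro a _
      ring
    rw [sum_congr rfl h3, sum_add_distrib, sum_add_distrib, ← mul_sum, h2, sum_const, nsmul_eq_mul]
    ring
  rw [h1]
  have : 0 ≤ (K.card : ℝ) * (X - Y) ^ 2 := by positivity
  linarith

/-- The main inequality for one `N` (all the asymptotic conditions are hypotheses). -/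
theorem one_N (ε κ C C₂ C₃ : ℝ) (N₀ J₀ : ℕ) (hε : 0 < ε) (hε1 : ε ≤ 1 / 12) (hκ : κ = ε / 400)
    (hC : 0 ≤ C) (hoff : OffC κ C) (hC₂ : 1 ≤ C₂)
    (hdiv : ∀ n : ℕ, 1 ≤ n → (n.divisors.card : ℝ) ≤ C₂ * (n : ℝ) ^ κ)
    (hC₃ : C₃ = 1 / κ) (hD : DiagC N₀) (hJ₀ : 1 ≤ J₀)
    (hrec : ∀ j₀ j₁ : ℕ, J₀ ≤ j₀ → j₀ + 1 ≤ j₁ →
      ((j₁ : ℝ) - 1 - j₀) / (8 * ((j₁ : ℝ) + 1)) ≤ ∑ j ∈ Ico j₀ j₁, ∑ s ∈ PR (2 ^ j), (1 : ℝ) / s)
    (N : ℕ) (hN3 : 3 ≤ N) (hNN : N₀ ≤ N) (u : ℝ) (hu : u = (N : ℝ) ^ κ)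
    (hu4 : 4 ≤ u) (huJ : (2 : ℝ) ^ J₀ ≤ u) (huL : 30 * Real.log 2 / ε ≤ Real.log N)
    (hu1 : 3200 * (6 + 3 * C₃ + 2 * C₃ ^ 2 + 8 * C * C₃ + 8 * C₃ ^ 2 + 48 * C₃ + 72 * C₂ ^ 2) / ε ≤ u)
    (hu2 : 40 * (36 + 4 * C₃) / ε ≤ u) (hu3 : 80 * C₃ / ε ≤ u)
    (q : ℕ) (hq1 : 1 ≤ q) (hqN : q ≤ N) (hqq : (N : ℝ) ^ ((2 : ℝ) / 3 + ε) ≤ q) (Y : ℝ) :
    κ / 4 * (ε / 80) / 12800 * (N * Real.log N) ≤
      ∑ a ∈ (range q).filter (fun a => a.Coprime q),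
        ((∑ n ∈ (Icc 1 N).filter (fun n => n % q = a), Λ n) - Y) ^ 2 := by
  obtain ⟨X, hXdef⟩ : ∃ X : ℝ, X = (∑ a ∈ (range q).filter (fun a => a.Coprime q),
    ∑ n ∈ (Icc 1 N).filter (fun n => n % q = a), Λ n) / (q.totient : ℝ) := ⟨_, rfl⟩
  have hcardK : (((range q).filter (fun a => a.Coprime q)).card : ℝ) = q.totient := by
    rw [Nat.totient]
    congr 2
    ext a
    simp only [mem_filter, mem_range, Nat.coprime_comm]
  have hφ0 : (0 : ℝ) < q.totient := by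
    have : 0 < q.totient := Nat.totient_pos.2 (by omega)
    exact_mod_cast this
  refine le_trans ?_ (center_le _ _ Y X (by rw [hcardK]; exact hφ0) (by rw [hcardK]; exact hXdef))
  have hκ0 : 0 < κ := by rw [hκ]; positivity
  have hNR : (1 : ℝ) ≤ N := by
    have : 1 ≤ N := by omega
    exact_mod_cast this
  have hN0 : (0 : ℝ) < N := by linarith
  have hqR : (0 : ℝ) < q := by exact_mod_cast hq1
  have hu0 : 1 ≤ u := by linarith
  have hC₃1 : 1 ≤ C₃ := by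
    rw [hC₃, hκ, le_div_iff₀ (by positivity)]
    linarith
  set m : ℝ := (N : ℝ) ^ ((1 : ℝ) / 6) with hm
  have hmN : (N : ℝ) = m ^ 6 := by
    rw [hm, ← Real.rpow_natCast, ← Real.rpow_mul hN0.le]
    norm_num
  have h56 : (N : ℝ) ^ ((5 : ℝ) / 6) = m ^ 5 := by
    rw [hm, ← Real.rpow_natCast, ← Real.rpow_mul hN0.le]
    norm_num
  have hm2 : m ^ 2 = (N : ℝ) ^ ((1 : ℝ) / 3) := by
    rw [hm, ← Real.rpow_natCast, ← Real.rpow_mul hN0.le]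
    norm_num
  have hm1 : 1 ≤ m := Real.one_le_rpow hNR (by norm_num)
  have hum : u ^ 10 ≤ m := by
    rw [hu, hm, ← Real.rpow_natCast, ← Real.rpow_mul hN0.le]
    apply Real.rpow_le_rpow_of_exponent_le hNR
    rw [hκ]; push_cast; linarith
  have hu400 : u ^ 400 = (N : ℝ) ^ ε := by
    rw [hu, ← Real.rpow_natCast, ← Real.rpow_mul hN0.le, hκ]
    congr 1
    push_cast; ring
  -- H
  have hHpos : 1 ≤ N / q := Nat.div_pos hqN hq1
  have hH1 : (1 : ℝ) ≤ (N / q : ℕ) := by exact_mod_cast hHpos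
  have hHq : ((N / q : ℕ) : ℝ) * q ≤ N := by exact_mod_cast Nat.div_mul_le_self N q
  have hNHq : (N : ℝ) ≤ 2 * ((N / q : ℕ) : ℝ) * q := by
    have h1 : N < q * (N / q + 1) := by
      have := Nat.lt_mul_div_succ N (by omega : 0 < q)
      simpa using this
    have h2 : N ≤ 2 * (N / q) * q := by nlinarith
    exact_mod_cast h2
  have hH : ((N / q : ℕ) : ℝ) * u ^ 400 ≤ m ^ 2 := by
    rw [hu400, hm2]
    have h1 : ((N / q : ℕ) : ℝ) * (N : ℝ) ^ ((2 : ℝ) / 3 + ε) ≤ N :=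
      le_trans (by gcongr) hHq
    have h2 : (N : ℝ) ^ ((2 : ℝ) / 3 + ε) = (N : ℝ) ^ ((2 : ℝ) / 3) * (N : ℝ) ^ ε :=
      Real.rpow_add hN0 _ _
    have h3 : (N : ℝ) = (N : ℝ) ^ ((1 : ℝ) / 3) * (N : ℝ) ^ ((2 : ℝ) / 3) := by
      rw [← Real.rpow_add hN0]; norm_num
    have h4 : (0 : ℝ) < (N : ℝ) ^ ((2 : ℝ) / 3) := by positivity
    have h5 : ((N / q : ℕ) : ℝ) * (N : ℝ) ^ ε * (N : ℝ) ^ ((2 : ℝ) / 3) ≤
        (N : ℝ) ^ ((1 : ℝ) / 3) * (N : ℝ) ^ ((2 : ℝ) / 3) := by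
      rw [← h3]
      calc _ = ((N / q : ℕ) : ℝ) * ((N : ℝ) ^ ((2 : ℝ) / 3) * (N : ℝ) ^ ε) := by ring
        _ ≤ N := by rw [← h2]; exact h1
    exact le_of_mul_le_mul_right h5 h4
  have hu200 : 1 ≤ u ^ 200 := one_le_pow₀ hu0
  have hHu2 : ((N / q : ℕ) : ℝ) * u ^ 200 ≤ m ^ 2 := by
    refine le_trans ?_ hH
    have h1 : u ^ 200 ≤ u ^ 400 := pow_le_pow_right₀ hu0 (by norm_num)
    gcongr
  have hH3 : (((N / q : ℕ) : ℝ) * u ^ 200) ^ 3 ≤ N := by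
    calc (((N / q : ℕ) : ℝ) * u ^ 200) ^ 3 ≤ (m ^ 2) ^ 3 := by gcongr
      _ = (N : ℝ) := by rw [hmN]; ring
  have hlogu : Real.log u = ε / 400 * Real.log N := by
    rw [hu, Real.log_rpow hN0, hκ]
  have huu100 : u ≤ u ^ 100 := by
    calc u = u ^ 1 := (pow_one u).symm
      _ ≤ u ^ 100 := pow_le_pow_right₀ hu0 (by norm_num)
  obtain ⟨j₀, j₁, hJj, hj0, hj1, hA0⟩ := block_range J₀ hJ₀ hrec ε ((N / q : ℕ) : ℝ) u N hε hε1 hH1
    hu0 hlogu hH3 (le_trans huJ huu100) huL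
  have hL : Real.log N ≤ C₃ * u := by
    have := Real.log_le_rpow_div hN0.le hκ0
    rw [hC₃, hu]
    calc Real.log N ≤ (N : ℝ) ^ κ / κ := this
      _ = _ := by ring
  have hlog2 : (1 : ℝ) / 2 ≤ Real.log 2 := by
    have := Real.log_two_gt_d9
    linarith
  have hj1N : (2 : ℝ) ^ j₁ ≤ m ^ 2 := le_trans hj1 hHu2
  have hjj : (j₁ : ℝ) ≤ 2 * C₃ * u := by
    have h1 : (2 : ℝ) ^ j₁ ≤ N := by
      refine le_trans hj1N ?_
      rw [hmN]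
      exact pow_le_pow_right₀ hm1 (by norm_num)
    have h2 := Real.log_le_log (by positivity) h1
    rw [Real.log_pow] at h2
    have h3 : (j₁ : ℝ) * (1 / 2) ≤ j₁ * Real.log 2 := by gcongr
    linarith
  have hlogq : (Nat.log 2 q : ℝ) ≤ 2 * C₃ * u := by
    have h1 : (2 : ℝ) ^ (Nat.log 2 q) ≤ N := by
      have : 2 ^ Nat.log 2 q ≤ N := le_trans (Nat.pow_log_le_self 2 (by omega)) hqN
      exact_mod_cast this
    have h2 := Real.log_le_log (by positivity) h1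
    rw [Real.log_pow] at h2
    have h3 : (Nat.log 2 q : ℝ) * (1 / 2) ≤ Nat.log 2 q * Real.log 2 := by gcongr
    linarith
  -- T and b
  set T : ℕ := ⌊u⌋₊ with hTdef
  have hTu : (T : ℝ) ≤ u := Nat.floor_le (by linarith)
  have hT1 : 1 ≤ T := by
    rw [hTdef]
    exact Nat.le_floor (by push_cast; linarith)
  have hTN : T ≤ N := by
    have h1 : u ≤ N := by
      calc u ≤ u ^ 10 := by
            calc u = u ^ 1 := (pow_one u).symm
              _ ≤ u ^ 10 := pow_le_pow_right₀ hu0 (by norm_num)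
        _ ≤ m := hum
        _ = m ^ 1 := (pow_one m).symm
        _ ≤ m ^ 6 := pow_le_pow_right₀ hm1 (by norm_num)
        _ = N := hmN.symm
    exact_mod_cast le_trans hTu h1
  obtain ⟨b, hb1, hb2, hQ, hBB⟩ := selberg_weights T hT1
  have hBBu : BB b T ≤ u ^ 3 := le_trans hBB (by gcongr)
  have hTj : T ≤ 2 ^ j₀ := by
    have : (T : ℝ) ≤ 2 ^ j₀ := by
      refine le_trans hTu (le_trans huu100 (le_trans ?_ hj0))
      exact le_mul_of_one_le_left (by positivity) hH1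
    exact_mod_cast this
  have hHj : N / q ≤ 2 ^ j₀ := by
    have : ((N / q : ℕ) : ℝ) ≤ 2 ^ j₀ := by
      refine le_trans ?_ hj0
      exact le_mul_of_one_le_right (by positivity) (one_le_pow₀ hu0)
    exact_mod_cast this
  have hjc : ∀ j < j₁, (2 ^ j) ^ 3 ≤ N := by
    intro j hj
    have h1 : ((2 : ℝ) ^ j) ^ 3 ≤ N := by
      have h2 : (2 : ℝ) ^ j ≤ 2 ^ j₁ := pow_le_pow_right₀ (by norm_num) hj.le
      have h3 : (2 : ℝ) ^ j ≤ m ^ 2 := le_trans h2 hj1N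
      calc ((2 : ℝ) ^ j) ^ 3 ≤ (m ^ 2) ^ 3 := by gcongr
        _ = (N : ℝ) := by rw [hmN]; ring
    exact_mod_cast h1
  -- A
  have hA : ε / 40 ≤ AA (SS q j₀ j₁) := by
    have h1 := AA_lower q j₀ j₁ hq1 (ε / 20) hA0
    have h2 : (Nat.log 2 q : ℝ) / 2 ^ j₀ ≤ ε / 40 := by
      have h3 : u * u ≤ 2 ^ j₀ := by
        calc u * u = u ^ 2 := by ring
          _ ≤ u ^ 100 := pow_le_pow_right₀ hu0 (by norm_num)
          _ ≤ ((N / q : ℕ) : ℝ) * u ^ 100 := le_mul_of_one_le_left (by positivity) hH1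
          _ ≤ 2 ^ j₀ := hj0
      have huε : 80 * C₃ ≤ u * ε := (div_le_iff₀ hε).1 hu3
      rw [div_le_iff₀ (by positivity)]
      calc (Nat.log 2 q : ℝ) ≤ 2 * C₃ * u := hlogq
        _ = (80 * C₃) * u / 40 := by ring
        _ ≤ (u * ε) * u / 40 := by gcongr
        _ = ε / 40 * (u * u) := by ring
        _ ≤ ε / 40 * 2 ^ j₀ := by gcongr
    linarith
  have hApos : 0 < AA (SS q j₀ j₁) := lt_of_lt_of_le (by positivity) hA
  -- X
  have hτ : (q.divisors.card : ℝ) ≤ C₂ * u := by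
    refine le_trans (hdiv q hq1) ?_
    rw [hu]
    have : (q : ℝ) ≤ N := by exact_mod_cast hqN
    gcongr
  have hφ : (0 : ℝ) < q.totient := hφ0
  have hsum_nonneg : ∀ a, 0 ≤ ∑ n ∈ (Icc 1 N).filter (fun n => n % q = a), (Λ n : ℝ) := fun a =>
    sum_nonneg fun n _ => ArithmeticFunction.vonMangoldt_nonneg
  have hX0 : 0 ≤ X := by
    rw [hXdef]
    exact div_nonneg (sum_nonneg fun a _ => hsum_nonneg a) hφ.le
  have hpsi : ∑ a ∈ (range q).filter (fun a => a.Coprime q),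
      ∑ n ∈ (Icc 1 N).filter (fun n => n % q = a), (Λ n : ℝ) ≤ 6 * N := by
    refine le_trans (sum_le_sum_of_subset_of_nonneg (filter_subset _ _)
      (fun a _ _ => hsum_nonneg a)) ?_
    rw [sum_fiberwise_of_maps_to (fun n _ => mem_range.2 (Nat.mod_lt _ (by omega)))]
    exact Off1Aux.psi_bound N
  have hX : X ≤ 12 * ((N / q : ℕ) : ℝ) * (C₂ * u) := by
    rw [hXdef, div_le_iff₀ hφ]
    have h1 := totient_lower q
    calc _ ≤ 6 * (N : ℝ) := hpsi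
      _ ≤ 6 * (2 * ((N / q : ℕ) : ℝ) * q) := by gcongr
      _ ≤ 6 * (2 * ((N / q : ℕ) : ℝ) * (q.divisors.card * q.totient)) := by gcongr
      _ ≤ 6 * (2 * ((N / q : ℕ) : ℝ) * ((C₂ * u) * q.totient)) := by gcongr
      _ = _ := by ring
  -- errors
  have hE1 := E1_bound κ C C₂ C₃ hC hC₂ hC₃1 b T N q j₀ j₁ X u m hu0 hum hmN
    hu.symm h56 hTu hBBu hL hH1 hH hj0 hj1 hτ hX0 hX hjj
  have hE2 := E2_bound C₃ hC₃1 b T N q j₀ j₁ u m hu0 hum hmN hBBu hH1 hH hj0 hj1 hjj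
  have hupos : 0 < u := by linarith
  have he1 : E1 κ C b T N q j₀ j₁ X ≤ AA (SS q j₀ j₁) * b 1 * (N / 80) := by
    have h1 := (div_le_iff₀ hε).1 hu1
    have h2 : E1 κ C b T N q j₀ j₁ X * u ≤ (u * ε / 3200) * N := by
      refine le_trans hE1 ?_
      gcongr
      linarith
    have h3 : E1 κ C b T N q j₀ j₁ X ≤ ε / 3200 * N := by
      refine le_of_mul_le_mul_right ?_ hupos
      calc _ ≤ (u * ε / 3200) * N := h2
        _ = _ := by ring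
    have h4 : ε / 40 * 1 * ((N : ℝ) / 80) ≤ AA (SS q j₀ j₁) * b 1 * (N / 80) := by gcongr
    calc _ ≤ ε / 3200 * N := h3
      _ = ε / 40 * 1 * ((N : ℝ) / 80) := by ring
      _ ≤ _ := h4
  have he2 : E2 b T N q j₀ j₁ ≤ N * b 1 * (AA (SS q j₀ j₁) + AA (SS q j₀ j₁) ^ 2) := by
    have h1 := (div_le_iff₀ hε).1 hu2
    have h2 : E2 b T N q j₀ j₁ * u ≤ (u * ε / 40) * N := by
      refine le_trans hE2 ?_
      gcongr
      linarith
    have h3 : E2 b T N q j₀ j₁ ≤ ε / 40 * N := by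
      refine le_of_mul_le_mul_right ?_ hupos
      calc _ ≤ (u * ε / 40) * N := h2
        _ = _ := by ring
    have h4 : (N : ℝ) * 1 * (ε / 40 + 0) ≤ N * b 1 * (AA (SS q j₀ j₁) + AA (SS q j₀ j₁) ^ 2) := by
      gcongr
      positivity
    calc _ ≤ ε / 40 * N := h3
      _ = (N : ℝ) * 1 * (ε / 40 + 0) := by ring
      _ ≤ _ := h4
  have hnum := numer_upper κ C hC hoff N₀ hD b T N q j₀ j₁ X hX0 (by linarith)
    hN3 hNN hT1 hTN hq1 hqN hTj hHj hjc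
  have hfin := cauchy_final b T N q j₀ j₁ X _ hb1 hQ hN3 hq1 hTj hHj hApos
    hnum he1 he2
  refine le_trans ?_ hfin
  -- b₁ ≥ (κ/4) log N
  have hlogN0 : 0 ≤ Real.log N := Real.log_natCast_nonneg N
  have hb3 : κ / 4 * Real.log N ≤ b 1 := by
    have h1 : u / 2 ≤ T := by
      have := Nat.lt_floor_add_one u
      rw [← hTdef] at this
      linarith
    have h2 : Real.log (u / 2) ≤ Real.log T := Real.log_le_log (by positivity) h1
    rw [Real.log_div (by positivity) (by norm_num)] at h2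
    have h3 : 2 * Real.log 2 ≤ Real.log u := by
      have := Real.log_le_log (by norm_num) hu4
      rw [show (4 : ℝ) = 2 ^ 2 by norm_num, Real.log_pow] at this
      push_cast at this
      exact this
    have h4 : κ * Real.log N = Real.log u := by rw [hlogu, hκ]
    linarith
  have hAA : ε / 80 ≤ AA (SS q j₀ j₁) / (1 + AA (SS q j₀ j₁)) := by
    rw [le_div_iff₀ (by positivity)]
    nlinarith
  calc κ / 4 * (ε / 80) / 12800 * (N * Real.log N) = N * (κ / 4 * Real.log N) * (ε / 80) / 12800 := by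
        ring
    _ ≤ N * b 1 * (AA (SS q j₀ j₁) / (1 + AA (SS q j₀ j₁))) / 12800 := by
        have h0 : 0 ≤ κ / 4 * Real.log N := by positivity
        gcongr

theorem main_small (ε : ℝ) (hε : 0 < ε) (hε1 : ε ≤ 1 / 12) :
    ∃ c : ℝ, 0 < c ∧ ∃ x₀ : ℝ, ∀ x : ℝ, x₀ ≤ x → ∀ q : ℕ, x ^ ((2 : ℝ) / 3 + ε) ≤ q → (q : ℝ) ≤ x →
      ∀ Y : ℝ, c * x * Real.log x ≤ ∑ a ∈ (range q).filter (fun a => a.Coprime q),
        ((∑ n ∈ (Icc 1 ⌊x⌋₊).filter (fun n => n % q = a), Λ n) - Y) ^ 2 := by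
  obtain ⟨κ, hκ⟩ : ∃ κ : ℝ, κ = ε / 400 := ⟨_, rfl⟩
  have hκ0 : 0 < κ := by rw [hκ]; positivity
  obtain ⟨C, hC0, hC⟩ := off_block κ hκ0
  obtain ⟨C₂, hC₂, hdiv⟩ := divisor_bound κ hκ0
  obtain ⟨N₀, hN₀⟩ := diag_term
  obtain ⟨J₀, hJ₀, hrec⟩ := recip_blocks
  obtain ⟨C₃, hC₃⟩ : ∃ C₃ : ℝ, C₃ = 1 / κ := ⟨_, rfl⟩
  have hfl : Filter.Tendsto (fun x : ℝ => ((⌊x⌋₊ : ℕ) : ℝ)) Filter.atTop Filter.atTop :=
    tendsto_natCast_atTop_atTop.comp tendsto_nat_floor_atTop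
  have hpow : Filter.Tendsto (fun x : ℝ => ((⌊x⌋₊ : ℕ) : ℝ) ^ κ) Filter.atTop Filter.atTop :=
    (tendsto_rpow_atTop hκ0).comp hfl
  have hlogt : Filter.Tendsto (fun x : ℝ => Real.log ((⌊x⌋₊ : ℕ) : ℝ)) Filter.atTop Filter.atTop :=
    Real.tendsto_log_atTop.comp hfl
  have ev := (((((((hpow.eventually_ge_atTop 4).and (hpow.eventually_ge_atTop ((2 : ℝ) ^ J₀))).and
    (hlogt.eventually_ge_atTop (30 * Real.log 2 / ε))).and
    (hpow.eventually_ge_atTop (3200 * (6 + 3 * C₃ + 2 * C₃ ^ 2 + 8 * C * C₃ + 8 * C₃ ^ 2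
      + 48 * C₃ + 72 * C₂ ^ 2) / ε))).and
    (hpow.eventually_ge_atTop (40 * (36 + 4 * C₃) / ε))).and
    (hpow.eventually_ge_atTop (80 * C₃ / ε))).and
    (tendsto_nat_floor_atTop.eventually_ge_atTop (max 3 N₀))).and
    (Filter.eventually_ge_atTop (4 : ℝ))
  obtain ⟨x₀, hx₀⟩ := Filter.eventually_atTop.1 ev
  refine ⟨κ / 4 * (ε / 80) / 12800 / 4, by positivity, x₀, fun x hx q hq hqx Y => ?_⟩
  obtain ⟨⟨⟨⟨⟨⟨⟨h4, hJ⟩, hlg⟩, hu1⟩, hu2⟩, hu3⟩, hN⟩, hx4⟩ := hx₀ x hx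
  set N : ℕ := ⌊x⌋₊ with hNdef
  have hx0 : 0 ≤ x := by linarith
  have hNx : (N : ℝ) ≤ x := Nat.floor_le hx0
  have hxN : x < N + 1 := Nat.lt_floor_add_one x
  have hN3 : 3 ≤ N := le_trans (le_max_left _ _) hN
  have hNN : N₀ ≤ N := le_trans (le_max_right _ _) hN
  have hN1 : (1 : ℝ) ≤ N := by
    have : 1 ≤ N := by omega
    exact_mod_cast this
  have hqN : q ≤ N := Nat.le_floor hqx
  have hqpos : (0 : ℝ) < q := lt_of_lt_of_le (Real.rpow_pos_of_pos (by linarith) _) hq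
  have hq1 : 1 ≤ q := by
    have : 0 < q := by exact_mod_cast hqpos
    omega
  have hqq : (N : ℝ) ^ ((2 : ℝ) / 3 + ε) ≤ q := by
    refine le_trans ?_ hq
    exact Real.rpow_le_rpow (by linarith) hNx (by positivity)
  have main := one_N ε κ C C₂ C₃ N₀ J₀ hε hε1 hκ hC0.le hC hC₂ hdiv hC₃ hN₀ hJ₀ hrec N hN3 hNN
    ((N : ℝ) ^ κ) rfl h4 hJ hlg hu1 hu2 hu3 q hq1 hqN hqq Y
  refine le_trans ?_ main
  have h1 : x / 2 ≤ N := by linarith
  have h2 : Real.log x / 2 ≤ Real.log N := by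
    have h3 : Real.log (x / 2) ≤ Real.log N := Real.log_le_log (by positivity) h1
    rw [Real.log_div (by positivity) (by norm_num)] at h3
    have h5 : 2 * Real.log 2 ≤ Real.log x := by
      have := Real.log_le_log (by norm_num) hx4
      rw [show (4 : ℝ) = 2 ^ 2 by norm_num, Real.log_pow] at this
      push_cast at this
      exact this
    linarith
  have hlx : 0 ≤ Real.log x := Real.log_nonneg (by linarith)
  calc κ / 4 * (ε / 80) / 12800 / 4 * x * Real.log x =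
        κ / 4 * (ε / 80) / 12800 * ((x / 2) * (Real.log x / 2)) := by ring
    _ ≤ κ / 4 * (ε / 80) / 12800 * (N * Real.log N) := by gcongr

/-- FINAL. -/
theorem main_theorem (ε : ℝ) (hε : 0 < ε) :
    ∃ c : ℝ, 0 < c ∧ ∃ x₀ : ℝ, ∀ x : ℝ, x₀ ≤ x → ∀ q : ℕ, x ^ ((2 : ℝ) / 3 + ε) ≤ q → (q : ℝ) ≤ x →
      ∀ Y : ℝ, c * x * Real.log x ≤ ∑ a ∈ (range q).filter (fun a => a.Coprime q),
        ((∑ n ∈ (Icc 1 ⌊x⌋₊).filter (fun n => n % q = a), Λ n) - Y) ^ 2 := by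
  obtain ⟨c, hc, x₀, h⟩ := main_small (min ε (1 / 12)) (lt_min hε (by norm_num)) (min_le_right _ _)
  refine ⟨c, hc, max x₀ 1, fun x hx q hq hqx Y => h x (le_trans (le_max_left _ _) hx) q ?_ hqx Y⟩
  refine le_trans ?_ hq
  apply Real.rpow_le_rpow_of_exponent_le (le_trans (le_max_right _ _) hx)
  have := min_le_left ε (1 / 12)
  linarith

/-- The variance bound together with the existence of one bad residue class. -/
theorem main_both (ε : ℝ) (hε : 0 < ε) :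
    ∃ c : ℝ, 0 < c ∧ ∃ x₀ : ℝ, ∀ x : ℝ, x₀ ≤ x → ∀ q : ℕ, x ^ ((2 : ℝ) / 3 + ε) ≤ q → (q : ℝ) ≤ x →
      ∀ Y : ℝ, (c * x * Real.log x ≤ ∑ a ∈ (range q).filter (fun a => a.Coprime q),
        ((∑ n ∈ (Icc 1 ⌊x⌋₊).filter (fun n => n % q = a), Λ n) - Y) ^ 2) ∧
      ∃ a : ℕ, a < q ∧ a.Coprime q ∧
        c * x * Real.log x / q ≤
          ((∑ n ∈ (Icc 1 ⌊x⌋₊).filter (fun n => n % q = a), Λ n) - Y) ^ 2 := by
  obtain ⟨c, hc, x₀, h⟩ := main_theorem ε hε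
  refine ⟨c, hc, max x₀ 1, fun x hx q hq hqx Y => ?_⟩
  have hx1 : 1 ≤ x := le_trans (le_max_right _ _) hx
  have hmain := h x (le_trans (le_max_left _ _) hx) q hq hqx Y
  refine ⟨hmain, ?_⟩
  have hqpos : (0 : ℝ) < q := lt_of_lt_of_le (Real.rpow_pos_of_pos (by linarith) _) hq
  have hq0 : 0 < q := by exact_mod_cast hqpos
  by_contra hcon
  push Not at hcon
  have hne : ((range q).filter (fun a => a.Coprime q)).Nonempty := by
    rcases Nat.lt_or_ge 1 q with h1 | h1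
    · exact ⟨1, by simp [h1]⟩
    · have : q = 1 := by omega
      subst this
      exact ⟨0, by simp⟩
  have hlt : ∑ a ∈ (range q).filter (fun a => a.Coprime q),
        ((∑ n ∈ (Icc 1 ⌊x⌋₊).filter (fun n => n % q = a), Λ n) - Y) ^ 2 <
      ∑ a ∈ (range q).filter (fun a => a.Coprime q), c * x * Real.log x / q := by
    refine sum_lt_sum_of_nonempty hne fun a ha => ?_
    rw [mem_filter, mem_range] at ha
    exact hcon a ha.1 ha.2
  rw [sum_const, nsmul_eq_mul] at hlt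
  have hcard : (((range q).filter (fun a => a.Coprime q)).card : ℝ) ≤ q := by
    have : ((range q).filter (fun a => a.Coprime q)).card ≤ q := by
      refine le_trans (card_filter_le _ _) ?_
      simp
    exact_mod_cast this
  have hnn : 0 ≤ c * x * Real.log x / q := by
    have := Real.log_nonneg hx1
    positivity
  have h3 : (((range q).filter (fun a => a.Coprime q)).card : ℝ) * (c * x * Real.log x / q) ≤
      c * x * Real.log x := by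
    calc _ ≤ (q : ℝ) * (c * x * Real.log x / q) := by gcongr
      _ = c * x * Real.log x := by field_simp
  linarith

/-- The variance bound together with the existence of one bad residue class, second form. -/
theorem main_final (ε : ℝ) (hε : 0 < ε) :
    ∃ c : ℝ, 0 < c ∧ ∃ x₀ : ℝ, ∀ x : ℝ, x₀ ≤ x → ∀ q : ℕ, x ^ ((2 : ℝ) / 3 + ε) ≤ q → (q : ℝ) ≤ x →
      ∀ Y : ℝ, (c * x * Real.log x ≤ ∑ a ∈ (range q).filter (fun a => a.Coprime q),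
        ((∑ n ∈ (Icc 1 ⌊x⌋₊).filter (fun n => n % q = a), Λ n) - Y) ^ 2) ∧
      ∃ a : ℕ, a < q ∧ a.Coprime q ∧
        c * Real.sqrt (x * Real.log x / q) ≤
          |(∑ n ∈ (Icc 1 ⌊x⌋₊).filter (fun n => n % q = a), Λ n) - Y| := by
  obtain ⟨c, hc, x₀, h⟩ := main_both ε hε
  refine ⟨min c 1, lt_min hc one_pos, max x₀ 1, fun x hx q hq hqx Y => ?_⟩
  have hx1 : 1 ≤ x := le_trans (le_max_right _ _) hx
  obtain ⟨h1, a, ha1, ha2, ha3⟩ := h x (le_trans (le_max_left _ _) hx) q hq hqx Y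
  have hlog : 0 ≤ Real.log x := Real.log_nonneg hx1
  have hx0 : 0 ≤ x := by linarith
  have hm0 : 0 ≤ min c 1 := (lt_min hc one_pos).le
  refine ⟨le_trans ?_ h1, a, ha1, ha2, ?_⟩
  · have : min c 1 ≤ c := min_le_left _ _
    gcongr
  · refine abs_le_of_sq_le_sq' ?_ (abs_nonneg _) |>.2
    rw [sq_abs, mul_pow, Real.sq_sqrt (by positivity)]
    refine le_trans ?_ ha3
    have h2 : (min c 1) ^ 2 ≤ c := by
      have e1 : min c 1 ≤ 1 := min_le_right _ _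
      have e2 : min c 1 ≤ c := min_le_left _ _
      nlinarith
    calc (min c 1) ^ 2 * (x * Real.log x / q) ≤ c * (x * Real.log x / q) := by
          gcongr
      _ = c * x * Real.log x / q := by ring

end

end Pool.Agent.M848
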