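import Pool.Agent.Lib.MP_848d44_nt.Defs

/-!
# MP_848d44_nt, module DYA: dyadic decomposition of a bilinear sum over `m k ≤ y`
-/

set_option autoImplicit false

namespace Pool.Agent.M848

open Finset
open scoped ArithmeticFunction ComplexConjugate

noncomputable section

private theorem dya_blocks (L : ℕ) (g : ℕ → ℂ) :
    ∑ i ∈ range L, ∑ m ∈ Ico (2 ^ i) (2 * 2 ^ i), g m = ∑ m ∈ Ico 1 (2 ^ L), g m := by
  induction L with
  | zero => simp
  | succ L ih =>
    rw [sum_range_succ, ih, ← pow_succ', sum_Ico_consecutive _ Nat.one_le_two_pow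
      (Nat.pow_le_pow_right (by norm_num) (Nat.le_succ L))]

/-- DYA. Dyadic decomposition of a bilinear sum over `m k ≤ y`. -/
theorem dyadic (f : ℕ → ℕ → ℂ) (y L : ℕ) (hL : y < 2 ^ L) :
    ∑ m ∈ Icc 1 y, ∑ k ∈ (Icc 1 y).filter (fun k => m * k ≤ y), f m k =
      ∑ i ∈ range L, ∑ j ∈ range L, ∑ m ∈ Ico (2 ^ i) (2 * 2 ^ i),
        ∑ k ∈ (Ico (2 ^ j) (2 * 2 ^ j)).filter (fun k => m * k ≤ y), f m k := by
  have h1 : ∑ i ∈ range L, ∑ j ∈ range L, ∑ m ∈ Ico (2 ^ i) (2 * 2 ^ i),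
      ∑ k ∈ (Ico (2 ^ j) (2 * 2 ^ j)).filter (fun k => m * k ≤ y), f m k =
      ∑ m ∈ Ico 1 (2 ^ L), ∑ k ∈ Ico 1 (2 ^ L), if m * k ≤ y then f m k else 0 := by
    rw [← dya_blocks L (fun m => ∑ k ∈ Ico 1 (2 ^ L), if m * k ≤ y then f m k else 0)]
    refine sum_congr rfl fun i _ => ?_
    rw [sum_comm]
    refine sum_congr rfl fun m _ => ?_
    simp only [sum_filter]
    exact dya_blocks L (fun k => if m * k ≤ y then f m k else 0)
  rw [h1]
  have h2 : ∀ m, 1 ≤ m → ∑ k ∈ (Icc 1 y).filter (fun k => m * k ≤ y), f m k =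
      ∑ k ∈ Ico 1 (2 ^ L), if m * k ≤ y then f m k else 0 := by
    intro m hm
    rw [sum_filter]
    apply sum_subset
    · intro k hk
      rw [mem_Icc] at hk
      rw [mem_Ico]
      omega
    · intro k hk hk'
      rw [mem_Ico] at hk
      rw [mem_Icc] at hk'
      rw [if_neg]
      intro h
      have : k ≤ m * k := Nat.le_mul_of_pos_left k hm
      omega
  rw [sum_congr rfl fun m hm => h2 m (mem_Icc.mp hm).1]
  apply sum_subset
  · intro k hk
    rw [mem_Icc] at hk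
    rw [mem_Ico]
    omega
  · intro m hm hm'
    rw [mem_Ico] at hm
    rw [mem_Icc] at hm'
    apply sum_eq_zero
    intro k hk
    rw [mem_Ico] at hk
    rw [if_neg]
    intro h
    have : m ≤ m * k := Nat.le_mul_of_pos_right m hk.1
    omega

end

end Pool.Agent.M848
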