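import Pool.Agent.Lib.MP_848d44_nt.Defs
import Pool.Agent.Lib.MP_848d44_nt.Dya

/-!
# MP_848d44_nt, module BIL, first part: type II estimate, summed over the boxes (from TYP)
-/

set_option autoImplicit false

namespace Pool.Agent.M848

open Finset
open scoped ArithmeticFunction ComplexConjugate

noncomputable section

namespace BilAux

theorem log_cube (δ : ℝ) (hδ : 0 < δ) : ∃ C : ℝ, 0 < C ∧ ∀ N : ℕ, 1 ≤ N →
    (1 + Real.log (N + 1)) ^ 3 ≤ C * (N : ℝ) ^ δ := by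
  refine ⟨(2 + 3 / δ) ^ 3, by positivity, ?_⟩
  intro N hN
  have hN' : (1 : ℝ) ≤ N := by exact_mod_cast hN
  have h0 : (0 : ℝ) ≤ N := by linarith
  have h1 : Real.log (N + 1) ≤ 1 + Real.log N := by
    have h2 : Real.log ((N : ℝ) + 1) ≤ Real.log (2 * N) :=
      Real.log_le_log (by linarith) (by linarith)
    rw [Real.log_mul (by norm_num) (by linarith)] at h2
    have h3 : Real.log 2 ≤ 1 := by linarith [Real.log_two_lt_d9]
    linarith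
  have h4 : Real.log N ≤ (N : ℝ) ^ (δ / 3) / (δ / 3) := Real.log_le_rpow_div h0 (by positivity)
  have h5 : (1 : ℝ) ≤ (N : ℝ) ^ (δ / 3) := Real.one_le_rpow hN' (by positivity)
  have h6 : 1 + Real.log (N + 1) ≤ (2 + 3 / δ) * (N : ℝ) ^ (δ / 3) := by
    have h7 : (N : ℝ) ^ (δ / 3) / (δ / 3) = 3 / δ * (N : ℝ) ^ (δ / 3) := by
      field_simp
    rw [h7] at h4
    nlinarith
  have h8 : 0 ≤ 1 + Real.log ((N : ℝ) + 1) := by
    have := Real.log_nonneg (by linarith : (1 : ℝ) ≤ (N : ℝ) + 1)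
    linarith
  calc (1 + Real.log (N + 1)) ^ 3 ≤ ((2 + 3 / δ) * (N : ℝ) ^ (δ / 3)) ^ 3 :=
        pow_le_pow_left₀ h8 h6 3
    _ = (2 + 3 / δ) ^ 3 * (N : ℝ) ^ δ := by
        rw [mul_pow, ← Real.rpow_natCast ((N : ℝ) ^ (δ / 3)), ← Real.rpow_mul h0]
        congr 2
        push_cast
        ring

theorem log_count (y N : ℕ) (hy : y ≤ N) :
    ((Nat.log 2 y + 1 : ℕ) : ℝ) ≤ 2 * (1 + Real.log (N + 1)) := by
  have h0 : (0 : ℝ) ≤ Real.log ((N : ℝ) + 1) :=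
    Real.log_nonneg (by have : (0 : ℝ) ≤ N := Nat.cast_nonneg N; linarith)
  rcases Nat.eq_zero_or_pos y with rfl | hy0
  · simp
    linarith
  · have h1 : 2 ^ Nat.log 2 y ≤ y := Nat.pow_log_le_self 2 hy0.ne'
    have h2 : (2 : ℝ) ^ Nat.log 2 y ≤ (N : ℝ) + 1 := by
      have h3 : (2 : ℝ) ^ Nat.log 2 y ≤ (y : ℝ) := by exact_mod_cast h1
      have h4 : (y : ℝ) ≤ N := by exact_mod_cast hy
      linarith
    have h3 : (Nat.log 2 y : ℝ) * Real.log 2 ≤ Real.log ((N : ℝ) + 1) := by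
      rw [← Real.log_pow]
      exact Real.log_le_log (by positivity) h2
    have h4 : (1 : ℝ) / 2 ≤ Real.log 2 := by linarith [Real.log_two_gt_d9]
    have h5 : (0 : ℝ) ≤ (Nat.log 2 y : ℝ) := Nat.cast_nonneg _
    push_cast
    nlinarith

theorem box_bound (N R U y M K : ℕ) (hR : 1 ≤ R) (hRU : R ≤ U) (hUN : U ^ 3 ≤ N)
    (hNU : N ≤ 8 * U ^ 3) (hy : y ≤ N) (hMK : M * K ≤ y) (hM : M ≤ 8 * U ^ 2)
    (hM2 : U < 2 * M) :
    Real.sqrt (((M + R ^ 2 : ℕ) : ℝ) * (M : ℝ) * (((K + R ^ 2 : ℕ) : ℝ) * (K : ℝ))) ≤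
      5 * (N + (N : ℝ) ^ ((5 : ℝ) / 6) * R) := by
  have hU : 1 ≤ U := hR.trans hRU
  have hN : 1 ≤ N := le_trans (Nat.one_le_pow _ _ hU) hUN
  have hK : K ≤ 16 * U ^ 2 := by
    have h1 : U * K ≤ U * (16 * U ^ 2) := by
      calc U * K ≤ 2 * M * K := Nat.mul_le_mul_right _ hM2.le
        _ = 2 * (M * K) := by ring
        _ ≤ 2 * (8 * U ^ 3) := Nat.mul_le_mul_left _ (hMK.trans (hy.trans hNU))
        _ = U * (16 * U ^ 2) := by ring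
    exact Nat.le_of_mul_le_mul_left h1 hU
  have hN' : (1 : ℝ) ≤ N := by exact_mod_cast hN
  have hN0 : (0 : ℝ) ≤ N := by linarith
  have hU6 : Real.sqrt N * U ≤ (N : ℝ) ^ ((5 : ℝ) / 6) := by
    have h1 : (U : ℝ) ≤ (N : ℝ) ^ ((1 : ℝ) / 3) := by
      have h2 : ((U : ℝ) ^ (3 : ℕ)) ≤ N := by exact_mod_cast hUN
      have h3 := Real.rpow_le_rpow (by positivity) h2 (by norm_num : (0 : ℝ) ≤ 1 / 3)
      rw [← Real.rpow_natCast, ← Real.rpow_mul (by positivity)] at h3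
      norm_num at h3
      simpa using h3
    rw [Real.sqrt_eq_rpow]
    calc (N : ℝ) ^ ((1 : ℝ) / 2) * U ≤ (N : ℝ) ^ ((1 : ℝ) / 2) * (N : ℝ) ^ ((1 : ℝ) / 3) := by
          gcongr
      _ = (N : ℝ) ^ ((5 : ℝ) / 6) := by
          rw [← Real.rpow_add (by linarith)]
          norm_num
  have hmain : ((M + R ^ 2 : ℕ) : ℝ) * (M : ℝ) * (((K + R ^ 2 : ℕ) : ℝ) * (K : ℝ)) ≤
      ((N : ℝ) + 5 * (Real.sqrt N * U * R)) ^ 2 := by
    have a1 : (M : ℝ) * K ≤ N := by exact_mod_cast hMK.trans hy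
    have a2 : (M : ℝ) ≤ 8 * (U : ℝ) ^ 2 := by exact_mod_cast hM
    have a3 : (K : ℝ) ≤ 16 * (U : ℝ) ^ 2 := by exact_mod_cast hK
    have a4 : (R : ℝ) ≤ U := by exact_mod_cast hRU
    have b1 : (0 : ℝ) ≤ M := Nat.cast_nonneg _
    have b2 : (0 : ℝ) ≤ K := Nat.cast_nonneg _
    have b3 : (0 : ℝ) ≤ R := Nat.cast_nonneg _
    have b4 : (0 : ℝ) ≤ U := Nat.cast_nonneg _
    have a5 : (R : ℝ) ^ 2 ≤ (U : ℝ) ^ 2 := by gcongr
    have c1 : ((M : ℝ) + R ^ 2) * (K + R ^ 2) ≤ N + 25 * (R ^ 2 * U ^ 2) := by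
      have d1 : (R : ℝ) ^ 2 * (M + K) ≤ R ^ 2 * (24 * U ^ 2) := by
        apply mul_le_mul_of_nonneg_left _ (by positivity)
        linarith
      have d2 : (R : ℝ) ^ 2 * R ^ 2 ≤ R ^ 2 * U ^ 2 :=
        mul_le_mul_of_nonneg_left a5 (by positivity)
      nlinarith
    have c2 : Real.sqrt N ^ 2 = N := Real.sq_sqrt hN0
    have c3 : 0 ≤ Real.sqrt N := Real.sqrt_nonneg _
    push_cast
    calc ((M : ℝ) + R ^ 2) * M * ((K + R ^ 2) * K)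
        = ((M : ℝ) + R ^ 2) * (K + R ^ 2) * (M * K) := by ring
      _ ≤ ((N : ℝ) + 25 * ((R : ℝ) ^ 2 * (U : ℝ) ^ 2)) * (N : ℝ) := by
          apply mul_le_mul c1 a1 (by positivity) (by positivity)
      _ = (N : ℝ) ^ 2 + 25 * (Real.sqrt N ^ 2 * (U : ℝ) ^ 2 * (R : ℝ) ^ 2) := by
          rw [c2]; ring
      _ ≤ ((N : ℝ) + 5 * (Real.sqrt N * U * R)) ^ 2 := by
          have : 0 ≤ (N : ℝ) * (Real.sqrt N * U * R) := by positivity
          nlinarith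
  calc Real.sqrt (((M + R ^ 2 : ℕ) : ℝ) * (M : ℝ) * (((K + R ^ 2 : ℕ) : ℝ) * (K : ℝ)))
      ≤ Real.sqrt (((N : ℝ) + 5 * (Real.sqrt N * U * R)) ^ 2) := Real.sqrt_le_sqrt hmain
    _ = (N : ℝ) + 5 * (Real.sqrt N * U * R) := Real.sqrt_sq (by positivity)
    _ ≤ (N : ℝ) + 5 * ((N : ℝ) ^ ((5 : ℝ) / 6) * R) := by gcongr
    _ ≤ 5 * (N + (N : ℝ) ^ ((5 : ℝ) / 6) * R) := by linarith

/-- BIL from TYP: the type II estimate in a box gives the estimate summed over the boxes. -/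
theorem bilinear_of_type_two (htyp : ∃ C : ℝ, 0 < C ∧ ∀ R M K y : ℕ, 1 ≤ R → 1 ≤ M → 1 ≤ K →
      ∀ a b : ℕ → ℂ, (∀ m, ‖a m‖ ≤ 1) → (∀ k, ‖b k‖ ≤ 1) →
      ∑ s ∈ PR R, ∑ χ ∈ nc s, ‖TT a b χ M K y‖ ≤
        C * (1 + Real.log (y + 1)) * Real.sqrt (((M + R ^ 2 : ℕ) : ℝ) * (M : ℝ) *
          (((K + R ^ 2 : ℕ) : ℝ) * (K : ℝ)))) (δ : ℝ) (hδ : 0 < δ) :
    ∃ C : ℝ, 0 < C ∧ ∀ N R U y : ℕ, 1 ≤ R → R ≤ U → U ^ 3 ≤ N → N ≤ 8 * U ^ 3 → y ≤ N →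
      ∀ a b : ℕ → ℂ, (∀ m, ‖a m‖ ≤ 1) → (∀ k, ‖b k‖ ≤ 1) →
      (∀ m, a m ≠ 0 → U < m ∧ m ≤ 8 * U ^ 2) →
      ∑ s ∈ PR R, ∑ χ ∈ nc s,
        ‖∑ m ∈ Icc 1 y, ∑ k ∈ (Icc 1 y).filter (fun k => m * k ≤ y),
          a m * b k * (χ m * χ k)‖ ≤
        C * (N : ℝ) ^ δ * (N + (N : ℝ) ^ ((5 : ℝ) / 6) * R) := by
  obtain ⟨C1, hC1, h1⟩ := htyp
  obtain ⟨C2, hC2, h2⟩ := log_cube δ hδ
  refine ⟨20 * C1 * C2, by positivity, ?_⟩
  intro N R U y hR hRU hUN hNU hy a b ha hb hsupp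
  have hU : 1 ≤ U := hR.trans hRU
  have hN : 1 ≤ N := le_trans (Nat.one_le_pow _ _ hU) hUN
  have hN0 : (0 : ℝ) ≤ N := Nat.cast_nonneg _
  set L := Nat.log 2 y + 1 with hL
  have hyL : y < 2 ^ L := Nat.lt_pow_succ_log_self (by norm_num) y
  have hlogy : Real.log ((y : ℝ) + 1) ≤ Real.log ((N : ℝ) + 1) := by
    apply Real.log_le_log (by positivity)
    have : (y : ℝ) ≤ N := by exact_mod_cast hy
    linarith
  have hlogN : 0 ≤ Real.log ((N : ℝ) + 1) := Real.log_nonneg (by linarith)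
  set W : ℝ := C1 * (1 + Real.log ((N : ℝ) + 1)) * (5 * (N + (N : ℝ) ^ ((5 : ℝ) / 6) * R)) with hW
  have hW0 : 0 ≤ W := by
    rw [hW]
    positivity
  -- one box
  have hbox : ∀ i j : ℕ, ∑ s ∈ PR R, ∑ χ ∈ nc s, ‖TT a b χ (2 ^ i) (2 ^ j) y‖ ≤ W := by
    intro i j
    by_cases hz : ∃ m ∈ Ico (2 ^ i) (2 * 2 ^ i), a m ≠ 0 ∧ 2 ^ i * 2 ^ j ≤ y
    · obtain ⟨m, hm, ham, hij⟩ := hz
      rw [mem_Ico] at hm
      obtain ⟨g1, g2⟩ := hsupp m ham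
      have hb1 := box_bound N R U y (2 ^ i) (2 ^ j) hR hRU hUN hNU hy hij (hm.1.trans g2)
        (g1.trans hm.2)
      refine (h1 R (2 ^ i) (2 ^ j) y hR Nat.one_le_two_pow Nat.one_le_two_pow a b ha hb).trans ?_
      rw [hW]
      have hl0 : 0 ≤ 1 + Real.log ((y : ℝ) + 1) := by
        have : 0 ≤ Real.log ((y : ℝ) + 1) :=
          Real.log_nonneg (by have : (0 : ℝ) ≤ y := Nat.cast_nonneg _; linarith)
        linarith
      gcongr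
    · have h0 : ∀ χ : ℕ → ℂ, TT a b χ (2 ^ i) (2 ^ j) y = 0 := by
        intro χ
        unfold TT
        apply sum_eq_zero
        intro m hm
        apply sum_eq_zero
        intro k hk
        rw [mem_filter] at hk
        by_cases ham : a m = 0
        · rw [ham]
          ring
        · exfalso
          apply hz
          refine ⟨m, hm, ham, ?_⟩
          exact (Nat.mul_le_mul (mem_Ico.mp hm).1 (mem_Ico.mp hk.1).1).trans hk.2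
      simp only [h0, norm_zero, sum_const_zero]
      exact hW0
  -- decomposition
  have hdec : ∀ χ : ℕ → ℂ, ‖∑ m ∈ Icc 1 y, ∑ k ∈ (Icc 1 y).filter (fun k => m * k ≤ y),
      a m * b k * (χ m * χ k)‖ ≤ ∑ i ∈ range L, ∑ j ∈ range L, ‖TT a b χ (2 ^ i) (2 ^ j) y‖ := by
    intro χ
    rw [dyadic (fun m k => a m * b k * (χ m * χ k)) y L hyL]
    refine (norm_sum_le _ _).trans (sum_le_sum fun i _ => ?_)
    exact (norm_sum_le _ _).trans (sum_le_sum fun j _ => le_rfl)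
  calc ∑ s ∈ PR R, ∑ χ ∈ nc s, ‖∑ m ∈ Icc 1 y, ∑ k ∈ (Icc 1 y).filter (fun k => m * k ≤ y),
        a m * b k * (χ m * χ k)‖
      ≤ ∑ s ∈ PR R, ∑ χ ∈ nc s, ∑ i ∈ range L, ∑ j ∈ range L,
          ‖TT a b χ (2 ^ i) (2 ^ j) y‖ :=
        sum_le_sum fun s _ => sum_le_sum fun χ _ => hdec χ
    _ = ∑ i ∈ range L, ∑ j ∈ range L, ∑ s ∈ PR R, ∑ χ ∈ nc s,
          ‖TT a b χ (2 ^ i) (2 ^ j) y‖ := by
        have e1 : ∀ s, ∑ χ ∈ nc s, ∑ i ∈ range L, ∑ j ∈ range L,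
            ‖TT a b χ (2 ^ i) (2 ^ j) y‖ = ∑ i ∈ range L, ∑ j ∈ range L, ∑ χ ∈ nc s,
            ‖TT a b χ (2 ^ i) (2 ^ j) y‖ := by
          intro s
          rw [sum_comm]
          exact sum_congr rfl fun i _ => sum_comm
        simp only [e1]
        rw [sum_comm]
        exact sum_congr rfl fun i _ => sum_comm
    _ ≤ ∑ i ∈ range L, ∑ j ∈ range L, W := sum_le_sum fun i _ => sum_le_sum fun j _ => hbox i j
    _ = (L : ℝ) * (L : ℝ) * W := by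
        simp only [sum_const, card_range, nsmul_eq_mul]
        ring
    _ ≤ (2 * (1 + Real.log ((N : ℝ) + 1))) * (2 * (1 + Real.log ((N : ℝ) + 1))) * W := by
        have := log_count y N hy
        rw [← hL] at this
        have hL0 : (0 : ℝ) ≤ L := Nat.cast_nonneg _
        gcongr
    _ = 20 * C1 * (1 + Real.log ((N : ℝ) + 1)) ^ 3 * (N + (N : ℝ) ^ ((5 : ℝ) / 6) * R) := by
        rw [hW]
        ring
    _ ≤ 20 * C1 * (C2 * (N : ℝ) ^ δ) * (N + (N : ℝ) ^ ((5 : ℝ) / 6) * R) := by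
        have := h2 N hN
        gcongr
    _ = 20 * C1 * C2 * (N : ℝ) ^ δ * (N + (N : ℝ) ^ ((5 : ℝ) / 6) * R) := by ring

end BilAux

end

end Pool.Agent.M848
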