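import Pool.Agent.Lib.MP_848d44_nt.Defs

/-!
# BIN: binary separation of the condition `k < z`
-/

set_option autoImplicit false

namespace Pool.Agent.M848

open Finset
open scoped ArithmeticFunction ComplexConjugate

noncomputable section

/-- BIN. Binary separation. -/
theorem binary_sep (L k z : ℕ) (hz : z < 2 ^ L) :
    (if k < z then 1 else 0 : ℕ) =
      ∑ l ∈ range L, (if (z / 2 ^ l) % 2 = 1 ∧ k / 2 ^ l + 1 = z / 2 ^ l then 1 else 0) := by
  induction L generalizing k z with
  | zero =>
    have : z = 0 := by simpa using hz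
    subst this
    simp
  | succ L ih =>
    have hz2 : z / 2 < 2 ^ L := by
      rw [pow_succ] at hz
      omega
    have h := ih (k / 2) (z / 2) hz2
    rw [sum_range_succ']
    have h2 : ∑ l ∈ range L, (if (z / 2 ^ (l + 1)) % 2 = 1 ∧
        k / 2 ^ (l + 1) + 1 = z / 2 ^ (l + 1) then 1 else 0) =
        ∑ l ∈ range L, (if (z / 2 / 2 ^ l) % 2 = 1 ∧ k / 2 / 2 ^ l + 1 = z / 2 / 2 ^ l
          then 1 else 0) := by
      refine sum_congr rfl fun l _ => ?_
      rw [Nat.div_div_eq_div_mul, Nat.div_div_eq_div_mul, pow_succ']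
    rw [h2, ← h]
    simp only [pow_zero, Nat.div_one]
    split_ifs <;> omega

end

end Pool.Agent.M848
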