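import Pool.Agent.Lib.MP_848d44_nt.Defs

/-!
MP_848d44_nt, module FEW: few primes divide `q`.
-/

set_option autoImplicit false
set_option linter.all false

namespace Pool.Agent.M848

open Finset
open scoped ArithmeticFunction ComplexConjugate

noncomputable section

namespace FewAux

theorem card_pf (q : ℕ) (hq : 1 ≤ q) : q.primeFactors.card ≤ Nat.log 2 q := by
  refine Nat.le_log_of_pow_le one_lt_two ?_
  calc 2 ^ q.primeFactors.card = ∏ p ∈ q.primeFactors, 2 := by rw [prod_const]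
    _ ≤ ∏ p ∈ q.primeFactors, p := Finset.prod_le_prod' fun p hp =>
        (Nat.prime_of_mem_primeFactors hp).two_le
    _ ≤ q := Nat.le_of_dvd hq (Nat.prod_primeFactors_dvd q)

theorem mem_PR {R s : ℕ} : s ∈ PR R ↔ (R < s ∧ s ≤ 2 * R) ∧ s.Prime := by
  unfold PR
  rw [mem_filter, mem_Ioc]

theorem disj {i j s : ℕ} (hi : s ∈ PR (2 ^ i)) (hj : s ∈ PR (2 ^ j)) : i = j := by
  rw [mem_PR] at hi hj
  by_contra h
  rcases Nat.lt_or_gt_of_ne h with h | h
  · have : 2 ^ (i + 1) ≤ 2 ^ j := Nat.pow_le_pow_right (by norm_num) h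
    rw [pow_succ] at this
    omega
  · have : 2 ^ (j + 1) ≤ 2 ^ i := Nat.pow_le_pow_right (by norm_num) h
    rw [pow_succ] at this
    omega

end FewAux

theorem few_dividing (q j₀ j₁ : ℕ) (hq : 1 ≤ q) :
    ∑ j ∈ Ico j₀ j₁, ∑ s ∈ (PR (2 ^ j)).filter (fun s => s ∣ q), (1 : ℝ) / s ≤
      Nat.log 2 q / 2 ^ j₀ := by
  classical
  have h1 : ∀ j ∈ Ico j₀ j₁, ∑ s ∈ (PR (2 ^ j)).filter (fun s => s ∣ q), (1 : ℝ) / s ≤
      ((PR (2 ^ j)).filter (fun s => s ∣ q)).card * (1 / 2 ^ j₀ : ℝ) := by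
    intro j hj
    rw [mem_Ico] at hj
    rw [← nsmul_eq_mul, ← sum_const]
    refine sum_le_sum fun s hs => ?_
    rw [mem_filter, FewAux.mem_PR] at hs
    refine one_div_le_one_div_of_le (by positivity) ?_
    have h2 : 2 ^ j₀ ≤ 2 ^ j := Nat.pow_le_pow_right (by norm_num) hj.1
    exact_mod_cast h2.trans hs.1.1.1.le
  refine (sum_le_sum h1).trans ?_
  rw [← sum_mul, ← Nat.cast_sum, ← card_biUnion,
    div_eq_mul_one_div ((Nat.log 2 q : ℕ) : ℝ) (2 ^ j₀)]
  · have h0 : (0 : ℝ) ≤ 1 / 2 ^ j₀ := by positivity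
    refine mul_le_mul_of_nonneg_right ?_ h0
    have h3 : ((Ico j₀ j₁).biUnion fun j => (PR (2 ^ j)).filter (fun s => s ∣ q)) ⊆
        q.primeFactors := by
      intro s hs
      rw [mem_biUnion] at hs
      obtain ⟨j, -, hs⟩ := hs
      rw [mem_filter, FewAux.mem_PR] at hs
      exact Nat.mem_primeFactors.2 ⟨hs.1.2, hs.2, by omega⟩
    exact_mod_cast (card_le_card h3).trans (FewAux.card_pf q hq)
  · intro i _ j _ hij
    rw [Function.onFun, Finset.disjoint_left]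
    intro s hs ht
    rw [mem_filter] at hs ht
    exact hij (FewAux.disj hs.1 ht.1)

end

end Pool.Agent.M848
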