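import Pool.Agent.Lib.MP_848d44_nt.Defs
import Pool.Agent.Lib.MP_848d44_nt.Chars

set_option autoImplicit false

namespace Pool.Agent.M848

open Finset
open scoped ArithmeticFunction ComplexConjugate

noncomputable section

namespace GaussAux

lemma orth {s : ℕ} [NeZero s] (hs : s.Prime) (a b : ZMod s) :
    ∑ χ : DirichletCharacter ℂ s, χ a * conj (χ b) =
      if a = b ∧ a ≠ 0 then ((s : ℂ) - 1) else 0 := by
  have : Fact s.Prime := ⟨hs⟩
  by_cases ha : a = 0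
  · subst ha
    simp [MulChar.map_zero]
  · have hcop : a.val.Coprime s := by
      have hu : IsUnit ((a.val : ℕ) : ZMod s) := by
        rw [ZMod.natCast_zmod_val]
        exact (isUnit_iff_ne_zero).mpr ha
      exact (ZMod.isUnit_iff_coprime _ _).mp hu
    have h := CharsAux.orth_char s a.val b.val hcop
    rw [ZMod.natCast_zmod_val, ZMod.natCast_zmod_val] at h
    rw [h, Nat.mod_eq_of_lt (ZMod.val_lt a), Nat.mod_eq_of_lt (ZMod.val_lt b),
      Nat.totient_prime hs]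
    have h2 : (a.val = b.val) ↔ a = b := (ZMod.val_injective s).eq_iff
    have h3 : ((s - 1 : ℕ) : ℂ) = (s : ℂ) - 1 := by
      rw [Nat.cast_sub hs.one_lt.le, Nat.cast_one]
    simp only [h2, ha, h3, ne_eq, not_false_eq_true, and_true]

lemma nsq (z : ℂ) : ((‖z‖ ^ 2 : ℝ) : ℂ) = z * conj z := by
  rw [Complex.mul_conj, Complex.normSq_eq_norm_sq]

lemma parseval {s : ℕ} [NeZero s] (hs : s.Prime) (f : ZMod s → ℂ) :
    ∑ χ : DirichletCharacter ℂ s, ‖∑ a, χ a * f a‖ ^ 2 =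
      ((s : ℝ) - 1) * ∑ a ∈ univ.erase (0 : ZMod s), ‖f a‖ ^ 2 := by
  classical
  have h : ((∑ χ : DirichletCharacter ℂ s, ‖∑ a, χ a * f a‖ ^ 2 : ℝ) : ℂ) =
      ((((s : ℝ) - 1) * ∑ a ∈ univ.erase (0 : ZMod s), ‖f a‖ ^ 2 : ℝ) : ℂ) := by
    rw [Complex.ofReal_sum, Complex.ofReal_mul, Complex.ofReal_sum]
    have h1 : ∀ χ : DirichletCharacter ℂ s, ((‖∑ a, χ a * f a‖ ^ 2 : ℝ) : ℂ) =
        ∑ a, ∑ b, (f a * conj (f b)) * (χ a * conj (χ b)) := by
      intro χ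
      rw [nsq, map_sum, sum_mul_sum]
      apply sum_congr rfl
      intro a _
      apply sum_congr rfl
      intro b _
      rw [map_mul]
      ring
    rw [sum_congr rfl (fun χ _ => h1 χ), sum_comm]
    have h2 : ∀ a : ZMod s, ∑ χ : DirichletCharacter ℂ s, ∑ b, (f a * conj (f b)) * (χ a * conj (χ b))
        = if a = 0 then 0 else ((s : ℂ) - 1) * (f a * conj (f a)) := by
      intro a
      rw [sum_comm]
      have h3 : ∀ b : ZMod s, ∑ χ : DirichletCharacter ℂ s, (f a * conj (f b)) * (χ a * conj (χ b)) =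
          if a = b then (if a = 0 then 0 else ((s : ℂ) - 1) * (f a * conj (f a))) else 0 := by
        intro b
        rw [← mul_sum, orth hs]
        by_cases hab : a = b
        · subst hab
          by_cases ha : a = 0
          · simp [ha]
          · simp [ha]
            ring
        · simp [hab]
      rw [sum_congr rfl (fun b _ => h3 b), sum_ite_eq]
      simp
    rw [sum_congr rfl (fun a _ => h2 a)]
    rw [← sum_erase_add univ _ (mem_univ (0 : ZMod s))]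
    simp only [if_true, add_zero]
    rw [mul_sum]
    apply sum_congr rfl
    intro a ha
    rw [if_neg (ne_of_mem_erase ha), nsq]
    push_cast
    ring
  exact_mod_cast h

lemma shift {s : ℕ} [NeZero s] (hs : s.Prime) {χ : DirichletCharacter ℂ s} (hχ : χ ≠ 1)
    (n : ZMod s) :
    ∑ b, χ⁻¹ b * (ZMod.stdAddChar (n * b) : ℂ) = χ n * gaussSum χ⁻¹ (ZMod.stdAddChar (N := s)) := by
  have : Fact s.Prime := ⟨hs⟩
  by_cases hn : n = 0
  · subst hn
    simp only [zero_mul, AddChar.map_zero_eq_one, mul_one, MulChar.map_zero]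
    exact MulChar.sum_eq_zero_of_ne_one (inv_ne_one.mpr hχ)
  · have h := gaussSum_mulShift_eq χ⁻¹ (ZMod.stdAddChar (N := s)) (Units.mk0 n hn)
    rw [inv_inv, Units.val_mk0] at h
    rw [← h]
    unfold gaussSum
    apply sum_congr rfl
    intro b _
    rw [AddChar.mulShift_apply]

lemma gauss_norm {s : ℕ} [NeZero s] (hs : s.Prime) {χ : DirichletCharacter ℂ s} (hχ : χ ≠ 1) :
    ‖gaussSum χ (ZMod.stdAddChar (N := s))‖ ^ 2 = s := by
  have : Fact s.Prime := ⟨hs⟩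
  have h := gaussSum_mul_gaussSum_eq_card hχ (ZMod.isPrimitive_stdAddChar s)
  rw [← star_gaussSum_eq] at h
  have h2 := nsq (gaussSum χ (ZMod.stdAddChar (N := s)))
  have h3 : ((‖gaussSum χ (ZMod.stdAddChar (N := s))‖ ^ 2 : ℝ) : ℂ) = ((s : ℝ) : ℂ) := by
    rw [h2]
    have h4 : conj (gaussSum χ (ZMod.stdAddChar (N := s))) = star (gaussSum χ (ZMod.stdAddChar (N := s))) := rfl
    rw [h4, h, ZMod.card]
    push_cast
    rfl
  exact_mod_cast h3

lemma char_eq (s : ℕ) [NeZero s] (n b : ℕ) :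
    Complex.exp (2 * Real.pi * Complex.I * (n * ((b : ℝ) / (s : ℝ) : ℝ))) =
      (ZMod.stdAddChar ((n : ZMod s) * (b : ZMod s)) : ℂ) := by
  have h := ZMod.stdAddChar_coe (N := s) ((n * b : ℕ) : ℤ)
  have h2 : (((n * b : ℕ) : ℤ) : ZMod s) = (n : ZMod s) * (b : ZMod s) := by push_cast; rfl
  rw [h2] at h
  rw [h]
  congr 1
  push_cast
  ring

lemma main_bound {s : ℕ} [NeZero s] (hs : s.Prime) (T : ℕ) (c : ℕ → ℂ) :
    ∑ χ ∈ (univ : Finset (DirichletCharacter ℂ s)) \ {1}, ‖∑ n ∈ Icc 1 T, c n * χ (n : ZMod s)‖ ^ 2 ≤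
      ∑ b ∈ univ.erase (0 : ZMod s), ‖∑ n ∈ Icc 1 T, c n * (ZMod.stdAddChar ((n : ZMod s) * b) : ℂ)‖ ^ 2 := by
  classical
  have : Fact s.Prime := ⟨hs⟩
  have hs1 : (1 : ℝ) ≤ s := by exact_mod_cast hs.one_lt.le
  have hs0 : (0 : ℝ) < s := by linarith
  set X : ZMod s → ℂ := fun b => ∑ n ∈ Icc 1 T, c n * (ZMod.stdAddChar ((n : ZMod s) * b) : ℂ) with hX
  have h1 : ∀ χ : DirichletCharacter ℂ s, χ ≠ 1 →
      (s : ℝ) * ‖∑ n ∈ Icc 1 T, c n * χ (n : ZMod s)‖ ^ 2 = ‖∑ b, χ⁻¹ b * X b‖ ^ 2 := by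
    intro χ hχ
    have h2 : ∑ b, χ⁻¹ b * X b =
        (∑ n ∈ Icc 1 T, c n * χ (n : ZMod s)) * gaussSum χ⁻¹ (ZMod.stdAddChar (N := s)) := by
      rw [hX]
      simp only
      have h3 : ∀ b : ZMod s, χ⁻¹ b * ∑ n ∈ Icc 1 T, c n * (ZMod.stdAddChar ((n : ZMod s) * b) : ℂ) =
          ∑ n ∈ Icc 1 T, c n * (χ⁻¹ b * (ZMod.stdAddChar ((n : ZMod s) * b) : ℂ)) := by
        intro b
        rw [mul_sum]
        apply sum_congr rfl
        intro n _
        ring
      rw [sum_congr rfl (fun b _ => h3 b), sum_comm, sum_mul]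
      apply sum_congr rfl
      intro n _
      rw [← mul_sum, shift hs hχ]
      ring
    rw [h2, norm_mul, mul_pow, gauss_norm hs (inv_ne_one.mpr hχ), mul_comm]
  have h4 : (s : ℝ) * ∑ χ ∈ (univ : Finset (DirichletCharacter ℂ s)) \ {1},
      ‖∑ n ∈ Icc 1 T, c n * χ (n : ZMod s)‖ ^ 2 ≤ (s : ℝ) * ∑ b ∈ univ.erase (0 : ZMod s), ‖X b‖ ^ 2 := by
    calc (s : ℝ) * ∑ χ ∈ (univ : Finset (DirichletCharacter ℂ s)) \ {1},
      ‖∑ n ∈ Icc 1 T, c n * χ (n : ZMod s)‖ ^ 2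
        = ∑ χ ∈ (univ : Finset (DirichletCharacter ℂ s)) \ {1}, ‖∑ b, χ⁻¹ b * X b‖ ^ 2 := by
          rw [mul_sum]
          apply sum_congr rfl
          intro χ hχ
          rw [mem_sdiff, mem_singleton] at hχ
          exact h1 χ hχ.2
      _ ≤ ∑ χ : DirichletCharacter ℂ s, ‖∑ b, χ⁻¹ b * X b‖ ^ 2 :=
          sum_le_sum_of_subset_of_nonneg (subset_univ _) (fun _ _ _ => by positivity)
      _ = ∑ χ : DirichletCharacter ℂ s, ‖∑ b, χ b * X b‖ ^ 2 :=
          Fintype.sum_equiv (Equiv.inv _) _ _ (fun χ => rfl)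
      _ = ((s : ℝ) - 1) * ∑ b ∈ univ.erase (0 : ZMod s), ‖X b‖ ^ 2 := parseval hs X
      _ ≤ (s : ℝ) * ∑ b ∈ univ.erase (0 : ZMod s), ‖X b‖ ^ 2 := by
          apply mul_le_mul_of_nonneg_right (by linarith)
          exact sum_nonneg (fun _ _ => by positivity)
  exact le_of_mul_le_mul_left h4 hs0

end GaussAux

/-- GAUSS. From additive to multiplicative characters modulo a prime. -/
theorem gauss_bound (s : ℕ) (hs : s.Prime) (T : ℕ) (c : ℕ → ℂ) :
    ∑ χ ∈ nc s, ‖∑ n ∈ Icc 1 T, c n * χ n‖ ^ 2 ≤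
      ∑ b ∈ Ico 1 s,
      ‖∑ n ∈ Icc 1 T, c n * Complex.exp (2 * Real.pi * Complex.I * (n * ((b : ℝ) / (s : ℝ) : ℝ)))‖ ^ 2 := by
  classical
  have : NeZero s := ⟨hs.ne_zero⟩
  have h1 : ∑ χ ∈ nc s, ‖∑ n ∈ Icc 1 T, c n * χ n‖ ^ 2 =
      ∑ χ ∈ (univ : Finset (DirichletCharacter ℂ s)) \ {1},
        ‖∑ n ∈ Icc 1 T, c n * χ (n : ZMod s)‖ ^ 2 := by
    unfold nc
    rw [dif_neg hs.ne_zero, sum_image]
    · apply sum_congr
      · ext χ
        simp
      · intro _ _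
        rfl
    · intro a _ b _ hab
      exact CharsAux.inj_char s hab
  have h2 : ∑ b ∈ Ico 1 s,
      ‖∑ n ∈ Icc 1 T, c n * Complex.exp (2 * Real.pi * Complex.I * (n * ((b : ℝ) / (s : ℝ) : ℝ)))‖ ^ 2 =
      ∑ b ∈ univ.erase (0 : ZMod s), ‖∑ n ∈ Icc 1 T, c n * (ZMod.stdAddChar ((n : ZMod s) * b) : ℂ)‖ ^ 2 := by
    apply sum_bij' (fun (b : ℕ) _ => (b : ZMod s)) (fun (a : ZMod s) _ => a.val)
    · intro b hb
      rw [mem_Ico] at hb
      rw [mem_erase]
      refine ⟨?_, mem_univ _⟩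
      intro h
      rw [ZMod.natCast_eq_zero_iff] at h
      have := Nat.le_of_dvd (by omega) h
      omega
    · intro a ha
      rw [mem_erase] at ha
      rw [mem_Ico]
      have h3 : a.val ≠ 0 := by
        rw [Ne, ZMod.val_eq_zero]
        exact ha.1
      exact ⟨by omega, ZMod.val_lt a⟩
    · intro b hb
      rw [mem_Ico] at hb
      exact ZMod.val_cast_of_lt hb.2
    · intro a _
      exact ZMod.natCast_zmod_val a
    · intro b _
      simp_rw [GaussAux.char_eq s]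
  rw [h1, h2]
  exact GaussAux.main_bound hs T c

end

end Pool.Agent.M848
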