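import Mathlib
import Pool.Agent.Lib.MP_848d44_nt.Defs
import Pool.Agent.Lib.MP_848d44_nt.Bin

/-!
# MP_848d44_nt, module TYP: the type II estimate in a box (modulo the large sieve)
-/

set_option autoImplicit false

namespace Pool.Agent.M848

open Finset
open scoped ArithmeticFunction ComplexConjugate

noncomputable section

namespace TypAux

/-- first factor -/
def fA (a χ : ℕ → ℂ) (M y l i : ℕ) : ℂ :=
  ∑ m ∈ (Ico M (2 * M)).filter (fun m => (y / m + 1) / 2 ^ l = i ∧ i % 2 = 1), a m * χ m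

/-- second factor -/
def fB (b χ : ℕ → ℂ) (K l i : ℕ) : ℂ :=
  ∑ k ∈ (Ico K (2 * K)).filter (fun k => k / 2 ^ l + 1 = i), b k * χ k

lemma pointwise (y m k L : ℕ) (hm : 1 ≤ m) (hL : y + 1 < 2 ^ L) :
    (if m * k ≤ y then (1 : ℂ) else 0) =
      ∑ l ∈ range L, ∑ i ∈ range (y + 2),
        (if (y / m + 1) / 2 ^ l = i ∧ i % 2 = 1 then (1 : ℂ) else 0) *
          (if k / 2 ^ l + 1 = i then (1 : ℂ) else 0) := by
  have hz : y / m + 1 < 2 ^ L := by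
    have h1 : y / m ≤ y := Nat.div_le_self y m
    omega
  have hiff : m * k ≤ y ↔ k < y / m + 1 := by
    rw [Nat.lt_succ_iff, Nat.le_div_iff_mul_le hm, mul_comm]
  have h1 := binary_sep L k (y / m + 1) hz
  have h2 : (if m * k ≤ y then (1 : ℂ) else 0) =
      ((if k < y / m + 1 then 1 else 0 : ℕ) : ℂ) := by
    by_cases h : m * k ≤ y
    · rw [if_pos h, if_pos (hiff.1 h), Nat.cast_one]
    · rw [if_neg h, if_neg (fun h' => h (hiff.2 h')), Nat.cast_zero]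
  rw [h2, h1, Nat.cast_sum]
  refine sum_congr rfl fun l _ => ?_
  have hzl : (y / m + 1) / 2 ^ l ∈ range (y + 2) := by
    rw [mem_range]
    have h3 : (y / m + 1) / 2 ^ l ≤ y / m + 1 := Nat.div_le_self _ _
    have h4 : y / m ≤ y := Nat.div_le_self y m
    omega
  rw [sum_eq_single ((y / m + 1) / 2 ^ l)]
  · by_cases h3 : (y / m + 1) / 2 ^ l % 2 = 1
    · by_cases h4 : k / 2 ^ l + 1 = (y / m + 1) / 2 ^ l
      · simp [h3, h4]
      · simp [h3, h4]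
    · simp [h3]
  · intro i _ hi
    rw [if_neg (fun h => hi h.1.symm), zero_mul]
  · intro h
    exact absurd hzl h

lemma TT_eq (a b χ : ℕ → ℂ) (M K y L : ℕ) (hM : 1 ≤ M) (hL : y + 1 < 2 ^ L) :
    TT a b χ M K y = ∑ l ∈ range L, ∑ i ∈ range (y + 2), fA a χ M y l i * fB b χ K l i := by
  have h1 : TT a b χ M K y = ∑ m ∈ Ico M (2 * M), ∑ k ∈ Ico K (2 * K),
      ∑ l ∈ range L, ∑ i ∈ range (y + 2),
        (if (y / m + 1) / 2 ^ l = i ∧ i % 2 = 1 then a m * χ m else 0) *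
          (if k / 2 ^ l + 1 = i then b k * χ k else 0) := by
    unfold TT
    refine sum_congr rfl fun m hm => ?_
    rw [sum_filter]
    refine sum_congr rfl fun k _ => ?_
    have hm1 : 1 ≤ m := hM.trans (mem_Ico.1 hm).1
    have h2 := pointwise y m k L hm1 hL
    have h3 : (if m * k ≤ y then a m * b k * (χ m * χ k) else 0) =
        (if m * k ≤ y then (1 : ℂ) else 0) * (a m * b k * (χ m * χ k)) := by
      by_cases h : m * k ≤ y
      · rw [if_pos h, if_pos h, one_mul]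
      · rw [if_neg h, if_neg h, zero_mul]
    rw [h3, h2, sum_mul]
    refine sum_congr rfl fun l _ => ?_
    rw [sum_mul]
    refine sum_congr rfl fun i _ => ?_
    by_cases h4 : (y / m + 1) / 2 ^ l = i ∧ i % 2 = 1
    · by_cases h5 : k / 2 ^ l + 1 = i
      · rw [if_pos h4, if_pos h4, if_pos h5, if_pos h5]
        ring
      · rw [if_neg h5, if_neg h5, mul_zero, mul_zero, zero_mul]
    · rw [if_neg h4, if_neg h4, zero_mul, zero_mul, zero_mul]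
  rw [h1]
  have h2 : ∀ m ∈ Ico M (2 * M), ∑ k ∈ Ico K (2 * K),
      ∑ l ∈ range L, ∑ i ∈ range (y + 2),
        (if (y / m + 1) / 2 ^ l = i ∧ i % 2 = 1 then a m * χ m else 0) *
          (if k / 2 ^ l + 1 = i then b k * χ k else 0) =
      ∑ l ∈ range L, ∑ i ∈ range (y + 2),
        (if (y / m + 1) / 2 ^ l = i ∧ i % 2 = 1 then a m * χ m else 0) * fB b χ K l i := by
    intro m _
    rw [sum_comm]
    refine sum_congr rfl fun l _ => ?_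
    rw [sum_comm]
    refine sum_congr rfl fun i _ => ?_
    rw [← mul_sum]
    unfold fB
    rw [sum_filter]
  rw [sum_congr rfl h2, sum_comm]
  refine sum_congr rfl fun l _ => ?_
  rw [sum_comm]
  refine sum_congr rfl fun i _ => ?_
  rw [← sum_mul]
  unfold fA
  rw [sum_filter]

/-- large sieve bound for one family of subsets -/
lemma family_bound (R T : ℕ) (D : ℝ)
    (hls : ∀ c : ℕ → ℂ, ∑ s ∈ PR R, ∑ χ ∈ nc s, ‖∑ n ∈ Icc 1 T, c n * χ n‖ ^ 2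
      ≤ D * ∑ n ∈ Icc 1 T, ‖c n‖ ^ 2) (hD : 0 ≤ D)
    (c : ℕ → ℂ) (hc : ∀ n, ‖c n‖ ≤ 1) (W : Finset ℕ) (hW : W ⊆ Icc 1 T)
    (I : Finset ℕ) (p : ℕ → ℕ → Prop) [∀ i n, Decidable (p i n)]
    (hp : ∀ n i j, p i n → p j n → i = j) :
    ∑ i ∈ I, ∑ s ∈ PR R, ∑ χ ∈ nc s, ‖∑ n ∈ W.filter (p i), c n * χ n‖ ^ 2 ≤ D * W.card := by
  classical
  have h1 : ∀ i, ∑ s ∈ PR R, ∑ χ ∈ nc s, ‖∑ n ∈ W.filter (p i), c n * χ n‖ ^ 2 ≤
      D * (W.filter (p i)).card := by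
    intro i
    have h2 := hls (fun n => if n ∈ W.filter (p i) then c n else 0)
    have h3 : ∀ χ : ℕ → ℂ, ∑ n ∈ Icc 1 T, (if n ∈ W.filter (p i) then c n else 0) * χ n =
        ∑ n ∈ W.filter (p i), c n * χ n := by
      intro χ
      have h4 : W.filter (p i) ⊆ Icc 1 T := (filter_subset _ _).trans hW
      rw [← sum_subset h4]
      · refine sum_congr rfl fun n hn => ?_
        rw [if_pos hn]
      · intro n _ hn
        rw [if_neg hn, zero_mul]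
    simp only [h3] at h2
    refine h2.trans ?_
    refine mul_le_mul_of_nonneg_left ?_ hD
    have h4 : W.filter (p i) ⊆ Icc 1 T := (filter_subset _ _).trans hW
    have h5 : ∑ n ∈ Icc 1 T, ‖(if n ∈ W.filter (p i) then c n else 0 : ℂ)‖ ^ 2 =
        ∑ n ∈ W.filter (p i), ‖c n‖ ^ 2 := by
      rw [← sum_subset h4]
      · refine sum_congr rfl fun n hn => ?_
        rw [if_pos hn]
      · intro n _ hn
        rw [if_neg hn, norm_zero]
        norm_num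
    rw [h5]
    have h6 : ∑ n ∈ W.filter (p i), ‖c n‖ ^ 2 ≤ ∑ n ∈ W.filter (p i), (1 : ℝ) := by
      refine sum_le_sum fun n _ => ?_
      have := hc n
      have h7 := norm_nonneg (c n)
      nlinarith
    refine h6.trans (le_of_eq ?_)
    rw [sum_const, nsmul_eq_mul, mul_one]
  refine (sum_le_sum fun i _ => h1 i).trans ?_
  rw [← mul_sum]
  refine mul_le_mul_of_nonneg_left ?_ hD
  have h2 : ∑ i ∈ I, ((W.filter (p i)).card : ℝ) = ((∑ i ∈ I, (W.filter (p i)).card : ℕ) : ℝ) := by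
    push_cast
    rfl
  rw [h2]
  have h3 : ∑ i ∈ I, (W.filter (p i)).card = (I.biUnion fun i => W.filter (p i)).card := by
    rw [card_biUnion]
    intro i _ j _ hij
    change Disjoint (W.filter (p i)) (W.filter (p j))
    rw [disjoint_left]
    intro n hn hn'
    exact hij (hp n i j (mem_filter.1 hn).2 (mem_filter.1 hn').2)
  rw [h3]
  have h4 : (I.biUnion fun i => W.filter (p i)).card ≤ W.card := by
    refine card_le_card ?_
    intro n hn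
    obtain ⟨i, _, hi⟩ := mem_biUnion.1 hn
    exact (mem_filter.1 hi).1
  exact_mod_cast h4

/-- triple Cauchy-Schwarz -/
lemma cs3 (S : Finset ℕ) (N : ℕ → Finset (ℕ → ℂ)) (I : Finset ℕ)
    (f g : ℕ → (ℕ → ℂ) → ℝ) (P Q : ℝ)
    (hf : ∑ i ∈ I, ∑ s ∈ S, ∑ χ ∈ N s, f i χ ^ 2 ≤ P)
    (hg : ∑ i ∈ I, ∑ s ∈ S, ∑ χ ∈ N s, g i χ ^ 2 ≤ Q) :
    ∑ i ∈ I, ∑ s ∈ S, ∑ χ ∈ N s, f i χ * g i χ ≤ Real.sqrt (P * Q) := by
  have hexp : ∀ F : ℕ → (ℕ → ℂ) → ℝ, ∑ i ∈ I, ∑ s ∈ S, ∑ χ ∈ N s, F i χ =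
      ∑ z ∈ I ×ˢ (S.sigma N), F z.1 z.2.2 := by
    intro F
    rw [sum_product]
    refine sum_congr rfl fun i _ => ?_
    rw [sum_sigma]
  rw [hexp (fun i χ => f i χ * g i χ)]
  rw [hexp (fun i χ => f i χ ^ 2)] at hf
  rw [hexp (fun i χ => g i χ ^ 2)] at hg
  apply Real.le_sqrt_of_sq_le
  have h1 := Finset.sum_mul_sq_le_sq_mul_sq (I ×ˢ (S.sigma N)) (fun z => f z.1 z.2.2)
    (fun z => g z.1 z.2.2)
  refine h1.trans ?_
  have h2 : 0 ≤ ∑ z ∈ I ×ˢ (S.sigma N), g z.1 z.2.2 ^ 2 := sum_nonneg fun z _ => sq_nonneg _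
  have h3 : 0 ≤ ∑ z ∈ I ×ˢ (S.sigma N), f z.1 z.2.2 ^ 2 := sum_nonneg fun z _ => sq_nonneg _
  exact mul_le_mul hf hg h2 (h3.trans hf)

lemma log_count (y : ℕ) : ((Nat.log 2 (y + 1) + 1 : ℕ) : ℝ) ≤ 2 * (1 + Real.log (y + 1)) := by
  have h1 : (2 : ℝ) ^ (Nat.log 2 (y + 1)) ≤ y + 1 := by
    have h2 : 2 ^ (Nat.log 2 (y + 1)) ≤ y + 1 := Nat.pow_log_le_self 2 (by omega)
    exact_mod_cast h2
  have h2 : (Nat.log 2 (y + 1) : ℝ) * Real.log 2 ≤ Real.log (y + 1) := by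
    rw [← Real.log_pow]
    exact Real.log_le_log (by positivity) h1
  have h3 : (1 : ℝ) / 2 ≤ Real.log 2 := by
    have := Real.log_two_gt_d9
    linarith
  have h4 : (0 : ℝ) ≤ Nat.log 2 (y + 1) := Nat.cast_nonneg _
  push_cast
  nlinarith

/-- the type II estimate, from the large sieve -/
theorem type_two_of_ls
    (hls : ∀ R T : ℕ, 1 ≤ R → ∀ c : ℕ → ℂ, ∑ s ∈ PR R, ∑ χ ∈ nc s,
      ‖∑ n ∈ Icc 1 T, c n * χ n‖ ^ 2 ≤ (4 * (R : ℝ) ^ 2 + 7 * T) * ∑ n ∈ Icc 1 T, ‖c n‖ ^ 2) :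
    ∃ C : ℝ, 0 < C ∧ ∀ R M K y : ℕ, 1 ≤ R → 1 ≤ M → 1 ≤ K →
      ∀ a b : ℕ → ℂ, (∀ m, ‖a m‖ ≤ 1) → (∀ k, ‖b k‖ ≤ 1) →
      ∑ s ∈ PR R, ∑ χ ∈ nc s, ‖TT a b χ M K y‖ ≤
        C * (1 + Real.log (y + 1)) * Real.sqrt (((M + R ^ 2 : ℕ) : ℝ) * (M : ℝ) *
          (((K + R ^ 2 : ℕ) : ℝ) * (K : ℝ))) := by
  refine ⟨28, by norm_num, fun R M K y hR hM hK a b ha hb => ?_⟩
  set L := Nat.log 2 (y + 1) + 1 with hLdef
  have hL : y + 1 < 2 ^ L := Nat.lt_pow_succ_log_self (by norm_num) (y + 1)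
  have h1 : ∀ χ : ℕ → ℂ, ‖TT a b χ M K y‖ ≤
      ∑ l ∈ range L, ∑ i ∈ range (y + 2), ‖fA a χ M y l i‖ * ‖fB b χ K l i‖ := by
    intro χ
    rw [TT_eq a b χ M K y L hM hL]
    refine (norm_sum_le _ _).trans (sum_le_sum fun l _ => ?_)
    refine (norm_sum_le _ _).trans (sum_le_sum fun i _ => ?_)
    rw [norm_mul]
  have h2 : ∑ s ∈ PR R, ∑ χ ∈ nc s, ‖TT a b χ M K y‖ ≤
      ∑ l ∈ range L, ∑ i ∈ range (y + 2), ∑ s ∈ PR R, ∑ χ ∈ nc s,
        ‖fA a χ M y l i‖ * ‖fB b χ K l i‖ := by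
    refine (sum_le_sum fun s _ => sum_le_sum fun χ _ => h1 χ).trans (le_of_eq ?_)
    have h3 : ∀ s ∈ PR R, ∑ χ ∈ nc s, ∑ l ∈ range L, ∑ i ∈ range (y + 2),
        ‖fA a χ M y l i‖ * ‖fB b χ K l i‖ = ∑ l ∈ range L, ∑ i ∈ range (y + 2), ∑ χ ∈ nc s,
        ‖fA a χ M y l i‖ * ‖fB b χ K l i‖ := by
      intro s _
      rw [sum_comm]
      refine sum_congr rfl fun l _ => ?_
      rw [sum_comm]
    rw [sum_congr rfl h3, sum_comm]
    refine sum_congr rfl fun l _ => ?_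
    rw [sum_comm]
  refine h2.trans ?_
  have hP : ∀ l, ∑ i ∈ range (y + 2), ∑ s ∈ PR R, ∑ χ ∈ nc s, ‖fA a χ M y l i‖ ^ 2 ≤
      (4 * (R : ℝ) ^ 2 + 7 * ((2 * M : ℕ) : ℝ)) * M := by
    intro l
    have h3 := family_bound R (2 * M) (4 * (R : ℝ) ^ 2 + 7 * ((2 * M : ℕ) : ℝ))
      (hls R (2 * M) hR) (by positivity) a ha (Ico M (2 * M)) (by
        intro m hm
        rw [mem_Ico] at hm
        rw [mem_Icc]
        omega) (range (y + 2)) (fun i m => (y / m + 1) / 2 ^ l = i ∧ i % 2 = 1)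
      (fun n i j hi hj => hi.1.symm.trans hj.1)
    have h4 : (Ico M (2 * M)).card = M := by
      rw [Nat.card_Ico]
      omega
    rw [h4] at h3
    exact h3
  have hQ : ∀ l, ∑ i ∈ range (y + 2), ∑ s ∈ PR R, ∑ χ ∈ nc s, ‖fB b χ K l i‖ ^ 2 ≤
      (4 * (R : ℝ) ^ 2 + 7 * ((2 * K : ℕ) : ℝ)) * K := by
    intro l
    have h3 := family_bound R (2 * K) (4 * (R : ℝ) ^ 2 + 7 * ((2 * K : ℕ) : ℝ))
      (hls R (2 * K) hR) (by positivity) b hb (Ico K (2 * K)) (by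
        intro m hm
        rw [mem_Ico] at hm
        rw [mem_Icc]
        omega) (range (y + 2)) (fun i k => k / 2 ^ l + 1 = i)
      (fun n i j hi hj => hi.symm.trans hj)
    have h4 : (Ico K (2 * K)).card = K := by
      rw [Nat.card_Ico]
      omega
    rw [h4] at h3
    exact h3
  have h3 : ∀ l ∈ range L, ∑ i ∈ range (y + 2), ∑ s ∈ PR R, ∑ χ ∈ nc s,
      ‖fA a χ M y l i‖ * ‖fB b χ K l i‖ ≤
      14 * Real.sqrt (((M + R ^ 2 : ℕ) : ℝ) * (M : ℝ) * (((K + R ^ 2 : ℕ) : ℝ) * (K : ℝ))) := by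
    intro l _
    refine (cs3 (PR R) nc (range (y + 2)) (fun i χ => ‖fA a χ M y l i‖)
      (fun i χ => ‖fB b χ K l i‖) _ _ (hP l) (hQ l)).trans ?_
    have h5 : Real.sqrt ((4 * (R : ℝ) ^ 2 + 7 * ((2 * M : ℕ) : ℝ)) * M *
        ((4 * (R : ℝ) ^ 2 + 7 * ((2 * K : ℕ) : ℝ)) * K)) ≤
        Real.sqrt (14 ^ 2 * (((M + R ^ 2 : ℕ) : ℝ) * (M : ℝ) *
          (((K + R ^ 2 : ℕ) : ℝ) * (K : ℝ)))) := by
      apply Real.sqrt_le_sqrt
      push_cast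
      have hM0 : (0 : ℝ) ≤ M := Nat.cast_nonneg _
      have hK0 : (0 : ℝ) ≤ K := Nat.cast_nonneg _
      have hR0 : (0 : ℝ) ≤ (R : ℝ) ^ 2 := by positivity
      have e1 : (4 * (R : ℝ) ^ 2 + 7 * (2 * (M : ℝ))) * M ≤ 14 * (((M : ℝ) + R ^ 2) * M) := by
        nlinarith
      have e2 : (4 * (R : ℝ) ^ 2 + 7 * (2 * (K : ℝ))) * K ≤ 14 * (((K : ℝ) + R ^ 2) * K) := by
        nlinarith
      have e3 : 0 ≤ (4 * (R : ℝ) ^ 2 + 7 * (2 * (K : ℝ))) * K := by positivity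
      have e4 : 0 ≤ 14 * (((M : ℝ) + R ^ 2) * M) := by positivity
      refine (mul_le_mul e1 e2 e3 e4).trans (le_of_eq ?_)
      ring
    refine h5.trans (le_of_eq ?_)
    rw [Real.sqrt_mul (by norm_num), Real.sqrt_sq (by norm_num)]
  refine (sum_le_sum h3).trans ?_
  rw [sum_const, card_range, nsmul_eq_mul]
  have h4 := log_count y
  rw [← hLdef] at h4
  have h5 : 0 ≤ Real.sqrt (((M + R ^ 2 : ℕ) : ℝ) * (M : ℝ) * (((K + R ^ 2 : ℕ) : ℝ) * (K : ℝ))) :=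
    Real.sqrt_nonneg _
  have h6 := mul_le_mul_of_nonneg_right h4 (by positivity : (0 : ℝ) ≤ 14 *
    Real.sqrt (((M + R ^ 2 : ℕ) : ℝ) * (M : ℝ) * (((K + R ^ 2 : ℕ) : ℝ) * (K : ℝ))))
  refine h6.trans (le_of_eq ?_)
  ring

end TypAux

end

end Pool.Agent.M848
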