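import Pool.Agent.Lib.MP_848d44_nt.Defs

set_option autoImplicit false

namespace Pool.Agent.M848

open Finset
open scoped ArithmeticFunction ComplexConjugate

noncomputable section

namespace VauAux

open ArithmeticFunction

/-- The restriction of an arithmetic function to `n ≤ U`. -/
def cut (f : ArithmeticFunction ℝ) (U : ℕ) : ArithmeticFunction ℝ :=
  ⟨fun n => if n ≤ U then f n else 0, by simp⟩

theorem cut_apply (f : ArithmeticFunction ℝ) (U n : ℕ) :
    cut f U n = if n ≤ U then f n else 0 := rfl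

/-- The Moebius function over the reals. -/
def muR : ArithmeticFunction ℝ := (ArithmeticFunction.moebius : ArithmeticFunction ℤ)

theorem sub_app (f h : ArithmeticFunction ℝ) (n : ℕ) : (f - h) n = f n - h n := by
  have e : f = (f - h) + h := by ring
  have e2 : f n = (f - h) n + h n := by
    conv_lhs => rw [e]
    rw [ArithmeticFunction.add_apply]
  rw [e2]
  ring

theorem muR_apply (n : ℕ) : muR n = (ArithmeticFunction.moebius n : ℝ) := rfl

/-- The zeta function over the reals. -/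
def zR : ArithmeticFunction ℝ := (ArithmeticFunction.zeta : ArithmeticFunction ℕ)

theorem zR_apply {n : ℕ} (h : n ≠ 0) : zR n = 1 := by
  simp [zR, ArithmeticFunction.natCoe_apply, ArithmeticFunction.zeta_apply, h]

theorem zR_mul_muR : zR * muR = 1 := ArithmeticFunction.coe_zeta_mul_coe_moebius

/-- Summation of a convolution against a completely multiplicative function. -/
theorem sum_conv (f h : ArithmeticFunction ℝ) (g : ℕ → ℂ) (hg : ∀ m n, g (m * n) = g m * g n)
    (y : ℕ) :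
    ∑ n ∈ Icc 1 y, (((f * h) n : ℝ) : ℂ) * g n =
      ∑ m ∈ Icc 1 y, ∑ k ∈ Icc 1 (y / m), ((f m : ℝ) : ℂ) * ((h k : ℝ) : ℂ) * (g m * g k) := by
  let F : ArithmeticFunction ℂ := ⟨fun n => if n = 0 then 0 else ((f n : ℝ) : ℂ) * g n, by simp⟩
  let H : ArithmeticFunction ℂ := ⟨fun n => if n = 0 then 0 else ((h n : ℝ) : ℂ) * g n, by simp⟩
  have hF : ∀ n, n ≠ 0 → F n = ((f n : ℝ) : ℂ) * g n := fun n hn => if_neg hn
  have hH : ∀ n, n ≠ 0 → H n = ((h n : ℝ) : ℂ) * g n := fun n hn => if_neg hn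
  have key := ArithmeticFunction.sum_Ioc_mul_eq_sum_sum F H y
  have e1 : ∑ n ∈ Ioc 0 y, (F * H) n = ∑ n ∈ Icc 1 y, (((f * h) n : ℝ) : ℂ) * g n := by
    have : Ioc 0 y = Icc 1 y := rfl
    rw [this]
    refine sum_congr rfl fun n hn => ?_
    rw [ArithmeticFunction.mul_apply, ArithmeticFunction.mul_apply]
    push_cast
    rw [sum_mul]
    refine sum_congr rfl fun p hp => ?_
    have hp' := Nat.mem_divisorsAntidiagonal.mp hp
    have h1 : p.1 ≠ 0 := by
      rintro h0
      rw [h0, zero_mul] at hp'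
      exact hp'.2 hp'.1.symm
    have h2 : p.2 ≠ 0 := by
      rintro h0
      rw [h0, mul_zero] at hp'
      exact hp'.2 hp'.1.symm
    rw [hF _ h1, hH _ h2, ← hp'.1, hg]
    ring
  rw [← e1, key]
  have : Ioc 0 y = Icc 1 y := rfl
  rw [this]
  refine sum_congr rfl fun m hm => ?_
  rw [mul_sum]
  have : Ioc 0 (y / m) = Icc 1 (y / m) := rfl
  rw [this]
  refine sum_congr rfl fun k hk => ?_
  have hm0 : m ≠ 0 := by have := (mem_Icc.mp hm).1; omega
  have hk0 : k ≠ 0 := by have := (mem_Icc.mp hk).1; omega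
  rw [hF _ hm0, hH _ hk0]
  ring

theorem vonM_split (U : ℕ) :
    (Λ : ArithmeticFunction ℝ) = cut Λ U + cut muR U * log - cut Λ U * cut muR U * zR
      + (Λ - cut Λ U) * (1 - zR * cut muR U) := by
  have h : (Λ : ArithmeticFunction ℝ) * zR = log := ArithmeticFunction.vonMangoldt_mul_zeta
  rw [← h]
  ring

theorem vc_eq (U k : ℕ) : (cut Λ U * cut muR U) k = vc U k := by
  rw [ArithmeticFunction.mul_apply, vc, sum_filter]
  refine sum_congr rfl fun p _ => ?_
  rw [cut_apply, cut_apply, muR_apply]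
  by_cases h1 : p.1 ≤ U <;> by_cases h2 : p.2 ≤ U <;> simp [h1, h2]

theorem vc_zero (U k : ℕ) (h : U ^ 2 < k) : vc U k = 0 := by
  rw [vc]
  refine sum_eq_zero fun p hp => ?_
  exfalso
  have hp' := mem_filter.mp hp
  have h1 := (Nat.mem_divisorsAntidiagonal.mp hp'.1).1
  have h2 : p.1 * p.2 ≤ U * U := Nat.mul_le_mul hp'.2.1 hp'.2.2
  rw [h1] at h2
  have h3 : U ^ 2 = U * U := pow_two U
  omega

theorem vb_eq (U k : ℕ) : (zR * cut muR U) k = vb U k := by
  have h : (zR * cut muR U) k = ∑ i ∈ k.divisors, cut muR U i :=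
    ArithmeticFunction.coe_zeta_mul_apply
  rw [h, vb, sum_filter]
  refine sum_congr rfl fun p _ => ?_
  rw [cut_apply, muR_apply]

theorem one_sub_eq (U k : ℕ) (hU : 1 ≤ U) :
    (1 - zR * cut muR U) k = if k ≤ U then 0 else - vb U k := by
  have h0 : (1 - zR * cut muR U) k = (1 : ArithmeticFunction ℝ) k - vb U k := by
    rw [sub_app, vb_eq]
  rw [h0]
  by_cases hk : k ≤ U
  · rw [if_pos hk]
    have h1 : vb U k = (zR * muR) k := by
      have h : (zR * muR) k = ∑ i ∈ k.divisors, muR i :=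
        ArithmeticFunction.coe_zeta_mul_apply
      rw [h, vb, sum_filter]
      refine sum_congr rfl fun d hd => ?_
      rw [if_pos ((Nat.divisor_le hd).trans hk), muR_apply]
    rw [h1, zR_mul_muR, sub_self]
  · rw [if_neg hk, ArithmeticFunction.one_apply_ne (by omega), zero_sub]

end VauAux

open VauAux in
/-- VAU. Vaughan's identity, summed against a completely multiplicative function. -/
theorem vaughan (g : ℕ → ℂ) (hg : ∀ m n, g (m * n) = g m * g n) (U y : ℕ) (hU : 1 ≤ U) :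
    SL g y =
      (∑ n ∈ (Icc 1 y).filter (fun n => n ≤ U), ((Λ n : ℝ) : ℂ) * g n)
      + (∑ d ∈ Icc 1 U, (ArithmeticFunction.moebius d : ℂ) * g d *
          ∑ r ∈ Icc 1 (y / d), g r * (Real.log r : ℂ))
      - (∑ k ∈ Icc 1 (U ^ 2), (vc U k : ℂ) * g k * ∑ r ∈ Icc 1 (y / k), g r)
      - (∑ m ∈ Ioc U y, ∑ k ∈ (Ioc U y).filter (fun k => m * k ≤ y),
          ((Λ m : ℝ) : ℂ) * (vb U k : ℂ) * (g m * g k)) := by
  have hsplit : SL g y = ∑ n ∈ Icc 1 y, ((cut Λ U n : ℝ) : ℂ) * g n
      + ∑ n ∈ Icc 1 y, (((cut muR U * ArithmeticFunction.log) n : ℝ) : ℂ) * g n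
      - ∑ n ∈ Icc 1 y, (((cut Λ U * cut muR U * zR) n : ℝ) : ℂ) * g n
      + ∑ n ∈ Icc 1 y, ((((Λ - cut Λ U) * (1 - zR * cut muR U)) n : ℝ) : ℂ) * g n := by
    rw [SL, ← sum_add_distrib, ← sum_sub_distrib, ← sum_add_distrib]
    refine sum_congr rfl fun n _ => ?_
    have h := congrArg (fun f : ArithmeticFunction ℝ => ((f n : ℝ) : ℂ)) (vonM_split U)
    simp only [ArithmeticFunction.add_apply, sub_app] at h
    rw [h]
    push_cast
    ring
  have h1 : ∑ n ∈ Icc 1 y, ((cut Λ U n : ℝ) : ℂ) * g n =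
      ∑ n ∈ (Icc 1 y).filter (fun n => n ≤ U), ((Λ n : ℝ) : ℂ) * g n := by
    rw [sum_filter]
    refine sum_congr rfl fun n _ => ?_
    rw [cut_apply]
    split_ifs <;> simp
  have hrange : ∀ (V : ℕ) (G : ℕ → ℂ), (∀ d, V < d → G d = 0) → (∀ d, y < d → G d = 0) →
      ∑ d ∈ Icc 1 y, G d = ∑ d ∈ Icc 1 V, G d := by
    intro V G hV hy
    have e1 : ∑ d ∈ Icc 1 y, G d = ∑ d ∈ Icc 1 (max V y), G d := by
      refine sum_subset (Icc_subset_Icc_right (le_max_right _ _)) fun d hd hd' => hy d ?_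
      have a := mem_Icc.mp hd
      by_contra hlt
      exact hd' (mem_Icc.mpr ⟨a.1, by omega⟩)
    have e2 : ∑ d ∈ Icc 1 V, G d = ∑ d ∈ Icc 1 (max V y), G d := by
      refine sum_subset (Icc_subset_Icc_right (le_max_left _ _)) fun d hd hd' => hV d ?_
      have a := mem_Icc.mp hd
      by_contra hlt
      exact hd' (mem_Icc.mpr ⟨a.1, by omega⟩)
    rw [e1, e2]
  have h2 : ∑ n ∈ Icc 1 y, (((cut muR U * ArithmeticFunction.log) n : ℝ) : ℂ) * g n =
      ∑ d ∈ Icc 1 U, (ArithmeticFunction.moebius d : ℂ) * g d *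
          ∑ r ∈ Icc 1 (y / d), g r * (Real.log r : ℂ) := by
    rw [sum_conv _ _ g hg]
    rw [hrange U (fun m => ∑ k ∈ Icc 1 (y / m), ((cut muR U m : ℝ) : ℂ) *
      ((ArithmeticFunction.log k : ℝ) : ℂ) * (g m * g k))]
    · refine sum_congr rfl fun d hd => ?_
      rw [mul_sum]
      refine sum_congr rfl fun k _ => ?_
      rw [cut_apply, if_pos (mem_Icc.mp hd).2, muR_apply, ArithmeticFunction.log_apply]
      push_cast
      ring
    · intro d hd
      refine sum_eq_zero fun k _ => ?_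
      rw [cut_apply, if_neg (by omega)]
      simp
    · intro d hd
      rw [Nat.div_eq_of_lt hd]
      simp
  have h3 : ∑ n ∈ Icc 1 y, (((cut Λ U * cut muR U * zR) n : ℝ) : ℂ) * g n =
      ∑ k ∈ Icc 1 (U ^ 2), (vc U k : ℂ) * g k * ∑ r ∈ Icc 1 (y / k), g r := by
    rw [sum_conv _ _ g hg]
    rw [hrange (U ^ 2) (fun m => ∑ k ∈ Icc 1 (y / m), (((cut Λ U * cut muR U) m : ℝ) : ℂ) *
      ((zR k : ℝ) : ℂ) * (g m * g k))]
    · refine sum_congr rfl fun d hd => ?_
      rw [mul_sum]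
      refine sum_congr rfl fun k hk => ?_
      rw [vc_eq, zR_apply (by have := (mem_Icc.mp hk).1; omega)]
      push_cast
      ring
    · intro d hd
      refine sum_eq_zero fun k _ => ?_
      rw [vc_eq, vc_zero _ _ hd]
      simp
    · intro d hd
      rw [Nat.div_eq_of_lt hd]
      simp
  have h4 : ∑ n ∈ Icc 1 y, ((((Λ - cut Λ U) * (1 - zR * cut muR U)) n : ℝ) : ℂ) * g n =
      - ∑ m ∈ Ioc U y, ∑ k ∈ (Ioc U y).filter (fun k => m * k ≤ y),
          ((Λ m : ℝ) : ℂ) * (vb U k : ℂ) * (g m * g k) := by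
    rw [sum_conv _ _ g hg, ← sum_neg_distrib]
    symm
    refine sum_subset_zero_on_sdiff ?_ ?_ ?_
    · intro m hm
      have := mem_Ioc.mp hm
      exact mem_Icc.mpr ⟨by omega, this.2⟩
    · intro m hm
      have hm' := mem_sdiff.mp hm
      have hmU : m ≤ U := by
        by_contra hlt
        exact hm'.2 (mem_Ioc.mpr ⟨by omega, (mem_Icc.mp hm'.1).2⟩)
      refine sum_eq_zero fun k _ => ?_
      rw [sub_app, cut_apply, if_pos hmU]
      simp
    · intro m hm
      have hm' := mem_Ioc.mp hm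
      have hm0 : 0 < m := by omega
      rw [← sum_neg_distrib]
      refine sum_subset_zero_on_sdiff ?_ ?_ ?_
      · intro k hk
        have hk' := mem_filter.mp hk
        have hk2 := mem_Ioc.mp hk'.1
        refine mem_Icc.mpr ⟨by omega, ?_⟩
        rw [Nat.le_div_iff_mul_le hm0, mul_comm]
        exact hk'.2
      · intro k hk
        have hk' := mem_sdiff.mp hk
        have hk2 := mem_Icc.mp hk'.1
        have hk3 : m * k ≤ y := by
          have := (Nat.le_div_iff_mul_le hm0).mp hk2.2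
          rwa [mul_comm]
        have hky : k ≤ y := le_trans (Nat.le_mul_of_pos_left k hm0) hk3
        have hkU : k ≤ U := by
          by_contra hlt
          exact hk'.2 (mem_filter.mpr ⟨mem_Ioc.mpr ⟨by omega, hky⟩, hk3⟩)
        rw [one_sub_eq U k hU, if_pos hkU]
        simp
      · intro k hk
        have hk' := mem_filter.mp hk
        have hk2 := mem_Ioc.mp hk'.1
        rw [one_sub_eq U k hU, if_neg (by omega), sub_app, cut_apply,
          if_neg (by omega)]
        push_cast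
        ring
  rw [hsplit, h1, h2, h3, h4]
  ring

theorem vc_bound (U k : ℕ) (hk : 1 ≤ k) : |vc U k| ≤ Real.log k := by
  rw [vc]
  refine (abs_sum_le_sum_abs _ _).trans ?_
  have h1 : ∑ p ∈ k.divisorsAntidiagonal.filter (fun p => p.1 ≤ U ∧ p.2 ≤ U),
      |(Λ p.1 : ℝ) * (ArithmeticFunction.moebius p.2 : ℝ)| ≤
      ∑ p ∈ k.divisorsAntidiagonal, (Λ p.1 : ℝ) := by
    refine (sum_le_sum_of_subset_of_nonneg (filter_subset _ _) fun _ _ _ => abs_nonneg _).trans ?_
    refine sum_le_sum fun p _ => ?_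
    rw [abs_mul, abs_of_nonneg ArithmeticFunction.vonMangoldt_nonneg]
    refine mul_le_of_le_one_right ArithmeticFunction.vonMangoldt_nonneg ?_
    exact_mod_cast ArithmeticFunction.abs_moebius_le_one
  refine h1.trans (le_of_eq ?_)
  rw [Nat.sum_divisorsAntidiagonal (fun i _ => (Λ i : ℝ)), ArithmeticFunction.vonMangoldt_sum]

theorem vb_bound (U k : ℕ) : |vb U k| ≤ k.divisors.card := by
  rw [vb]
  refine (abs_sum_le_sum_abs _ _).trans ?_
  have h1 : ∑ d ∈ k.divisors.filter (fun d => d ≤ U), |(ArithmeticFunction.moebius d : ℝ)| ≤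
      ∑ d ∈ k.divisors, (1 : ℝ) := by
    refine (sum_le_sum_of_subset_of_nonneg (filter_subset _ _) fun _ _ _ => abs_nonneg _).trans ?_
    refine sum_le_sum fun p _ => ?_
    exact_mod_cast ArithmeticFunction.abs_moebius_le_one
  refine h1.trans (le_of_eq ?_)
  simp

end

end Pool.Agent.M848
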